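import Pool.Agent.Lib.MP_ca3eb1_co.C4.ConfigPat
import Pool.Agent.Lib.MP_ca3eb1_co.C3

/-! # Row 54: two matroids which are not representable over the field with four elements -/

set_option linter.unusedSectionVars false

namespace Ca3.C4

open Finset Submodule

variable {K V E : Type*} [Field K] [Fintype K] [AddCommGroup V] [Module K V]
  [FiniteDimensional K V] [Fintype E] [DecidableEq E] {v : E → V}

/-- A line over `GF(4)` does not have six points. -/
theorem nop6_six (hK : Fintype.card K = 4) (u : Fin 6 → V) (L : Submodule K V)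
    (hL : Module.finrank K L ≤ 2) (hu : ∀ i, u i ∈ L)
    (h : ∀ i j, i < j → ∀ c d : K, c • u i + d • u j = 0 → c = 0 ∧ d = 0) : False := by
  have key : ∀ i j, i ≠ j → ∀ c d : K, c • u i + d • u j = 0 → c = 0 ∧ d = 0 := by
    intro i j hij c d hcd
    rcases lt_or_gt_of_ne hij with h1 | h1
    · exact h i j h1 c d hcd
    · exact (h j i h1 d c (by rw [add_comm]; exact hcd)).symm
  have hs : Simple K u := by
    constructor
    · intro e he
      obtain ⟨f, hf⟩ : ∃ f : Fin 6, e ≠ f := by
        by_cases h0 : e = 0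
        · exact ⟨1, by rw [h0]; decide⟩
        · exact ⟨0, h0⟩
      have := (key e f hf 1 0 (by rw [he]; simp)).1
      exact one_ne_zero this
    · intro e f hef
      by_contra hne
      obtain ⟨c, hc⟩ := mem_span_singleton.1 hef
      have := (key e f hne 1 (-c) (by rw [← hc]; simp)).1
      exact one_ne_zero this
  have hr : rk K u univ ≤ 2 := by
    refine le_trans (Submodule.finrank_mono ?_) hL
    exact sp_le_iff.2 fun e _ => hu e
  have := line_card_le hK hs hr
  simp at this

/-- linear independence of the vectors of an independent triple -/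
theorem nop6_ind3 {x0 x1 x2 : E} (h : Iv3 K v x0 x1 x2) :
    ∀ c0 c1 c2 : K, c0 • v x0 + c1 • v x1 + c2 • v x2 = 0 → c0 = 0 ∧ c1 = 0 ∧ c2 = 0 := by
  obtain ⟨hi, h01, h02, h12⟩ := h
  have hc : ({x0, x1, x2} : Finset E).card = 3 := card_eq_three.2 ⟨_, _, _, h01, h02, h12, rfl⟩
  have hli : LinearIndependent K ![v x0, v x1, v x2] := by
    rw [linearIndependent_iff_card_eq_finrank_span]
    unfold Ind rk sp at hi
    rw [hc] at hi
    have hr : v '' (({x0, x1, x2} : Finset E) : Set E) = Set.range ![v x0, v x1, v x2] := by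
      ext z
      constructor
      · rintro ⟨w, hw, rfl⟩
        simp only [coe_insert, coe_singleton, Set.mem_insert_iff, Set.mem_singleton_iff] at hw
        rcases hw with rfl | rfl | rfl
        exacts [⟨0, rfl⟩, ⟨1, rfl⟩, ⟨2, rfl⟩]
      · rintro ⟨i, rfl⟩
        fin_cases i
        exacts [⟨x0, by simp, rfl⟩, ⟨x1, by simp, rfl⟩, ⟨x2, by simp, rfl⟩]
    rw [hr] at hi
    exact hi.symm
  intro c0 c1 c2 h0
  have := Fintype.linearIndependent_iff.1 hli ![c0, c1, c2] (by simpa [Fin.sum_univ_three] using h0)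
  exact ⟨this 0, this 1, this 2⟩

/-- linear independence of the vectors of an independent quadruple -/
theorem nop6_ind4 {x0 x1 x2 x3 : E} (hi : Ind K v {x0, x1, x2, x3})
    (hc : ({x0, x1, x2, x3} : Finset E).card = 4) :
    ∀ c0 c1 c2 c3 : K, c0 • v x0 + c1 • v x1 + c2 • v x2 + c3 • v x3 = 0 →
      c0 = 0 ∧ c1 = 0 ∧ c2 = 0 ∧ c3 = 0 := by
  have hli : LinearIndependent K ![v x0, v x1, v x2, v x3] := by
    rw [linearIndependent_iff_card_eq_finrank_span]
    unfold Ind rk sp at hi
    rw [hc] at hi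
    have hr : v '' (({x0, x1, x2, x3} : Finset E) : Set E) =
        Set.range ![v x0, v x1, v x2, v x3] := by
      ext z
      constructor
      · rintro ⟨w, hw, rfl⟩
        simp only [coe_insert, coe_singleton, Set.mem_insert_iff, Set.mem_singleton_iff] at hw
        rcases hw with rfl | rfl | rfl | rfl
        exacts [⟨0, rfl⟩, ⟨1, rfl⟩, ⟨2, rfl⟩, ⟨3, rfl⟩]
      · rintro ⟨i, rfl⟩
        fin_cases i
        exacts [⟨x0, by simp, rfl⟩, ⟨x1, by simp, rfl⟩, ⟨x2, by simp, rfl⟩, ⟨x3, by simp, rfl⟩]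
    rw [hr] at hi
    exact hi.symm
  intro c0 c1 c2 c3 h0
  have := Fintype.linearIndependent_iff.1 hli ![c0, c1, c2, c3]
    (by simpa [Fin.sum_univ_four] using h0)
  exact ⟨this 0, this 1, this 2, this 3⟩

/-- coordinates with respect to three elements -/
theorem nop6_mem3 {x0 x1 x2 : E} {w : V} (h : w ∈ sp K v {x0, x1, x2}) :
    ∃ c0 c1 c2 : K, w = c0 • v x0 + c1 • v x1 + c2 • v x2 := by
  unfold sp at h
  simp only [coe_insert, coe_singleton, Set.image_insert_eq, Set.image_singleton,
    mem_span_insert, mem_span_singleton] at h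
  obtain ⟨a, _, ⟨b, _, ⟨c, rfl⟩, rfl⟩, rfl⟩ := h
  exact ⟨a, b, c, by rw [add_assoc]⟩

/-- coordinates with respect to four elements -/
theorem nop6_mem4 {x0 x1 x2 x3 : E} {w : V} (h : w ∈ sp K v {x0, x1, x2, x3}) :
    ∃ c0 c1 c2 c3 : K, w = c0 • v x0 + c1 • v x1 + c2 • v x2 + c3 • v x3 := by
  unfold sp at h
  simp only [coe_insert, coe_singleton, Set.image_insert_eq, Set.image_singleton,
    mem_span_insert, mem_span_singleton] at h
  obtain ⟨a, _, ⟨b, _, ⟨c, _, ⟨d, rfl⟩, rfl⟩, rfl⟩, rfl⟩ := h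
  exact ⟨a, b, c, d, by rw [add_assoc, add_assoc]⟩

theorem nop6_sp_univ {X : Finset E} (hi : Ind K v X) (h : rk K v univ ≤ X.card) (e : E) :
    v e ∈ sp K v X := by
  have h1 : sp K v X = sp K v univ := sp_eq_of_subset_of_rk_le (subset_univ _) (by rw [hi]; exact h)
  rw [h1]
  exact mem_sp (mem_univ e)

/-- Pattern 1 (the matroid `P₆`: six points, exactly one line with three points). -/
theorem no_P6 (hK : Fintype.card K = 4) (h3 : rk K v univ ≤ 3) {y : ℕ → E}
    (h : ∀ s ∈ patT 1, (Iv3 K v (y s.1) (y s.2.1) (y s.2.2.1) ↔ s.2.2.2 = 0)) : False := by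
  have hi : ∀ i j k : ℕ, (i, j, k, 0) ∈ patT 1 → Iv3 K v (y i) (y j) (y k) :=
    fun i j k hm => (h _ hm).2 rfl
  have h014 := hi 0 1 4 (by decide)
  have h015 := hi 0 1 5 (by decide)
  have h145 := hi 1 4 5 (by decide)
  have h012 := hi 0 1 2 (by decide)
  have h013 := hi 0 1 3 (by decide)
  have h023 := hi 0 2 3 (by decide)
  have h123 := hi 1 2 3 (by decide)
  have h124 := hi 1 2 4 (by decide)
  have h125 := hi 1 2 5 (by decide)
  have h134 := hi 1 3 4 (by decide)
  have h135 := hi 1 3 5 (by decide)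
  have h234 := hi 2 3 4 (by decide)
  have h235 := hi 2 3 5 (by decide)
  have h024 := hi 0 2 4 (by decide)
  have h034 := hi 0 3 4 (by decide)
  have hn : ¬ Iv3 K v (y 0) (y 4) (y 5) := fun hh => by
    have := (h (0, 4, 5, 1) (by decide)).1 hh
    exact absurd this (by decide)
  have hc3 : ∀ {a b c : E}, Iv3 K v a b c → ({a, b, c} : Finset E).card = 3 := fun hh =>
    card_eq_three.2 ⟨_, _, _, hh.2.1, hh.2.2.1, hh.2.2.2, rfl⟩
  -- `5` is on the line `04`
  have h5 : ∃ p q : K, v (y 5) = p • v (y 0) + q • v (y 4) := by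
    have h1 : ¬ Ind K v {y 0, y 4, y 5} := fun hh =>
      hn ⟨hh, h014.2.2.1, h015.2.2.1, h145.2.2.2⟩
    have h2 : v (y 5) ∈ sp K v {y 0, y 4} := by
      by_contra hc
      apply h1
      have h04 : Ind K v {y 0, y 4} := h014.1.subset (by
        intro z hz; simp only [mem_insert, mem_singleton] at hz ⊢; tauto)
      have h3 := h04.insert hc
      have h4 : (insert (y 5) {y 0, y 4} : Finset E) = {y 0, y 4, y 5} := by
        ext z; simp only [mem_insert, mem_singleton]; tauto
      rwa [h4] at h3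
    unfold sp at h2
    simp only [coe_insert, coe_singleton, Set.image_insert_eq, Set.image_singleton,
      mem_span_insert, mem_span_singleton] at h2
    obtain ⟨a, _, ⟨b, rfl⟩, h⟩ := h2
    exact ⟨a, b, h⟩
  obtain ⟨p, q, h5⟩ := h5
  have h014' : ∀ e, v e ∈ sp K v {y 0, y 1, y 4} := nop6_sp_univ h014.1 (by rw [hc3 h014]; exact h3)
  obtain ⟨a0, a1, a4, ha⟩ := nop6_mem3 (h014' (y 2))
  obtain ⟨b0, b1, b4, hb⟩ := nop6_mem3 (h014' (y 3))
  have ha1 : a1 ≠ 0 := by
    rintro rfl
    have := nop6_ind3 h024 (-a0) 1 (-a4) (by rw [ha]; module)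
    exact one_ne_zero this.2.1
  have hb1 : b1 ≠ 0 := by
    rintro rfl
    have := nop6_ind3 h034 (-b0) 1 (-b4) (by rw [hb]; module)
    exact one_ne_zero this.2.1
  have I014 := nop6_ind3 h014
  have I015 := nop6_ind3 h015
  have I145 := nop6_ind3 h145
  have I012 := nop6_ind3 h012
  have I013 := nop6_ind3 h013
  have I023 := nop6_ind3 h023
  have I123 := nop6_ind3 h123
  have I124 := nop6_ind3 h124
  have I125 := nop6_ind3 h125
  have I134 := nop6_ind3 h134
  have I135 := nop6_ind3 h135
  have I234 := nop6_ind3 h234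
  have I235 := nop6_ind3 h235
  set v0 := v (y 0)
  set v1 := v (y 1)
  set v2 := v (y 2)
  set v3 := v (y 3)
  set v4 := v (y 4)
  set v5 := v (y 5)
  let L : Submodule K V := span K {v0, v4}
  have hL : Module.finrank K L ≤ 2 := by
    classical
    have := finrank_span_finset_le_card (R := K) ({v0, v4} : Finset V)
    rw [coe_insert, coe_singleton] at this
    exact this.trans card_le_two
  have hm0 : v0 ∈ L := subset_span (by simp)
  have hm4 : v4 ∈ L := subset_span (by simp)
  have hm : ∀ s t : K, s • v0 + t • v4 ∈ L := fun s t =>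
    add_mem (smul_mem _ _ hm0) (smul_mem _ _ hm4)
  refine nop6_six hK ![v0, v4, v5, v2 - a1 • v1, v3 - b1 • v1, b1 • v2 - a1 • v3] L hL ?_ ?_
  · intro i
    fin_cases i
    · exact hm0
    · exact hm4
    · show v5 ∈ L
      rw [h5]; exact hm p q
    · show v2 - a1 • v1 ∈ L
      have : v2 - a1 • v1 = a0 • v0 + a4 • v4 := by rw [ha]; module
      rw [this]; exact hm _ _
    · show v3 - b1 • v1 ∈ L
      have : v3 - b1 • v1 = b0 • v0 + b4 • v4 := by rw [hb]; module
      rw [this]; exact hm _ _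
    · show b1 • v2 - a1 • v3 ∈ L
      have : b1 • v2 - a1 • v3 = (b1 * a0 - a1 * b0) • v0 + (b1 * a4 - a1 * b4) • v4 := by
        rw [ha, hb]; module
      rw [this]; exact hm _ _
  · intro i j hij c d hcd
    fin_cases i <;> fin_cases j <;> first | exact absurd hij (by decide) | skip
    · -- 0, 4
      have hcd : c • v0 + d • v4 = 0 := hcd
      have := I014 c 0 d (by rw [← hcd]; module)
      exact ⟨this.1, this.2.2⟩
    · have hcd : c • v0 + d • v5 = 0 := hcd
      have := I015 c 0 d (by rw [← hcd]; module)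
      exact ⟨this.1, this.2.2⟩
    · have hcd : c • v0 + d • (v2 - a1 • v1) = 0 := hcd
      have := I012 c (-(d * a1)) d (by rw [← hcd]; module)
      exact ⟨this.1, this.2.2⟩
    · have hcd : c • v0 + d • (v3 - b1 • v1) = 0 := hcd
      have := I013 c (-(d * b1)) d (by rw [← hcd]; module)
      exact ⟨this.1, this.2.2⟩
    · have hcd : c • v0 + d • (b1 • v2 - a1 • v3) = 0 := hcd
      have := I023 c (d * b1) (-(d * a1)) (by rw [← hcd]; module)
      exact ⟨this.1, (mul_eq_zero.1 this.2.1).resolve_right hb1⟩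
    · have hcd : c • v4 + d • v5 = 0 := hcd
      have := I145 0 c d (by rw [← hcd]; module)
      exact this.2
    · have hcd : c • v4 + d • (v2 - a1 • v1) = 0 := hcd
      have := I124 (-(d * a1)) d c (by rw [← hcd]; module)
      exact ⟨this.2.2, this.2.1⟩
    · have hcd : c • v4 + d • (v3 - b1 • v1) = 0 := hcd
      have := I134 (-(d * b1)) d c (by rw [← hcd]; module)
      exact ⟨this.2.2, this.2.1⟩
    · have hcd : c • v4 + d • (b1 • v2 - a1 • v3) = 0 := hcd
      have := I234 (d * b1) (-(d * a1)) c (by rw [← hcd]; module)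
      exact ⟨this.2.2, (mul_eq_zero.1 this.1).resolve_right hb1⟩
    · have hcd : c • v5 + d • (v2 - a1 • v1) = 0 := hcd
      have := I125 (-(d * a1)) d c (by rw [← hcd]; module)
      exact ⟨this.2.2, this.2.1⟩
    · have hcd : c • v5 + d • (v3 - b1 • v1) = 0 := hcd
      have := I135 (-(d * b1)) d c (by rw [← hcd]; module)
      exact ⟨this.2.2, this.2.1⟩
    · have hcd : c • v5 + d • (b1 • v2 - a1 • v3) = 0 := hcd
      have := I235 (d * b1) (-(d * a1)) c (by rw [← hcd]; module)
      exact ⟨this.2.2, (mul_eq_zero.1 this.1).resolve_right hb1⟩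
    · have hcd : c • (v2 - a1 • v1) + d • (v3 - b1 • v1) = 0 := hcd
      have := I123 (-(c * a1) - d * b1) c d (by rw [← hcd]; module)
      exact this.2
    · have hcd : c • (v2 - a1 • v1) + d • (b1 • v2 - a1 • v3) = 0 := hcd
      have := I123 (-(c * a1)) (c + d * b1) (-(d * a1)) (by rw [← hcd]; module)
      exact ⟨(mul_eq_zero.1 (neg_eq_zero.1 this.1)).resolve_right ha1,
        (mul_eq_zero.1 (neg_eq_zero.1 this.2.2)).resolve_right ha1⟩
    · have hcd : c • (v3 - b1 • v1) + d • (b1 • v2 - a1 • v3) = 0 := hcd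
      have := I123 (-(c * b1)) (d * b1) (c - d * a1) (by rw [← hcd]; module)
      exact ⟨(mul_eq_zero.1 (neg_eq_zero.1 this.1)).resolve_right hb1,
        (mul_eq_zero.1 this.2.1).resolve_right hb1⟩

/-- `U₄,₆` is not quaternary. -/
theorem no_U46 (hK : Fintype.card K = 4) (h4 : rk K v univ ≤ 4) {y : ℕ → E}
    (h : ∀ i j k m, i < j → j < k → k < m → m < 6 →
      Ind K v {y i, y j, y k, y m} ∧ ({y i, y j, y k, y m} : Finset E).card = 4) : False := by
  have hb := h 0 1 2 3 (by decide) (by decide) (by decide) (by decide)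
  have hspan : ∀ e, v e ∈ sp K v {y 0, y 1, y 2, y 3} := nop6_sp_univ hb.1 (by rw [hb.2]; exact h4)
  obtain ⟨a0, a1, a2, a3, ha⟩ := nop6_mem4 (hspan (y 4))
  obtain ⟨b0, b1, b2, b3, hb'⟩ := nop6_mem4 (hspan (y 5))
  have I : ∀ i j k m, i < j → j < k → k < m → m < 6 → ∀ c0 c1 c2 c3 : K,
      c0 • v (y i) + c1 • v (y j) + c2 • v (y k) + c3 • v (y m) = 0 →
      c0 = 0 ∧ c1 = 0 ∧ c2 = 0 ∧ c3 = 0 := fun i j k m h1 h2 h3 h5 =>
    nop6_ind4 (h i j k m h1 h2 h3 h5).1 (h i j k m h1 h2 h3 h5).2
  have I0124 := I 0 1 2 4 (by decide) (by decide) (by decide) (by decide)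
  have I0134 := I 0 1 3 4 (by decide) (by decide) (by decide) (by decide)
  have I0234 := I 0 2 3 4 (by decide) (by decide) (by decide) (by decide)
  have I1234 := I 1 2 3 4 (by decide) (by decide) (by decide) (by decide)
  have I0125 := I 0 1 2 5 (by decide) (by decide) (by decide) (by decide)
  have I0135 := I 0 1 3 5 (by decide) (by decide) (by decide) (by decide)
  have I0235 := I 0 2 3 5 (by decide) (by decide) (by decide) (by decide)
  have I1235 := I 1 2 3 5 (by decide) (by decide) (by decide) (by decide)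
  have I0145 := I 0 1 4 5 (by decide) (by decide) (by decide) (by decide)
  have I0245 := I 0 2 4 5 (by decide) (by decide) (by decide) (by decide)
  have I0345 := I 0 3 4 5 (by decide) (by decide) (by decide) (by decide)
  have I1245 := I 1 2 4 5 (by decide) (by decide) (by decide) (by decide)
  have I1345 := I 1 3 4 5 (by decide) (by decide) (by decide) (by decide)
  have I2345 := I 2 3 4 5 (by decide) (by decide) (by decide) (by decide)
  set v0 := v (y 0)
  set v1 := v (y 1)
  set v2 := v (y 2)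
  set v3 := v (y 3)
  set v4 := v (y 4)
  set v5 := v (y 5)
  have ha0 : a0 ≠ 0 := by
    rintro rfl
    exact one_ne_zero (I1234 (-a1) (-a2) (-a3) 1 (by rw [ha]; module)).2.2.2
  have ha1 : a1 ≠ 0 := by
    rintro rfl
    exact one_ne_zero (I0234 (-a0) (-a2) (-a3) 1 (by rw [ha]; module)).2.2.2
  have ha2 : a2 ≠ 0 := by
    rintro rfl
    exact one_ne_zero (I0134 (-a0) (-a1) (-a3) 1 (by rw [ha]; module)).2.2.2
  have ha3 : a3 ≠ 0 := by
    rintro rfl
    exact one_ne_zero (I0124 (-a0) (-a1) (-a2) 1 (by rw [ha]; module)).2.2.2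
  have hb0 : b0 ≠ 0 := by
    rintro rfl
    exact one_ne_zero (I1235 (-b1) (-b2) (-b3) 1 (by rw [hb']; module)).2.2.2
  have hb1 : b1 ≠ 0 := by
    rintro rfl
    exact one_ne_zero (I0235 (-b0) (-b2) (-b3) 1 (by rw [hb']; module)).2.2.2
  have hb2 : b2 ≠ 0 := by
    rintro rfl
    exact one_ne_zero (I0135 (-b0) (-b1) (-b3) 1 (by rw [hb']; module)).2.2.2
  have hb3 : b3 ≠ 0 := by
    rintro rfl
    exact one_ne_zero (I0125 (-b0) (-b1) (-b2) 1 (by rw [hb']; module)).2.2.2
  have h01 : a0 * b1 ≠ a1 * b0 := by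
    intro he
    have := (I2345 (a2 * b0 - a0 * b2) (a3 * b0 - a0 * b3) (-b0) a0 (by
      rw [ha, hb']
      have : (a0 * b1 - a1 * b0) • v1 = 0 := by rw [he, sub_self, zero_smul]
      rw [← this]
      module)).2.2.2
    exact ha0 this
  have h02 : a0 * b2 ≠ a2 * b0 := by
    intro he
    have := (I1345 (a1 * b0 - a0 * b1) (a3 * b0 - a0 * b3) (-b0) a0 (by
      rw [ha, hb']
      have : (a0 * b2 - a2 * b0) • v2 = 0 := by rw [he, sub_self, zero_smul]
      rw [← this]
      module)).2.2.2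
    exact ha0 this
  have h03 : a0 * b3 ≠ a3 * b0 := by
    intro he
    have := (I1245 (a1 * b0 - a0 * b1) (a2 * b0 - a0 * b2) (-b0) a0 (by
      rw [ha, hb']
      have : (a0 * b3 - a3 * b0) • v3 = 0 := by rw [he, sub_self, zero_smul]
      rw [← this]
      module)).2.2.2
    exact ha0 this
  have h12 : a1 * b2 ≠ a2 * b1 := by
    intro he
    have := (I0345 (a0 * b1 - a1 * b0) (a3 * b1 - a1 * b3) (-b1) a1 (by
      rw [ha, hb']
      have : (a1 * b2 - a2 * b1) • v2 = 0 := by rw [he, sub_self, zero_smul]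
      rw [← this]
      module)).2.2.2
    exact ha1 this
  have h13 : a1 * b3 ≠ a3 * b1 := by
    intro he
    have := (I0245 (a0 * b1 - a1 * b0) (a2 * b1 - a1 * b2) (-b1) a1 (by
      rw [ha, hb']
      have : (a1 * b3 - a3 * b1) • v3 = 0 := by rw [he, sub_self, zero_smul]
      rw [← this]
      module)).2.2.2
    exact ha1 this
  have h23 : a2 * b3 ≠ a3 * b2 := by
    intro he
    have := (I0145 (a0 * b2 - a2 * b0) (a1 * b2 - a2 * b1) (-b2) a2 (by
      rw [ha, hb']
      have : (a2 * b3 - a3 * b2) • v3 = 0 := by rw [he, sub_self, zero_smul]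
      rw [← this]
      module)).2.2.2
    exact ha2 this
  have hd : ∀ {a b a' b' : K}, a ≠ 0 → a' ≠ 0 → a * b' ≠ a' * b → b / a ≠ b' / a' := by
    intro a b a' b' h1 h2 h3 h4
    rw [div_eq_div_iff h1 h2] at h4
    exact h3 (by rw [mul_comm a b', mul_comm a' b]; exact h4.symm)
  classical
  have hcard : ({0, b0 / a0, b1 / a1, b2 / a2, b3 / a3} : Finset K).card = 5 := by
    have z : ∀ {a b : K}, a ≠ 0 → b ≠ 0 → (0 : K) ≠ b / a := fun h1 h2 => (div_ne_zero h2 h1).symm
    have e0 := z ha0 hb0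
    have e1 := z ha1 hb1
    have e2 := z ha2 hb2
    have e3 := z ha3 hb3
    have f01 := hd ha0 ha1 h01
    have f02 := hd ha0 ha2 h02
    have f03 := hd ha0 ha3 h03
    have f12 := hd ha1 ha2 h12
    have f13 := hd ha1 ha3 h13
    have f23 := hd ha2 ha3 h23
    rw [card_insert_of_notMem (by
      simp only [mem_insert, mem_singleton, not_or]; exact ⟨e0, e1, e2, e3⟩),
      card_insert_of_notMem (by
      simp only [mem_insert, mem_singleton, not_or]; exact ⟨f01, f02, f03⟩),
      card_insert_of_notMem (by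
      simp only [mem_insert, mem_singleton, not_or]; exact ⟨f12, f13⟩),
      card_insert_of_notMem (by
      simp only [mem_singleton]; exact f23), card_singleton]
  have := card_le_univ ({0, b0 / a0, b1 / a1, b2 / a2, b3 / a3} : Finset K)
  rw [hcard, hK] at this
  omega

end Ca3.C4
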