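import Pool.Agent.Lib.MP_ca3eb1_co.C4.CodeFlats
import Pool.Agent.Lib.MP_ca3eb1_co.C4.NoP6
import Pool.Agent.Lib.MP_ca3eb1_co.HasTrans

/-! # Row 65: codes of rank four outside the class -/

set_option linter.unusedSectionVars false

namespace Ca3.C4.CF

open Finset

/-! ### Sums over lists -/

theorem foldl_cond (b : ℕ → Bool) (f : ℕ → ℕ) (L : List ℕ) (s : ℕ) :
    L.foldl (fun s l => bif b l then s + f l else s) s = s + ((L.filter b).map f).sum := by
  induction L generalizing s with
  | nil => simp
  | cons a L ih =>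
    rw [List.foldl_cons, ih]
    cases h : b a
    · rw [List.filter_cons_of_neg (by simp [h])]
      rfl
    · rw [List.filter_cons_of_pos h, List.map_cons, List.sum_cons]
      simp only [cond_true]
      omega

theorem foldl_cond_sum {b : ℕ → Bool} {f : ℕ → ℕ} {L : List ℕ} (hL : L.Nodup) :
    L.foldl (fun s l => bif b l then s + f l else s) 0 =
      ∑ l ∈ L.toFinset.filter (fun l => b l = true), f l := by
  rw [foldl_cond, zero_add, ← List.sum_toFinset f (hL.filter b), List.toFinset_filter]

section alpha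

variable {K V E : Type*} [Field K] [AddCommGroup V] [Module K V] [FiniteDimensional K V]
  [Fintype E] [DecidableEq E] {w : E → V} {lab : E → ℕ} {c : Code} {X F : Finset E} {l p Z : ℕ}

theorem alpha_ind (hX : Ind K w X) : alpha K w X = 0 := by
  classical
  induction hn : X.card using Nat.strong_induction_on generalizing X with
  | _ n ih =>
    subst hn
    rw [alpha_eq, hX.rk_eq_card, sub_self, zero_sub, neg_eq_zero]
    apply sum_eq_zero
    intro G hG
    rw [mem_filter, mem_powerset] at hG
    exact ih G.card (card_lt_card (Finset.ssubset_iff_subset_ne.2 ⟨hG.1, hG.2.2⟩))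
      (hX.subset hG.1) rfl

theorem alpha_rank_two (hw : Simple K w) (hr : rk K w F = 2) :
    alpha K w F = (F.card : ℤ) - 2 := by
  classical
  rw [alpha_eq, hr]
  have h1 : ∑ G ∈ F.powerset.filter (fun G => IsFl K w G ∧ G ≠ F), alpha K w G = 0 := by
    apply sum_eq_zero
    intro G hG
    rw [mem_filter, mem_powerset] at hG
    apply alpha_ind
    apply hw.ind_of_card_le_two
    have h2 := hG.2.1.rk_lt_of_ssubset (Finset.ssubset_iff_subset_ne.2 ⟨hG.1, hG.2.2⟩)
    have h3 := hw.card_le_one (X := G) (by omega)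
    omega
  rw [h1]
  push_cast
  ring

theorem VCode.alpha_line (h : VCode K w lab c) (hc : codeOk c = true) (hcl : cleanOk c = true)
    (hl : l ∈ c.2.1) : alpha K w (ms lab l) = ((pop l - 2 : ℕ) : ℤ) := by
  rw [alpha_rank_two h.simple (h.line hc hcl hl).1, h.card_ms hc ((codeOk_bounds hc).2.2.1 l hl)]
  have := (clean_lines hcl).1 l hl
  push_cast [Nat.cast_sub (show 2 ≤ pop l by omega)]
  ring

/-- The sum of the nullities of the listed lines inside a listed plane. -/
def lsum (c : Code) (p : ℕ) : ℕ := ∑ l ∈ c.2.1.toFinset.filter (fun l => sub l p = true), (pop l - 2)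

theorem VCode.ms_injOn (h : VCode K w lab c) (hc : codeOk c = true) {S : Finset ℕ}
    (hS : ∀ l ∈ S, l < 2 ^ c.1) : Set.InjOn (ms lab) (S : Set ℕ) := by
  intro a ha b hb hab
  exact ms_inj h.range (hS a ha) (hS b hb) hab

theorem VCode.sum_lines (h : VCode K w lab c) (hc : codeOk c = true) (hcl : cleanOk c = true) :
    ∑ G ∈ (c.2.1.toFinset.filter (fun l => sub l Z = true)).image (ms lab), alpha K w G =
      (lsum c Z : ℤ) := by
  have hb1 := (codeOk_bounds hc).2.2.1
  rw [sum_image (h.ms_injOn hc (by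
    intro l hl
    rw [mem_filter, List.mem_toFinset] at hl
    exact hb1 l hl.1))]
  unfold lsum
  push_cast
  apply sum_congr rfl
  intro l hl
  rw [mem_filter, List.mem_toFinset] at hl
  have h1 := h.alpha_line hc hcl hl.1
  rw [h1]

theorem VCode.alpha_plane (h : VCode K w lab c) (hc : codeOk c = true) (hcl : cleanOk c = true)
    (hp : p ∈ c.2.2) : alpha K w (ms lab p) = (pop p : ℤ) - 3 - lsum c p := by
  classical
  have hb1 := (codeOk_bounds hc).2.2.1
  have hb2 := (codeOk_bounds hc).2.2.2
  obtain ⟨hr, hF⟩ := h.plane hc hcl hp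
  rw [alpha_eq, hr, h.card_ms hc (hb2 p hp), ← h.sum_lines hc hcl]
  push_cast
  congr 1
  symm
  apply sum_subset
  · intro G hG
    obtain ⟨l, hl, rfl⟩ := mem_image.1 hG
    rw [mem_filter, List.mem_toFinset] at hl
    obtain ⟨hr', hF'⟩ := h.line hc hcl hl.1
    rw [mem_filter, mem_powerset]
    refine ⟨(sub_iff_ms h.range (hb1 l hl.1)).1 hl.2, hF', ?_⟩
    intro h1
    rw [h1, hr] at hr'
    omega
  · intro G hG hG'
    rw [mem_filter, mem_powerset] at hG
    by_cases h2 : G.card ≤ 2
    · exact alpha_ind (h.simple.ind_of_card_le_two h2)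
    · exfalso
      apply hG'
      have h3 := hG.2.1.rk_lt_of_ssubset (Finset.ssubset_iff_subset_ne.2 ⟨hG.1, hG.2.2⟩)
      have h4 := h.simple.two_le_rk (X := G) (by omega)
      obtain ⟨l, hl, rfl⟩ := h.line_of_flat hc hcl hG.2.1 (by omega) (by omega)
      rw [mem_image]
      refine ⟨l, ?_, rfl⟩
      rw [mem_filter, List.mem_toFinset]
      exact ⟨hl, (sub_iff_ms h.range (hb1 l hl)).2 hG.1⟩

theorem VCode.not_SG_of_badOk (h : VCode K w lab c) (hc : codeOk c = true)
    (hcl : cleanOk c = true) (hb : badOk c Z = true) : ¬ SG K w ∅ univ := by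
  classical
  intro hs
  have hb1 := (codeOk_bounds hc).2.2.1
  have hb2 := (codeOk_bounds hc).2.2.2
  unfold badOk at hb
  simp only [Bool.and_eq_true, Nat.blt_eq, Bool.not_eq_true', List.all_eq_true,
    Nat.one_shiftLeft, Nat.ble_eq] at hb
  obtain ⟨⟨⟨⟨⟨⟨⟨hZ, hn3⟩, hn2⟩, hnp⟩, hnl⟩, hl3⟩, hpp⟩, hlt⟩ := hb
  have hn3' : pop Z ≠ 3 := by
    intro h1
    rw [h1] at hn3
    exact Bool.noConfusion hn3
  have hn2' : 3 ≤ pop Z := by
    by_contra h1
    rw [Nat.ble_eq_true_of_le (show pop Z ≤ 2 by omega)] at hn2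
    exact Bool.noConfusion hn2
  have hcard : (ms lab Z).card = pop Z := h.card_ms hc hZ
  -- the rank is four
  have hrk : rk K w (ms lab Z) = 4 := by
    have h1 : rk K w (ms lab Z) ≤ 4 := by
      rw [← h.rank]
      exact rk_mono (subset_univ _)
    by_contra hcon
    have h2 := h.simple.two_le_rk (X := ms lab Z) (by omega)
    have h3 := card_le_card (subset_cl (K := K) (v := w) (X := ms lab Z))
    have h4 : rk K w (cl K w (ms lab Z)) = rk K w (ms lab Z) := rk_cl
    by_cases h5 : rk K w (ms lab Z) = 2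
    · obtain ⟨l, hl, hll⟩ := h.line_of_flat hc hcl (F := cl K w (ms lab Z)) isFl_cl
        (by omega) (by omega)
      have h6 := hnl l hl
      rw [(sub_iff_ms h.range hZ).2 (hll ▸ subset_cl)] at h6
      exact Bool.noConfusion h6
    · obtain ⟨p, hp, hpp⟩ := h.plane_of_flat hc hcl (F := cl K w (ms lab Z)) isFl_cl
        (by omega) (by omega)
      have h6 := hnp p hp
      rw [(sub_iff_ms h.range hZ).2 (hpp ▸ subset_cl)] at h6
      exact Bool.noConfusion h6
  -- nonnegativity of alpha
  have hpos : ∀ G, 0 ≤ alpha K w G := fun G => alpha_nonneg hs (subset_univ _)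
  have h0 := hpos (ms lab Z)
  rw [alpha_eq, hrk, hcard] at h0
  set A := (c.2.1.toFinset.filter (fun l => sub l Z = true)).image (ms lab) with hA
  set B := (c.2.2.toFinset.filter (fun p => sub p Z = true)).image (ms lab) with hB
  have hdis : Disjoint A B := by
    rw [disjoint_left]
    intro G hGA hGB
    obtain ⟨l, hl, rfl⟩ := mem_image.1 hGA
    obtain ⟨p, hp, hpl⟩ := mem_image.1 hGB
    rw [mem_filter, List.mem_toFinset] at hl hp
    have h1 := (h.line hc hcl hl.1).1
    have h2 := (h.plane hc hcl hp.1).1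
    rw [hpl] at h2
    omega
  have hsub : A ∪ B ⊆ (ms lab Z).powerset.filter (fun G => IsFl K w G ∧ G ≠ ms lab Z) := by
    apply union_subset
    · intro G hG
      obtain ⟨l, hl, rfl⟩ := mem_image.1 hG
      rw [mem_filter, List.mem_toFinset] at hl
      obtain ⟨hr', hF'⟩ := h.line hc hcl hl.1
      rw [mem_filter, mem_powerset]
      refine ⟨(sub_iff_ms h.range (hb1 l hl.1)).1 hl.2, hF', ?_⟩
      intro h1
      rw [h1, hrk] at hr'
      omega
    · intro G hG
      obtain ⟨l, hl, rfl⟩ := mem_image.1 hG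
      rw [mem_filter, List.mem_toFinset] at hl
      obtain ⟨hr', hF'⟩ := h.plane hc hcl hl.1
      rw [mem_filter, mem_powerset]
      refine ⟨(sub_iff_ms h.range (hb2 l hl.1)).1 hl.2, hF', ?_⟩
      intro h1
      rw [h1, hrk] at hr'
      omega
  have h1 := sum_le_sum_of_subset_of_nonneg hsub (f := fun G => alpha K w G)
    (fun G _ _ => hpos G)
  rw [sum_union hdis, h.sum_lines hc hcl] at h1
  have h2 : ∑ G ∈ B, alpha K w G =
      ((∑ p ∈ c.2.2.toFinset.filter (fun p => sub p Z = true), alphaP c p : ℕ) : ℤ) := by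
    rw [hB, sum_image (h.ms_injOn hc (by
      intro l hl
      rw [mem_filter, List.mem_toFinset] at hl
      exact hb2 l hl.1))]
    push_cast
    apply sum_congr rfl
    intro p hp
    rw [mem_filter, List.mem_toFinset] at hp
    rw [h.alpha_plane hc hcl hp.1]
    have h3 := hpp p hp.1
    have h4 : c.2.1.foldl (fun s l => bif sub l p then s + (pop l - 2) else s) 0 = lsum c p :=
      foldl_cond_sum (b := fun l => sub l p) (f := fun l => pop l - 2) (clean_lines hcl).2.1
    rw [h4] at h3
    unfold alphaP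
    rw [h4, Nat.sub_sub, Nat.cast_sub h3]
    push_cast
    ring
  have h3 : c.2.1.foldl (fun s l => bif sub l Z then s + (pop l - 2) else s) 0 = lsum c Z :=
    foldl_cond_sum (b := fun l => sub l Z) (f := fun l => pop l - 2) (clean_lines hcl).2.1
  have h4 : c.2.2.foldl (fun s p => bif sub p Z then s + alphaP c p else s) 0 =
      ∑ p ∈ c.2.2.toFinset.filter (fun p => sub p Z = true), alphaP c p :=
    foldl_cond_sum (b := fun p => sub p Z) (f := fun p => alphaP c p) (clean_planes hcl).2.1
  rw [h3, h4] at hlt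
  rw [h2] at h1
  have h5 : (pop Z : ℤ) < 4 + lsum c Z +
      ((∑ p ∈ c.2.2.toFinset.filter (fun p => sub p Z = true), alphaP c p : ℕ) : ℤ) := by
    exact_mod_cast hlt
  push_cast at h0 h1 h5
  linarith

end alpha

variable {α : Type*}

open Matroid

theorem not_classQ_of_badOk {M : Matroid α} [M.Finite] {g : ℕ → α} {c : Code} {Z : ℕ}
    (h : GCode M✶ g c) (hc : codeOk c = true) (hcl : cleanOk c = true) (hb : badOk c Z = true) :
    ¬ ClassQ M := by
  classical
  rintro ⟨hr, ht⟩
  have : Fintype M.E := M.ground_finite.fintype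
  obtain ⟨n, w, hw⟩ := hr.exists_repDual
  obtain ⟨lab, hv, -⟩ := vcode_of_gcode hw h
  have h1 := hw.transversal_iff.1 ht
  exact hv.not_SG_of_badOk hc hcl hb (SG_of_hasTrans hv.simple.isFl_empty ind_empty h1)

theorem not_classQ_of_uniform {M : Matroid α} [M.Finite] {g : ℕ → α} {c : Code}
    (h : GCode M✶ g c) (h6 : 6 ≤ c.1) (h2 : c.2.2 = []) : ¬ ClassQ M := by
  classical
  rintro ⟨hr, -⟩
  have : Fintype M.E := M.ground_finite.fintype
  have : Fintype (GaloisField 2 2) := Fintype.ofFinite _
  have hK : Fintype.card (GaloisField 2 2) = 4 := by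
    rw [Fintype.card_eq_nat_card, GaloisField.card 2 2 (by norm_num)]
    norm_num
  obtain ⟨n, w, hw⟩ := hr.exists_repDual
  obtain ⟨lab, hv, -⟩ := vcode_of_gcode hw h
  have hex : ∀ i, ∃ e, i < c.1 → lab e = i := by
    intro i
    by_cases hi : i < c.1
    · obtain ⟨e, he⟩ := (hv.range i).2 hi
      exact ⟨e, fun _ => he⟩
    · obtain ⟨e, he⟩ := (hv.range 0).2 (by omega)
      exact ⟨e, fun h => absurd h hi⟩
  choose y hy using hex
  refine no_U46 hK hv.rank.le (y := y) ?_
  intro i j k m hij hjk hkm hm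
  have hne : ∀ a b, a < b → b < 6 → y a ≠ y b := by
    intro a b hab hb h3
    have h4 := congrArg lab h3
    rw [hy a (by omega), hy b (by omega)] at h4
    omega
  have hcard : ({y i, y j, y k, y m} : Finset M.E).card = 4 := by
    rw [card_insert_of_notMem, card_insert_of_notMem, card_insert_of_notMem, card_singleton]
    · simp only [mem_singleton]
      exact hne k m hkm hm
    · simp only [mem_insert, mem_singleton, not_or]
      exact ⟨hne j k hjk (by omega), hne j m (by omega) hm⟩
    · simp only [mem_insert, mem_singleton, not_or]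
      exact ⟨hne i j hij (by omega), hne i k (by omega) (by omega), hne i m (by omega) hm⟩
  refine ⟨(hv.quad _ hcard).2 ?_, hcard⟩
  rw [h2]
  intro p hp
  exact absurd hp (by simp)

end Ca3.C4.CF
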