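import Pool.Agent.Lib.MP_ca3eb1_co.C4.Defs4

/-!
# Single element extensions of rank four geometries: the certificate checker

Points are numbers `< n` (`n ≤ 13`), the new point is `n`.  Sets of points are bit masks.
`PM` packs the masks of the planes of the old geometry, 16 bits each; `T` packs for every triple
`(a, b, c)` (at position `7 * (a + 16 * b + 256 * c)`) the index of its plane, `127` if the triple
is collinear (or has a repetition).  A state consists of the mask `I` of the planes which contain
the new point and the mask `O` of the planes which do not.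
-/

namespace Ca3.C4

/-- Bit `i` of `m`. -/
def tb (m i : ℕ) : Bool := Nat.beq ((m >>> i) &&& 1) 1

/-- The mask of plane number `i`. -/
def pm (PM i : ℕ) : ℕ := (PM >>> (16 * i)) &&& 65535

/-- The plane number of a triple (`127`: collinear). -/
def pl (T a b c : ℕ) : ℕ := (T >>> (7 * (a + 16 * b + 256 * c))) &&& 127

/-- Dependence of `{a, b, c, new}`: `0` no, `1` yes, `2` unknown. -/
def depE (T I O a b c : ℕ) : ℕ :=
  let p := pl T a b c
  bif Nat.beq p 127 then 1 else bif tb I p then 1 else bif tb O p then 0 else 2

/-- Dependence of `{a, b, c, d}`, old points. -/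
def depR (T PM a b c d : ℕ) : ℕ :=
  let p := pl T a b c
  bif Nat.beq p 127 then 1 else bif tb (pm PM p) d then 1 else 0

/-- Dependence of `{a, b, c, d}`, at most one of them is the new point `n`. -/
def dep (n T PM I O a b c d : ℕ) : ℕ :=
  bif Nat.beq a n then depE T I O b c d else
  bif Nat.beq b n then depE T I O a c d else
  bif Nat.beq c n then depE T I O a b d else
  bif Nat.beq d n then depE T I O a b c else depR T PM a b c d

/-- Digit `i` (base 16) of `Y`. -/
def dg (Y i : ℕ) : ℕ := (Y >>> (4 * i)) &&& 15

/-- The forbidden patterns: number of points and masks of the lines. -/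
def pat : ℕ → ℕ × List ℕ
  | 0 => (6, [7, 28, 42, 49])
  | 1 => (6, [49])
  | 2 => (7, [21, 26, 38, 67, 104])
  | 3 => (8, [7, 52, 73, 170, 208])
  | _ => (8, [22, 35, 81, 104, 138, 196])

/-- All triples `i < j < k < m` as `(i, j, k)`. -/
def triples (m : ℕ) : List (ℕ × ℕ × ℕ) :=
  (List.range m).flatMap fun k => (List.range k).flatMap fun j =>
    (List.range j).map fun i => (i, j, k)

/-- The triples of pattern `t` with the required dependence. -/
def patT (t : ℕ) : List (ℕ × ℕ × ℕ × ℕ) :=
  (triples (pat t).1).map fun x => (x.1, x.2.1, x.2.2,
    bif (pat t).2.any fun l => tb l x.1 && tb l x.2.1 && tb l x.2.2 then 1 else 0)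

/-- The first `k` digits of `Y` are different points `≤ n`. -/
def dist (n k Y : ℕ) : Bool :=
  (List.range k).all fun i => Nat.ble (dg Y i) n &&
    (List.range i).all fun j => !(Nat.beq (dg Y i) (dg Y j))

/-- The point `x ≤ n` is different from the first `k` digits of `Y`. -/
def off (n k x Y : ℕ) : Bool :=
  Nat.ble x n && (List.range k).all fun i => !(Nat.beq (dg Y i) x)

/-- Check of the forbidden pattern `t` in the contraction of `x`. -/
def chkF (n T PM I O t x Y : ℕ) : Bool :=
  dist n (pat t).1 Y && off n (pat t).1 x Y && (patT t).all fun s => Nat.beq (dep n T PM I O x (dg Y s.1) (dg Y s.2.1) (dg Y s.2.2.1)) s.2.2.2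

/-- Six different planes through the line `a b`. -/
def chkD (n T PM I O a b Y : ℕ) : Bool :=
  dist n 6 Y && off n 6 a Y && off n 6 b Y && !(Nat.beq a b) && (List.range 6).all fun j => (List.range j).all fun i =>
    Nat.beq (dep n T PM I O a b (dg Y i) (dg Y j)) 0

/-- The new point lies in the different planes `i`, `j` containing `a, b`; plane `k` contains
`a, b` but not the new point, or it contains `a` and the new point but not `b`. -/
def chkM (PM I O i j k a b : ℕ) : Bool :=
  tb I i && tb I j && !(Nat.beq (pm PM i) (pm PM j)) && tb (pm PM i) a && tb (pm PM i) b &&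
  tb (pm PM j) a && tb (pm PM j) b && !(Nat.beq a b) && tb (pm PM k) a &&
  ((tb (pm PM k) b && tb O k) || (!(tb (pm PM k) b) && tb I k))

/-- The image of the mask `m` under the digits of `Y`. -/
def img (n Y m : ℕ) : ℕ :=
  (List.range (n + 1)).foldl (fun s i => bif tb m i then s ||| (1 <<< dg Y i) else s) 0

/-- The planes with at least four points of the extension: `nl` is the number of planes of the old
geometry with at least four points (they come first), `nP` the number of all its planes, `L` the
lines with at least three points. -/
def newP (n nl nP PM I : ℕ) (L : List ℕ) : List ℕ :=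
  ((List.range nP).filterMap fun i =>
    bif tb I i then some (pm PM i ||| (1 <<< n)) else bif Nat.blt i nl then some (pm PM i) else none)
  ++ L.filterMap fun l => bif (List.range nP).any (fun i => tb I i && Nat.beq (l &&& pm PM i) l)
      then none else some (l ||| (1 <<< n))

/-- The two lists have the same members. -/
def sameList (A B : List ℕ) : Bool := A.all (fun a => B.any (Nat.beq a)) && B.all (fun b => A.any (Nat.beq b))

/-- Leaf: the extension is isomorphic to code `j` by the digits of `Y`. -/
def chkI (codes : List Code) (n nl nP PM I O : ℕ) (L : List ℕ) (j Y : ℕ) : Bool :=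
  match codes[j]? with
  | none => false
  | some c => Nat.beq c.1 (n + 1) && Nat.beq (I ||| O) (1 <<< nP - 1) &&
      ((List.range (n + 1)).all fun i => Nat.blt (dg Y i) (n + 1) &&
        (List.range i).all fun k => !(Nat.beq (dg Y i) (dg Y k))) &&
      sameList ((newP n nl nP PM I L).map (img n Y)) c.2.2

/-- The next `k` symbols (base 128) of the certificate as digits base 16, and the rest. -/
def take : ℕ → ℕ → ℕ × ℕ
  | 0, C => (0, C)
  | k + 1, C => let r := take k (C >>> 7); ((C &&& 127) + 16 * r.1, r.2)

/-- The certificate machine: returns the unused rest of the certificate. -/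
def run (codes : List Code) (n nl nP T PM : ℕ) (L : List ℕ) : ℕ → ℕ → ℕ → ℕ → Option ℕ
  | 0, _, _, _ => none
  | f + 1, C, I, O =>
    let s1 := (C >>> 7) &&& 127
    let s2 := (C >>> 14) &&& 127
    match C &&& 127 with
    | 0 => bif Nat.blt s1 nP then
        match run codes n nl nP T PM L f (C >>> 14) (I ||| (1 <<< s1)) O with
        | none => none
        | some C' => run codes n nl nP T PM L f C' I (O ||| (1 <<< s1))
        else none
    | 1 => bif chkM PM I O s1 s2 ((C >>> 21) &&& 127) ((C >>> 28) &&& 127) ((C >>> 35) &&& 127)
        then some (C >>> 42) else none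
    | 2 => let r := take 6 (C >>> 21)
        bif chkD n T PM I O s1 s2 r.1 then some r.2 else none
    | 3 => let r := take (pat s1).1 (C >>> 21)
        bif chkF n T PM I O s1 s2 r.1 then some r.2 else none
    | 4 => let r := take (n + 1) (C >>> 21)
        bif chkI codes n nl nP PM I O L (s1 + 128 * s2) r.1 then some r.2 else none
    | _ => none

/-- `i`, `j`, `k` lie on a listed line. -/
def colC (c : Code) (i j k : ℕ) : Bool := c.2.1.any fun l => tb l i && tb l j && tb l k

/-- `i`, `j`, `k`, `m` lie in a listed plane. -/
def copC (c : Code) (i j k m : ℕ) : Bool :=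
  c.2.2.any fun p => tb p i && tb p j && tb p k && tb p m

/-- Validity of the packed data for the code `c`: `T` is symmetric, `127` on repetitions; for a
triple `a < b < d` it is `127` if the triple is on a listed line; otherwise it is the number of a
plane containing the triple, whose other points `e` are those for which `{a, b, d, e}` is in a
listed plane; every number of a plane occurs. -/
def valid (c : Code) (nl nP T PM : ℕ) : Bool :=
  sameList ((List.range nl).map (pm PM)) c.2.2 && Nat.blt nP 127 && Nat.ble nl nP &&
  ((List.range c.1).all fun a => (List.range c.1).all fun b => (List.range c.1).all fun d =>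
    bif Nat.beq a b || Nat.beq a d || Nat.beq b d then Nat.beq (pl T a b d) 127
    else Nat.beq (pl T a b d) (pl T b a d) && Nat.beq (pl T a b d) (pl T a d b)) &&
  ((triples c.1).all fun t =>
    let q := pl T t.1 t.2.1 t.2.2
    let m := pm PM q
    bif colC c t.1 t.2.1 t.2.2 then Nat.beq q 127
    else Nat.blt q nP && tb m t.1 && tb m t.2.1 && tb m t.2.2 &&
      ((List.range c.1).all fun e => Nat.beq e t.1 || Nat.beq e t.2.1 || Nat.beq e t.2.2 ||
        (tb m e == copC c t.1 t.2.1 t.2.2 e)) &&
      (Nat.blt q nl || Nat.beq m (1 <<< t.1 + 1 <<< t.2.1 + 1 <<< t.2.2))) &&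
  ((List.range nP).all fun i => (triples c.1).any fun t => Nat.beq (pl T t.1 t.2.1 t.2.2) i)

end Ca3.C4
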