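import Pool.Agent.Lib.MP_ca3eb1_co.C4.Checks2

/-!
# Single element extensions of rank three geometries: the certificate checker

As `Check.lean`, one rank lower: `LM` packs the masks of the lines of the old geometry (16 bits
each, the `nl` lines with at least three points first, `nL` lines altogether), `T` packs for every
pair `(a, b)` (position `7 * (a + 16 * b)`) the number of its line, `127` if `a = b`.
-/

namespace Ca3.C4

/-- The line number of a pair (`127`: equal points). -/
def ln (T a b : ℕ) : ℕ := (T >>> (7 * (a + 16 * b))) &&& 127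

/-- Dependence of `{a, b, new}`: `0` no, `1` yes, `2` unknown. -/
def depE3 (T I O a b : ℕ) : ℕ :=
  bif Nat.beq (ln T a b) 127 then 1 else bif tb I (ln T a b) then 1 else
    bif tb O (ln T a b) then 0 else 2

/-- Dependence of `{a, b, c}`, old points. -/
def depR3 (T LM a b c : ℕ) : ℕ :=
  bif Nat.beq (ln T a b) 127 then 1 else bif tb (pm LM (ln T a b)) c then 1 else 0

/-- Dependence of `{a, b, c}`, at most one of them is the new point `n`. -/
def dep3 (n T LM I O a b c : ℕ) : ℕ :=
  bif Nat.beq a n then depE3 T I O b c else
  bif Nat.beq b n then depE3 T I O a c else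
  bif Nat.beq c n then depE3 T I O a b else depR3 T LM a b c

/-- Check of the forbidden pattern `t`. -/
def chkF3 (n T LM I O t Y : ℕ) : Bool :=
  dist n (pat t).1 Y && (patT t).all fun s =>
    Nat.beq (dep3 n T LM I O (dg Y s.1) (dg Y s.2.1) (dg Y s.2.2.1)) s.2.2.2

/-- Six different lines through the point `a`. -/
def chkD3 (n T LM I O a Y : ℕ) : Bool :=
  dist n 6 Y && off n 6 a Y && (List.range 6).all fun j => (List.range j).all fun i =>
    Nat.beq (dep3 n T LM I O a (dg Y i) (dg Y j)) 0

/-- The new point lies on the different lines `i`, `j` through `a`. -/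
def chkM3 (LM I i j a : ℕ) : Bool :=
  tb I i && tb I j && !(Nat.beq (pm LM i) (pm LM j)) && tb (pm LM i) a && tb (pm LM j) a

/-- The long lines of the extension. -/
def newL (n nl nL LM I : ℕ) : List ℕ :=
  (List.range nL).filterMap fun i =>
    bif tb I i then some (pm LM i ||| (1 <<< n)) else bif Nat.blt i nl then some (pm LM i) else none

/-- Leaf: the extension is isomorphic to `codes3[j]` by the digits of `Y`. -/
def chkI3 (n nl nL LM I O j Y : ℕ) : Bool :=
  match codes3[j]? with
  | none => false
  | some c => Nat.beq c.1 (n + 1) && Nat.beq (I ||| O) (1 <<< nL - 1) &&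
      ((List.range (n + 1)).all fun i => Nat.blt (dg Y i) (n + 1) &&
        (List.range i).all fun k => !(Nat.beq (dg Y i) (dg Y k))) &&
      sameList ((newL n nl nL LM I).map (img n Y)) c.2.1

/-- The certificate machine in rank three. -/
def run3 (n nl nL T LM : ℕ) : ℕ → ℕ → ℕ → ℕ → Option ℕ
  | 0, _, _, _ => none
  | f + 1, C, I, O =>
    let s1 := (C >>> 7) &&& 127
    match C &&& 127 with
    | 0 => bif Nat.blt s1 nL then
        match run3 n nl nL T LM f (C >>> 14) (I ||| (1 <<< s1)) O with
        | none => none
        | some C' => run3 n nl nL T LM f C' I (O ||| (1 <<< s1))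
        else none
    | 1 => bif chkM3 LM I s1 ((C >>> 14) &&& 127) ((C >>> 21) &&& 127)
        then some (C >>> 28) else none
    | 2 => let r := take 6 (C >>> 14)
        bif chkD3 n T LM I O s1 r.1 then some r.2 else none
    | 3 => let r := take (pat s1).1 (C >>> 14)
        bif chkF3 n T LM I O s1 r.1 then some r.2 else none
    | 4 => let r := take (n + 1) (C >>> 14)
        bif chkI3 n nl nL LM I O s1 r.1 then some r.2 else none
    | _ => none

/-- Validity of the packed data for the rank three code `c`: for `a ≠ b` the number of a line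
through both, whose other points `e` are those with `a`, `b`, `e` on a listed line; every number
of a line occurs. -/
def valid3 (c : Code) (nl nL T LM : ℕ) : Bool :=
  sameList ((List.range nl).map (pm LM)) c.2.1 && Nat.blt nL 127 && Nat.ble nl nL &&
  Nat.blt c.1 10 && c.2.1.all (fun l => Nat.blt l (1 <<< c.1)) &&
  ((List.range c.1).all fun a => (List.range c.1).all fun b =>
    bif Nat.beq a b then Nat.beq (ln T a b) 127
    else Nat.beq (ln T a b) (ln T b a) && Nat.blt (ln T a b) nL && tb (pm LM (ln T a b)) a &&
      tb (pm LM (ln T a b)) b &&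
      ((List.range c.1).all fun e => Nat.beq e a || Nat.beq e b ||
        (tb (pm LM (ln T a b)) e == colC c a b e)) &&
      (Nat.blt (ln T a b) nl || Nat.beq (pm LM (ln T a b)) (1 <<< a + 1 <<< b))) &&
  ((List.range nL).all fun i => (List.range c.1).any fun b => (List.range b).any fun a =>
    Nat.beq (ln T a b) i)

end Ca3.C4
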