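import Pool.Agent.Lib.MP_ca3eb1_co.C4.Codes

/-!
# Further kernel checks for codes: consistency, representations over the field with four elements,
Mason families, rings, violations, contractions
-/

namespace Ca3.C4

/-- Number of ones among the bits `< 14`. -/
def pop (m : ℕ) : ℕ :=
  (m &&& 1) + ((m >>> 1) &&& 1) + ((m >>> 2) &&& 1) + ((m >>> 3) &&& 1) + ((m >>> 4) &&& 1) +
  ((m >>> 5) &&& 1) + ((m >>> 6) &&& 1) + ((m >>> 7) &&& 1) + ((m >>> 8) &&& 1) +
  ((m >>> 9) &&& 1) + ((m >>> 10) &&& 1) + ((m >>> 11) &&& 1) + ((m >>> 12) &&& 1) +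
  ((m >>> 13) &&& 1)

/-- `Z ⊆ W` for masks. -/
def sub (Z W : ℕ) : Bool := Nat.beq (Z &&& W) Z

/-- Consistency of a rank four code. -/
def codeOk (c : Code) : Bool :=
  Nat.blt 3 c.1 && Nat.blt c.1 14 && c.2.1.all (fun l => Nat.blt l (1 <<< c.1)) &&
  c.2.2.all (fun p => Nat.blt p (1 <<< c.1)) &&
  ((triples c.1).any fun t => (List.range t.1).any fun m => !(copC c m t.1 t.2.1 t.2.2)) &&
  ((triples c.1).all fun t => (colC c t.1 t.2.1 t.2.2) ==
    ((List.range c.1).all fun m => Nat.beq m t.1 || Nat.beq m t.2.1 || Nat.beq m t.2.2 ||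
      copC c t.1 t.2.1 t.2.2 m))

/-- Product in the field with four elements `0, 1, 2 = w, 3 = w + 1` (sum: `xor`). -/
def gmul (a b : ℕ) : ℕ := (2625168384 >>> (2 * (a + 4 * b))) &&& 3

/-- Digit `i` (base 4). -/
def q4 (v i : ℕ) : ℕ := (v >>> (2 * i)) &&& 3

/-- The minor of two vectors. -/
def mnr (u v i j : ℕ) : ℕ := gmul (q4 u i) (q4 v j) ^^^ gmul (q4 u j) (q4 v i)

/-- Determinant of four vectors. -/
def det4 (u v w z : ℕ) : ℕ :=
  gmul (mnr u v 0 1) (mnr w z 2 3) ^^^ gmul (mnr u v 0 2) (mnr w z 1 3) ^^^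
  gmul (mnr u v 0 3) (mnr w z 1 2) ^^^ gmul (mnr u v 1 2) (mnr w z 0 3) ^^^
  gmul (mnr u v 1 3) (mnr w z 0 2) ^^^ gmul (mnr u v 2 3) (mnr w z 0 1)

/-- Determinant of three vectors. -/
def det3 (u v w : ℕ) : ℕ :=
  gmul (mnr u v 0 1) (q4 w 2) ^^^ gmul (mnr u v 0 2) (q4 w 1) ^^^ gmul (mnr u v 1 2) (q4 w 0)

/-- Number of members of `fam` inside `Z`. -/
def cntL (fam : List ℕ) (Z : ℕ) : ℕ := fam.foldl (fun s a => bif sub a Z then s + 1 else s) 0

/-- Rank of a set of points in the rank `r` matroid of the code. -/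
def rkC (r : ℕ) (c : Code) (Z : ℕ) : ℕ :=
  bif Nat.ble (pop Z) 1 then pop Z else
  bif Nat.beq (pop Z) 2 || c.2.1.any (fun l => sub Z l) then 2 else
  bif Nat.beq (pop Z) 3 || c.2.2.any (fun p => sub Z p) then 3 else r

/-- The code of rank four is represented by `vec` and `fam` is a Mason family. -/
def sgOk (c : Code) (vec fam : List ℕ) : Bool :=
  Nat.beq vec.length c.1 &&
  ((triples c.1).all fun t => (List.range t.1).all fun m =>
    (Nat.beq (det4 (vec.getD m 0) (vec.getD t.1 0) (vec.getD t.2.1 0) (vec.getD t.2.2 0)) 0) ==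
      copC c m t.1 t.2.1 t.2.2) &&
  ((List.range (1 <<< c.1)).all fun Z => Nat.ble (cntL fam Z + rkC 4 c Z) (pop Z)) &&
  c.2.1.all (fun l => Nat.beq (cntL fam l + 2) (pop l)) &&
  c.2.2.all (fun p => Nat.beq (cntL fam p + 3) (pop p)) &&
  Nat.beq (cntL fam (1 <<< c.1 - 1) + 4) c.1

/-- The code of rank three is represented by `vec` and `fam` is a Mason family. -/
def sg3Ok (c : Code) (vec fam : List ℕ) : Bool :=
  Nat.beq vec.length c.1 && Nat.ble 3 c.1 && Nat.blt c.1 10 &&
  c.2.1.all (fun l => Nat.blt l (1 <<< c.1)) &&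
  ((triples c.1).any fun t => !(colC c t.1 t.2.1 t.2.2)) &&
  ((triples c.1).all fun t =>
    (Nat.beq (det3 (vec.getD t.1 0) (vec.getD t.2.1 0) (vec.getD t.2.2 0)) 0) ==
      colC c t.1 t.2.1 t.2.2) &&
  ((List.range (1 <<< c.1)).all fun Z => Nat.ble (cntL fam Z + rkC 3 c Z) (pop Z)) &&
  c.2.1.all (fun l => Nat.beq (cntL fam l + 2) (pop l)) &&
  Nat.beq (cntL fam (1 <<< c.1 - 1) + 3) c.1

/-- Independence in the rank `r` matroid of the code. -/
def indC (r : ℕ) (c : Code) (Z : ℕ) : Bool :=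
  Nat.ble (pop Z) r && c.2.1.all (fun l => Nat.ble (pop (Z &&& l)) 2) &&
    c.2.2.all (fun p => Nat.ble (pop (Z &&& p)) 3)

/-- The code of rank four is a ring: `leg` packs the legs (base 16), `nl` is the number of legs,
`C` the list of the masks of the circuits. -/
def ringOk (c : Code) (nl leg : ℕ) (C : List ℕ) : Bool :=
  ((List.range c.1).all fun i => Nat.blt (dg leg i) nl) &&
  ((List.range nl).all fun a =>
    let s := (List.range c.1).foldl (fun s i => bif Nat.beq (dg leg i) a then s + 1 else s) 0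
    Nat.ble 2 s && Nat.ble s 4 && (Nat.beq s 2 || C.all fun m => !(tb m a))) &&
  C.all (fun m => Nat.ble 3 (pop m) && Nat.blt m (1 <<< nl)) &&
  ((List.range C.length).all fun i => (List.range i).all fun j =>
    Nat.beq (C.getD i 0 &&& C.getD j 0) 0) &&
  ((List.range (1 <<< c.1)).all fun Z =>
    let M := (List.range c.1).foldl (fun s i => bif tb Z i then s ||| (1 <<< dg leg i) else s) 0
    (indC 4 c Z) == Nat.ble (pop Z + cntL C M) (pop M + 1))

/-- Number of members of a Mason family with closure the plane `p` (at least). -/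
def alphaP (c : Code) (p : ℕ) : ℕ :=
  pop p - 3 - c.2.1.foldl (fun s l => bif sub l p then s + (pop l - 2) else s) 0

/-- The spanning set `Z` violates Mason's condition. -/
def badOk (c : Code) (Z : ℕ) : Bool :=
  Nat.blt Z (1 <<< c.1) && !(Nat.beq (pop Z) 3) && !(Nat.ble (pop Z) 2) &&
  c.2.2.all (fun p => !(sub Z p)) &&
  c.2.1.all (fun l => !(sub Z l)) &&
  c.2.1.all (fun l => Nat.ble 3 (pop l)) &&
  c.2.2.all (fun p => Nat.ble (3 + c.2.1.foldl (fun s l => bif sub l p then s + (pop l - 2) else s) 0)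
    (pop p)) &&
  Nat.blt (pop Z) (4 + c.2.1.foldl (fun s l => bif sub l Z then s + (pop l - 2) else s) 0 +
    c.2.2.foldl (fun s p => bif sub p Z then s + alphaP c p else s) 0)

/-- The contraction of the point `x` of the rank four code `c` is the rank three code `d` up to
parallel points; the digits of `F` (base 16) are the labels. -/
def quotOk (c : Code) (x F : ℕ) (d : Code) : Bool :=
  ((List.range c.1).all fun i => Nat.beq i x || Nat.blt (dg F i) d.1) &&
  ((List.range d.1).all fun a => (List.range c.1).any fun i => !(Nat.beq i x) && Nat.beq (dg F i) a) &&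
  ((triples c.1).all fun t =>
    Nat.beq t.1 x || Nat.beq t.2.1 x || Nat.beq t.2.2 x ||
      ((copC c x t.1 t.2.1 t.2.2) == (Nat.beq (dg F t.1) (dg F t.2.1) ||
        Nat.beq (dg F t.1) (dg F t.2.2) || Nat.beq (dg F t.2.1) (dg F t.2.2) ||
        colC d (dg F t.1) (dg F t.2.1) (dg F t.2.2))))

/-- The code with number `i`. -/
def getC (i : ℕ) : Code := codes.getD i (0, [], [])

/-- The rank three code with number `j`. -/
def getC3 (j : ℕ) : Code := codes3.getD j (0, [], [])

end Ca3.C4
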