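import Pool.Agent.Lib.MP_ca3eb1_co.C4.Geo
import Pool.Agent.Lib.MP_ca3eb1_co.C4.Cert3

/-! # Row 60: soundness of the certificate machine and the classification in rank three -/

namespace Ca3.C4

open Matroid

section

variable {α : Type*}

/-! ### bits, lists -/

theorem R60_tb (m i : ℕ) : tb m i = m.testBit i := by
  rw [tb, Nat.testBit_eq_decide_div_mod_eq, Nat.and_one_is_mod, Nat.shiftRight_eq_div_pow]
  rcases Nat.mod_two_eq_zero_or_one (m / 2 ^ i) with h | h <;> rw [h] <;> rfl

theorem R60_ext {m m' : ℕ} (h : ∀ i, tb m i = tb m' i) : m = m' :=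
  Nat.eq_of_testBit_eq fun i => by rw [← R60_tb, ← R60_tb, h]

theorem R60_tb_or (m s i : ℕ) : tb (m ||| (1 <<< s)) i = true ↔ tb m i = true ∨ i = s := by
  rw [R60_tb, R60_tb, Nat.one_shiftLeft, Nat.testBit_or, Nat.testBit_two_pow, Bool.or_eq_true,
    decide_eq_true_eq]
  exact or_congr_right eq_comm

theorem R60_tb_zero (i : ℕ) : tb 0 i = false := by
  rw [R60_tb, Nat.zero_testBit]

theorem R60_tb_lt {m n i : ℕ} (h : m < 2 ^ n) (hi : tb m i = true) : i < n := by
  by_contra h'
  have h1 : m < 2 ^ i := lt_of_lt_of_le h (Nat.pow_le_pow_right (by norm_num) (by omega))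
  rw [R60_tb, Nat.testBit_lt_two_pow h1] at hi
  exact Bool.false_ne_true hi

theorem R60_tb_full {n i : ℕ} (h : i < n) : tb (1 <<< n - 1) i = true := by
  rw [R60_tb, Nat.one_shiftLeft, Nat.testBit_two_pow_sub_one]
  simpa using h

theorem R60_pair_lt {a b n : ℕ} (hab : a < b) (hb : b < n) : 1 <<< a + 1 <<< b < 2 ^ n := by
  rw [Nat.one_shiftLeft, Nat.one_shiftLeft]
  have h1 : 2 ^ a < 2 ^ b := Nat.pow_lt_pow_right (by norm_num) hab
  have h2 : 2 ^ (b + 1) ≤ 2 ^ n := Nat.pow_le_pow_right (by norm_num) hb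
  rw [pow_succ] at h2
  omega

theorem R60_pair_tb_aux {a b e : ℕ} (hab : a < b) (h : tb (2 ^ b + 2 ^ a) e = true) :
    e = a ∨ e = b := by
  have h1 : 2 ^ a < 2 ^ b := Nat.pow_lt_pow_right (by norm_num) hab
  have h2 := Nat.two_pow_add_eq_or_of_lt h1 1
  rw [mul_one] at h2
  rw [h2, R60_tb, Nat.testBit_or, Nat.testBit_two_pow, Nat.testBit_two_pow] at h
  simp only [Bool.or_eq_true, decide_eq_true_eq] at h
  omega

theorem R60_pair_tb {a b e : ℕ} (hab : a ≠ b) (h : tb (1 <<< a + 1 <<< b) e = true) :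
    e = a ∨ e = b := by
  rw [Nat.one_shiftLeft, Nat.one_shiftLeft] at h
  rcases lt_or_gt_of_ne hab with h1 | h1
  · rw [add_comm] at h
    exact R60_pair_tb_aux h1 h
  · exact (R60_pair_tb_aux h1 h).symm

theorem R60_mem_triples {m : ℕ} {t : ℕ × ℕ × ℕ} :
    t ∈ triples m ↔ t.1 < t.2.1 ∧ t.2.1 < t.2.2 ∧ t.2.2 < m := by
  obtain ⟨i, j, k⟩ := t
  simp only [triples, List.mem_flatMap, List.mem_map, List.mem_range, Prod.mk.injEq]
  constructor
  · rintro ⟨k', hk, j', hj, i', hi, rfl, rfl, rfl⟩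
    exact ⟨hi, hj, hk⟩
  · rintro ⟨h1, h2, h3⟩
    exact ⟨k, h3, j, h2, i, h1, rfl, rfl, rfl⟩

theorem R60_sameList {A B : List ℕ} (h : sameList A B = true) (m : ℕ) : m ∈ A ↔ m ∈ B := by
  simp only [sameList, Bool.and_eq_true, List.all_eq_true, List.any_eq_true, Nat.beq_eq] at h
  constructor
  · intro hm
    obtain ⟨x, hx, rfl⟩ := h.1 m hm
    exact hx
  · intro hm
    obtain ⟨x, hx, rfl⟩ := h.2 m hm
    exact hx

/-! ### validity -/

/-- what `valid3` says -/
structure V3 (c : Code) (nl nL T LM : ℕ) : Prop where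
  lines : ∀ m, (∃ i < nl, pm LM i = m) ↔ m ∈ c.2.1
  lt : ∀ l ∈ c.2.1, l < 2 ^ c.1
  nL_lt : nL < 127
  nl_le : nl ≤ nL
  ln_lt : ∀ a < c.1, ∀ b < c.1, a ≠ b → ln T a b < nL
  left : ∀ a < c.1, ∀ b < c.1, a ≠ b → tb (pm LM (ln T a b)) a = true
  right : ∀ a < c.1, ∀ b < c.1, a ≠ b → tb (pm LM (ln T a b)) b = true
  col : ∀ a < c.1, ∀ b < c.1, a ≠ b → ∀ e < c.1, e ≠ a → e ≠ b →
    tb (pm LM (ln T a b)) e = colC c a b e
  short : ∀ a < c.1, ∀ b < c.1, a ≠ b → ln T a b < nl ∨ pm LM (ln T a b) = 1 <<< a + 1 <<< b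
  surj : ∀ i < nL, ∃ b < c.1, ∃ a < b, ln T a b = i

theorem R60_V3 {c : Code} {nl nL T LM : ℕ} (h : valid3 c nl nL T LM = true) :
    V3 c nl nL T LM := by
  simp only [valid3, Bool.and_eq_true] at h
  obtain ⟨⟨⟨⟨⟨⟨h1, h2⟩, h3⟩, h4⟩, h5⟩, h6⟩, h7⟩ := h
  have h1' := R60_sameList h1
  rw [Nat.blt_eq] at h2 h4
  rw [Nat.ble_eq] at h3
  have key : ∀ a < c.1, ∀ b < c.1, a ≠ b → (ln T a b = ln T b a ∧ ln T a b < nL ∧
      tb (pm LM (ln T a b)) a = true ∧ tb (pm LM (ln T a b)) b = true ∧
      (∀ e < c.1, e ≠ a → e ≠ b → tb (pm LM (ln T a b)) e = colC c a b e) ∧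
      (ln T a b < nl ∨ pm LM (ln T a b) = 1 <<< a + 1 <<< b)) := by
    intro a ha b hb hab
    have h8 := List.all_eq_true.mp h6 a (List.mem_range.mpr ha)
    have h9 := List.all_eq_true.mp h8 b (List.mem_range.mpr hb)
    have hne : Nat.beq a b = false := by
      by_contra hc
      rw [Bool.not_eq_false, Nat.beq_eq] at hc
      exact hab hc
    rw [hne, cond_false] at h9
    simp only [Bool.and_eq_true, Bool.or_eq_true, List.all_eq_true, List.mem_range, Nat.beq_eq,
      Nat.blt_eq, beq_iff_eq] at h9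
    obtain ⟨⟨⟨⟨⟨h10, h11⟩, h12⟩, h13⟩, h14⟩, h15⟩ := h9
    refine ⟨h10, h11, h12, h13, fun e he h1 h2 => ?_, h15⟩
    rcases h14 e he with (h | h) | h
    · exact absurd h h1
    · exact absurd h h2
    · exact h
  exact
    { lines := fun m => by
        rw [← h1' m]
        simp only [List.mem_map, List.mem_range]
      lt := fun l hl => by
        have := List.all_eq_true.mp h5 l hl
        rwa [Nat.blt_eq, Nat.one_shiftLeft] at this
      nL_lt := h2
      nl_le := h3
      ln_lt := fun a ha b hb hab => (key a ha b hb hab).2.1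
      left := fun a ha b hb hab => (key a ha b hb hab).2.2.1
      right := fun a ha b hb hab => (key a ha b hb hab).2.2.2.1
      col := fun a ha b hb hab => (key a ha b hb hab).2.2.2.2.1
      short := fun a ha b hb hab => (key a ha b hb hab).2.2.2.2.2
      surj := fun i hi => by
        have h8 := List.all_eq_true.mp h7 i (List.mem_range.mpr hi)
        simp only [List.any_eq_true, List.mem_range, Nat.beq_eq] at h8
        obtain ⟨b, hb, a, ha, h9⟩ := h8
        exact ⟨b, hb, a, ha, h9⟩ }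

theorem V3.pm_lt {c : Code} {nl nL T LM : ℕ} (h : V3 c nl nL T LM) {i : ℕ} (hi : i < nL) :
    pm LM i < 2 ^ c.1 := by
  obtain ⟨b, hb, a, hab, rfl⟩ := h.surj i hi
  rcases h.short a (by omega) b hb (by omega) with h1 | h1
  · exact h.lt _ ((h.lines _).mp ⟨_, h1, rfl⟩)
  · rw [h1]
    exact R60_pair_lt hab hb

/-! ### images of masks -/

theorem R60_img_aux (Y m : ℕ) (l : List ℕ) : ∀ s e : ℕ,
    tb (l.foldl (fun s i => bif tb m i then s ||| (1 <<< dg Y i) else s) s) e = true ↔
      tb s e = true ∨ ∃ i ∈ l, tb m i = true ∧ e = dg Y i := by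
  induction l with
  | nil => intro s e; simp
  | cons x l ih =>
    intro s e
    rw [List.foldl_cons, ih]
    cases hx : tb m x with
    | true =>
      rw [cond_true, R60_tb_or]
      simp only [List.mem_cons, exists_eq_or_imp, hx, true_and]
      tauto
    | false =>
      rw [cond_false]
      simp only [List.mem_cons, exists_eq_or_imp, hx, Bool.false_eq_true, false_and, false_or]

theorem R60_img {n Y m e : ℕ} :
    tb (img n Y m) e = true ↔ ∃ i < n + 1, tb m i = true ∧ e = dg Y i := by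
  rw [img, R60_img_aux]
  simp [R60_tb_zero]

end

section

variable {α : Type*}

/-! ### collinear points in a simple matroid -/

theorem R60_mem_cl {N : Matroid α} (hs : Simp N) {x y z : α} (hx : x ∈ N.E) (hy : y ∈ N.E)
    (hz : z ∈ N.E) (hxy : x ≠ y) : z ∈ N.closure {x, y} ↔ ¬ Is3 N x y z := by
  have hI : N.Indep {x, y} := hs x hx y hy
  have he : insert z ({x, y} : Set α) = {x, y, z} := by
    ext w
    simp only [Set.mem_insert_iff, Set.mem_singleton_iff]
    tauto
  rw [hI.mem_closure_iff', he, Is3]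
  constructor
  · rintro ⟨_, h⟩ ⟨h1, _, h2, h3⟩
    rcases h h1 with h4 | h4
    · exact h2 h4.symm
    · exact h3 h4.symm
  · intro h
    refine ⟨hz, fun h1 => ?_⟩
    by_contra h2
    simp only [Set.mem_insert_iff, Set.mem_singleton_iff, not_or] at h2
    exact h ⟨h1, hxy, fun h3 => h2.1 h3.symm, fun h3 => h2.2 h3.symm⟩

theorem R60_cl_eq {N : Matroid α} (hs : Simp N) {x y z w : α} (hx : x ∈ N.E) (hy : y ∈ N.E)
    (hz : z ∈ N.closure {x, y}) (hw : w ∈ N.closure {x, y}) (hzw : z ≠ w) :
    N.closure {z, w} = N.closure {x, y} := by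
  have hzE : z ∈ N.E := N.closure_subset_ground _ hz
  have hwE : w ∈ N.E := N.closure_subset_ground _ hw
  have hI : N.Indep {z, w} := hs z hzE w hwE
  have hJ : N.Indep {x, y} := hs x hx y hy
  have h1 : N.IsBasis {z, w} (N.closure {x, y}) := by
    refine hI.isBasis_of_eRk_ge (by simp) ?_ ?_
    · intro v hv
      rcases hv with rfl | rfl
      · exact hz
      · exact hw
    · rw [N.eRk_closure_eq, hI.eRk_eq_encard, hJ.eRk_eq_encard, Set.encard_pair hzw]
      refine (Set.encard_insert_le _ _).trans ?_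
      rw [Set.encard_singleton, one_add_one_eq_two]
  rw [h1.closure_eq_closure, N.closure_closure]

theorem R60_is3_swap {N : Matroid α} {x y z : α} (h : Is3 N x y z) : Is3 N y x z := by
  obtain ⟨h1, h2, h3, h4⟩ := h
  refine ⟨?_, h2.symm, h4, h3⟩
  rwa [Set.insert_comm]

theorem R60_is3_rot {N : Matroid α} {x y z : α} (h : Is3 N x y z) : Is3 N y z x := by
  obtain ⟨h1, h2, h3, h4⟩ := h
  refine ⟨?_, h4, h2.symm, h3.symm⟩
  have : ({y, z, x} : Set α) = {x, y, z} := by
    ext w
    simp only [Set.mem_insert_iff, Set.mem_singleton_iff]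
    tauto
  rwa [this]

/-- The situation of an extension in rank three. -/
structure Ctx3 (N : Matroid α) (g : ℕ → α) (n : ℕ) (c : Code) (nl nL T LM : ℕ) : Prop where
  inj : Set.InjOn g {i | i < n + 1}
  ground : N.E = g '' {i | i < n + 1}
  simp : Simp N
  rank : N.eRank = 3
  p3 : P3 N
  code : GCode3 (N ＼ {g n}) g c
  card : c.1 = n
  val : V3 c nl nL T LM

variable {N : Matroid α} {g : ℕ → α} {n : ℕ} {c : Code} {nl nL T LM I O : ℕ}

theorem Ctx3.mem (h : Ctx3 N g n c nl nL T LM) {i : ℕ} (hi : i ≤ n) : g i ∈ N.E := by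
  rw [h.ground]
  exact ⟨i, Nat.lt_succ_of_le hi, rfl⟩

theorem Ctx3.ne (h : Ctx3 N g n c nl nL T LM) {i j : ℕ} (hi : i ≤ n) (hj : j ≤ n) (hij : i ≠ j) :
    g i ≠ g j := fun e => hij (h.inj (Nat.lt_succ_of_le hi) (Nat.lt_succ_of_le hj) e)

/-- independence of old points does not see the deletion -/
theorem Ctx3.old (h : Ctx3 N g n c nl nL T LM) {i j k : ℕ} (hi : i < n) (hj : j < n) (hk : k < n) :
    (N ＼ {g n}).Indep {g i, g j, g k} ↔ N.Indep {g i, g j, g k} := by
  rw [delete_indep_iff]
  refine and_iff_left_of_imp fun _ => ?_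
  rw [Set.disjoint_singleton_right]
  simp only [Set.mem_insert_iff, Set.mem_singleton_iff, not_or]
  exact ⟨(h.ne hi.le le_rfl hi.ne).symm, (h.ne hj.le le_rfl hj.ne).symm,
    (h.ne hk.le le_rfl hk.ne).symm⟩

theorem Ctx3.sorted (h : Ctx3 N g n c nl nL T LM) {i j k : ℕ} (hij : i < j) (hjk : j < k)
    (hk : k < n) : Is3 N (g i) (g j) (g k) ↔ colC c i j k = false := by
  rw [← h.code.trip i j k hij hjk (by rw [h.card]; exact hk),
    h.old (by omega) (by omega) hk, Is3]
  exact and_iff_left ⟨h.ne (by omega) (by omega) (by omega), h.ne (by omega) (by omega) (by omega),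
    h.ne (by omega) (by omega) (by omega)⟩

theorem R60_colC_swap (c : Code) (i j k : ℕ) : colC c i j k = colC c j i k := by
  unfold colC
  congr 1
  funext l
  cases tb l i <;> cases tb l j <;> rfl

theorem R60_colC_rot (c : Code) (i j k : ℕ) : colC c i j k = colC c j k i := by
  unfold colC
  congr 1
  funext l
  cases tb l i <;> cases tb l j <;> cases tb l k <;> rfl

theorem R60_is3_swap_iff {x y z : α} : Is3 N x y z ↔ Is3 N y x z :=
  ⟨R60_is3_swap, R60_is3_swap⟩

theorem R60_is3_rot_iff {x y z : α} : Is3 N x y z ↔ Is3 N y z x :=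
  ⟨R60_is3_rot, fun h => R60_is3_rot (R60_is3_rot h)⟩

theorem Ctx3.trip (h : Ctx3 N g n c nl nL T LM) {i j k : ℕ} (hi : i < n) (hj : j < n) (hk : k < n)
    (hij : i ≠ j) (hik : i ≠ k) (hjk : j ≠ k) :
    Is3 N (g i) (g j) (g k) ↔ colC c i j k = false := by
  rcases lt_or_gt_of_ne hij with h1 | h1 <;> rcases lt_or_gt_of_ne hik with h2 | h2 <;>
    rcases lt_or_gt_of_ne hjk with h3 | h3
  · exact h.sorted h1 h3 hk
  · rw [R60_is3_rot_iff, R60_is3_swap_iff, R60_is3_rot_iff, R60_is3_rot_iff, R60_colC_rot,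
      R60_colC_swap, R60_colC_rot, R60_colC_rot]
    exact h.sorted h2 h3 hj
  · omega
  · rw [R60_is3_rot_iff, R60_is3_rot_iff, R60_colC_rot, R60_colC_rot]
    exact h.sorted h2 h1 hj
  · rw [R60_is3_swap_iff, R60_colC_swap]
    exact h.sorted h1 h2 hk
  · omega
  · rw [R60_is3_rot_iff, R60_colC_rot]
    exact h.sorted h3 h2 hi
  · rw [R60_is3_rot_iff, R60_is3_swap_iff, R60_colC_rot, R60_colC_swap]
    exact h.sorted h3 h1 hi

/-- the line through `g a` and `g b` -/
theorem Ctx3.on_iff (h : Ctx3 N g n c nl nL T LM) {a b e : ℕ} (ha : a < n) (hb : b < n)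
    (hab : a ≠ b) (he : e < n) :
    g e ∈ N.closure {g a, g b} ↔ tb (pm LM (ln T a b)) e = true := by
  have hc := h.card
  by_cases h1 : e = a
  · subst h1
    refine iff_of_true ?_ (h.val.left e (by omega) b (by omega) hab)
    exact N.mem_closure_of_mem' (by simp) (h.mem ha.le)
  by_cases h2 : e = b
  · subst h2
    refine iff_of_true ?_ (h.val.right a (by omega) e (by omega) hab)
    exact N.mem_closure_of_mem' (by simp) (h.mem hb.le)
  rw [R60_mem_cl h.simp (h.mem ha.le) (h.mem hb.le) (h.mem he.le) (h.ne ha.le hb.le hab),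
    h.trip ha hb he hab (Ne.symm h1) (Ne.symm h2),
    h.val.col a (by omega) b (by omega) hab e (by omega) h1 h2, Bool.not_eq_false]

/-- the line with number `i` -/
def Lin (N : Matroid α) (g : ℕ → α) (n T i : ℕ) : Set α :=
  {x | ∃ a b, a < n ∧ b < n ∧ a ≠ b ∧ ln T a b = i ∧ x ∈ N.closure {g a, g b}}

theorem Ctx3.cl_eq (h : Ctx3 N g n c nl nL T LM) {a b a' b' : ℕ} (ha : a < n) (hb : b < n)
    (hab : a ≠ b) (ha' : a' < n) (hb' : b' < n) (hab' : a' ≠ b') (he : ln T a b = ln T a' b') :
    N.closure {g a', g b'} = N.closure {g a, g b} := by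
  have hc := h.card
  refine R60_cl_eq h.simp (h.mem ha.le) (h.mem hb.le) ?_ ?_ (h.ne ha'.le hb'.le hab')
  · rw [h.on_iff ha hb hab ha', he]
    exact h.val.left a' (by omega) b' (by omega) hab'
  · rw [h.on_iff ha hb hab hb', he]
    exact h.val.right a' (by omega) b' (by omega) hab'

theorem Ctx3.lin_eq (h : Ctx3 N g n c nl nL T LM) {a b : ℕ} (ha : a < n) (hb : b < n)
    (hab : a ≠ b) : Lin N g n T (ln T a b) = N.closure {g a, g b} := by
  ext x
  constructor
  · rintro ⟨a', b', ha', hb', hab', he, hx⟩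
    rwa [h.cl_eq ha hb hab ha' hb' hab' he.symm] at hx
  · intro hx
    exact ⟨a, b, ha, hb, hab, rfl, hx⟩

theorem Ctx3.exists_pair (h : Ctx3 N g n c nl nL T LM) {i : ℕ} (hi : i < nL) :
    ∃ a b, a < n ∧ b < n ∧ a ≠ b ∧ ln T a b = i := by
  obtain ⟨b, hb, a, hab, he⟩ := h.val.surj i hi
  have hc := h.card
  exact ⟨a, b, by omega, by omega, by omega, he⟩

theorem Ctx3.tb_iff (h : Ctx3 N g n c nl nL T LM) {i e : ℕ} (hi : i < nL) (he : e < n) :
    tb (pm LM i) e = true ↔ g e ∈ Lin N g n T i := by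
  obtain ⟨a, b, ha, hb, hab, rfl⟩ := h.exists_pair hi
  rw [h.lin_eq ha hb hab, h.on_iff ha hb hab he]

theorem Ctx3.tb_lt (h : Ctx3 N g n c nl nL T LM) {i e : ℕ} (hi : i < nL)
    (he : tb (pm LM i) e = true) : e < n := by
  have := R60_tb_lt (h.val.pm_lt hi) he
  rwa [h.card] at this

/-- two points of a line determine it -/
theorem Ctx3.lin_of_two (h : Ctx3 N g n c nl nL T LM) {i : ℕ} (hi : i < nL) {x y : α}
    (hx : x ∈ Lin N g n T i) (hy : y ∈ Lin N g n T i) (hxy : x ≠ y) :
    Lin N g n T i = N.closure {x, y} := by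
  obtain ⟨a, b, ha, hb, hab, rfl⟩ := h.exists_pair hi
  rw [h.lin_eq ha hb hab] at hx hy ⊢
  exact (R60_cl_eq h.simp (h.mem ha.le) (h.mem hb.le) hx hy hxy).symm

/-- The state `(I, O)` is correct. -/
def St3 (N : Matroid α) (g : ℕ → α) (n nL T I O : ℕ) : Prop :=
  (∀ i, tb I i = true → i < nL ∧ g n ∈ Lin N g n T i) ∧
    ∀ i, tb O i = true → i < nL ∧ g n ∉ Lin N g n T i

theorem Ctx3.ln_lt (h : Ctx3 N g n c nl nL T LM) {a b : ℕ} (ha : a < n) (hb : b < n)
    (hab : a ≠ b) : ln T a b < nL := by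
  have hc := h.card
  exact h.val.ln_lt a (by omega) b (by omega) hab

theorem Ctx3.beq127 (h : Ctx3 N g n c nl nL T LM) {a b : ℕ} (ha : a < n) (hb : b < n)
    (hab : a ≠ b) : Nat.beq (ln T a b) 127 = false := by
  have h1 := h.ln_lt ha hb hab
  have h2 := h.val.nL_lt
  by_contra h3
  rw [Bool.not_eq_false, Nat.beq_eq] at h3
  omega

theorem Ctx3.depE3 (h : Ctx3 N g n c nl nL T LM) (hS : St3 N g n nL T I O) {a b : ℕ} (ha : a < n)
    (hb : b < n) (hab : a ≠ b) :
    (depE3 T I O a b = 0 → Is3 N (g a) (g b) (g n)) ∧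
      (depE3 T I O a b = 1 → ¬ Is3 N (g a) (g b) (g n)) := by
  have hcl := R60_mem_cl h.simp (h.mem ha.le) (h.mem hb.le) (h.mem le_rfl)
    (h.ne ha.le hb.le hab)
  rw [Ca3.C4.depE3, h.beq127 ha hb hab, cond_false]
  cases hI : tb I (ln T a b) with
  | true =>
    rw [cond_true]
    refine ⟨fun h1 => absurd h1 (by norm_num), fun _ => ?_⟩
    rw [← hcl, ← h.lin_eq ha hb hab]
    exact (hS.1 _ hI).2
  | false =>
    rw [cond_false]
    cases hO : tb O (ln T a b) with
    | true =>
      rw [cond_true]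
      refine ⟨fun _ => ?_, fun h1 => absurd h1 (by norm_num)⟩
      rw [← not_not (a := Is3 N (g a) (g b) (g n)), ← hcl, ← h.lin_eq ha hb hab]
      exact (hS.2 _ hO).2
    | false =>
      rw [cond_false]
      exact ⟨fun h1 => absurd h1 (by norm_num), fun h1 => absurd h1 (by norm_num)⟩

theorem Ctx3.depR3 (h : Ctx3 N g n c nl nL T LM) {a b e : ℕ} (ha : a < n) (hb : b < n)
    (he : e < n) (hab : a ≠ b) :
    (depR3 T LM a b e = 0 → Is3 N (g a) (g b) (g e)) ∧
      (depR3 T LM a b e = 1 → ¬ Is3 N (g a) (g b) (g e)) := by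
  have hcl := R60_mem_cl h.simp (h.mem ha.le) (h.mem hb.le) (h.mem he.le)
    (h.ne ha.le hb.le hab)
  have hon := h.on_iff ha hb hab he
  rw [Ca3.C4.depR3, h.beq127 ha hb hab, cond_false]
  cases hI : tb (pm LM (ln T a b)) e with
  | true =>
    rw [cond_true]
    refine ⟨fun h1 => absurd h1 (by norm_num), fun _ => ?_⟩
    rw [← hcl, hon]
    exact hI
  | false =>
    rw [cond_false]
    refine ⟨fun _ => ?_, fun h1 => absurd h1 (by norm_num)⟩
    rw [← not_not (a := Is3 N (g a) (g b) (g e)), ← hcl, hon, hI]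
    exact Bool.false_ne_true

theorem R60_beq_ne {a b : ℕ} (h : a ≠ b) : Nat.beq a b = false := by
  by_contra h3
  rw [Bool.not_eq_false, Nat.beq_eq] at h3
  exact h h3

theorem R60_beq_self (a : ℕ) : Nat.beq a a = true := by
  rw [Nat.beq_eq]

theorem Ctx3.dep3 (h : Ctx3 N g n c nl nL T LM) (hS : St3 N g n nL T I O) {a b e : ℕ} (ha : a ≤ n)
    (hb : b ≤ n) (he : e ≤ n) (hab : a ≠ b) (hae : a ≠ e) (hbe : b ≠ e) :
    (dep3 n T LM I O a b e = 0 → Is3 N (g a) (g b) (g e)) ∧
      (dep3 n T LM I O a b e = 1 → ¬ Is3 N (g a) (g b) (g e)) := by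
  rw [Ca3.C4.dep3]
  by_cases h1 : a = n
  · subst h1
    rw [R60_beq_self, cond_true, R60_is3_rot_iff]
    exact h.depE3 hS (by omega) (by omega) hbe
  rw [R60_beq_ne h1, cond_false]
  by_cases h2 : b = n
  · subst h2
    rw [R60_beq_self, cond_true, R60_is3_swap_iff, R60_is3_rot_iff]
    exact h.depE3 hS (by omega) (by omega) hae
  rw [R60_beq_ne h2, cond_false]
  by_cases h3 : e = n
  · subst h3
    rw [R60_beq_self, cond_true]
    exact h.depE3 hS (by omega) (by omega) hab
  rw [R60_beq_ne h3, cond_false]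
  exact h.depR3 (by omega) (by omega) (by omega) hab

end

section

variable {α : Type*} {N : Matroid α} {g : ℕ → α} {n : ℕ} {c : Code} {nl nL T LM I O : ℕ}

/-! ### the leaf checks -/

theorem R60_chkM (h : Ctx3 N g n c nl nL T LM) (hS : St3 N g n nL T I O) {i j a : ℕ}
    (hc : chkM3 LM I i j a = true) : False := by
  simp only [chkM3, Bool.and_eq_true, Bool.not_eq_true'] at hc
  obtain ⟨⟨⟨⟨h1, h2⟩, h3⟩, h4⟩, h5⟩ := hc
  obtain ⟨hi, hgi⟩ := hS.1 i h1
  obtain ⟨hj, hgj⟩ := hS.1 j h2
  have ha : a < n := h.tb_lt hi h4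
  have hne : g a ≠ g n := h.ne ha.le le_rfl ha.ne
  have e1 := h.lin_of_two hi ((h.tb_iff hi ha).mp h4) hgi hne
  have e2 := h.lin_of_two hj ((h.tb_iff hj ha).mp h5) hgj hne
  have key : pm LM i = pm LM j := by
    refine R60_ext fun e => ?_
    rw [Bool.eq_iff_iff]
    constructor
    · intro he
      have hen := h.tb_lt hi he
      rw [h.tb_iff hi hen, e1] at he
      rw [h.tb_iff hj hen, e2]
      exact he
    · intro he
      have hen := h.tb_lt hj he
      rw [h.tb_iff hj hen, e2] at he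
      rw [h.tb_iff hi hen, e1]
      exact he
  rw [key, R60_beq_self] at h3
  exact Bool.noConfusion h3

theorem R60_dist {n k Y : ℕ} (h : dist n k Y = true) :
    (∀ i < k, dg Y i ≤ n) ∧ ∀ i < k, ∀ j < k, i ≠ j → dg Y i ≠ dg Y j := by
  simp only [dist, List.all_eq_true, List.mem_range, Bool.and_eq_true, Nat.ble_eq,
    Bool.not_eq_true'] at h
  have key : ∀ i < k, ∀ j < i, dg Y i ≠ dg Y j := by
    intro i hi j hj he
    have := (h i hi).2 j hj
    rw [he, R60_beq_self] at this
    exact Bool.noConfusion this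
  refine ⟨fun i hi => (h i hi).1, fun i hi j hj hij => ?_⟩
  rcases lt_or_gt_of_ne hij with h1 | h1
  · exact (key j hj i h1).symm
  · exact key i hi j h1

theorem R60_off {n k x Y : ℕ} (h : off n k x Y = true) : x ≤ n ∧ ∀ i < k, dg Y i ≠ x := by
  simp only [off, List.all_eq_true, List.mem_range, Bool.and_eq_true, Nat.ble_eq,
    Bool.not_eq_true'] at h
  refine ⟨h.1, fun i hi he => ?_⟩
  have := h.2 i hi
  rw [he, R60_beq_self] at this
  exact Bool.noConfusion this

theorem R60_chkD (h : Ctx3 N g n c nl nL T LM) (hS : St3 N g n nL T I O) {a Y : ℕ}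
    (hc : chkD3 n T LM I O a Y = true) : False := by
  simp only [chkD3, Bool.and_eq_true, List.all_eq_true, List.mem_range, Nat.beq_eq] at hc
  obtain ⟨⟨h1, h2⟩, h3⟩ := hc
  obtain ⟨d1, d2⟩ := R60_dist h1
  obtain ⟨o1, o2⟩ := R60_off h2
  refine h.p3.deg (g a) (fun i => g (dg Y i)) fun i hi j hj => ?_
  exact (h.dep3 hS o1 (d1 j (by omega)) (d1 i hi) (o2 j (by omega)).symm (o2 i hi).symm
    (d2 j (by omega) i hi (by omega))).1 (h3 i hi j hj)

theorem R60_mem_patT {t : ℕ} {s : ℕ × ℕ × ℕ × ℕ} (hs : s ∈ patT t) :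
    s.1 < s.2.1 ∧ s.2.1 < s.2.2.1 ∧ s.2.2.1 < (pat t).1 ∧ (s.2.2.2 = 0 ∨ s.2.2.2 = 1) := by
  simp only [patT, List.mem_map] at hs
  obtain ⟨x, hx, rfl⟩ := hs
  obtain ⟨h1, h2, h3⟩ := R60_mem_triples.mp hx
  refine ⟨h1, h2, h3, ?_⟩
  cases (pat t).2.any fun l => tb l x.1 && tb l x.2.1 && tb l x.2.2
  · exact Or.inl rfl
  · exact Or.inr rfl

theorem R60_chkF' (h : Ctx3 N g n c nl nL T LM) (hS : St3 N g n nL T I O) {t Y : ℕ} (ht : t < 5)
    (hc : chkF3 n T LM I O t Y = true) : False := by
  simp only [chkF3, Bool.and_eq_true, List.all_eq_true, Nat.beq_eq] at hc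
  obtain ⟨h1, h3⟩ := hc
  obtain ⟨d1, d2⟩ := R60_dist h1
  refine h.p3.noPat t ht (fun i => g (dg Y i)) (fun i hi => h.mem (d1 i hi)) fun s hs => ?_
  obtain ⟨s1, s2, s3, s4⟩ := R60_mem_patT hs
  have key := h.dep3 hS (d1 s.1 (by omega)) (d1 s.2.1 (by omega)) (d1 s.2.2.1 s3)
    (d2 s.1 (by omega) s.2.1 (by omega) (by omega)) (d2 s.1 (by omega) s.2.2.1 s3 (by omega))
    (d2 s.2.1 (by omega) s.2.2.1 s3 (by omega))
  have h4 := h3 s hs
  rcases s4 with s4 | s4
  · rw [s4] at h4
    exact iff_of_true (key.1 h4) s4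
  · rw [s4] at h4
    exact iff_of_false (key.2 h4) (by rw [s4]; norm_num)

theorem R60_pat (t : ℕ) : ∃ t' < 5, pat t = pat t' := by
  by_cases h : t < 4
  · exact ⟨t, by omega, rfl⟩
  · obtain ⟨k, rfl⟩ := Nat.exists_eq_add_of_le (not_lt.mp h)
    refine ⟨4, by norm_num, ?_⟩
    rw [add_comm]
    rfl

theorem R60_chkF (h : Ctx3 N g n c nl nL T LM) (hS : St3 N g n nL T I O) {t Y : ℕ}
    (hc : chkF3 n T LM I O t Y = true) : False := by
  obtain ⟨t', ht', e⟩ := R60_pat t
  refine R60_chkF' h hS ht' (Y := Y) ?_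
  rw [chkF3, patT, e] at hc
  rw [chkF3, patT]
  exact hc

/-! ### isomorphism -/

theorem R60_mem_newL {m : ℕ} : m ∈ newL n nl nL LM I ↔ ∃ i < nL,
    (tb I i = true ∧ m = pm LM i ||| (1 <<< n)) ∨ (tb I i = false ∧ i < nl ∧ m = pm LM i) := by
  simp only [newL, List.mem_filterMap, List.mem_range]
  refine exists_congr fun i => and_congr_right fun _ => ?_
  cases hI : tb I i with
  | true =>
    rw [cond_true]
    simp [eq_comm]
  | false =>
    rw [cond_false]
    by_cases h : i < nl
    · have : Nat.blt i nl = true := by rwa [Nat.blt_eq]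
      rw [this, cond_true]
      simp [eq_comm, h]
    · have : Nat.blt i nl = false := by
        by_contra hh
        rw [Bool.not_eq_false, Nat.blt_eq] at hh
        exact h hh
      rw [this, cond_false]
      simp [h]

/-- the new point is decided -/
theorem R60_dec (hS : St3 N g n nL T I O) (hIO : I ||| O = 1 <<< nL - 1) {i : ℕ} (hi : i < nL)
    (hg : g n ∈ Lin N g n T i) : tb I i = true := by
  have h1 : tb (I ||| O) i = true := by
    rw [hIO]
    exact R60_tb_full hi
  rw [R60_tb, Nat.testBit_or, Bool.or_eq_true, ← R60_tb, ← R60_tb] at h1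
  rcases h1 with h1 | h1
  · exact h1
  · exact absurd hg (hS.2 i h1).2

theorem R60_long_new (h : Ctx3 N g n c nl nL T LM) (hS : St3 N g n nL T I O)
    (hIO : I ||| O = 1 <<< nL - 1) {a b : ℕ} (ha : a < n) (hb : b < n) (hab : a ≠ b)
    (hd : ¬ Is3 N (g a) (g b) (g n)) :
    ∃ m ∈ newL n nl nL LM I, tb m a = true ∧ tb m b = true ∧ tb m n = true := by
  have hi := h.ln_lt ha hb hab
  have hc := h.card
  have h1 : g n ∈ Lin N g n T (ln T a b) := by
    rw [h.lin_eq ha hb hab, R60_mem_cl h.simp (h.mem ha.le) (h.mem hb.le) (h.mem le_rfl)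
      (h.ne ha.le hb.le hab)]
    exact hd
  have h2 := R60_dec hS hIO hi h1
  refine ⟨_, R60_mem_newL.mpr ⟨_, hi, Or.inl ⟨h2, rfl⟩⟩, ?_, ?_, ?_⟩
  · exact (R60_tb_or _ _ _).mpr (Or.inl (h.val.left a (by omega) b (by omega) hab))
  · exact (R60_tb_or _ _ _).mpr (Or.inl (h.val.right a (by omega) b (by omega) hab))
  · exact (R60_tb_or _ _ _).mpr (Or.inr rfl)

theorem R60_long_old (h : Ctx3 N g n c nl nL T LM) {a b e : ℕ} (ha : a < n) (hb : b < n)
    (he : e < n) (hab : a ≠ b) (hae : a ≠ e) (hbe : b ≠ e) (hd : ¬ Is3 N (g a) (g b) (g e)) :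
    ∃ m ∈ newL n nl nL LM I, tb m a = true ∧ tb m b = true ∧ tb m e = true := by
  have hi := h.ln_lt ha hb hab
  have hc := h.card
  have h1 : tb (pm LM (ln T a b)) e = true := by
    rw [← h.on_iff ha hb hab he, R60_mem_cl h.simp (h.mem ha.le) (h.mem hb.le) (h.mem he.le)
      (h.ne ha.le hb.le hab)]
    exact hd
  have h2 := h.val.left a (by omega) b (by omega) hab
  have h3 := h.val.right a (by omega) b (by omega) hab
  cases hI : tb I (ln T a b) with
  | true =>
    exact ⟨_, R60_mem_newL.mpr ⟨_, hi, Or.inl ⟨hI, rfl⟩⟩, (R60_tb_or _ _ _).mpr (Or.inl h2),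
      (R60_tb_or _ _ _).mpr (Or.inl h3), (R60_tb_or _ _ _).mpr (Or.inl h1)⟩
  | false =>
    have h4 : ln T a b < nl := by
      rcases h.val.short a (by omega) b (by omega) hab with h4 | h4
      · exact h4
      · rw [h4] at h1
        rcases R60_pair_tb hab h1 with h5 | h5
        · exact absurd h5.symm hae
        · exact absurd h5.symm hbe
    exact ⟨_, R60_mem_newL.mpr ⟨_, hi, Or.inr ⟨hI, h4, rfl⟩⟩, h2, h3, h1⟩

theorem R60_key (h : Ctx3 N g n c nl nL T LM) (hS : St3 N g n nL T I O)
    (hIO : I ||| O = 1 <<< nL - 1) {a b e : ℕ} (ha : a ≤ n) (hb : b ≤ n) (he : e ≤ n)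
    (hab : a ≠ b) (hae : a ≠ e) (hbe : b ≠ e) :
    ¬ Is3 N (g a) (g b) (g e) ↔
      ∃ m ∈ newL n nl nL LM I, tb m a = true ∧ tb m b = true ∧ tb m e = true := by
  constructor
  · intro hd
    by_cases h1 : a = n
    · subst h1
      rw [R60_is3_rot_iff] at hd
      obtain ⟨m, hm, x, y, z⟩ := R60_long_new h hS hIO (by omega) (by omega) hbe hd
      exact ⟨m, hm, z, x, y⟩
    by_cases h2 : b = n
    · subst h2
      rw [R60_is3_swap_iff, R60_is3_rot_iff] at hd
      obtain ⟨m, hm, x, y, z⟩ := R60_long_new h hS hIO (by omega) (by omega) hae hd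
      exact ⟨m, hm, x, z, y⟩
    by_cases h3 : e = n
    · subst h3
      exact R60_long_new h hS hIO (by omega) (by omega) hab hd
    exact R60_long_old h (by omega) (by omega) (by omega) hab hae hbe hd
  · rintro ⟨m, hm, x, y, z⟩
    obtain ⟨i, hi, hm⟩ := R60_mem_newL.mp hm
    have key : ∀ u, u ≤ n → tb m u = true → g u ∈ Lin N g n T i := by
      intro u hu hmu
      rcases hm with ⟨hI, rfl⟩ | ⟨_, _, rfl⟩
      · rcases (R60_tb_or _ _ _).mp hmu with h1 | h1
        · exact (h.tb_iff hi (h.tb_lt hi h1)).mp h1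
        · subst h1
          exact (hS.1 i hI).2
      · exact (h.tb_iff hi (h.tb_lt hi hmu)).mp hmu
    have h1 := h.lin_of_two hi (key a ha x) (key b hb y) (h.ne ha hb hab)
    have h2 := key e he z
    rw [h1, R60_mem_cl h.simp (h.mem ha) (h.mem hb) (h.mem he) (h.ne ha hb hab)] at h2
    exact h2

theorem R60_chkI (h : Ctx3 N g n c nl nL T LM) (hS : St3 N g n nL T I O) {j Y : ℕ}
    (hc : chkI3 n nl nL LM I O j Y = true) : ∃ d ∈ codes3, ∃ g', GCode3 N g' d := by
  rw [chkI3] at hc
  split at hc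
  · exact absurd hc (by decide)
  rename_i d hd
  have hdm : d ∈ codes3 := List.mem_of_getElem? hd
  simp only [Bool.and_eq_true, List.all_eq_true, List.mem_range, Nat.beq_eq, Nat.blt_eq,
    Bool.not_eq_true'] at hc
  obtain ⟨⟨⟨h1, hIO⟩, h3⟩, h4⟩ := hc
  have hsame := R60_sameList h4
  have hlt : ∀ i < n + 1, dg Y i < n + 1 := fun i hi => (h3 i hi).1
  have hinj : ∀ i < n + 1, ∀ k < n + 1, dg Y i = dg Y k → i = k := by
    intro i hi k hk he
    by_contra hik
    rcases lt_or_gt_of_ne hik with h5 | h5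
    · have := (h3 k hk).2 i h5
      rw [← he, R60_beq_self] at this
      exact Bool.noConfusion this
    · have := (h3 i hi).2 k h5
      rw [he, R60_beq_self] at this
      exact Bool.noConfusion this
  have hsurj : ∀ k < n + 1, ∃ i < n + 1, dg Y i = k := by
    let F : Fin (n + 1) → Fin (n + 1) := fun i => ⟨dg Y i, hlt i i.2⟩
    have hF : Function.Injective F := by
      intro i k he
      exact Fin.ext (hinj i i.2 k k.2 (congrArg Fin.val he))
    intro k hk
    obtain ⟨i, hi⟩ := (Finite.injective_iff_surjective.mp hF) ⟨k, hk⟩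
    exact ⟨i, i.2, congrArg Fin.val hi⟩
  choose! τ hτ1 hτ2 using hsurj
  have hτ : ∀ i < n + 1, ∀ k < n + 1, i ≠ k → τ i ≠ τ k := by
    intro i hi k hk hik he
    exact hik (by rw [← hτ2 i hi, ← hτ2 k hk, he])
  refine ⟨d, hdm, fun i => g (τ i), ?_⟩
  have htb : ∀ m a, a < n + 1 → (tb (img n Y m) (dg Y a) = true ↔ tb m a = true) := by
    intro m a ha
    rw [R60_img]
    constructor
    · rintro ⟨i, hi, hm, he⟩
      rwa [hinj a ha i hi he]
    · intro hm
      exact ⟨a, ha, hm, rfl⟩
  exact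
    { inj := by
        intro i hi k hk he
        have hi' : i < n + 1 := by
          rw [← h1]
          exact hi
        have hk' : k < n + 1 := by
          rw [← h1]
          exact hk
        by_contra hik
        exact hτ i hi' k hk' hik (h.inj (hτ1 i hi') (hτ1 k hk') he)
      ground := by
        rw [h.ground, h1]
        ext x
        constructor
        · rintro ⟨i, hi, rfl⟩
          refine ⟨dg Y i, hlt i hi, ?_⟩
          have : τ (dg Y i) = i := hinj _ (hτ1 _ (hlt i hi)) _ hi (hτ2 _ (hlt i hi))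
          simp only [this]
        · rintro ⟨i, hi, rfl⟩
          exact ⟨τ i, hτ1 i hi, rfl⟩
      simp := h.simp
      rank := h.rank
      trip := by
        intro i j k hij hjk hk
        rw [h1] at hk
        have hi' : i < n + 1 := by omega
        have hj' : j < n + 1 := by omega
        have e1 := hτ i hi' j hj' (by omega)
        have e2 := hτ i hi' k hk (by omega)
        have e3 := hτ j hj' k hk (by omega)
        have l1 := hτ1 i hi'
        have l2 := hτ1 j hj'
        have l3 := hτ1 k hk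
        have key := R60_key h hS hIO (Nat.le_of_lt_succ l1) (Nat.le_of_lt_succ l2)
          (Nat.le_of_lt_succ l3) e1 e2 e3
        have key2 : (∃ m ∈ newL n nl nL LM I, tb m (τ i) = true ∧ tb m (τ j) = true ∧
            tb m (τ k) = true) ↔ colC d i j k = true := by
          simp only [colC, List.any_eq_true, Bool.and_eq_true]
          constructor
          · rintro ⟨m, hm, x, y, z⟩
            refine ⟨img n Y m, (hsame _).mp (List.mem_map_of_mem hm), ⟨?_, ?_⟩, ?_⟩
            · rw [← hτ2 i hi', htb m _ l1]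
              exact x
            · rw [← hτ2 j hj', htb m _ l2]
              exact y
            · rw [← hτ2 k hk, htb m _ l3]
              exact z
          · rintro ⟨l, hl, ⟨x, y⟩, z⟩
            obtain ⟨m, hm, rfl⟩ := List.mem_map.mp ((hsame l).mpr hl)
            refine ⟨m, hm, ?_, ?_, ?_⟩
            · rwa [← hτ2 i hi', htb m _ l1] at x
            · rwa [← hτ2 j hj', htb m _ l2] at y
            · rwa [← hτ2 k hk, htb m _ l3] at z
        have k3 := key.trans key2
        constructor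
        · intro hI
          by_contra hcc
          rw [Bool.not_eq_false] at hcc
          exact k3.mpr hcc ⟨hI, h.ne (Nat.le_of_lt_succ l1) (Nat.le_of_lt_succ l2) e1,
            h.ne (Nat.le_of_lt_succ l1) (Nat.le_of_lt_succ l3) e2,
            h.ne (Nat.le_of_lt_succ l2) (Nat.le_of_lt_succ l3) e3⟩
        · intro hcc
          by_contra hI
          have h5 := k3.mp fun h6 => hI h6.1
          rw [hcc] at h5
          exact Bool.noConfusion h5 }

end

section

variable {α : Type*} {N : Matroid α} {g : ℕ → α} {n : ℕ} {c : Code} {nl nL T LM I O : ℕ}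

/-! ### the certificate machine -/

theorem R60_run (h : Ctx3 N g n c nl nL T LM) : ∀ (f C I O x : ℕ), St3 N g n nL T I O →
    run3 n nl nL T LM f C I O = some x → ∃ d ∈ codes3, ∃ g', GCode3 N g' d := by
  intro f
  induction f with
  | zero =>
    intro C I O x _ h1
    simp [run3] at h1
  | succ f ih =>
    intro C I O x hS h1
    unfold run3 at h1
    simp only at h1
    split at h1
    · -- split
      cases hlt : Nat.blt ((C >>> 7) &&& 127) nL with
      | false =>
        rw [hlt, cond_false] at h1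
        exact absurd h1 (by simp)
      | true =>
        rw [hlt, cond_true] at h1
        rw [Nat.blt_eq] at hlt
        split at h1
        · exact absurd h1 (by simp)
        · rename_i C' h2
          by_cases hg : g n ∈ Lin N g n T ((C >>> 7) &&& 127)
          · refine ih _ _ _ _ ⟨fun i hi => ?_, hS.2⟩ h2
            rcases (R60_tb_or _ _ _).mp hi with h3 | rfl
            · exact hS.1 i h3
            · exact ⟨hlt, hg⟩
          · refine ih _ _ _ _ ⟨hS.1, fun i hi => ?_⟩ h1
            rcases (R60_tb_or _ _ _).mp hi with h3 | rfl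
            · exact hS.2 i h3
            · exact ⟨hlt, hg⟩
    · cases hc : chkM3 LM I ((C >>> 7) &&& 127) ((C >>> 14) &&& 127) ((C >>> 21) &&& 127) with
      | false =>
        rw [hc, cond_false] at h1
        exact absurd h1 (by simp)
      | true => exact (R60_chkM h hS hc).elim
    · cases hc : chkD3 n T LM I O ((C >>> 7) &&& 127) (take 6 (C >>> 14)).1 with
      | false =>
        rw [hc, cond_false] at h1
        exact absurd h1 (by simp)
      | true => exact (R60_chkD h hS hc).elim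
    · cases hc : chkF3 n T LM I O ((C >>> 7) &&& 127)
          (take (pat ((C >>> 7) &&& 127)).1 (C >>> 14)).1 with
      | false =>
        rw [hc, cond_false] at h1
        exact absurd h1 (by simp)
      | true => exact (R60_chkF h hS hc).elim
    · cases hc : chkI3 n nl nL LM I O ((C >>> 7) &&& 127) (take (n + 1) (C >>> 14)).1 with
      | false =>
        rw [hc, cond_false] at h1
        exact absurd h1 (by simp)
      | true => exact R60_chkI h hS hc
    · exact absurd h1 (by simp)

/-! ### restriction -/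

theorem R60_indep_del {e : α} {S : Set α} (hS : e ∉ S) : (N ＼ {e}).Indep S ↔ N.Indep S := by
  rw [delete_indep_iff]
  exact and_iff_left_of_imp fun _ => Set.disjoint_singleton_right.mpr hS

theorem R60_simp_del {e : α} (hs : Simp N) : Simp (N ＼ {e}) := by
  intro x hx y hy
  have h1 : x ∈ N.E \ {e} := hx
  have h2 : y ∈ N.E \ {e} := hy
  rw [R60_indep_del]
  · exact hs x h1.1 y h2.1
  · rintro (h | h)
    · exact h1.2 h.symm
    · exact h2.2 h.symm

theorem R60_is3_del {e x y z : α} (hx : x ≠ e) (hy : y ≠ e) (hz : z ≠ e) :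
    Is3 (N ＼ {e}) x y z ↔ Is3 N x y z := by
  rw [Is3, Is3, R60_indep_del]
  rintro (h | h | h)
  · exact hx h.symm
  · exact hy h.symm
  · exact hz h.symm

theorem R60_P3_del {e : α} (hP : P3 N) : P3 (N ＼ {e}) where
  deg := by
    intro a y h
    refine hP.deg a y fun i hi j hj => ?_
    obtain ⟨h1, h2⟩ := h i hi j hj
    exact ⟨(delete_indep_iff.mp h1).1, h2⟩
  noPat := by
    intro t ht y hy hs
    have h1 : ∀ i < (pat t).1, y i ∈ N.E \ {e} := hy
    refine hP.noPat t ht y (fun i hi => (h1 i hi).1) fun s hst => ?_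
    obtain ⟨s1, s2, s3, _⟩ := R60_mem_patT hst
    rw [← hs s hst, R60_is3_del]
    · exact (h1 _ (by omega)).2
    · exact (h1 _ (by omega)).2
    · exact (h1 _ s3).2

theorem R60_rank_del {e : α} (h3 : N.eRank = 3) {B : Set α} (hB : N.IsBase B) (he : e ∉ B) :
    (N ＼ {e}).eRank = 3 := by
  apply le_antisymm
  · obtain ⟨B', hB'⟩ := (N ＼ {e}).exists_isBase
    rw [← hB'.encard_eq_eRank, ← h3]
    exact (delete_indep_iff.mp hB'.indep).1.encard_le_eRank
  · rw [← h3, ← hB.encard_eq_eRank]
    exact ((R60_indep_del he).mpr hB.indep).encard_le_eRank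

theorem R60_base (hs : Simp N) (h3 : N.eRank = 3) (hE : N.E.encard = 3) :
    ∃ c ∈ codes3, ∃ g, GCode3 N g c := by
  obtain ⟨B, hB⟩ := N.exists_isBase
  have hBE : B = N.E := by
    refine Set.Finite.eq_of_subset_of_encard_le ?_ hB.subset_ground ?_
    · exact Set.finite_of_encard_eq_coe (k := 3) (by rw [hB.encard_eq_eRank, h3]; rfl)
    · rw [hE, hB.encard_eq_eRank, h3]
  obtain ⟨x, y, z, hxy, hxz, hyz, hxyz⟩ := Set.encard_eq_three.mp hE
  refine ⟨(3, [], []), by simp [codes3], fun i => if i = 0 then x else if i = 1 then y else z,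
    ?_, ?_, hs, h3, ?_⟩
  · intro i hi j hj he
    have hi' : i < 3 := hi
    have hj' : j < 3 := hj
    interval_cases i <;> interval_cases j <;> simp_all
  · rw [hxyz]
    ext w
    constructor
    · rintro (rfl | rfl | rfl)
      · exact ⟨0, by simp, by simp⟩
      · exact ⟨1, by simp, by simp⟩
      · exact ⟨2, by simp, by simp⟩
    · rintro ⟨i, hi, rfl⟩
      have hi' : i < 3 := hi
      interval_cases i <;> simp
  · intro i j k hij hjk hk
    have hk' : k < 3 := hk
    have e0 : i = 0 := by omega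
    have e1 : j = 1 := by omega
    have e2 : k = 2 := by omega
    subst e0 e1 e2
    refine iff_of_true ?_ rfl
    have : ({x, y, z} : Set α) = B := by rw [hBE, hxyz]
    simpa [this] using hB.indep

theorem R60_len : codes3.length = 23 := by decide

theorem R60_step (hs : Simp N) (h3 : N.eRank = 3) (hP : P3 N) {e : α} (he : e ∈ N.E)
    (hc : ∃ c ∈ codes3, ∃ g, GCode3 (N ＼ {e}) g c) :
    ∃ c ∈ codes3, ∃ g, GCode3 N g c := by
  obtain ⟨c, hcm, g, hg⟩ := hc
  obtain ⟨j, hj, rfl⟩ := List.getElem_of_mem hcm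
  rw [R60_len] at hj
  obtain ⟨nl, nL, T, LM, C, x, hv, hx⟩ := exts3 j hj
  have hget : getC3 j = codes3[j] := by
    rw [getC3]
    exact List.getD_eq_getElem _ _ (by rw [R60_len]; exact hj)
  rw [hget] at hv hx
  set c := codes3[j] with hcdef
  have hgE : ∀ i, i < c.1 → g i ∈ N.E \ {e} := by
    intro i hi
    have h1 : (N ＼ {e}).E = N.E \ {e} := rfl
    rw [← h1, hg.ground]
    exact ⟨i, hi, rfl⟩
  let g' : ℕ → α := fun i => if i = c.1 then e else g i
  have hg'n : g' c.1 = e := by simp [g']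
  have hg' : ∀ i, i < c.1 → g' i = g i := by
    intro i hi
    simp [g', hi.ne]
  refine R60_run (n := c.1) (g := g') (c := c) ?_ 64 C 0 0 x ⟨?_, ?_⟩ hx
  · exact
      { inj := by
          intro i hi k hk hik
          have hi' : i < c.1 + 1 := hi
          have hk' : k < c.1 + 1 := hk
          by_cases h1 : i = c.1
          · by_cases h2 : k = c.1
            · rw [h1, h2]
            · rw [h1, hg'n, hg' k (by omega)] at hik
              exact absurd hik.symm (hgE k (by omega)).2
          · by_cases h2 : k = c.1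
            · rw [h2, hg'n, hg' i (by omega)] at hik
              exact absurd hik (hgE i (by omega)).2
            · rw [hg' i (by omega), hg' k (by omega)] at hik
              exact hg.inj (show i < c.1 by omega) (show k < c.1 by omega) hik
        ground := by
          ext w
          constructor
          · intro hw
            by_cases h1 : w = e
            · exact ⟨c.1, Nat.lt_succ_self _, by rw [hg'n, h1]⟩
            · have h2 : w ∈ (N ＼ {e}).E := ⟨hw, h1⟩
              rw [hg.ground] at h2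
              obtain ⟨i, hi, rfl⟩ := h2
              have hi' : i < c.1 := hi
              exact ⟨i, Nat.lt_succ_of_lt hi', hg' i hi'⟩
          · rintro ⟨i, hi, rfl⟩
            have hi' : i < c.1 + 1 := hi
            by_cases h1 : i = c.1
            · rw [h1, hg'n]
              exact he
            · rw [hg' i (by omega)]
              exact (hgE i (by omega)).1
        simp := hs
        rank := h3
        p3 := hP
        code := by
          rw [hg'n]
          exact
            { inj := by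
                intro i hi k hk hik
                rw [hg' i hi, hg' k hk] at hik
                exact hg.inj hi hk hik
              ground := by
                rw [hg.ground]
                exact Set.image_congr fun i hi => (hg' i hi).symm
              simp := hg.simp
              rank := hg.rank
              trip := by
                intro i j k hij hjk hk
                rw [hg' i (by omega), hg' j (by omega), hg' k hk]
                exact hg.trip i j k hij hjk hk }
        card := rfl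
        val := R60_V3 hv }
  · intro i hi
    rw [R60_tb_zero] at hi
    exact Bool.noConfusion hi
  · intro i hi
    rw [R60_tb_zero] at hi
    exact Bool.noConfusion hi

theorem R60_class (m : ℕ) : ∀ N : Matroid α, N.E.encard = (m : ℕ∞) → Simp N → N.eRank = 3 → P3 N →
    ∃ c ∈ codes3, ∃ g, GCode3 N g c := by
  induction m with
  | zero =>
    intro N hE _ h3 _
    obtain ⟨B, hB⟩ := N.exists_isBase
    have h1 := Set.encard_le_encard hB.subset_ground
    rw [hB.encard_eq_eRank, h3, hE] at h1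
    exact absurd h1 (by norm_num)
  | succ m ih =>
    intro N hE hs h3 hP
    obtain ⟨B, hB⟩ := N.exists_isBase
    by_cases hBE : N.E ⊆ B
    · refine R60_base hs h3 ?_
      rw [← h3, ← hB.encard_eq_eRank]
      exact congrArg Set.encard (Set.Subset.antisymm hBE hB.subset_ground)
    · obtain ⟨e, he, heB⟩ := Set.not_subset.mp hBE
      have hr := R60_rank_del h3 hB heB
      refine R60_step hs h3 hP he (ih (N ＼ {e}) ?_ (R60_simp_del hs) hr (R60_P3_del hP))
      have h1 : (N ＼ {e}).E = N.E \ {e} := rfl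
      have h2 := Set.encard_sdiff_singleton_add_one he
      rw [hE] at h2
      rw [h1]
      generalize (N.E \ {e}).encard = X at h2
      cases X with
      | top =>
        rw [top_add] at h2
        exact absurd h2.symm (ENat.natCast_ne_top _)
      | coe k =>
        norm_cast at h2 ⊢
        omega

end

variable {α : Type*}

theorem class3 {N : Matroid α} [N.Finite] (hs : Simp N) (h3 : N.eRank = 3) (hP : P3 N) :
    ∃ c ∈ codes3, ∃ g, GCode3 N g c := by
  have h1 : N.E.encard = (N.E.ncard : ℕ∞) := (N.ground_finite.cast_ncard_eq).symm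
  exact R60_class _ N h1 hs h3 hP

end Ca3.C4
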