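import Pool.Agent.Lib.MP_ca3eb1_co.C4.SgDef

/-! # Kernel check of the representations and Mason families -/

namespace Ca3.C4

set_option maxRecDepth 100000

theorem sg_part9 : ((sgData.drop 72).take 8).all (fun d => sgOk2 (getC d.1) d.2.1 d.2.2) = true := by
  decide +kernel

theorem sg_part10 : ((sgData.drop 80).take 8).all (fun d => sgOk2 (getC d.1) d.2.1 d.2.2) = true := by
  decide +kernel

theorem sg_part11 : ((sgData.drop 88).take 8).all (fun d => sgOk2 (getC d.1) d.2.1 d.2.2) = true := by
  decide +kernel

end Ca3.C4
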