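import Pool.Agent.Lib.MP_ca3eb1_co.C4.Sg0
import Pool.Agent.Lib.MP_ca3eb1_co.C4.Sg1
import Pool.Agent.Lib.MP_ca3eb1_co.C4.Sg2
import Pool.Agent.Lib.MP_ca3eb1_co.C4.Sg3
import Pool.Agent.Lib.MP_ca3eb1_co.C4.Sg4
import Pool.Agent.Lib.MP_ca3eb1_co.C4.Sg5
import Pool.Agent.Lib.MP_ca3eb1_co.C4.Sg6
import Pool.Agent.Lib.MP_ca3eb1_co.C4.Sg7

/-! # Kernel check of the representations and Mason families: all parts -/

namespace Ca3.C4

theorem all_of_parts {β : Type*} (l : List β) (p : β → Bool) (j k : ℕ)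
    (h1 : ((l.drop j).take k).all p = true) (h2 : (l.drop (j + k)).all p = true) :
    (l.drop j).all p = true := by
  rw [← List.take_append_drop k (l.drop j), List.all_append, h1, List.drop_drop, h2]
  rfl

theorem sg_ok : sgData.all (fun d => sgOk2 (getC d.1) d.2.1 d.2.2) = true := by
  have h22 := all_of_parts _ _ 176 8 sg_part22 sg_part23
  have h21 := all_of_parts _ _ 168 8 sg_part21 h22
  have h20 := all_of_parts _ _ 160 8 sg_part20 h21
  have h19 := all_of_parts _ _ 152 8 sg_part19 h20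
  have h18 := all_of_parts _ _ 144 8 sg_part18 h19
  have h17 := all_of_parts _ _ 136 8 sg_part17 h18
  have h16 := all_of_parts _ _ 128 8 sg_part16 h17
  have h15 := all_of_parts _ _ 120 8 sg_part15 h16
  have h14 := all_of_parts _ _ 112 8 sg_part14 h15
  have h13 := all_of_parts _ _ 104 8 sg_part13 h14
  have h12 := all_of_parts _ _ 96 8 sg_part12 h13
  have h11 := all_of_parts _ _ 88 8 sg_part11 h12
  have h10 := all_of_parts _ _ 80 8 sg_part10 h11
  have h9 := all_of_parts _ _ 72 8 sg_part9 h10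
  have h8 := all_of_parts _ _ 64 8 sg_part8 h9
  have h7 := all_of_parts _ _ 56 8 sg_part7 h8
  have h6 := all_of_parts _ _ 48 8 sg_part6 h7
  have h5 := all_of_parts _ _ 40 8 sg_part5 h6
  have h4 := all_of_parts _ _ 32 8 sg_part4 h5
  have h3 := all_of_parts _ _ 24 8 sg_part3 h4
  have h2 := all_of_parts _ _ 16 8 sg_part2 h3
  have h1 := all_of_parts _ _ 8 8 sg_part1 h2
  exact all_of_parts _ _ 0 8 sg_part0 h1

end Ca3.C4
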