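import Pool.Agent.Lib.MP_ca3eb1_co.C4.X00
import Pool.Agent.Lib.MP_ca3eb1_co.C4.X01
import Pool.Agent.Lib.MP_ca3eb1_co.C4.X02
import Pool.Agent.Lib.MP_ca3eb1_co.C4.X03
import Pool.Agent.Lib.MP_ca3eb1_co.C4.X04
import Pool.Agent.Lib.MP_ca3eb1_co.C4.X05
import Pool.Agent.Lib.MP_ca3eb1_co.C4.X06
import Pool.Agent.Lib.MP_ca3eb1_co.C4.X07
import Pool.Agent.Lib.MP_ca3eb1_co.C4.X08
import Pool.Agent.Lib.MP_ca3eb1_co.C4.X09
import Pool.Agent.Lib.MP_ca3eb1_co.C4.X10
import Pool.Agent.Lib.MP_ca3eb1_co.C4.X11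
import Pool.Agent.Lib.MP_ca3eb1_co.C4.X12
import Pool.Agent.Lib.MP_ca3eb1_co.C4.X13
import Pool.Agent.Lib.MP_ca3eb1_co.C4.X14
import Pool.Agent.Lib.MP_ca3eb1_co.C4.X15
import Pool.Agent.Lib.MP_ca3eb1_co.C4.X16
import Pool.Agent.Lib.MP_ca3eb1_co.C4.X17
import Pool.Agent.Lib.MP_ca3eb1_co.C4.X18
import Pool.Agent.Lib.MP_ca3eb1_co.C4.X19
import Pool.Agent.Lib.MP_ca3eb1_co.C4.X20
import Pool.Agent.Lib.MP_ca3eb1_co.C4.X21
import Pool.Agent.Lib.MP_ca3eb1_co.C4.X22
import Pool.Agent.Lib.MP_ca3eb1_co.C4.X23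
import Pool.Agent.Lib.MP_ca3eb1_co.C4.SgCheck

/-! # Certificates of the one point extensions in rank four -/

namespace Ca3.C4

theorem exts : ∀ i < 236, Ext i := by
  intro i hi
  interval_cases i
  exacts [e0, e1, e2, e3, e4, e5, e6, e7, e8, e9, e10, e11, e12, e13, e14, e15, e16, e17, e18, e19,
    e20, e21, e22, e23, e24, e25, e26, e27, e28, e29, e30, e31, e32, e33, e34, e35, e36, e37,
    e38, e39, e40, e41, e42, e43, e44, e45, e46, e47, e48, e49, e50, e51, e52, e53, e54, e55,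
    e56, e57, e58, e59, e60, e61, e62, e63, e64, e65, e66, e67, e68, e69, e70, e71, e72, e73,
    e74, e75, e76, e77, e78, e79, e80, e81, e82, e83, e84, e85, e86, e87, e88, e89, e90, e91,
    e92, e93, e94, e95, e96, e97, e98, e99, e100, e101, e102, e103, e104, e105, e106, e107,
    e108, e109, e110, e111, e112, e113, e114, e115, e116, e117, e118, e119, e120, e121, e122,
    e123, e124, e125, e126, e127, e128, e129, e130, e131, e132, e133, e134, e135, e136, e137,
    e138, e139, e140, e141, e142, e143, e144, e145, e146, e147, e148, e149, e150, e151, e152,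
    e153, e154, e155, e156, e157, e158, e159, e160, e161, e162, e163, e164, e165, e166, e167,
    e168, e169, e170, e171, e172, e173, e174, e175, e176, e177, e178, e179, e180, e181, e182,
    e183, e184, e185, e186, e187, e188, e189, e190, e191, e192, e193, e194, e195, e196, e197,
    e198, e199, e200, e201, e202, e203, e204, e205, e206, e207, e208, e209, e210, e211, e212,
    e213, e214, e215, e216, e217, e218, e219, e220, e221, e222, e223, e224, e225, e226, e227,
    e228, e229, e230, e231, e232, e233, e234, e235]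

end Ca3.C4
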