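import Pool.Agent.Lib.MP_ca3eb1_co.C4.Data

/-! # Kernel computations with the data, part KerB (helper21) -/

namespace Ca3.C4

set_option maxRecDepth 100000

theorem codes_ok3 : ((codes.drop 150).take 30).all codeOk = true := by decide +kernel

theorem codes_ok4 : ((codes.drop 180).take 30).all codeOk = true := by decide +kernel

end Ca3.C4
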