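import Pool.Agent.Lib.MP_ca3eb1_co.C4.Data

/-! # Kernel computations with the data, part KerD (helper21) -/

namespace Ca3.C4

set_option maxRecDepth 100000

theorem ring_ok0 : ((ringData.drop 0).take 3).all (fun d =>
    ringOk (getC d.1) d.2.1 d.2.2.1 d.2.2.2) = true := by
  decide +kernel

theorem ring_ok1 : ((ringData.drop 3).take 3).all (fun d =>
    ringOk (getC d.1) d.2.1 d.2.2.1 d.2.2.2) = true := by
  decide +kernel

theorem ring_ok2 : ((ringData.drop 6).take 3).all (fun d =>
    ringOk (getC d.1) d.2.1 d.2.2.1 d.2.2.2) = true := by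
  decide +kernel

end Ca3.C4
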