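import Pool.Agent.Lib.MP_ca3eb1_co.C4.KerA
import Pool.Agent.Lib.MP_ca3eb1_co.C4.KerB
import Pool.Agent.Lib.MP_ca3eb1_co.C4.KerC
import Pool.Agent.Lib.MP_ca3eb1_co.C4.KerD
import Pool.Agent.Lib.MP_ca3eb1_co.C4.KerE
import Pool.Agent.Lib.MP_ca3eb1_co.C4.KerF

/-! # Kernel computations with the data (helper21) -/

namespace Ca3.C4

set_option maxRecDepth 100000

theorem all_drop {α : Type*} {l : List α} {f : α → Bool} (a b : ℕ)
    (h : ((l.drop a).take b).all f = true) (h' : (l.drop (a + b)).all f = true) :
    (l.drop a).all f = true := by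
  rw [← List.take_append_drop b (l.drop a), List.all_append, h, List.drop_drop, h']
  rfl

theorem codes_ok : codes.all codeOk = true :=
  all_drop (l := codes) 0 60 codes_ok0 <| all_drop 60 50 codes_ok1 <|
    all_drop 110 40 codes_ok2 <| all_drop 150 30 codes_ok3 <| all_drop 180 30 codes_ok4 <|
    all_drop 210 26 codes_ok5 (by decide +kernel)

theorem ring_ok : ringData.all (fun d => ringOk (getC d.1) d.2.1 d.2.2.1 d.2.2.2) = true :=
  all_drop (l := ringData) 0 3 ring_ok0 <| all_drop 3 3 ring_ok1 <| all_drop 6 3 ring_ok2 <|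
    all_drop 9 3 ring_ok3 <| all_drop 12 2 ring_ok4 (by decide +kernel)

theorem data3_ok : ((List.range 23).all fun j =>
    sg3Ok (getC3 j) (data3.getD j ([], [])).1 (data3.getD j ([], [])).2) = true := by
  decide +kernel

theorem spor_bad : sporData.all (fun d => Nat.beq d.2.1 0 || badOk (getC d.1) d.2.1) = true := by
  decide +kernel

theorem spor_zero : sporData.all (fun d => !(Nat.beq d.2.1 0) ||
    (Nat.ble 6 (getC d.1).1 && (getC d.1).2.2.isEmpty)) = true := by
  decide +kernel

theorem spor_quot : sporData.all (fun d => Nat.beq d.2.2.length (getC d.1).1 &&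
    (List.range (getC d.1).1).all fun x => Nat.blt (d.2.2.getD x (0, 0)).1 23 &&
      quotOk (getC d.1) x (d.2.2.getD x (0, 0)).2 (getC3 (d.2.2.getD x (0, 0)).1)) = true := by
  decide +kernel

/-- Every code is one of the three kinds. -/
theorem trichotomy : ((List.range 236).all fun i =>
    sgData.any (fun d => Nat.beq d.1 i) || ringData.any (fun d => Nat.beq d.1 i) ||
      sporData.any (fun d => Nat.beq d.1 i)) = true := by
  decide +kernel

theorem codes_length : codes.length = 236 := by decide +kernel

theorem codes3_length : codes3.length = 23 := by decide +kernel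

theorem codes3_planes : codes3.all (fun c => c.2.2.isEmpty) = true := by decide +kernel

theorem spor_codes : codesS1 ++ codesS2 = sporData.map (fun d => getC d.1) := by
  decide +kernel

end Ca3.C4
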