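import Pool.Agent.Lib.MP_ca3eb1_co.C4.RunSound
import Pool.Agent.Lib.MP_ca3eb1_co.C4.Exts
import Pool.Agent.Lib.MP_ca3eb1_co.C4.Kernel

/-! # Row 59: the classification in rank four -/

namespace Ca3.C4

open Matroid

variable {α : Type*}

private theorem c4k_simp_delete {N : Matroid α} (hs : Simp N) (e : α) : Simp (N ＼ {e}) := by
  intro a ha b hb
  rw [delete_ground] at ha hb
  rw [deleteElem_indep_iff]
  refine ⟨hs a ha.1 b hb.1, ?_⟩
  rintro (rfl | h)
  · exact ha.2 rfl
  · exact hb.2 h.symm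

private theorem c4k_patT_lt {t : ℕ} {s : ℕ × ℕ × ℕ × ℕ} (hs : s ∈ patT t) :
    s.1 < (pat t).1 ∧ s.2.1 < (pat t).1 ∧ s.2.2.1 < (pat t).1 := by
  rw [patT, List.mem_map] at hs
  obtain ⟨x, hx, rfl⟩ := hs
  rw [triples, List.mem_flatMap] at hx
  obtain ⟨k, hk, hx⟩ := hx
  rw [List.mem_flatMap] at hx
  obtain ⟨j, hj, hx⟩ := hx
  rw [List.mem_map] at hx
  obtain ⟨i, hi, rfl⟩ := hx
  rw [List.mem_range] at hk hj hi
  exact ⟨hi.trans (hj.trans hk), hj.trans hk, hk⟩

private theorem c4k_p4_delete {N : Matroid α} (hP : P4 N) (e : α) : P4 (N ＼ {e}) where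
  deg a b y h := hP.deg a b y fun i hi j hj => by
    obtain ⟨h1, h2⟩ := h i hi j hj
    exact ⟨h1.of_delete, h2⟩
  noPat t ht x y hx hy h := by
    refine hP.noPat t ht x y hx.1 (fun i hi => (hy i hi).1) ?_
    intro s hs
    rw [← h s hs]
    obtain ⟨l1, l2, l3⟩ := c4k_patT_lt hs
    constructor
    · rintro ⟨h1, h2⟩
      refine ⟨deleteElem_indep_iff.2 ⟨h1, ?_⟩, h2⟩
      rintro (h' | h' | h' | h')
      · exact hx.2 h'.symm
      · exact (hy _ l1).2 h'.symm
      · exact (hy _ l2).2 h'.symm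
      · exact (hy _ l3).2 (Set.mem_singleton_iff.1 h').symm
    · rintro ⟨h1, h2⟩
      exact ⟨h1.of_delete, h2⟩

private theorem c4k_tb_zero (i : ℕ) : tb 0 i = false := by
  simp only [tb, Nat.zero_shiftRight, Nat.zero_and]
  rfl

/-- the induction step -/
private theorem c4k_step {N : Matroid α} (hfin : N.Finite) (hs : Simp N) (h4 : N.eRank = 4)
    (hP : P4 N) {e : α} (he : e ∈ N.E) {c : Code} (hc : c ∈ codes) {g : ℕ → α}
    (hg : GCode (N ＼ {e}) g c) : ∃ c ∈ codes, ∃ g, GCode N g c := by
  classical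
  -- the certificate
  obtain ⟨i, hi, hic⟩ := List.mem_iff_getElem.1 hc
  have hi' : i < 236 := by rw [← codes_length]; exact hi
  have hget : getC i = c := by
    rw [getC, List.getD_eq_getElem _ _ hi, hic]
  obtain ⟨nl, nP, T, PM, C, x, hval, hrun⟩ := exts i hi'
  rw [hget] at hval hrun
  have hok : codeOk c = true := List.all_eq_true.1 codes_ok c hc
  -- the labelling
  set g' : ℕ → α := fun j => if j = c.1 then e else g j with hg'
  have hg'n : g' c.1 = e := by simp [hg']
  have hg'l : ∀ j, j < c.1 → g' j = g j := fun j hj => by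
    have : j ≠ c.1 := hj.ne
    simp [hg', this]
  have hgE : ∀ j, j < c.1 → g j ∈ N.E ∧ g j ≠ e := by
    intro j hj
    have h1 : g j ∈ (N ＼ {e}).E := by
      rw [hg.ground]
      exact ⟨j, hj, rfl⟩
    exact ⟨h1.1, fun h => h1.2 h⟩
  have himg : g' '' {j | j < c.1} = g '' {j | j < c.1} := by
    apply Set.image_congr
    intro j hj
    exact hg'l j hj
  have hctx : Ctx N g' c.1 c nl nP T PM := by
    refine ⟨hfin, ?_, ?_, hs, h4, hP, ?_, rfl, hok, hval⟩
    · intro a ha b hb hab
      have ha' : a < c.1 + 1 := ha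
      have hb' : b < c.1 + 1 := hb
      rcases (Nat.lt_succ_iff_lt_or_eq.1 ha') with h1 | h1 <;>
        rcases (Nat.lt_succ_iff_lt_or_eq.1 hb') with h2 | h2
      · rw [hg'l a h1, hg'l b h2] at hab
        exact hg.inj h1 h2 hab
      · rw [hg'l a h1, h2, hg'n] at hab
        exact absurd hab (hgE a h1).2
      · rw [hg'l b h2, h1, hg'n] at hab
        exact absurd hab.symm (hgE b h2).2
      · rw [h1, h2]
    · ext a
      constructor
      · intro ha
        by_cases hae : a = e
        · exact ⟨c.1, Nat.lt_succ_self _, by rw [hg'n, hae]⟩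
        · have h1 : a ∈ (N ＼ {e}).E := ⟨ha, hae⟩
          rw [hg.ground] at h1
          obtain ⟨j, hj, rfl⟩ := h1
          have hj' : j < c.1 := hj
          exact ⟨j, Nat.lt_succ_of_lt hj', hg'l j hj'⟩
      · rintro ⟨j, hj, rfl⟩
        have hj' : j < c.1 + 1 := hj
        rcases (Nat.lt_succ_iff_lt_or_eq.1 hj') with h1 | h1
        · rw [hg'l j h1]
          exact (hgE j h1).1
        · rw [h1, hg'n]
          exact he
    · rw [hg'n]
      refine ⟨?_, ?_, hg.simp, hg.rank, ?_⟩
      · intro a ha b hb hab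
        have ha' : a < c.1 := ha
        have hb' : b < c.1 := hb
        rw [hg'l a ha', hg'l b hb'] at hab
        exact hg.inj ha hb hab
      · rw [himg]
        exact hg.ground
      · intro i j k m hij hjk hkm hm
        rw [hg'l i (by omega), hg'l j (by omega), hg'l k (by omega), hg'l m hm]
        exact hg.quad i j k m hij hjk hkm hm
  have hSt : St N g' c.1 nP PM 0 0 := by
    constructor <;>
    · intro i hi
      rw [c4k_tb_zero] at hi
      exact absurd hi Bool.false_ne_true
  exact run_sound hctx 128 C 0 0 x hSt hrun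

/-- four points -/
private theorem c4k_base {N : Matroid α} (hs : Simp N) (h4 : N.eRank = 4)
    (hI : N.Indep N.E) : ∃ c ∈ codes, ∃ g, GCode N g c := by
  classical
  have hcard : N.E.encard = 4 := by
    have h1 : N.IsBase N.E := ground_indep_iff_isBase.1 hI
    rw [h1.encard_eq_eRank, h4]
  have hfin : N.E.Finite := by
    apply Set.finite_of_encard_le_coe (k := 4)
    rw [hcard]
    rfl
  have hn : N.E.ncard = 4 := by
    rw [Set.ncard, hcard]
    rfl
  have hcardt : hfin.toFinset.card = 4 := by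
    rw [← Set.ncard_eq_toFinset_card _ hfin, hn]
  let σ := hfin.toFinset.equivFinOfCardEq hcardt
  have hne : Nonempty α := by
    obtain ⟨a, -⟩ : N.E.Nonempty := by
      rw [← Set.ncard_pos hfin]
      omega
    exact ⟨a⟩
  obtain ⟨a0⟩ := hne
  refine ⟨(4, [], []), by rw [codes]; exact List.mem_cons_self, fun j => if h : j < 4 then
    (σ.symm ⟨j, h⟩ : α) else a0, ?_, ?_, hs, h4, ?_⟩
  · intro a ha b hb hab
    have ha' : a < 4 := ha
    have hb' : b < 4 := hb
    simp only [ha', hb', dite_true] at hab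
    have h1 := σ.symm.injective (Subtype.ext hab)
    simpa using h1
  · ext a
    constructor
    · intro ha
      refine ⟨(σ ⟨a, hfin.mem_toFinset.2 ha⟩ : Fin 4), (σ ⟨a, hfin.mem_toFinset.2 ha⟩).2, ?_⟩
      have : ((σ ⟨a, hfin.mem_toFinset.2 ha⟩ : Fin 4) : ℕ) < 4 := (σ _).2
      simp only [this, dite_true, Fin.eta, Equiv.symm_apply_apply]
    · rintro ⟨j, hj, rfl⟩
      have hj' : j < 4 := hj
      simp only [hj', dite_true]
      exact hfin.mem_toFinset.1 (σ.symm ⟨j, hj'⟩).2
  · intro i j k m hij hjk hkm hm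
    constructor
    · intro _
      rfl
    · intro _
      apply hI.subset
      have hmem : ∀ j, j < 4 → (if h : j < 4 then (σ.symm ⟨j, h⟩ : α) else a0) ∈ N.E := by
        intro j hj
        simp only [hj, dite_true]
        exact hfin.mem_toFinset.1 (σ.symm ⟨j, hj⟩).2
      have hm' : m < 4 := hm
      rintro x (rfl | rfl | rfl | rfl)
      · exact hmem _ (by omega)
      · exact hmem _ (by omega)
      · exact hmem _ (by omega)
      · exact hmem _ hm'

private theorem c4k_class4 : ∀ (m : ℕ) (N : Matroid α), N.E.ncard = m → N.Finite → Simp N →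
    N.eRank = 4 → P4 N → ∃ c ∈ codes, ∃ g, GCode N g c := by
  intro m
  induction m with
  | zero =>
    intro N hm hfin hs h4 hP
    apply c4k_base hs h4
    have := (Set.ncard_eq_zero hfin.ground_finite).1 hm
    rw [this]
    exact N.empty_indep
  | succ m ih =>
    intro N hm hfin hs h4 hP
    by_cases hI : N.Indep N.E
    · exact c4k_base hs h4 hI
    obtain ⟨B, hB⟩ := N.exists_isBase
    obtain ⟨e, heE, heB⟩ : ∃ e ∈ N.E, e ∉ B := by
      by_contra hc
      push Not at hc
      exact hI (hB.indep.subset hc)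
    have hfin' : (N ＼ {e}).Finite := ⟨hfin.ground_finite.subset Set.sdiff_subset⟩
    have hcard : (N ＼ {e}).E.ncard = m := by
      rw [delete_ground, Set.ncard_sdiff_singleton_of_mem heE, hm]
      rfl
    have hrank : (N ＼ {e}).eRank = 4 := by
      have h1 : (N ＼ {e}).IsBase B := by
        rw [delete_isBase_iff]
        exact hB.isBasis_of_subset Set.sdiff_subset
          (Set.subset_sdiff_singleton hB.subset_ground heB)
      rw [← h1.encard_eq_eRank, hB.encard_eq_eRank, h4]
    obtain ⟨c, hc, g, hg⟩ := ih (N ＼ {e}) hcard hfin' (c4k_simp_delete hs e) hrank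
      (c4k_p4_delete hP e)
    exact c4k_step hfin hs h4 hP heE hc hg

theorem class4 {N : Matroid α} [N.Finite] (hs : Simp N) (h4 : N.eRank = 4) (hP : P4 N) :
    ∃ c ∈ codes, ∃ g, GCode N g c :=
  c4k_class4 _ N rfl ‹_› hs h4 hP

end Ca3.C4
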