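import Pool.Agent.Lib.MP_ca3eb1_co.C4.Checks2

/-! # The listed lines and planes are flats -/

namespace Ca3.C4

/-- `R a b` for all members `a`, `b` of the list at positions `i < j`. -/
def pwL (R : ℕ → ℕ → Bool) : List ℕ → Bool
  | [] => true
  | a :: L => L.all (R a) && pwL R L

/-- Every listed line has at least three points, two listed lines (at different positions) have at
most one common point; every listed plane has at least four points and is not inside a listed
line, and the common points of two listed planes (at different positions) are at most two or lie
on a listed line.  (So no line and no plane is listed twice, and they are flats.) -/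
def cleanOk (c : Code) : Bool :=
  c.2.1.all (fun l => Nat.ble 3 (pop l)) &&
  pwL (fun l m => Nat.ble (pop (l &&& m)) 1) c.2.1 &&
  c.2.2.all (fun p => Nat.ble 4 (pop p) && !(c.2.1.any fun l => sub p l)) &&
  pwL (fun p q => Nat.ble (pop (p &&& q)) 2 || c.2.1.any fun l => sub (p &&& q) l) c.2.2

end Ca3.C4
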