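import Pool.Agent.Lib.MP_ca3eb1_co.C4.Clean

/-! # Kernel check: the codes are clean -/

namespace Ca3.C4

theorem codes_clean : codes.all cleanOk = true := by decide +kernel

theorem codes3_clean : codes3.all cleanOk = true := by decide +kernel

end Ca3.C4
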