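import Pool.Agent.Lib.MP_ca3eb1_co.C4.Checks2
import Pool.Agent.Lib.MP_ca3eb1_co.MDefs

/-! # Matroids of rank three and four: codes, forbidden patterns -/

namespace Ca3.C4

open Matroid

variable {α : Type*}

/-- `{a, b, c}` is independent and has three elements. -/
def Is3 (N : Matroid α) (a b c : α) : Prop := N.Indep {a, b, c} ∧ a ≠ b ∧ a ≠ c ∧ b ≠ c

/-- `{a, b, c, d}` is independent and has four elements. -/
def Is4 (N : Matroid α) (a b c d : α) : Prop :=
  N.Indep {a, b, c, d} ∧ a ≠ b ∧ a ≠ c ∧ a ≠ d ∧ b ≠ c ∧ b ≠ d ∧ c ≠ d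

/-- Simple matroids. -/
def Simp (N : Matroid α) : Prop := ∀ e ∈ N.E, ∀ f ∈ N.E, N.Indep {e, f}

/-- Every point is on at most five lines; no forbidden pattern (rank three). -/
structure P3 (N : Matroid α) : Prop where
  deg : ∀ (a : α) (y : ℕ → α), (∀ i < 6, ∀ j < i, Is3 N a (y j) (y i)) → False
  noPat : ∀ t < 5, ∀ y : ℕ → α, (∀ i < (pat t).1, y i ∈ N.E) →
    (∀ s ∈ patT t, (Is3 N (y s.1) (y s.2.1) (y s.2.2.1) ↔ s.2.2.2 = 0)) → False

/-- Every line is in at most five planes; no forbidden pattern in the contraction of a point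
(rank four). -/
structure P4 (N : Matroid α) : Prop where
  deg : ∀ (a b : α) (y : ℕ → α), (∀ i < 6, ∀ j < i, Is4 N a b (y j) (y i)) → False
  noPat : ∀ t < 5, ∀ (x : α) (y : ℕ → α), x ∈ N.E → (∀ i < (pat t).1, y i ∈ N.E) →
    (∀ s ∈ patT t, (Is4 N x (y s.1) (y s.2.1) (y s.2.2.1) ↔ s.2.2.2 = 0)) → False

/-- The simple rank four matroid `N` has code `c` with the labelling `g`. -/
structure GCode (N : Matroid α) (g : ℕ → α) (c : Code) : Prop where
  inj : Set.InjOn g {i | i < c.1}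
  ground : N.E = g '' {i | i < c.1}
  simp : Simp N
  rank : N.eRank = 4
  quad : ∀ i j k m, i < j → j < k → k < m → m < c.1 →
    (N.Indep {g i, g j, g k, g m} ↔ copC c i j k m = false)

/-- The simple rank three matroid `N` has code `c` with the labelling `g`. -/
structure GCode3 (N : Matroid α) (g : ℕ → α) (c : Code) : Prop where
  inj : Set.InjOn g {i | i < c.1}
  ground : N.E = g '' {i | i < c.1}
  simp : Simp N
  rank : N.eRank = 3
  trip : ∀ i j k, i < j → j < k → k < c.1 → (N.Indep {g i, g j, g k} ↔ colC c i j k = false)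

/-- The rank three matroid `N` without loops has code `c` up to parallel elements, with the
labels `f`. -/
structure PCode3 (N : Matroid α) (f : α → ℕ) (c : Code) : Prop where
  surj : f '' N.E = {i | i < c.1}
  loopless : ∀ e ∈ N.E, N.Indep {e}
  rank : N.eRank = 3
  pair : ∀ a ∈ N.E, ∀ b ∈ N.E, a ≠ b → (N.Indep {a, b} ↔ f a ≠ f b)
  trip : ∀ a ∈ N.E, ∀ b ∈ N.E, ∀ d ∈ N.E, a ≠ b → a ≠ d → b ≠ d →
    (N.Indep {a, b, d} ↔ f a ≠ f b ∧ f a ≠ f d ∧ f b ≠ f d ∧ colC c (f a) (f b) (f d) = false)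

end Ca3.C4
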