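import Pool.Agent.Lib.MP_ca3eb1_co.C4.Clean
import Pool.Agent.Lib.MP_ca3eb1_co.C4.Geo
import Pool.Agent.Lib.MP_ca3eb1_co.Bridge
import Pool.Agent.Lib.MP_ca3eb1_co.Alpha

/-! # Rank four codes: the listed lines and planes are the flats with many points -/

set_option linter.unusedSectionVars false

namespace Ca3.C4.CF

open Finset

/-! ### Masks -/

theorem tb_eq (m i : ℕ) : tb m i = m.testBit i := by
  unfold tb
  rw [Nat.testBit, Nat.and_comm, Nat.one_and_eq_mod_two]
  rcases Nat.mod_two_eq_zero_or_one (m >>> i) with h | h <;> rw [h] <;> rfl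

theorem tb_of_le {n m i : ℕ} (hm : m < 2 ^ n) (hi : n ≤ i) : tb m i = false := by
  rw [tb_eq]
  apply Nat.testBit_lt_two_pow
  exact lt_of_lt_of_le hm (Nat.pow_le_pow_right (by norm_num) hi)

theorem bit_eq (m i : ℕ) : (m >>> i) &&& 1 = if tb m i = true then 1 else 0 := by
  unfold tb
  rw [Nat.and_one_is_mod]
  rcases Nat.mod_two_eq_zero_or_one (m >>> i) with h | h <;> rw [h] <;> rfl

theorem pop_eq (m : ℕ) : pop m = ((range 14).filter (fun i => tb m i = true)).card := by
  have h := bit_eq m 0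
  rw [Nat.shiftRight_zero] at h
  rw [card_filter]
  simp only [sum_range_succ, sum_range_zero, zero_add]
  unfold pop
  rw [h]
  simp only [bit_eq]

theorem sub_iff {n Z W : ℕ} (hZ : Z < 2 ^ n) :
    sub Z W = true ↔ ∀ i < n, tb Z i = true → tb W i = true := by
  unfold sub
  rw [Nat.beq_eq]
  constructor
  · intro h i _ hi
    rw [tb_eq] at hi ⊢
    rw [← h, Nat.testBit_and, Bool.and_eq_true] at hi
    exact hi.2
  · intro h
    apply Nat.eq_of_testBit_eq
    intro i
    rw [Nat.testBit_and]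
    by_cases hi : i < n
    · have h1 := h i hi
      rw [tb_eq, tb_eq] at h1
      cases h2 : Z.testBit i
      · rfl
      · rw [h1 h2]; rfl
    · have h1 := tb_of_le hZ (not_lt.1 hi)
      rw [tb_eq] at h1
      rw [h1]
      rfl

/-- The elements with label in the mask `m`. -/
def ms {E : Type*} [Fintype E] (lab : E → ℕ) (m : ℕ) : Finset E :=
  univ.filter (fun e => tb m (lab e) = true)

section

variable {E : Type*} [Fintype E] [DecidableEq E] {lab : E → ℕ} {n m Z W : ℕ} {e : E}

theorem mem_ms : e ∈ ms lab m ↔ tb m (lab e) = true := by simp [ms]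

theorem card_ms (hi : Function.Injective lab) (hr : ∀ i, (∃ e, lab e = i) ↔ i < n)
    (hn : n ≤ 14) (hm : m < 2 ^ n) : (ms lab m).card = pop m := by
  rw [pop_eq, ← card_image_of_injective _ hi]
  congr 1
  ext i
  rw [mem_image, mem_filter, mem_range]
  constructor
  · rintro ⟨e, he, rfl⟩
    exact ⟨lt_of_lt_of_le ((hr _).1 ⟨e, rfl⟩) hn, mem_ms.1 he⟩
  · rintro ⟨-, h⟩
    have h1 : i < n := by
      by_contra hc
      rw [tb_of_le hm (not_lt.1 hc)] at h
      exact Bool.noConfusion h
    obtain ⟨e, rfl⟩ := (hr _).2 h1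
    exact ⟨e, mem_ms.2 h, rfl⟩

theorem sub_iff_ms (hr : ∀ i, (∃ e, lab e = i) ↔ i < n) (hZ : Z < 2 ^ n) :
    sub Z W = true ↔ ms lab Z ⊆ ms lab W := by
  rw [sub_iff hZ]
  constructor
  · intro h e he
    rw [mem_ms] at he ⊢
    exact h _ ((hr _).1 ⟨e, rfl⟩) he
  · intro h i hi hZi
    obtain ⟨e, rfl⟩ := (hr _).2 hi
    exact mem_ms.1 (h (mem_ms.2 hZi))

theorem ms_inj (hr : ∀ i, (∃ e, lab e = i) ↔ i < n) (hZ : Z < 2 ^ n) (hW : W < 2 ^ n)
    (h : ms lab Z = ms lab W) : Z = W := by
  have h1 := (sub_iff_ms hr hZ (W := W)).2 h.subset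
  have h2 := (sub_iff_ms hr hW (W := Z)).2 h.symm.subset
  unfold sub at h1 h2
  rw [Nat.beq_eq] at h1 h2
  rw [← h1, Nat.and_comm, h2]

end

/-! ### Sorted sets of numbers -/

theorem exists_sorted_three {S : Finset ℕ} (h : S.card = 3) :
    ∃ i j k, i < j ∧ j < k ∧ S = {i, j, k} := by
  have hr := S.range_orderEmbOfFin h
  set f := S.orderEmbOfFin h
  refine ⟨f 0, f 1, f 2, f.lt_iff_lt.2 (by decide), f.lt_iff_lt.2 (by decide), ?_⟩
  ext x
  rw [← mem_coe, ← hr]
  simp only [Set.mem_range, mem_insert, mem_singleton]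
  constructor
  · rintro ⟨a, rfl⟩
    fin_cases a <;> simp
  · rintro (rfl | rfl | rfl) <;> exact ⟨_, rfl⟩

theorem exists_sorted_four {S : Finset ℕ} (h : S.card = 4) :
    ∃ i j k m, i < j ∧ j < k ∧ k < m ∧ S = {i, j, k, m} := by
  have hr := S.range_orderEmbOfFin h
  set f := S.orderEmbOfFin h
  refine ⟨f 0, f 1, f 2, f 3, f.lt_iff_lt.2 (by decide), f.lt_iff_lt.2 (by decide),
    f.lt_iff_lt.2 (by decide), ?_⟩
  ext x
  rw [← mem_coe, ← hr]
  simp only [Set.mem_range, mem_insert, mem_singleton]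
  constructor
  · rintro ⟨a, rfl⟩
    fin_cases a <;> simp
  · rintro (rfl | rfl | rfl | rfl) <;> exact ⟨_, rfl⟩

theorem mem_triples {n : ℕ} {t : ℕ × ℕ × ℕ} :
    t ∈ triples n ↔ t.1 < t.2.1 ∧ t.2.1 < t.2.2 ∧ t.2.2 < n := by
  obtain ⟨i, j, k⟩ := t
  simp only [triples, List.mem_flatMap, List.mem_map, List.mem_range, Prod.mk.injEq]
  constructor
  · rintro ⟨k', hk, j', hj, i', hi, rfl, rfl, rfl⟩
    exact ⟨hi, hj, hk⟩
  · rintro ⟨hi, hj, hk⟩
    exact ⟨k, hk, j, hj, i, hi, rfl, rfl, rfl⟩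

/-! ### Configurations with a rank four code -/

/-- The configuration `w` has the rank four code `c` with the labels `lab`. -/
structure VCode (K : Type*) {V E : Type*} [Field K] [AddCommGroup V] [Module K V] [Fintype E]
    [DecidableEq E] (w : E → V) (lab : E → ℕ) (c : Code) : Prop where
  inj : Function.Injective lab
  range : ∀ i, (∃ e, lab e = i) ↔ i < c.1
  simple : Simple K w
  rank : rk K w univ = 4
  quad : ∀ X : Finset E, X.card = 4 → (Ind K w X ↔ ∀ p ∈ c.2.2, ¬ X ⊆ ms lab p)

section bridge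

variable {α K V : Type*} [Field K] [AddCommGroup V] [Module K V] [FiniteDimensional K V]
  {M : Matroid α} [M.Finite] [Fintype M.E] [DecidableEq M.E] {w : M.E → V} {g : ℕ → α} {c : Code}

theorem vcode_of_gcode (hw : RepDual K M w) (h : GCode M.dual g c) :
    ∃ lab : M.E → ℕ, VCode K w lab c ∧ ∀ e, g (lab e) = e := by
  have hg : ∀ e : M.E, ∃ i, i < c.1 ∧ g i = e := by
    intro e
    have h1 : (e : α) ∈ M.dual.E := e.2
    rw [h.ground] at h1
    obtain ⟨i, hi, hie⟩ := h1
    exact ⟨i, hi, hie⟩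
  choose lab hlab hgl using hg
  have hinj : Function.Injective lab := by
    intro a b hab
    apply Subtype.ext
    rw [← hgl a, ← hgl b, hab]
  have hgE : ∀ i, i < c.1 → g i ∈ M.E := by
    intro i hi
    have h1 : g i ∈ M.dual.E := by
      rw [h.ground]
      exact ⟨i, hi, rfl⟩
    exact h1
  have hrange : ∀ i, (∃ e, lab e = i) ↔ i < c.1 := by
    intro i
    constructor
    · rintro ⟨e, rfl⟩
      exact hlab e
    · intro hi
      refine ⟨⟨g i, hgE i hi⟩, ?_⟩
      exact h.inj (hlab _) hi (hgl _)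
  have hpair : ∀ e f : M.E, Ind K w {e, f} := by
    intro e f
    rw [← hw]
    have h1 : (Subtype.val '' ((({e, f} : Finset M.E) : Set M.E)) : Set α) = {(e : α), (f : α)} := by
      simp [Set.image_pair]
    rw [h1]
    exact h.simp _ e.2 _ f.2
  refine ⟨lab, ⟨hinj, hrange, ⟨?_, ?_⟩, ?_, ?_⟩, hgl⟩
  · intro e he
    have h1 := hpair e e
    rw [pair_eq_singleton] at h1
    have h2 := h1.not_mem_sp_erase (mem_singleton_self e)
    rw [he] at h2
    exact h2 (Submodule.zero_mem _)
  · intro e f hef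
    by_contra hne
    have h1 := (hpair e f).not_mem_sp_erase (mem_insert_self e {f})
    rw [erase_insert (by simpa using hne), sp_singleton] at h1
    exact h1 hef
  · have h1 := hw.eRank_eq
    rw [h.rank] at h1
    exact_mod_cast h1.symm
  · intro X hX
    have hX' : (X.image lab).card = 4 := by rw [card_image_of_injective _ hinj, hX]
    obtain ⟨i, j, k, m, hij, hjk, hkm, hS⟩ := exists_sorted_four hX'
    have hm : m < c.1 := by
      have h1 : m ∈ X.image lab := by rw [hS]; simp
      obtain ⟨e, -, rfl⟩ := mem_image.1 h1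
      exact hlab e
    have himg : (Subtype.val '' (X : Set M.E) : Set α) = {g i, g j, g k, g m} := by
      have h1 : (Subtype.val '' (X : Set M.E) : Set α) = g '' ((X.image lab : Finset ℕ) : Set ℕ) := by
        rw [coe_image, Set.image_image]
        ext x
        simp only [Set.mem_image]
        constructor
        · rintro ⟨e, he, rfl⟩
          exact ⟨e, he, hgl e⟩
        · rintro ⟨e, he, rfl⟩
          exact ⟨e, he, (hgl e).symm⟩
      rw [h1, hS]
      simp [Set.image_insert_eq]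
    rw [← hw X, himg]
    have h2 := h.quad i j k m hij hjk hkm hm
    have h3 : copC c i j k m = true ↔ ∃ p ∈ c.2.2, X ⊆ ms lab p := by
      unfold copC
      rw [List.any_eq_true]
      apply exists_congr
      intro p
      apply and_congr_right
      intro _
      simp only [Bool.and_eq_true]
      have h4 : X ⊆ ms lab p ↔ ∀ x ∈ X.image lab, tb p x = true := by
        constructor
        · intro h4 x hx
          obtain ⟨e, he, rfl⟩ := mem_image.1 hx
          exact mem_ms.1 (h4 he)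
        · intro h4 e he
          exact mem_ms.2 (h4 _ (mem_image_of_mem _ he))
      rw [h4, hS]
      simp only [mem_insert, mem_singleton, forall_eq_or_imp, forall_eq]
      tauto
    have h5 : M.dual.Indep {g i, g j, g k, g m} ↔ ¬ ∃ p ∈ c.2.2, X ⊆ ms lab p := by
      rw [← h3, Bool.not_eq_true]
      exact h2
    rw [show M✶ = M.dual from rfl, h5]
    push Not
    rfl

end bridge

section flats

variable {K V E : Type*} [Field K] [AddCommGroup V] [Module K V] [FiniteDimensional K V]
  [Fintype E] [DecidableEq E] {w : E → V} {lab : E → ℕ} {c : Code} {X F : Finset E} {l p Z W : ℕ}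

theorem codeOk_bounds (hc : codeOk c = true) : 3 < c.1 ∧ c.1 < 14 ∧
    (∀ l ∈ c.2.1, l < 2 ^ c.1) ∧ ∀ p ∈ c.2.2, p < 2 ^ c.1 := by
  unfold codeOk at hc
  simp only [Bool.and_eq_true, List.all_eq_true, Nat.blt_eq, Nat.one_shiftLeft] at hc
  exact ⟨hc.1.1.1.1.1, hc.1.1.1.1.2, hc.1.1.1.2, hc.1.1.2⟩

theorem codeOk_trip (hc : codeOk c = true) {i j k : ℕ} (hij : i < j) (hjk : j < k) (hk : k < c.1) :
    colC c i j k = true ↔ ∀ m < c.1, m = i ∨ m = j ∨ m = k ∨ copC c i j k m = true := by
  unfold codeOk at hc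
  simp only [Bool.and_eq_true] at hc
  have h1 := List.all_eq_true.1 hc.2 (i, j, k) (mem_triples.2 ⟨hij, hjk, hk⟩)
  simp only [beq_iff_eq] at h1
  rw [h1, List.all_eq_true]
  simp only [List.mem_range, Bool.or_eq_true, Nat.beq_eq, or_assoc]

/-- Triples. -/
theorem VCode.trip (h : VCode K w lab c) (hc : codeOk c = true) (hX : X.card = 3) :
    Ind K w X ↔ ∀ l ∈ c.2.1, ¬ X ⊆ ms lab l := by
  have hX' : (X.image lab).card = 3 := by rw [card_image_of_injective _ h.inj, hX]
  obtain ⟨i, j, k, hij, hjk, hS⟩ := exists_sorted_three hX'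
  have hk : k < c.1 := by
    have h1 : k ∈ X.image lab := by rw [hS]; simp
    obtain ⟨e, -, rfl⟩ := mem_image.1 h1
    exact (h.range _).1 ⟨e, rfl⟩
  have hsub : ∀ q, X ⊆ ms lab q ↔ tb q i = true ∧ tb q j = true ∧ tb q k = true := by
    intro q
    have h4 : X ⊆ ms lab q ↔ ∀ x ∈ X.image lab, tb q x = true := by
      constructor
      · intro h4 x hx
        obtain ⟨e, he, rfl⟩ := mem_image.1 hx
        exact mem_ms.1 (h4 he)
      · intro h4 e he
        exact mem_ms.2 (h4 _ (mem_image_of_mem _ he))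
    rw [h4, hS]
    simp only [mem_insert, mem_singleton, forall_eq_or_imp, forall_eq]
  have hcol : colC c i j k = true ↔ ∃ l ∈ c.2.1, X ⊆ ms lab l := by
    unfold colC
    rw [List.any_eq_true]
    apply exists_congr
    intro q
    apply and_congr_right
    intro _
    rw [hsub]
    simp only [Bool.and_eq_true, and_assoc]
  have hcop : ∀ e, e ∉ X → (copC c i j k (lab e) = true ↔ ¬ Ind K w (insert e X)) := by
    intro e he
    rw [h.quad _ (by rw [card_insert_of_notMem he, hX])]
    unfold copC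
    rw [List.any_eq_true]
    push Not
    apply exists_congr
    intro q
    apply and_congr_right
    intro _
    rw [insert_subset_iff, hsub, mem_ms]
    simp only [Bool.and_eq_true]
    tauto
  have hlab : ∀ e, e ∉ X ↔ ¬ (lab e = i ∨ lab e = j ∨ lab e = k) := by
    intro e
    have h1 : e ∈ X ↔ lab e ∈ X.image lab := by
      rw [mem_image]
      constructor
      · intro he
        exact ⟨e, he, rfl⟩
      · rintro ⟨f, hf, hfe⟩
        exact h.inj hfe ▸ hf
    rw [h1, hS]
    simp
  have key : Ind K w X ↔ ¬ colC c i j k = true := by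
    rw [codeOk_trip hc hij hjk hk]
    constructor
    · intro hI hall
      obtain ⟨B, hXB, -, hBi, hBc⟩ := exists_ind_card (K := K) (v := w) (n := 4) hI (subset_univ X)
        (by omega) h.rank.ge
      obtain ⟨e, heB, heX⟩ : ∃ e ∈ B, e ∉ X := by
        by_contra hcon
        push Not at hcon
        have := card_le_card (show B ⊆ X from hcon)
        omega
      have h1 := hall (lab e) ((h.range _).1 ⟨e, rfl⟩)
      have h2 := (hlab e).1 heX
      have h3 : copC c i j k (lab e) = true := by tauto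
      rw [hcop e heX] at h3
      exact h3 (hBi.subset (insert_subset heB hXB))
    · intro hnot
      by_contra hI
      apply hnot
      intro m hm
      obtain ⟨e, rfl⟩ := (h.range m).2 hm
      by_cases heX : e ∈ X
      · have h7 := hlab e
        tauto
      · right; right; right
        rw [hcop e heX]
        exact fun h' => hI (h'.subset (subset_insert _ _))
  rw [key, hcol]
  push Not
  rfl

/-! ### Clean codes -/

theorem pwL_pairwise {R : ℕ → ℕ → Bool} {L : List ℕ} :
    pwL R L = true ↔ L.Pairwise (fun a b => R a b = true) := by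
  induction L with
  | nil => simp [pwL]
  | cons a L ih =>
    rw [pwL, Bool.and_eq_true, List.all_eq_true, ih, List.pairwise_cons]

theorem pwL_ne {R : ℕ → ℕ → Bool} (hR : ∀ a b, R a b = true → R b a = true) {L : List ℕ}
    (h : pwL R L = true) {a b : ℕ} (ha : a ∈ L) (hb : b ∈ L) (hab : a ≠ b) : R a b = true := by
  have : Std.Symm (fun a b => R a b = true) := ⟨hR⟩
  exact (pwL_pairwise.1 h).forall ha hb hab

theorem pwL_nodup {R : ℕ → ℕ → Bool} {L : List ℕ} (h : pwL R L = true)
    (h1 : ∀ a ∈ L, ¬ R a a = true) : L.Nodup := by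
  refine (pwL_pairwise.1 h).imp_of_mem ?_
  intro a b ha _ hab h2
  subst h2
  exact h1 a ha hab

theorem clean_lines (hcl : cleanOk c = true) : (∀ l ∈ c.2.1, 3 ≤ pop l) ∧ c.2.1.Nodup ∧
    ∀ l ∈ c.2.1, ∀ m ∈ c.2.1, l ≠ m → pop (l &&& m) ≤ 1 := by
  unfold cleanOk at hcl
  simp only [Bool.and_eq_true] at hcl
  obtain ⟨⟨⟨h1, h2⟩, -⟩, -⟩ := hcl
  simp only [List.all_eq_true, Nat.ble_eq] at h1
  refine ⟨h1, pwL_nodup h2 ?_, ?_⟩
  · intro a ha h3
    rw [Nat.and_self, Nat.ble_eq] at h3
    have := h1 a ha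
    omega
  · intro l hl m hm hlm
    have h3 := pwL_ne (fun a b h => by rwa [Nat.and_comm]) h2 hl hm hlm
    rwa [Nat.ble_eq] at h3

theorem clean_planes (hcl : cleanOk c = true) :
    (∀ p ∈ c.2.2, 4 ≤ pop p ∧ ∀ l ∈ c.2.1, ¬ sub p l = true) ∧ c.2.2.Nodup ∧
    ∀ p ∈ c.2.2, ∀ q ∈ c.2.2, p ≠ q → pop (p &&& q) ≤ 2 ∨ ∃ l ∈ c.2.1, sub (p &&& q) l = true := by
  unfold cleanOk at hcl
  simp only [Bool.and_eq_true] at hcl
  obtain ⟨⟨-, h1⟩, h2⟩ := hcl
  have h1' : ∀ p ∈ c.2.2, 4 ≤ pop p ∧ ∀ l ∈ c.2.1, ¬ sub p l = true := by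
    intro p hp
    have h3 := List.all_eq_true.1 h1 p hp
    rw [Bool.and_eq_true, Nat.ble_eq, Bool.not_eq_true', ← Bool.not_eq_true,
      List.any_eq_true] at h3
    exact ⟨h3.1, fun l hl h4 => h3.2 ⟨l, hl, h4⟩⟩
  refine ⟨h1', pwL_nodup h2 ?_, ?_⟩
  · intro a ha h3
    rw [Nat.and_self, Bool.or_eq_true, Nat.ble_eq, List.any_eq_true] at h3
    rcases h3 with h3 | ⟨l, hl, h3⟩
    · have := (h1' a ha).1
      omega
    · exact (h1' a ha).2 l hl h3
  · intro l hl m hm hlm
    have h3 := pwL_ne (fun a b h => by rwa [Nat.and_comm]) h2 hl hm hlm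
    rwa [Bool.or_eq_true, Nat.ble_eq, List.any_eq_true] at h3

theorem ms_and {a b : ℕ} : ms lab (a &&& b) = ms lab a ∩ ms lab b := by
  ext e
  rw [mem_inter, mem_ms, mem_ms, mem_ms, tb_eq, tb_eq, tb_eq, Nat.testBit_and, Bool.and_eq_true]

theorem VCode.card_ms (h : VCode K w lab c) (hc : codeOk c = true) (hZ : Z < 2 ^ c.1) :
    (ms lab Z).card = pop Z :=
  Ca3.C4.CF.card_ms h.inj h.range (codeOk_bounds hc).2.1.le hZ

/-- Dependent triples. -/
theorem VCode.exists_line (h : VCode K w lab c) (hc : codeOk c = true) (hX : X.card = 3)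
    (hr : rk K w X ≤ 2) : ∃ l ∈ c.2.1, X ⊆ ms lab l := by
  by_contra hcon
  push Not at hcon
  have h1 := ((h.trip hc hX).2 hcon).rk_eq_card
  omega

/-- Dependent quadruples. -/
theorem VCode.exists_plane (h : VCode K w lab c) (hX : X.card = 4)
    (hr : rk K w X ≤ 3) : ∃ p ∈ c.2.2, X ⊆ ms lab p := by
  by_contra hcon
  push Not at hcon
  have h1 := ((h.quad X hX).2 hcon).rk_eq_card
  omega

/-- A listed line is a flat of rank two. -/
theorem VCode.line (h : VCode K w lab c) (hc : codeOk c = true) (hcl : cleanOk c = true)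
    (hl : l ∈ c.2.1) : rk K w (ms lab l) = 2 ∧ IsFl K w (ms lab l) := by
  obtain ⟨-, -, hb1, -⟩ := codeOk_bounds hc
  obtain ⟨hl3, -, hlm⟩ := clean_lines hcl
  have hcard : 3 ≤ (ms lab l).card := by
    rw [h.card_ms hc (hb1 l hl)]
    exact hl3 l hl
  have h2 : 2 ≤ rk K w (ms lab l) := h.simple.two_le_rk (by omega)
  have h2' : rk K w (ms lab l) ≤ 2 := by
    by_contra hcon
    obtain ⟨B, -, hB, hBi, hBc⟩ := exists_ind_card (K := K) (v := w) (I := ∅) (X := ms lab l)
      (n := 3) ind_empty (empty_subset _) (by simp) (by omega)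
    exact (h.trip hc hBc).1 hBi l hl hB
  refine ⟨le_antisymm h2' h2, subset_antisymm ?_ subset_cl⟩
  intro e he
  rw [mem_cl] at he
  by_contra hel
  obtain ⟨a, ha, b, hb, hab⟩ := Finset.one_lt_card.1 (show 1 < (ms lab l).card by omega)
  have hea : e ≠ a := by rintro rfl; exact hel ha
  have heb : e ≠ b := by rintro rfl; exact hel hb
  have hX : ({e, a, b} : Finset E).card = 3 := card_eq_three.2 ⟨e, a, b, hea, heb, hab, rfl⟩
  have hr : rk K w {e, a, b} ≤ 2 := by
    have h3 : rk K w {e, a, b} ≤ rk K w (insert e (ms lab l)) := by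
      apply rk_mono
      apply insert_subset_insert
      exact insert_subset ha (singleton_subset_iff.2 hb)
    rw [rk_insert_of_mem_sp he] at h3
    omega
  obtain ⟨m, hm, hXm⟩ := h.exists_line hc hX hr
  have hne : l ≠ m := by
    rintro rfl
    exact hel (hXm (mem_insert_self _ _))
  have h3 := hlm l hl m hm hne
  rw [← h.card_ms hc (Nat.and_lt_two_pow _ (hb1 m hm)), ms_and] at h3
  have h4 : ({a, b} : Finset E) ⊆ ms lab l ∩ ms lab m := by
    apply subset_inter
    · exact insert_subset ha (singleton_subset_iff.2 hb)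
    · exact (subset_insert _ _).trans hXm
  have h5 := card_le_card h4
  rw [card_pair hab] at h5
  omega

/-- A flat of rank two with at least three points is listed. -/
theorem VCode.line_of_flat (h : VCode K w lab c) (hc : codeOk c = true) (hcl : cleanOk c = true)
    (hF : IsFl K w F) (hr : rk K w F = 2) (h3 : 3 ≤ F.card) : ∃ l ∈ c.2.1, F = ms lab l := by
  obtain ⟨X, hXF, hX⟩ := exists_subset_card_eq h3
  obtain ⟨l, hl, hXl⟩ := h.exists_line hc hX (by rw [← hr]; exact rk_mono hXF)
  obtain ⟨hr', hF'⟩ := h.line hc hcl hl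
  refine ⟨l, hl, ?_⟩
  have h4 : 2 ≤ rk K w (F ∩ ms lab l) := by
    have h5 := h.simple.two_le_rk (X := X) (by omega)
    have h6 : rk K w X ≤ rk K w (F ∩ ms lab l) := rk_mono (subset_inter hXF hXl)
    omega
  have h5 := (hF.inter hF').eq_of_subset_of_rk_le inter_subset_left (by omega)
  have h6 := (hF.inter hF').eq_of_subset_of_rk_le inter_subset_right (by omega)
  rw [← h5, h6]

/-- A listed plane is a flat of rank three. -/
theorem VCode.plane (h : VCode K w lab c) (hc : codeOk c = true) (hcl : cleanOk c = true)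
    (hp : p ∈ c.2.2) : rk K w (ms lab p) = 3 ∧ IsFl K w (ms lab p) := by
  obtain ⟨-, -, hb1, hb2⟩ := codeOk_bounds hc
  obtain ⟨hp4, -, hpq⟩ := clean_planes hcl
  have hcard : 4 ≤ (ms lab p).card := by
    rw [h.card_ms hc (hb2 p hp)]
    exact (hp4 p hp).1
  have h2 : 2 ≤ rk K w (ms lab p) := h.simple.two_le_rk (by omega)
  have h3' : rk K w (ms lab p) ≤ 3 := by
    by_contra hcon
    obtain ⟨B, -, hB, hBi, hBc⟩ := exists_ind_card (K := K) (v := w) (I := ∅) (X := ms lab p)
      (n := 4) ind_empty (empty_subset _) (by simp) (by omega)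
    exact (h.quad B hBc).1 hBi p hp hB
  have h3 : 3 ≤ rk K w (ms lab p) := by
    by_contra hcon
    have h4 := card_le_card (subset_cl (K := K) (v := w) (X := ms lab p))
    obtain ⟨l, hl, hll⟩ := h.line_of_flat hc hcl (F := cl K w (ms lab p)) isFl_cl
      (by rw [rk_cl]; omega) (by omega)
    apply (hp4 p hp).2 l hl
    rw [sub_iff_ms h.range (hb2 p hp), ← hll]
    exact subset_cl
  refine ⟨le_antisymm h3' h3, subset_antisymm ?_ subset_cl⟩
  intro e he
  rw [mem_cl] at he
  by_contra hel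
  obtain ⟨B, -, hB, hBi, hBc⟩ := exists_ind_card (K := K) (v := w) (I := ∅) (X := ms lab p)
    (n := 3) ind_empty (empty_subset _) (by simp) h3
  have heB : e ∉ B := fun h' => hel (hB h')
  have hX : (insert e B).card = 4 := by rw [card_insert_of_notMem heB, hBc]
  have hr : rk K w (insert e B) ≤ 3 := by
    have h4 : rk K w (insert e B) ≤ rk K w (insert e (ms lab p)) :=
      rk_mono (insert_subset_insert _ hB)
    rw [rk_insert_of_mem_sp he] at h4
    omega
  obtain ⟨q, hq, hXq⟩ := h.exists_plane hX hr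
  have hne : p ≠ q := by
    rintro rfl
    exact hel (hXq (mem_insert_self _ _))
  have hBpq : B ⊆ ms lab (p &&& q) := by
    rw [ms_and]
    exact subset_inter hB ((subset_insert _ _).trans hXq)
  rcases hpq p hp q hq hne with h4 | ⟨l, hl, h4⟩
  · rw [← h.card_ms hc (Nat.and_lt_two_pow _ (hb2 q hq))] at h4
    have := card_le_card hBpq
    omega
  · rw [sub_iff_ms h.range (Nat.and_lt_two_pow _ (hb2 q hq))] at h4
    exact (h.trip hc hBc).1 hBi l hl (hBpq.trans h4)

/-- A flat of rank three with at least four points is listed. -/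
theorem VCode.plane_of_flat (h : VCode K w lab c) (hc : codeOk c = true) (hcl : cleanOk c = true)
    (hF : IsFl K w F) (hr : rk K w F = 3) (h4 : 4 ≤ F.card) : ∃ p ∈ c.2.2, F = ms lab p := by
  obtain ⟨B, -, hB, hBi, hBc⟩ := exists_ind_card (K := K) (v := w) (I := ∅) (X := F)
    (n := 3) ind_empty (empty_subset _) (by simp) hr.ge
  obtain ⟨X, hBX, hXF, hX⟩ := exists_subsuperset_card_eq hB (show B.card ≤ 4 by omega) h4
  obtain ⟨p, hp, hXp⟩ := h.exists_plane hX (by rw [← hr]; exact rk_mono hXF)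
  obtain ⟨hr', hF'⟩ := h.plane hc hcl hp
  refine ⟨p, hp, ?_⟩
  have h5 : 3 ≤ rk K w (F ∩ ms lab p) := by
    have h6 : rk K w B ≤ rk K w (F ∩ ms lab p) := rk_mono (subset_inter hB (hBX.trans hXp))
    rw [hBi.rk_eq_card, hBc] at h6
    exact h6
  have h6 := (hF.inter hF').eq_of_subset_of_rk_le inter_subset_left (by omega)
  have h7 := (hF.inter hF').eq_of_subset_of_rk_le inter_subset_right (by omega)
  rw [← h6, h7]

end flats

end Ca3.C4.CF
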