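import Pool.Agent.Lib.MP_ca3eb1_co.C4.Geo

/-! # Row 61: labelled codes and the definition in the statement -/

namespace Ca3.C4

open Matroid

variable {α : Type*}

namespace CIff

theorem tb_eq (m i : ℕ) : tb m i = m.testBit i := by
  unfold tb Nat.testBit
  rw [Nat.and_comm]
  have h : 1 &&& (m >>> i) = (m >>> i) % 2 := by
    rw [Nat.and_comm, Nat.and_one_is_mod]
  rw [h]
  rcases Nat.mod_two_eq_zero_or_one (m >>> i) with h | h <;> rw [h] <;> rfl

theorem mem_triples {m : ℕ} {t : ℕ × ℕ × ℕ} :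
    t ∈ triples m ↔ t.1 < t.2.1 ∧ t.2.1 < t.2.2 ∧ t.2.2 < m := by
  obtain ⟨i, j, k⟩ := t
  simp only [triples, List.mem_flatMap, List.mem_range, List.mem_map, Prod.mk.injEq]
  constructor
  · rintro ⟨k', hk', j', hj', i', hi', rfl, rfl, rfl⟩
    exact ⟨hi', hj', hk'⟩
  · rintro ⟨h1, h2, h3⟩
    exact ⟨k, h3, j, h2, i, h1, rfl, rfl, rfl⟩

theorem colC_iff {c : Code} {i j k : ℕ} : colC c i j k = true ↔
    ∃ l ∈ c.2.1, l.testBit i = true ∧ l.testBit j = true ∧ l.testBit k = true := by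
  simp only [colC, List.any_eq_true, Bool.and_eq_true, tb_eq, and_assoc]

theorem copC_iff {c : Code} {i j k m : ℕ} : copC c i j k m = true ↔
    ∃ l ∈ c.2.2, l.testBit i = true ∧ l.testBit j = true ∧ l.testBit k = true ∧
      l.testBit m = true := by
  simp only [copC, List.any_eq_true, Bool.and_eq_true, tb_eq, and_assoc]

theorem colC_swap12 (c : Code) (i j k : ℕ) : colC c i j k = colC c j i k := by
  rw [Bool.eq_iff_iff, colC_iff, colC_iff]
  constructor <;> rintro ⟨l, hl, h1, h2, h3⟩ <;> exact ⟨l, hl, h2, h1, h3⟩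

theorem colC_swap23 (c : Code) (i j k : ℕ) : colC c i j k = colC c i k j := by
  rw [Bool.eq_iff_iff, colC_iff, colC_iff]
  constructor <;> rintro ⟨l, hl, h1, h2, h3⟩ <;> exact ⟨l, hl, h1, h3, h2⟩

theorem copC_swap12 (c : Code) (i j k m : ℕ) : copC c i j k m = copC c j i k m := by
  rw [Bool.eq_iff_iff, copC_iff, copC_iff]
  constructor <;> rintro ⟨l, hl, h1, h2, h3, h4⟩ <;> exact ⟨l, hl, h2, h1, h3, h4⟩

theorem copC_swap23 (c : Code) (i j k m : ℕ) : copC c i j k m = copC c i k j m := by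
  rw [Bool.eq_iff_iff, copC_iff, copC_iff]
  constructor <;> rintro ⟨l, hl, h1, h2, h3, h4⟩ <;> exact ⟨l, hl, h1, h3, h2, h4⟩

theorem copC_swap34 (c : Code) (i j k m : ℕ) : copC c i j k m = copC c i j m k := by
  rw [Bool.eq_iff_iff, copC_iff, copC_iff]
  constructor <;> rintro ⟨l, hl, h1, h2, h3, h4⟩ <;> exact ⟨l, hl, h1, h2, h4, h3⟩

theorem sort3 {P : ℕ → ℕ → ℕ → Prop} (h12 : ∀ i j k, P i j k → P j i k)
    (h23 : ∀ i j k, P i j k → P i k j) (h : ∀ i j k, i < j → j < k → P i j k) :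
    ∀ i j k, i ≠ j → i ≠ k → j ≠ k → P i j k := by
  intro i j k h1 h2 h3
  rcases lt_or_gt_of_ne h1 with h1 | h1 <;> rcases lt_or_gt_of_ne h2 with h2 | h2 <;>
    rcases lt_or_gt_of_ne h3 with h3 | h3
  · exact h i j k h1 h3
  · exact h23 _ _ _ (h i k j h2 h3)
  · omega
  · exact h23 _ _ _ (h12 _ _ _ (h k i j h2 h1))
  · exact h12 _ _ _ (h j i k h1 h2)
  · omega
  · exact h12 _ _ _ (h23 _ _ _ (h j k i h3 h2))
  · exact h12 _ _ _ (h23 _ _ _ (h12 _ _ _ (h k j i h3 h1)))

theorem sort4 {P : ℕ → ℕ → ℕ → ℕ → Prop} (h12 : ∀ i j k m, P i j k m → P j i k m)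
    (h23 : ∀ i j k m, P i j k m → P i k j m) (h34 : ∀ i j k m, P i j k m → P i j m k)
    (h : ∀ i j k m, i < j → j < k → k < m → P i j k m) :
    ∀ i j k m, i ≠ j → i ≠ k → i ≠ m → j ≠ k → j ≠ m → k ≠ m → P i j k m := by
  have key := sort3 (P := fun i j k => ∀ m, i ≠ m → j ≠ m → k ≠ m → P i j k m)
    (fun i j k hP m h1 h2 h3 => h12 _ _ _ _ (hP m h2 h1 h3))
    (fun i j k hP m h1 h2 h3 => h23 _ _ _ _ (hP m h1 h3 h2))
    (by
      intro i j k hij hjk m h1 h2 h3
      rcases lt_or_gt_of_ne h3 with h3 | h3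
      · exact h i j k m hij hjk h3
      rcases lt_or_gt_of_ne h2 with h2 | h2
      · exact h34 _ _ _ _ (h i j m k hij h2 h3)
      rcases lt_or_gt_of_ne h1 with h1 | h1
      · exact h34 _ _ _ _ (h23 _ _ _ _ (h i m j k h1 h2 hjk))
      · exact h34 _ _ _ _ (h23 _ _ _ _ (h12 _ _ _ _ (h m i j k h1 hij hjk))))
  intro i j k m h1 h2 h3 h4 h5 h6
  exact key i j k h1 h2 h4 m h3 h5 h6

theorem encard_le_two_iff {S : Set α} : S.encard ≤ 2 ↔
    ∀ a ∈ S, ∀ b ∈ S, ∀ d ∈ S, a ≠ b → a ≠ d → b ≠ d → False := by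
  constructor
  · intro h a ha b hb d hd h1 h2 h3
    have hs : ({a, b, d} : Set α) ⊆ S := by
      rintro x (rfl | rfl | rfl) <;> assumption
    have h4 : ({a, b, d} : Set α).encard = 3 := Set.encard_eq_three.2 ⟨a, b, d, h1, h2, h3, rfl⟩
    have h5 := (Set.encard_le_encard hs).trans h
    rw [h4] at h5
    exact absurd h5 (by decide)
  · intro h
    by_contra hc
    have h3 : (3 : ℕ∞) ≤ S.encard := by
      rw [not_le] at hc
      exact Order.add_one_le_of_lt hc
    obtain ⟨t, ht, h4⟩ := Set.exists_subset_encard_eq h3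
    obtain ⟨a, b, d, h1, h2, h3, rfl⟩ := Set.encard_eq_three.1 h4
    exact h a (ht (by simp)) b (ht (by simp)) d (ht (by simp)) h1 h2 h3

theorem pair_le (a b : α) : ({a, b} : Set α).encard ≤ 2 := by
  refine (Set.encard_insert_le _ _).trans ?_
  rw [Set.encard_singleton]
  exact le_rfl

theorem encard_four {a b d e : α} (h1 : a ≠ b) (h2 : a ≠ d) (h3 : a ≠ e) (h4 : b ≠ d)
    (h5 : b ≠ e) (h6 : d ≠ e) : ({a, b, d, e} : Set α).encard = 4 := by
  rw [Set.encard_insert_of_notMem (by simp [h1, h2, h3]),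
    Set.encard_eq_three.2 ⟨b, d, e, h4, h5, h6, rfl⟩]
  rfl

theorem eq_four {S : Set α} (h : S.encard = 4) : ∃ a b d e, a ≠ b ∧ a ≠ d ∧ a ≠ e ∧ b ≠ d ∧
    b ≠ e ∧ d ≠ e ∧ S = {a, b, d, e} := by
  have h' : S.encard = 3 + 1 := by rw [h]; rfl
  obtain ⟨a, t, ha, rfl, ht⟩ := Set.encard_eq_add_one_iff.1 h'
  obtain ⟨b, d, e, h1, h2, h3, rfl⟩ := Set.encard_eq_three.1 ht
  simp only [Set.mem_insert_iff, Set.mem_singleton_iff, not_or] at ha
  exact ⟨a, b, d, e, ha.1, ha.2.1, ha.2.2, h1, h2, h3, rfl⟩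

theorem encard_le_three_iff {S : Set α} : S.encard ≤ 3 ↔
    ∀ a ∈ S, ∀ b ∈ S, ∀ d ∈ S, ∀ e ∈ S, a ≠ b → a ≠ d → a ≠ e → b ≠ d → b ≠ e → d ≠ e →
      False := by
  constructor
  · intro h a ha b hb d hd e he h1 h2 h3 h4 h5 h6
    have hs : ({a, b, d, e} : Set α) ⊆ S := by
      rintro x (rfl | rfl | rfl | rfl) <;> assumption
    have h7 := (Set.encard_le_encard hs).trans h
    rw [encard_four h1 h2 h3 h4 h5 h6] at h7
    exact absurd h7 (by decide)
  · intro h
    by_contra hc
    have h3 : (4 : ℕ∞) ≤ S.encard := by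
      rw [not_le] at hc
      exact Order.add_one_le_of_lt hc
    obtain ⟨t, ht, h7⟩ := Set.exists_subset_encard_eq h3
    obtain ⟨a, b, d, e, h1, h2, h3, h4, h5, h6, rfl⟩ := eq_four h7
    exact h a (ht (by simp)) b (ht (by simp)) d (ht (by simp)) e (ht (by simp)) h1 h2 h3 h4 h5 h6

/-- The independent sets of `HasCode`, with `colC` and `copC`. -/
def Good (c : Code) (f : α → ℕ) (r : ℕ) (I : Set α) : Prop :=
  I.encard ≤ r ∧
    (∀ a ∈ I, ∀ b ∈ I, ∀ d ∈ I, a ≠ b → a ≠ d → b ≠ d → colC c (f a) (f b) (f d) = false) ∧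
    (∀ a ∈ I, ∀ b ∈ I, ∀ d ∈ I, ∀ e ∈ I, a ≠ b → a ≠ d → a ≠ e → b ≠ d → b ≠ e → d ≠ e →
      copC c (f a) (f b) (f d) (f e) = false)

theorem good_iff {c : Code} {f : α → ℕ} {r : ℕ} {I : Set α} :
    Good c f r I ↔ I.encard ≤ r ∧ (∀ l ∈ c.2.1, {e ∈ I | l.testBit (f e)}.encard ≤ 2) ∧
      ∀ p ∈ c.2.2, {e ∈ I | p.testBit (f e)}.encard ≤ 3 := by
  unfold Good
  refine and_congr_right fun _ => and_congr ?_ ?_
  · constructor
    · intro h l hl
      rw [encard_le_two_iff]
      rintro a ⟨ha, ha'⟩ b ⟨hb, hb'⟩ d ⟨hd, hd'⟩ h1 h2 h3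
      have := h a ha b hb d hd h1 h2 h3
      rw [Bool.eq_false_iff] at this
      exact this (colC_iff.2 ⟨l, hl, ha', hb', hd'⟩)
    · intro h a ha b hb d hd h1 h2 h3
      rw [Bool.eq_false_iff]
      intro h4
      obtain ⟨l, hl, h5, h6, h7⟩ := colC_iff.1 h4
      exact encard_le_two_iff.1 (h l hl) a ⟨ha, h5⟩ b ⟨hb, h6⟩ d ⟨hd, h7⟩ h1 h2 h3
  · constructor
    · intro h l hl
      rw [encard_le_three_iff]
      rintro a ⟨ha, ha'⟩ b ⟨hb, hb'⟩ d ⟨hd, hd'⟩ e ⟨he, he'⟩ h1 h2 h3 h4 h5 h6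
      have := h a ha b hb d hd e he h1 h2 h3 h4 h5 h6
      rw [Bool.eq_false_iff] at this
      exact this (copC_iff.2 ⟨l, hl, ha', hb', hd', he'⟩)
    · intro h a ha b hb d hd e he h1 h2 h3 h4 h5 h6
      rw [Bool.eq_false_iff]
      intro h4'
      obtain ⟨l, hl, h5', h6', h7', h8'⟩ := copC_iff.1 h4'
      exact encard_le_three_iff.1 (h l hl) a ⟨ha, h5'⟩ b ⟨hb, h6'⟩ d ⟨hd, h7'⟩ e ⟨he, h8'⟩
        h1 h2 h3 h4 h5 h6

theorem hasCode_iff {N : Matroid α} {r : ℕ} {c : Code} : HasCode N r c ↔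
    ∃ f : α → ℕ, Set.BijOn f N.E {i | i < c.1} ∧ ∀ I, I ⊆ N.E → (N.Indep I ↔ Good c f r I) := by
  unfold HasCode
  simp only [good_iff]

theorem ok_col {c : Code} (hc : codeOk c = true) : ∀ i j k, i ≠ j → i ≠ k → j ≠ k →
    i < c.1 → j < c.1 → k < c.1 →
    (colC c i j k = true ↔ ∀ m < c.1, m ≠ i → m ≠ j → m ≠ k → copC c i j k m = true) := by
  refine sort3 ?_ ?_ ?_
  · intro i j k h hj hi hk
    rw [← colC_swap12, h hi hj hk]
    constructor
    · intro h m hm h1 h2 h3
      rw [copC_swap12]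
      exact h m hm h2 h1 h3
    · intro h m hm h1 h2 h3
      rw [copC_swap12]
      exact h m hm h2 h1 h3
  · intro i j k h hi hk hj
    rw [← colC_swap23, h hi hj hk]
    constructor
    · intro h m hm h1 h2 h3
      rw [copC_swap23]
      exact h m hm h1 h3 h2
    · intro h m hm h1 h2 h3
      rw [copC_swap23]
      exact h m hm h1 h3 h2
  · intro i j k h1 h2 _ _ h3
    simp only [codeOk, Bool.and_eq_true] at hc
    have h4 := List.all_eq_true.1 hc.2 (i, j, k) (mem_triples.2 ⟨h1, h2, h3⟩)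
    simp only [beq_iff_eq] at h4
    rw [h4, List.all_eq_true]
    simp only [List.mem_range, Bool.or_eq_true, Nat.beq_eq]
    constructor
    · intro h m hm h5 h6 h7
      rcases h m hm with ((h | h) | h) | h
      · exact absurd h h5
      · exact absurd h h6
      · exact absurd h h7
      · exact h
    · intro h m hm
      by_cases h5 : m = i
      · exact Or.inl (Or.inl (Or.inl h5))
      by_cases h6 : m = j
      · exact Or.inl (Or.inl (Or.inr h6))
      by_cases h7 : m = k
      · exact Or.inl (Or.inr h7)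
      exact Or.inr (h m hm h5 h6 h7)

theorem ok_quad {c : Code} (hc : codeOk c = true) : ∃ i j k m, i < j ∧ j < k ∧ k < m ∧ m < c.1 ∧
    copC c i j k m = false := by
  simp only [codeOk, Bool.and_eq_true] at hc
  obtain ⟨t, ht, h⟩ := List.any_eq_true.1 hc.1.2
  obtain ⟨m, hm, h⟩ := List.any_eq_true.1 h
  obtain ⟨h1, h2, h3⟩ := mem_triples.1 ht
  rw [List.mem_range] at hm
  refine ⟨m, t.1, t.2.1, t.2.2, hm, h1, h2, h3, ?_⟩
  simpa using h

theorem quad_all {N : Matroid α} {g : ℕ → α} {c : Code} (h : GCode N g c) :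
    ∀ i j k m, i ≠ j → i ≠ k → i ≠ m → j ≠ k → j ≠ m → k ≠ m →
      i < c.1 → j < c.1 → k < c.1 → m < c.1 →
      (N.Indep {g i, g j, g k, g m} ↔ copC c i j k m = false) := by
  refine sort4 ?_ ?_ ?_ ?_
  · intro i j k m h hj hi hk hm
    rw [Set.insert_comm, ← copC_swap12]
    exact h hi hj hk hm
  · intro i j k m h hi hk hj hm
    rw [Set.insert_comm (g k) (g j), ← copC_swap23]
    exact h hi hj hk hm
  · intro i j k m h hi hj hm hk
    rw [Set.pair_comm (g m) (g k), ← copC_swap34]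
    exact h hi hj hk hm
  · intro i j k m h1 h2 h3 _ _ _ h4
    exact h.quad i j k m h1 h2 h3 h4

theorem trip_all {N : Matroid α} {g : ℕ → α} {c : Code} (h : GCode3 N g c) :
    ∀ i j k, i ≠ j → i ≠ k → j ≠ k → i < c.1 → j < c.1 → k < c.1 →
      (N.Indep {g i, g j, g k} ↔ colC c i j k = false) := by
  refine sort3 ?_ ?_ ?_
  · intro i j k h hj hi hk
    rw [Set.insert_comm, ← colC_swap12]
    exact h hi hj hk
  · intro i j k h hi hk hj
    rw [Set.pair_comm (g k) (g j), ← colC_swap23]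
    exact h hi hj hk
  · intro i j k h1 h2 _ _ h4
    exact h.trip i j k h1 h2 h4

/-- The inverse of the labelling. -/
theorem exists_inv {E : Set α} {g : ℕ → α} {n : ℕ} (hi : Set.InjOn g {i | i < n})
    (hE : E = g '' {i | i < n}) : ∃ f : α → ℕ, Set.BijOn f E {i | i < n} ∧
      (∀ i, i < n → f (g i) = i) ∧ ∀ e ∈ E, f e < n ∧ g (f e) = e := by
  have hl : Set.LeftInvOn (Function.invFunOn g {i | i < n}) g {i | i < n} :=
    hi.leftInvOn_invFunOn
  have h1 : ∀ i, i < n → Function.invFunOn g {i | i < n} (g i) = i := fun i hi => hl hi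
  have h2 : ∀ e ∈ E, Function.invFunOn g {i | i < n} e < n ∧
      g (Function.invFunOn g {i | i < n} e) = e := by
    intro e he
    rw [hE] at he
    obtain ⟨i, hi, rfl⟩ := he
    rw [h1 i hi]
    exact ⟨hi, rfl⟩
  refine ⟨_, ⟨fun e he => (h2 e he).1, ?_, ?_⟩, h1, h2⟩
  · intro a ha b hb hab
    rw [← (h2 a ha).2, ← (h2 b hb).2, hab]
  · intro i hi
    exact ⟨g i, by rw [hE]; exact ⟨i, hi, rfl⟩, h1 i hi⟩

theorem indep_of_le_two {N : Matroid α} (hs : Simp N) {I : Set α} (hI : I ⊆ N.E)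
    (h : I.encard ≤ 2) : N.Indep I := by
  have h' : I.encard = 2 ∨ I.encard < 2 := h.eq_or_lt
  rcases h' with h' | h'
  · obtain ⟨a, b, hab, rfl⟩ := Set.encard_eq_two.1 h'
    exact hs a (hI (by simp)) b (hI (by simp))
  · have h1 : I.encard ≤ 1 := by
      rw [show (2 : ℕ∞) = 1 + 1 from rfl] at h'
      exact (ENat.lt_add_one_iff (by decide)).1 h'
    rcases Set.encard_le_one_iff_eq.1 h1 with rfl | ⟨a, rfl⟩
    · exact N.empty_indep
    · have := hs a (hI (by simp)) a (hI (by simp))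
      simpa using this

end CIff

open CIff

theorem hasCode_of_gcode {N : Matroid α} {g : ℕ → α} {c : Code} (h : GCode N g c)
    (hc : codeOk c = true) : HasCode N 4 c := by
  rw [hasCode_iff]
  obtain ⟨f, hbij, hfg, hgf⟩ := exists_inv h.inj h.ground
  refine ⟨f, hbij, ?_⟩
  have hq := quad_all h
  -- independent triples in terms of quadruples
  have hne : ∀ a ∈ N.E, ∀ b ∈ N.E, a ≠ b → f a ≠ f b := fun a ha b hb hab he =>
    hab (hbij.injOn ha hb he)
  have hq' : ∀ a ∈ N.E, ∀ b ∈ N.E, ∀ d ∈ N.E, ∀ e ∈ N.E, a ≠ b → a ≠ d → a ≠ e → b ≠ d →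
      b ≠ e → d ≠ e → (N.Indep {a, b, d, e} ↔ copC c (f a) (f b) (f d) (f e) = false) := by
    intro a ha b hb d hd e he h1 h2 h3 h4 h5 h6
    have := hq (f a) (f b) (f d) (f e) (hne a ha b hb h1) (hne a ha d hd h2) (hne a ha e he h3)
      (hne b hb d hd h4) (hne b hb e he h5) (hne d hd e he h6) (hgf a ha).1 (hgf b hb).1
      (hgf d hd).1 (hgf e he).1
    rwa [(hgf a ha).2, (hgf b hb).2, (hgf d hd).2, (hgf e he).2] at this
  intro I hIE
  constructor
  · intro hI
    refine ⟨?_, ?_, ?_⟩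
    · exact hI.encard_le_eRank.trans (by rw [h.rank]; rfl)
    · intro a ha b hb d hd h1 h2 h3
      rw [Bool.eq_false_iff]
      intro hcol
      have hS : N.Indep {a, b, d} := hI.subset (by rintro x (rfl | rfl | rfl) <;> assumption)
      obtain ⟨B, hB, hSB⟩ := hS.exists_isBase_superset
      have hB4 : B.encard = 4 := by rw [hB.encard_eq_eRank, h.rank]
      have : ∃ x ∈ B, x ∉ ({a, b, d} : Set α) := by
        by_contra hno
        push Not at hno
        have h4 : B.encard ≤ 3 := (Set.encard_le_encard hno).trans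
          (Set.encard_eq_three.2 ⟨a, b, d, h1, h2, h3, rfl⟩).le
        rw [hB4] at h4
        exact absurd h4 (by decide)
      obtain ⟨x, hxB, hx⟩ := this
      simp only [Set.mem_insert_iff, Set.mem_singleton_iff, not_or] at hx
      have hxE : x ∈ N.E := hB.subset_ground hxB
      have hind : N.Indep {a, b, d, x} := hB.indep.subset (by
        rintro y (rfl | rfl | rfl | rfl)
        · exact hSB (by simp)
        · exact hSB (by simp)
        · exact hSB (by simp)
        · exact hxB)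
      rw [hq' a (hIE ha) b (hIE hb) d (hIE hd) x hxE h1 h2 (Ne.symm hx.1) h3 (Ne.symm hx.2.1)
        (Ne.symm hx.2.2)] at hind
      have := (ok_col hc (f a) (f b) (f d) (hne a (hIE ha) b (hIE hb) h1)
        (hne a (hIE ha) d (hIE hd) h2) (hne b (hIE hb) d (hIE hd) h3) (hgf a (hIE ha)).1
        (hgf b (hIE hb)).1 (hgf d (hIE hd)).1).1 hcol (f x) (hgf x hxE).1
        (hne x hxE a (hIE ha) hx.1) (hne x hxE b (hIE hb) hx.2.1) (hne x hxE d (hIE hd) hx.2.2)
      rw [this] at hind
      exact absurd hind (by decide)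
    · intro a ha b hb d hd e he h1 h2 h3 h4 h5 h6
      rw [← hq' a (hIE ha) b (hIE hb) d (hIE hd) e (hIE he) h1 h2 h3 h4 h5 h6]
      exact hI.subset (by rintro x (rfl | rfl | rfl | rfl) <;> assumption)
  · rintro ⟨hI4, hcol, hcop⟩
    rcases hI4.eq_or_lt with hI4 | hI4
    · obtain ⟨a, b, d, e, h1, h2, h3, h4, h5, h6, rfl⟩ := eq_four hI4
      rw [hq' a (hIE (by simp)) b (hIE (by simp)) d (hIE (by simp)) e (hIE (by simp)) h1 h2 h3 h4
        h5 h6]
      exact hcop a (by simp) b (by simp) d (by simp) e (by simp) h1 h2 h3 h4 h5 h6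
    have hI3 : I.encard ≤ 3 := by
      have : ((4 : ℕ) : ℕ∞) = 3 + 1 := rfl
      rw [this] at hI4
      exact (ENat.lt_add_one_iff (by decide)).1 hI4
    rcases hI3.eq_or_lt with hI3 | hI3
    · obtain ⟨a, b, d, h1, h2, h3, rfl⟩ := Set.encard_eq_three.1 hI3
      have ha : a ∈ N.E := hIE (by simp)
      have hb : b ∈ N.E := hIE (by simp)
      have hd : d ∈ N.E := hIE (by simp)
      have hcf := hcol a (by simp) b (by simp) d (by simp) h1 h2 h3
      rw [Bool.eq_false_iff] at hcf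
      have h4 := (ok_col hc (f a) (f b) (f d) (hne a ha b hb h1) (hne a ha d hd h2)
        (hne b hb d hd h3) (hgf a ha).1 (hgf b hb).1 (hgf d hd).1).not.1 hcf
      push Not at h4
      obtain ⟨m, hm, h5, h6, h7, h8⟩ := h4
      have hgm : g m ∈ N.E := by rw [h.ground]; exact ⟨m, hm, rfl⟩
      have hfm : f (g m) = m := hfg m hm
      have hi : N.Indep {a, b, d, g m} := by
        rw [hq' a ha b hb d hd (g m) hgm h1 h2 (fun he => h5 (by rw [he, hfm])) h3
          (fun he => h6 (by rw [he, hfm])) (fun he => h7 (by rw [he, hfm])), hfm,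
          Bool.eq_false_iff]
        exact h8
      exact hi.subset (by rintro x (rfl | rfl | rfl) <;> simp)
    · have hI2 : I.encard ≤ 2 := by
        have : (3 : ℕ∞) = 2 + 1 := rfl
        rw [this] at hI3
        exact (ENat.lt_add_one_iff (by decide)).1 hI3
      exact indep_of_le_two h.simp hIE hI2


theorem CIff.exists_g {N : Matroid α} {n : ℕ} {f : α → ℕ} (hn : 0 < n)
    (hf : Set.BijOn f N.E {i | i < n}) : ∃ g : ℕ → α, Set.InjOn g {i | i < n} ∧
      N.E = g '' {i | i < n} ∧ ∀ i, i < n → g i ∈ N.E ∧ f (g i) = i := by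
  classical
  obtain ⟨e0, he0, _⟩ := hf.surjOn (show (0 : ℕ) ∈ {i | i < n} from hn)
  have : Nonempty α := ⟨e0⟩
  have h1 : ∀ i, i < n → Function.invFunOn f N.E i ∈ N.E ∧ f (Function.invFunOn f N.E i) = i := by
    intro i hi
    have := hf.surjOn (show i ∈ {i | i < n} from hi)
    exact ⟨Function.invFunOn_mem this, Function.invFunOn_eq this⟩
  refine ⟨Function.invFunOn f N.E, ?_, ?_, h1⟩
  · intro i hi j hj hij
    rw [← (h1 i hi).2, ← (h1 j hj).2, hij]
  · ext e
    constructor
    · intro he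
      have hfe : f e < n := hf.mapsTo he
      exact ⟨f e, hfe, hf.injOn (h1 _ hfe).1 he (h1 _ hfe).2⟩
    · rintro ⟨i, hi, rfl⟩
      exact (h1 i hi).1

theorem gcode_of_hasCode {N : Matroid α} {c : Code} (h : HasCode N 4 c)
    (hc : codeOk c = true) : ∃ g, GCode N g c := by
  rw [hasCode_iff] at h
  obtain ⟨f, hf, hI⟩ := h
  obtain ⟨i0, j0, k0, m0, h01, h02, h03, h04, h05⟩ := ok_quad hc
  have hn : 0 < c.1 := by omega
  obtain ⟨g, hgi, hgE, hg⟩ := exists_g hn hf
  have hne : ∀ i j, i < c.1 → j < c.1 → i ≠ j → g i ≠ g j := fun i j hi hj hij he =>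
    hij (hgi hi hj he)
  have hquad : ∀ i j k m, i < j → j < k → k < m → m < c.1 →
      (N.Indep {g i, g j, g k, g m} ↔ copC c i j k m = false) := by
    intro i j k m h1 h2 h3 h4
    have hi : i < c.1 := by omega
    have hj : j < c.1 := by omega
    have hk : k < c.1 := by omega
    have hsub : ({g i, g j, g k, g m} : Set α) ⊆ N.E := by
      rintro x (rfl | rfl | rfl | rfl)
      exacts [(hg i hi).1, (hg j hj).1, (hg k hk).1, (hg m h4).1]
    rw [hI _ hsub]
    constructor
    · rintro ⟨_, _, h5⟩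
      have := h5 (g i) (by simp) (g j) (by simp) (g k) (by simp) (g m) (by simp)
        (hne i j hi hj (by omega)) (hne i k hi hk (by omega)) (hne i m hi h4 (by omega))
        (hne j k hj hk (by omega)) (hne j m hj h4 (by omega)) (hne k m hk h4 (by omega))
      rwa [(hg i hi).2, (hg j hj).2, (hg k hk).2, (hg m h4).2] at this
    · intro hcop
      -- all quadruples of different elements of the set
      have hall : ∀ a b d e : ℕ, a ∈ ({i, j, k, m} : Set ℕ) → b ∈ ({i, j, k, m} : Set ℕ) →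
          d ∈ ({i, j, k, m} : Set ℕ) → e ∈ ({i, j, k, m} : Set ℕ) → a ≠ b → a ≠ d → a ≠ e →
          b ≠ d → b ≠ e → d ≠ e → copC c a b d e = false := by
        intro a b d e ha hb hd he h5 h6 h7 h8 h9 h10
        rw [Bool.eq_false_iff]
        intro hcc
        rw [copC_iff] at hcc
        obtain ⟨l, hl, t1, t2, t3, t4⟩ := hcc
        rw [Bool.eq_false_iff] at hcop
        apply hcop
        rw [copC_iff]
        have key : ∀ x ∈ ({i, j, k, m} : Set ℕ), x = a ∨ x = b ∨ x = d ∨ x = e := by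
          intro x hx
          simp only [Set.mem_insert_iff, Set.mem_singleton_iff] at ha hb hd he hx
          omega
        have key2 : ∀ x ∈ ({i, j, k, m} : Set ℕ), l.testBit x = true := by
          intro x hx
          rcases key x hx with rfl | rfl | rfl | rfl <;> assumption
        exact ⟨l, hl, key2 i (by simp), key2 j (by simp), key2 k (by simp), key2 m (by simp)⟩
      have hmem : ∀ x ∈ ({g i, g j, g k, g m} : Set α), f x ∈ ({i, j, k, m} : Set ℕ) := by
        rintro x (rfl | rfl | rfl | rfl)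
        · rw [(hg i hi).2]; simp
        · rw [(hg j hj).2]; simp
        · rw [(hg k hk).2]; simp
        · rw [(hg m h4).2]; simp
      have hlt : ∀ x ∈ ({i, j, k, m} : Set ℕ), x < c.1 := by
        rintro x (rfl | rfl | rfl | rfl) <;> omega
      have hfne : ∀ x ∈ ({g i, g j, g k, g m} : Set α), ∀ y ∈ ({g i, g j, g k, g m} : Set α),
          x ≠ y → f x ≠ f y := fun x hx y hy hxy he => hxy (hf.injOn (hsub hx) (hsub hy) he)
      refine ⟨?_, ?_, ?_⟩
      · rw [encard_four (hne i j hi hj (by omega)) (hne i k hi hk (by omega))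
          (hne i m hi h4 (by omega)) (hne j k hj hk (by omega)) (hne j m hj h4 (by omega))
          (hne k m hk h4 (by omega))]
        rfl
      · intro a ha b hb d hd h5 h6 h7
        rw [Bool.eq_false_iff]
        intro hcol
        have h8 := (ok_col hc (f a) (f b) (f d) (hfne a ha b hb h5) (hfne a ha d hd h6)
          (hfne b hb d hd h7) (hlt _ (hmem a ha)) (hlt _ (hmem b hb)) (hlt _ (hmem d hd))).1 hcol
        have h9 : ∃ x ∈ ({i, j, k, m} : Set ℕ), x ≠ f a ∧ x ≠ f b ∧ x ≠ f d := by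
          by_contra hno
          push Not at hno
          have e1 := hno i (by simp)
          have e2 := hno j (by simp)
          have e3 := hno k (by simp)
          have e4 := hno m (by simp)
          omega
        obtain ⟨x, hx, h10, h11, h12⟩ := h9
        have h13 := hall (f a) (f b) (f d) x (hmem a ha) (hmem b hb) (hmem d hd) hx
          (hfne a ha b hb h5) (hfne a ha d hd h6) (Ne.symm h10) (hfne b hb d hd h7)
          (Ne.symm h11) (Ne.symm h12)
        rw [h8 x (hlt x hx) h10 h11 h12] at h13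
        exact absurd h13 (by decide)
      · intro a ha b hb d hd e he h5 h6 h7 h8 h9 h10
        exact hall _ _ _ _ (hmem a ha) (hmem b hb) (hmem d hd) (hmem e he) (hfne a ha b hb h5)
          (hfne a ha d hd h6) (hfne a ha e he h7) (hfne b hb d hd h8) (hfne b hb e he h9)
          (hfne d hd e he h10)
  refine ⟨g, hgi, hgE, ?_, ?_, hquad⟩
  · intro e he e' he'
    have hsub : ({e, e'} : Set α) ⊆ N.E := by rintro x (rfl | rfl) <;> assumption
    rw [hI _ hsub]
    have h2 : ({e, e'} : Set α).encard ≤ 2 := pair_le e e'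
    have h3 : ({e, e'} : Set α).encard ≤ 3 := h2.trans (by decide)
    refine ⟨h2.trans (by decide), ?_, ?_⟩
    · intro a ha b hb d hd h5 h6 h7
      exact (encard_le_two_iff.1 h2 a ha b hb d hd h5 h6 h7).elim
    · intro a ha b hb d hd e he h5 h6 h7 h8 h9 h10
      exact (encard_le_three_iff.1 h3 a ha b hb d hd e he h5 h6 h7 h8 h9 h10).elim
  · apply le_antisymm
    · obtain ⟨B, hB⟩ := N.exists_isBase
      rw [← hB.encard_eq_eRank]
      have := ((hI B hB.subset_ground).1 hB.indep).1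
      exact this
    · have h1 := (hquad i0 j0 k0 m0 h01 h02 h03 h04).2 h05
      have h2 := h1.encard_le_eRank
      rwa [encard_four (hne i0 j0 (by omega) (by omega) (by omega))
        (hne i0 k0 (by omega) (by omega) (by omega)) (hne i0 m0 (by omega) (by omega) (by omega))
        (hne j0 k0 (by omega) (by omega) (by omega)) (hne j0 m0 (by omega) (by omega) (by omega))
        (hne k0 m0 (by omega) (by omega) (by omega))] at h2

theorem hasCode_of_gcode3 {N : Matroid α} {g : ℕ → α} {c : Code} (h : GCode3 N g c)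
    (h2 : c.2.2 = []) : HasCode N 3 c := by
  rw [hasCode_iff]
  obtain ⟨f, hbij, hfg, hgf⟩ := exists_inv h.inj h.ground
  refine ⟨f, hbij, ?_⟩
  have hq := trip_all h
  have hne : ∀ a ∈ N.E, ∀ b ∈ N.E, a ≠ b → f a ≠ f b := fun a ha b hb hab he =>
    hab (hbij.injOn ha hb he)
  have hq' : ∀ a ∈ N.E, ∀ b ∈ N.E, ∀ d ∈ N.E, a ≠ b → a ≠ d → b ≠ d →
      (N.Indep {a, b, d} ↔ colC c (f a) (f b) (f d) = false) := by
    intro a ha b hb d hd h1 h2 h4
    have := hq (f a) (f b) (f d) (hne a ha b hb h1) (hne a ha d hd h2)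
      (hne b hb d hd h4) (hgf a ha).1 (hgf b hb).1 (hgf d hd).1
    rwa [(hgf a ha).2, (hgf b hb).2, (hgf d hd).2] at this
  have hcop : ∀ i j k m, copC c i j k m = false := by
    intro i j k m
    simp [copC, h2]
  intro I hIE
  constructor
  · intro hI
    refine ⟨hI.encard_le_eRank.trans (by rw [h.rank]; rfl), ?_, ?_⟩
    · intro a ha b hb d hd h1 h2 h3
      rw [← hq' a (hIE ha) b (hIE hb) d (hIE hd) h1 h2 h3]
      exact hI.subset (by rintro x (rfl | rfl | rfl) <;> assumption)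
    · intros
      exact hcop _ _ _ _
  · rintro ⟨hI3, hcol, _⟩
    rcases hI3.eq_or_lt with hI3 | hI3
    · obtain ⟨a, b, d, h1, h2, h3, rfl⟩ := Set.encard_eq_three.1 hI3
      rw [hq' a (hIE (by simp)) b (hIE (by simp)) d (hIE (by simp)) h1 h2 h3]
      exact hcol a (by simp) b (by simp) d (by simp) h1 h2 h3
    · have hI2 : I.encard ≤ 2 := by
        have : ((3 : ℕ) : ℕ∞) = 2 + 1 := rfl
        rw [this] at hI3
        exact (ENat.lt_add_one_iff (by decide)).1 hI3
      exact indep_of_le_two h.simp hIE hI2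

/-- `sg3Ok` is only used for the consistency of the code. -/
theorem pcode3_of_hasCode {N : Matroid α} {c : Code} {vec fam : List ℕ} (h : HasCode N 3 c)
    (hc : sg3Ok c vec fam = true) (h2 : c.2.2 = []) : ∃ f, PCode3 N f c := by
  rw [hasCode_iff] at h
  obtain ⟨f, hf, hI⟩ := h
  have hcop : ∀ i j k m, copC c i j k m = false := by
    intro i j k m
    simp [copC, h2]
  have hsmall : ∀ a ∈ N.E, ∀ b ∈ N.E, N.Indep {a, b} := by
    intro e he e' he'
    have hsub : ({e, e'} : Set α) ⊆ N.E := by rintro x (rfl | rfl) <;> assumption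
    rw [hI _ hsub]
    have h2 : ({e, e'} : Set α).encard ≤ 2 := pair_le e e'
    refine ⟨h2.trans (by decide), ?_, ?_⟩
    · intro a ha b hb d hd h5 h6 h7
      exact (encard_le_two_iff.1 h2 a ha b hb d hd h5 h6 h7).elim
    · intros
      exact hcop _ _ _ _
  have hfne : ∀ x ∈ N.E, ∀ y ∈ N.E, x ≠ y → f x ≠ f y :=
    fun x hx y hy hxy he => hxy (hf.injOn hx hy he)
  have htrip : ∀ a ∈ N.E, ∀ b ∈ N.E, ∀ d ∈ N.E, a ≠ b → a ≠ d → b ≠ d →
      (N.Indep {a, b, d} ↔ colC c (f a) (f b) (f d) = false) := by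
    intro a ha b hb d hd h1 h2 h3
    have hsub : ({a, b, d} : Set α) ⊆ N.E := by rintro x (rfl | rfl | rfl) <;> assumption
    rw [hI _ hsub]
    constructor
    · rintro ⟨_, h4, _⟩
      exact h4 a (by simp) b (by simp) d (by simp) h1 h2 h3
    · intro h4
      refine ⟨(Set.encard_eq_three.2 ⟨a, b, d, h1, h2, h3, rfl⟩).le, ?_, ?_⟩
      · intro a' ha' b' hb' d' hd' h5 h6 h7
        rw [Bool.eq_false_iff] at h4 ⊢
        intro h8
        apply h4
        rw [colC_iff] at h8 ⊢
        obtain ⟨l, hl, t1, t2, t3⟩ := h8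
        have key2 : ∀ x ∈ ({a, b, d} : Set α), l.testBit (f x) = true := by
          intro x hx
          have : x = a' ∨ x = b' ∨ x = d' := by
            simp only [Set.mem_insert_iff, Set.mem_singleton_iff] at ha' hb' hd' hx
            rcases ha' with rfl | rfl | rfl <;> rcases hb' with rfl | rfl | rfl <;>
              rcases hd' with rfl | rfl | rfl <;>
                first
                  | exact absurd rfl h5
                  | exact absurd rfl h6
                  | exact absurd rfl h7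
                  | tauto
          rcases this with rfl | rfl | rfl <;> assumption
        exact ⟨l, hl, key2 a (by simp), key2 b (by simp), key2 d (by simp)⟩
      · intros
        exact hcop _ _ _ _
  refine ⟨f, hf.image_eq, ?_, ?_, ?_, ?_⟩
  · intro e he
    simpa using hsmall e he e he
  · apply le_antisymm
    · obtain ⟨B, hB⟩ := N.exists_isBase
      rw [← hB.encard_eq_eRank]
      exact ((hI B hB.subset_ground).1 hB.indep).1
    · simp only [sg3Ok, Bool.and_eq_true] at hc
      obtain ⟨t, ht, h3⟩ := List.any_eq_true.1 hc.1.1.1.1.2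
      obtain ⟨h4, h5, h6⟩ := mem_triples.1 ht
      obtain ⟨a, ha, ha'⟩ := hf.surjOn (show t.1 ∈ {i | i < c.1} from by simp; omega)
      obtain ⟨b, hb, hb'⟩ := hf.surjOn (show t.2.1 ∈ {i | i < c.1} from by simp; omega)
      obtain ⟨d, hd, hd'⟩ := hf.surjOn (show t.2.2 ∈ {i | i < c.1} from by simp; omega)
      have hab : a ≠ b := by rintro rfl; omega
      have had : a ≠ d := by rintro rfl; omega
      have hbd : b ≠ d := by rintro rfl; omega
      have h7 : N.Indep {a, b, d} := by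
        rw [htrip a ha b hb d hd hab had hbd, ha', hb', hd']
        simpa using h3
      have h8 := h7.encard_le_eRank
      rwa [Set.encard_eq_three.2 ⟨a, b, d, hab, had, hbd, rfl⟩] at h8
  · intro a ha b hb hab
    exact iff_of_true (hsmall a ha b hb) (hfne a ha b hb hab)
  · intro a ha b hb d hd h1 h2 h3
    rw [htrip a ha b hb d hd h1 h2 h3]
    constructor
    · intro h4
      exact ⟨hfne a ha b hb h1, hfne a ha d hd h2, hfne b hb d hd h3, h4⟩
    · exact fun h4 => h4.2.2.2

end Ca3.C4
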