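import Pool.Agent.Lib.MP_ca3eb1_co.C4.Corank4
import Pool.Agent.Lib.MP_ca3eb1_co.E1Top
import Pool.Agent.Lib.MP_ca3eb1_co.AbCaseII

/-! # The complete list of excluded series minors -/

namespace Ca3.C4

open Matroid

variable {α : Type}

theorem corank_ge_five_iff {M : Matroid α} [M.Finite] (h5 : 5 ≤ M✶.eRank) :
    IsExcluded M ↔ IsRing M := by
  constructor
  · intro h
    exact forward_main (Ab.repr_of_excluded_of
      (fun E _ _ N hK h3 => Ab.case_two card_GF4 hK h3) h h5) h (Or.inl h5)
  · intro h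
    exact (backward_main (le_trans (by norm_num) h5) h).2

theorem eRank_cases (M : Matroid α) [M.Finite] :
    M✶.eRank ≤ 2 ∨ M✶.eRank = 3 ∨ M✶.eRank = 4 ∨ 5 ≤ M✶.eRank := by
  obtain ⟨B, hB⟩ := M✶.exists_isBase
  have hfin : B.Finite := M✶.set_finite B hB.subset_ground
  rw [← hB.encard_eq_eRank, ← hfin.cast_ncard_eq]
  have h : B.ncard ≤ 2 ∨ B.ncard = 3 ∨ B.ncard = 4 ∨ 5 ≤ B.ncard := by omega
  rcases h with h | h | h | h
  · left
    exact_mod_cast h
  · right; left
    exact_mod_cast h
  · right; right; left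
    exact_mod_cast h
  · right; right; right
    exact_mod_cast h

theorem complete_list {M : Matroid α} [M.Finite] :
    IsExcluded M ↔ Corank2 M ∨ Corank3 M ∨ Corank4 M ∨ (4 ≤ M✶.eRank ∧ IsRing M) := by
  constructor
  · intro h
    rcases eRank_cases M with h2 | h3 | h4 | h5
    · exact Or.inl ((corank_le_two_iff h2).1 h)
    · exact Or.inr (Or.inl ((corank_three_iff h3).1 h))
    · rcases (corank_four_iff h4).1 h with h | h
      · exact Or.inr (Or.inr (Or.inr ⟨h4.ge, h⟩))
      · exact Or.inr (Or.inr (Or.inl h))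
    · exact Or.inr (Or.inr (Or.inr ⟨le_trans (by norm_num) h5, (corank_ge_five_iff h5).1 h⟩))
  · rintro (h | h | h | ⟨h4, h⟩)
    · exact (corank_le_two_iff (corank2_eRank h).le).2 h
    · exact (corank_three_iff h.1).2 h
    · exact (excluded_of_corank4 h).2
    · exact (backward_main h4 h).2

end Ca3.C4
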