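import Pool.Agent.Lib.MP_ca3eb1_co.C4.Checks2
import Pool.Agent.Lib.MP_ca3eb1_co.Her3
import Pool.Agent.Lib.MP_ca3eb1_co.Transfer
import Pool.Agent.Lib.MP_ca3eb1_co.C3

/-! # Row 53: strict gammoid configurations of rank three contain no forbidden pattern -/

set_option linter.unusedSectionVars false

namespace Ca3.C4

open Finset Submodule

variable {K V E : Type*} [Field K] [Fintype K] [AddCommGroup V] [Module K V]
  [FiniteDimensional K V] [Fintype E] [DecidableEq E] {v : E → V}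

/-- Three different independent elements of a configuration. -/
def Iv3 (K : Type*) {V E : Type*} [Field K] [AddCommGroup V] [Module K V] [DecidableEq E]
    (v : E → V) (a b c : E) : Prop := Ind K v {a, b, c} ∧ a ≠ b ∧ a ≠ c ∧ b ≠ c

theorem cp_swap1 {a b c : E} (h : Iv3 K v a b c) : Iv3 K v b a c := by
  obtain ⟨h1, h2, h3, h4⟩ := h
  refine ⟨?_, h2.symm, h4, h3⟩
  rwa [insert_comm]

theorem cp_swap2 {a b c : E} (h : Iv3 K v a b c) : Iv3 K v a c b := by
  obtain ⟨h1, h2, h3, h4⟩ := h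
  refine ⟨?_, h3, h2, h4.symm⟩
  rwa [pair_comm]

/-- the last element is not in the span of the first two -/
theorem cp_last {a b c : E} (h : Iv3 K v a b c) : v c ∉ sp K v {a, b} := by
  obtain ⟨h1, h2, h3, h4⟩ := h
  have h5 := h1.not_mem_sp_erase (e := c) (by simp)
  have h6 : ({a, b, c} : Finset E).erase c = {a, b} := by
    ext x
    simp only [mem_erase, mem_insert, mem_singleton]
    constructor
    · rintro ⟨h7, h8 | h8 | h8⟩
      · exact Or.inl h8
      · exact Or.inr h8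
      · exact absurd h8 h7
    · rintro (h8 | h8)
      · exact ⟨fun h9 => h3 (h8.symm.trans h9), Or.inl h8⟩
      · exact ⟨fun h9 => h4 (h8.symm.trans h9), Or.inr (Or.inl h8)⟩
  rwa [h6] at h5

theorem cp_pair {a b c : E} (h : Iv3 K v a b c) : v b ∉ sp K v {a} := fun h' =>
  cp_last (cp_swap2 h) (sp_mono (by simp) h')

theorem config_deg (hK : Fintype.card K = 4) (h3 : rk K v univ ≤ 3) {a : E} {y : ℕ → E}
    (h : ∀ i < 6, ∀ j < i, Iv3 K v a (y j) (y i)) : False := by
  have hsym : ∀ i < 6, ∀ j < 6, i ≠ j → Iv3 K v a (y j) (y i) := by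
    intro i hi j hj hij
    rcases Nat.lt_or_gt_of_ne hij with h1 | h1
    · exact cp_swap2 (h j hj i h1)
    · exact h i hi j h1
  have hone : ∀ i < 6, v (y i) ∉ sp K v {a} := by
    intro i hi
    by_cases h0 : i = 0
    · exact cp_pair (hsym 1 (by omega) i hi (by omega))
    · exact cp_pair (hsym 0 (by omega) i hi (by omega))
  have hinj : Set.InjOn y (range 6 : Finset ℕ) := by
    intro i hi j hj hij
    by_contra hne
    rw [mem_coe, mem_range] at hi hj
    exact (hsym i hi j hj hne).2.2.2 hij.symm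
  have hc : ((range 6).image y).card = 6 := by
    rw [card_image_of_injOn hinj, card_range]
  have hrk : rk K v {a} = 1 := by
    have h1 : Ind K v {a} := (h 1 (by omega) 0 (by omega)).1.subset (by simp)
    rw [h1.rk_eq_card, card_singleton]
  have h1 := pencil_card_le hK (v := v) (F := {a}) (X := (range 6).image y) (by
      have : rk K v ({a} ∪ (range 6).image y) ≤ rk K v univ := rk_mono (subset_univ _)
      omega) (by
      intro x hx
      obtain ⟨i, hi, rfl⟩ := mem_image.1 hx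
      exact hone i (mem_range.1 hi)) (by
      intro x hx z hz hxz
      obtain ⟨i, hi, rfl⟩ := mem_image.1 hx
      obtain ⟨j, hj, rfl⟩ := mem_image.1 hz
      by_contra hne
      have hij : i ≠ j := fun h' => hne (by rw [h'])
      refine cp_last (hsym i (mem_range.1 hi) j (mem_range.1 hj) hij) ?_
      rwa [pair_comm])
  omega

/-- A pattern with too many long lines is impossible. -/
theorem cp_core {F : Type*} [Fintype F] [DecidableEq F] {w : F → V} (hw : Simple K w)
    (hs : SG K w ∅ univ) (h3 : rk K w univ = 3) {n : ℕ} (r : Fin n → F)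
    (hr : Function.Injective r) (Ls : Finset (Finset (Fin n)))
    (H : ∀ i j k, i ≠ j → i ≠ k → j ≠ k →
      (Ind K w {r i, r j, r k} ↔ ¬ ∃ l ∈ Ls, i ∈ l ∧ j ∈ l ∧ k ∈ l))
    (c1 : ∀ l ∈ Ls, 3 ≤ l.card) (c2 : ∀ l ∈ Ls, ∀ l' ∈ Ls, 2 ≤ (l ∩ l').card → l = l')
    (c3 : n < ∑ l ∈ Ls, (l.card - 2) + 3)
    (c4 : ∃ i j k, i ≠ j ∧ i ≠ k ∧ j ≠ k ∧ ¬ ∃ l ∈ Ls, i ∈ l ∧ j ∈ l ∧ k ∈ l) : False := by
  classical
  have hcard : ∀ i j k, i ≠ j → i ≠ k → j ≠ k → ({r i, r j, r k} : Finset F).card = 3 := by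
    intro i j k h1 h2 h4
    rw [card_insert_of_notMem, card_pair (hr.ne h4)]
    simp only [mem_insert, mem_singleton, not_or]
    exact ⟨hr.ne h1, hr.ne h2⟩
  have hA : ∀ i j k, i ≠ j → i ≠ k → j ≠ k →
      ((∃ l ∈ Ls, i ∈ l ∧ j ∈ l ∧ k ∈ l) ↔ w (r k) ∈ sp K w {r i, r j}) := by
    intro i j k h1 h2 h4
    have e1 : ({r i, r j, r k} : Finset F) = insert (r k) {r i, r j} := by
      ext x
      simp only [mem_insert, mem_singleton]
      tauto
    have e2 : rk K w {r i, r j} = 2 := hw.rk_pair (hr.ne h1)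
    have e3 := H i j k h1 h2 h4
    have e4 := hcard i j k h1 h2 h4
    constructor
    · intro h
      by_contra hc
      have e5 := rk_insert_of_not_mem_sp hc
      rw [← e1, e2] at e5
      exact (e3.1 (by unfold Ind; omega)) h
    · intro h
      by_contra hc
      have e5 := rk_insert_of_mem_sp h
      rw [← e1, e2] at e5
      have e6 := e3.2 hc
      unfold Ind at e6
      omega
  have hB : ∀ l ∈ Ls, ∀ i ∈ l, ∀ j ∈ l, i ≠ j → sp K w (l.image r) = sp K w {r i, r j} := by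
    intro l hl i hi j hj hij
    apply le_antisymm
    · rw [sp_le_iff]
      intro x hx
      obtain ⟨k, hk, rfl⟩ := mem_image.1 hx
      by_cases h1 : k = i
      · rw [h1]; exact mem_sp (by simp)
      · by_cases h2 : k = j
        · rw [h2]; exact mem_sp (by simp)
        · exact (hA i j k hij (Ne.symm h1) (Ne.symm h2)).1 ⟨l, hl, hi, hj, hk⟩
    · apply sp_mono
      intro x hx
      rcases mem_insert.1 hx with rfl | hx
      · exact mem_image_of_mem _ hi
      · rw [mem_singleton.1 hx]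
        exact mem_image_of_mem _ hj
  have htwo : ∀ l ∈ Ls, ∃ i ∈ l, ∃ j ∈ l, i ≠ j := by
    intro l hl
    have := c1 l hl
    obtain ⟨i, hi, j, hj, hij⟩ := one_lt_card.1 (show 1 < l.card by omega)
    exact ⟨i, hi, j, hj, hij⟩
  set L : Finset (Fin n) → Finset F := fun l => cl K w (l.image r) with hL
  have hinj : Set.InjOn L Ls := by
    intro l hl l' hl' hll
    rw [mem_coe] at hl hl'
    by_contra hne
    have h1 : ¬ 2 ≤ (l' ∩ l).card := fun h => hne (c2 l' hl' l hl h).symm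
    obtain ⟨i, hi, j, hj, hij⟩ := htwo l hl
    obtain ⟨k, hk⟩ : ∃ k, k ∈ l' \ l := by
      by_contra hcon
      push Not at hcon
      have h2 : l' ⊆ l := by
        intro x hx
        by_contra hxl
        exact hcon x (mem_sdiff.2 ⟨hx, hxl⟩)
      rw [inter_eq_left.2 h2] at h1
      have := c1 l' hl'
      omega
    rw [mem_sdiff] at hk
    have h2 : r k ∈ L l := by
      rw [hll]
      exact subset_cl (mem_image_of_mem _ hk.1)
    have h4 : w (r k) ∈ sp K w {r i, r j} := by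
      rw [← hB l hl i hi j hj hij]
      exact mem_cl.1 h2
    have hki : i ≠ k := fun h => hk.2 (h ▸ hi)
    have hkj : j ≠ k := fun h => hk.2 (h ▸ hj)
    obtain ⟨l'', hl'', h5, h6, h7⟩ := (hA i j k hij hki hkj).2 h4
    have h8 : l = l'' := by
      apply c2 l hl l'' hl''
      have : ({i, j} : Finset (Fin n)) ⊆ l ∩ l'' := by
        intro x hx
        rcases mem_insert.1 hx with rfl | hx
        · exact mem_inter.2 ⟨hi, h5⟩
        · rw [mem_singleton.1 hx]
          exact mem_inter.2 ⟨hj, h6⟩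
      have h9 := card_le_card this
      rwa [card_pair hij] at h9
    exact hk.2 (h8 ▸ h7)
  have hS : rk K w (univ.image r) = 3 := by
    apply le_antisymm
    · rw [← h3]
      exact rk_mono (subset_univ _)
    · obtain ⟨i, j, k, h1, h2, h4, h5⟩ := c4
      have h6 := (H i j k h1 h2 h4).2 h5
      have h7 : rk K w {r i, r j, r k} = 3 := by
        rw [h6.rk_eq_card, hcard i j k h1 h2 h4]
      rw [← h7]
      apply rk_mono
      intro x hx
      simp only [mem_insert, mem_singleton] at hx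
      rcases hx with rfl | rfl | rfl <;> exact mem_image_of_mem _ (mem_univ _)
  have key := her3_lines hw isFl_univ h3 hs (subset_univ (univ.image r)) hS
    (LL := Ls.image L) (by
      intro M hM
      obtain ⟨l, hl, rfl⟩ := mem_image.1 hM
      obtain ⟨i, hi, j, hj, hij⟩ := htwo l hl
      refine ⟨isFl_cl, ?_⟩
      simp only [hL]
      rw [rk_cl, rk_congr (hB l hl i hi j hj hij)]
      exact hw.rk_pair (hr.ne hij))
  rw [sum_image (fun a ha b hb h => hinj ha hb h), card_image_of_injective _ hr, card_univ,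
    Fintype.card_fin] at key
  have h5 : ∑ l ∈ Ls, (l.card - 2) ≤ ∑ l ∈ Ls, ((L l ∩ univ.image r).card - 2) := by
    apply sum_le_sum
    intro l _
    have h6 : (l.image r).card ≤ (L l ∩ univ.image r).card :=
      card_le_card (subset_inter subset_cl (image_subset_image (subset_univ _)))
    rw [card_image_of_injective _ hr] at h6
    omega
  omega

/-- The lines of a pattern as finite sets. -/
def cpL (t : ℕ) : Finset (Finset (Fin (pat t).1)) :=
  (((pat t).2).map (fun m => univ.filter (fun i : Fin (pat t).1 => tb m i = true))).toFinset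

theorem cp_mem_triples {m i j k : ℕ} (h1 : i < j) (h2 : j < k) (h3 : k < m) :
    (i, j, k) ∈ triples m := by
  unfold triples
  simp only [List.mem_flatMap, List.mem_map, List.mem_range]
  exact ⟨k, h3, j, h2, i, h1, rfl⟩

theorem cp_mem_cpL {t : ℕ} {i j k : Fin (pat t).1} :
    (∃ l ∈ cpL t, i ∈ l ∧ j ∈ l ∧ k ∈ l) ↔
      ((pat t).2.any fun l => tb l i && tb l j && tb l k) = true := by
  unfold cpL
  rw [List.any_eq_true]
  constructor
  · rintro ⟨l, hl, h1, h2, h3⟩
    rw [List.mem_toFinset, List.mem_map] at hl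
    obtain ⟨m, hm, rfl⟩ := hl
    rw [mem_filter] at h1 h2 h3
    exact ⟨m, hm, by rw [h1.2, h2.2, h3.2]; rfl⟩
  · rintro ⟨m, hm, h⟩
    simp only [Bool.and_eq_true] at h
    refine ⟨univ.filter (fun i : Fin (pat t).1 => tb m i = true), ?_, ?_, ?_, ?_⟩
    · rw [List.mem_toFinset, List.mem_map]
      exact ⟨m, hm, rfl⟩
    · exact mem_filter.2 ⟨mem_univ _, h.1.1⟩
    · exact mem_filter.2 ⟨mem_univ _, h.1.2⟩
    · exact mem_filter.2 ⟨mem_univ _, h.2⟩

theorem cp_trip {t : ℕ} {y : ℕ → E}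
    (h : ∀ s ∈ patT t, (Iv3 K v (y s.1) (y s.2.1) (y s.2.2.1) ↔ s.2.2.2 = 0))
    (i j k : Fin (pat t).1) (hij : i < j) (hjk : j < k) :
    Iv3 K v (y i) (y j) (y k) ↔ ¬ ∃ l ∈ cpL t, i ∈ l ∧ j ∈ l ∧ k ∈ l := by
  have h1 : ((i : ℕ), (j : ℕ), (k : ℕ)) ∈ triples (pat t).1 := cp_mem_triples hij hjk k.2
  have h2 : ((i : ℕ), (j : ℕ), (k : ℕ), bif (pat t).2.any fun l =>
      tb l i && tb l j && tb l k then 1 else 0) ∈ patT t := by
    unfold patT
    rw [List.mem_map]
    exact ⟨_, h1, rfl⟩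
  have h3 := h _ h2
  rw [cp_mem_cpL]
  refine h3.trans ?_
  cases ((pat t).2.any fun l => tb l i && tb l j && tb l k) <;> simp

theorem cp_trip' {t : ℕ} {y : ℕ → E}
    (h : ∀ s ∈ patT t, (Iv3 K v (y s.1) (y s.2.1) (y s.2.2.1) ↔ s.2.2.2 = 0))
    (i j k : Fin (pat t).1) (hij : i ≠ j) (hik : i ≠ k) (hjk : j ≠ k) :
    Iv3 K v (y i) (y j) (y k) ↔ ¬ ∃ l ∈ cpL t, i ∈ l ∧ j ∈ l ∧ k ∈ l := by
  have s1 : ∀ a b c : Fin (pat t).1, Iv3 K v (y a) (y b) (y c) ↔ Iv3 K v (y b) (y a) (y c) :=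
    fun a b c => ⟨cp_swap1, cp_swap1⟩
  have s2 : ∀ a b c : Fin (pat t).1, Iv3 K v (y a) (y b) (y c) ↔ Iv3 K v (y a) (y c) (y b) :=
    fun a b c => ⟨cp_swap2, cp_swap2⟩
  have t1 : ∀ a b c : Fin (pat t).1, (∃ l ∈ cpL t, a ∈ l ∧ b ∈ l ∧ c ∈ l) ↔
      ∃ l ∈ cpL t, b ∈ l ∧ a ∈ l ∧ c ∈ l := fun a b c =>
    ⟨fun ⟨l, h1, h2, h3, h4⟩ => ⟨l, h1, h3, h2, h4⟩, fun ⟨l, h1, h2, h3, h4⟩ => ⟨l, h1, h3, h2, h4⟩⟩
  have t2 : ∀ a b c : Fin (pat t).1, (∃ l ∈ cpL t, a ∈ l ∧ b ∈ l ∧ c ∈ l) ↔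
      ∃ l ∈ cpL t, a ∈ l ∧ c ∈ l ∧ b ∈ l := fun a b c =>
    ⟨fun ⟨l, h1, h2, h3, h4⟩ => ⟨l, h1, h2, h4, h3⟩, fun ⟨l, h1, h2, h3, h4⟩ => ⟨l, h1, h2, h4, h3⟩⟩
  rcases lt_or_gt_of_ne hij with h1 | h1 <;> rcases lt_or_gt_of_ne hik with h2 | h2 <;>
    rcases lt_or_gt_of_ne hjk with h3 | h3
  · exact cp_trip h i j k h1 h3
  · rw [s2, t2]
    exact cp_trip h i k j h2 h3
  · exact absurd (h1.trans h3) (not_lt.2 h2.le)
  · rw [s2, s1, t2, t1]
    exact cp_trip h k i j h2 h1
  · rw [s1, t1]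
    exact cp_trip h j i k h1 h2
  · exact absurd (h3.trans h1) (not_lt.2 h2.le)
  · rw [s1, s2, t1, t2]
    exact cp_trip h j k i h3 h2
  · rw [s2, s1, s2, t2, t1, t2]
    exact cp_trip h k j i h3 h1

/-- The general form: what is needed from the pattern. -/
theorem cp_main (hs : SG K v ∅ univ) (h3 : rk K v univ = 3)
    (hv : ∀ e, v e ≠ 0) {t : ℕ} {y : ℕ → E}
    (h : ∀ s ∈ patT t, (Iv3 K v (y s.1) (y s.2.1) (y s.2.2.1) ↔ s.2.2.2 = 0))
    (c1 : ∀ l ∈ cpL t, 3 ≤ l.card) (c2 : ∀ l ∈ cpL t, ∀ l' ∈ cpL t, 2 ≤ (l ∩ l').card → l = l')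
    (c3 : (pat t).1 < ∑ l ∈ cpL t, (l.card - 2) + 3)
    (c4 : ∃ i j k, i ≠ j ∧ i ≠ k ∧ j ≠ k ∧ ¬ ∃ l ∈ cpL t, i ∈ l ∧ j ∈ l ∧ k ∈ l)
    (c5 : ∀ i j : Fin (pat t).1, i ≠ j → ∃ k, i ≠ k ∧ j ≠ k ∧
      ¬ ∃ l ∈ cpL t, i ∈ l ∧ j ∈ l ∧ k ∈ l) : False := by
  classical
  have hp : ∀ i j : Fin (pat t).1, i ≠ j → y i ≠ y j ∧ v (y j) ∉ sp K v {y i} := by
    intro i j hij
    obtain ⟨k, h1, h2, h4⟩ := c5 i j hij
    have h5 := (cp_trip' h i j k hij h1 h2).2 h4
    exact ⟨h5.2.1, cp_pair h5⟩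
  have hyi : Function.Injective (fun i : Fin (pat t).1 => y i) := by
    intro i j hij
    by_contra hne
    exact (hp i j hne).1 hij
  obtain ⟨R, hR₀, hR⟩ := exists_reps (K := K) (v := v) (Y := ∅) (T := univ)
    (R₀ := univ.image (fun i : Fin (pat t).1 => y i)) (subset_univ _) (by
      intro r _
      rw [sp_empty, Submodule.mem_bot]
      exact hv r) (by
      intro r hr s hs hrs
      obtain ⟨i, -, rfl⟩ := mem_image.1 hr
      obtain ⟨j, -, rfl⟩ := mem_image.1 hs
      by_contra hne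
      have hij : j ≠ i := fun h' => hne (by rw [h'])
      refine (hp j i hij).2 ?_
      rwa [insert_empty_eq] at hrs)
  have hmem : ∀ i : Fin (pat t).1, y i ∈ R := fun i => hR₀ (mem_image_of_mem _ (mem_univ i))
  let r : Fin (pat t).1 → R := fun i => ⟨y i, hmem i⟩
  have hri : Function.Injective r := fun i j hij => hyi (congrArg Subtype.val hij)
  have hrk : rk K (qc K v ∅ R) univ = 3 := by
    have := rk_qc_univ hR (empty_subset _)
    rw [rk_empty, add_zero] at this
    omega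
  refine cp_core (K := K) (w := qc K v ∅ R) (qc_simple hR)
    (transfer_SG hR isFl_univ (empty_subset _) hs) hrk r hri (cpL t) ?_ c1 c2 c3 c4
  intro i j k hij hik hjk
  rw [← cp_trip' h i j k hij hik hjk]
  have e1 : ({r i, r j, r k} : Finset R).map (Function.Embedding.subtype _) =
      {y i, y j, y k} := by
    rw [map_insert, map_insert, map_singleton]
    rfl
  have e2 := rk_qc (K := K) (v := v) (Y := ∅) (R := R) {r i, r j, r k}
  rw [rk_empty, add_zero, union_empty, e1] at e2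
  have e3 : ({r i, r j, r k} : Finset R).card = ({y i, y j, y k} : Finset E).card := by
    rw [← e1, card_map]
  constructor
  · intro h1
    refine ⟨?_, (hp i j hij).1, (hp i k hik).1, (hp j k hjk).1⟩
    unfold Ind at h1 ⊢
    omega
  · intro h1
    have := h1.1
    unfold Ind at this ⊢
    omega

set_option maxRecDepth 100000 in
theorem config_pat (hK : Fintype.card K = 4) (hs : SG K v ∅ univ) (h3 : rk K v univ = 3)
    (hv : ∀ e, v e ≠ 0) {t : ℕ} (ht : t < 5) (h1 : t ≠ 1) {y : ℕ → E}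
    (h : ∀ s ∈ patT t, (Iv3 K v (y s.1) (y s.2.1) (y s.2.2.1) ↔ s.2.2.2 = 0)) : False := by
  have ht' : t = 0 ∨ t = 2 ∨ t = 3 ∨ t = 4 := by omega
  rcases ht' with rfl | rfl | rfl | rfl
  · exact cp_main hs h3 hv h (by decide) (by decide) (by decide) (by decide) (by decide)
  · exact cp_main hs h3 hv h (by decide) (by decide) (by decide) (by decide) (by decide)
  · exact cp_main hs h3 hv h (by decide) (by decide) (by decide) (by decide) (by decide)
  · exact cp_main hs h3 hv h (by decide) (by decide) (by decide) (by decide) (by decide)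

end Ca3.C4
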