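import Pool.Agent.Lib.MP_ca3eb1_co.C4.Geo
import Pool.Agent.Lib.MP_ca3eb1_co.C4.NoP6
import Pool.Agent.Lib.MP_ca3eb1_co.Bridge

/-! # Row 55: members of the class have no forbidden patterns -/

namespace Ca3.C4

open Matroid

variable {α : Type*}

theorem pb_triples_lt {m : ℕ} {x : ℕ × ℕ × ℕ} (h : x ∈ triples m) :
    x.1 < m ∧ x.2.1 < m ∧ x.2.2 < m := by
  unfold triples at h
  simp only [List.mem_flatMap, List.mem_range, List.mem_map] at h
  obtain ⟨k, hk, j, hj, i, hi, rfl⟩ := h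
  refine ⟨?_, ?_, hk⟩
  · show i < m
    omega
  · show j < m
    omega

theorem pb_patT_lt {t : ℕ} {s : ℕ × ℕ × ℕ × ℕ} (h : s ∈ patT t) :
    s.1 < (pat t).1 ∧ s.2.1 < (pat t).1 ∧ s.2.2.1 < (pat t).1 := by
  unfold patT at h
  rw [List.mem_map] at h
  obtain ⟨x, hx, rfl⟩ := h
  exact pb_triples_lt hx

theorem pb_cover : ∀ t < 5, ∀ i < (pat t).1, ∃ s ∈ patT t, s.2.2.2 = 0 ∧
    (s.1 = i ∨ s.2.1 = i ∨ s.2.2.1 = i) := by
  decide +kernel

theorem pb_pos : ∀ t < 5, 0 < (pat t).1 := by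
  decide

section rep

variable {K V : Type*} [Field K] [AddCommGroup V] [Module K V] {M : Matroid α}
  [DecidableEq M.E] {w : M.E → V}

theorem pb_is3 (h : RepDual K M w) (a b c : M.E) :
    Is3 M✶ (a : α) (b : α) (c : α) ↔ Iv3 K w a b c := by
  unfold Is3 Iv3
  rw [← h]
  have e : Subtype.val '' (({a, b, c} : Finset M.E) : Set M.E) = {(a : α), (b : α), (c : α)} := by
    simp [Set.image_insert_eq]
  rw [e]
  constructor
  · rintro ⟨h1, h2, h3, h4⟩
    exact ⟨h1, fun e => h2 (congrArg _ e), fun e => h3 (congrArg _ e), fun e => h4 (congrArg _ e)⟩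
  · rintro ⟨h1, h2, h3, h4⟩
    exact ⟨h1, fun e => h2 (Subtype.ext e), fun e => h3 (Subtype.ext e),
      fun e => h4 (Subtype.ext e)⟩

theorem pb_main [Fintype K] [FiniteDimensional K V] [M.Finite] [Fintype M.E]
    (hK : Fintype.card K = 4) (hw : RepDual K M w) (hT : IsTransversal M)
    (hl : ∀ e ∈ M.E, M✶.Indep {e}) (h3 : M✶.eRank = 3) : P3 M✶ := by
  have hr : rk K w Finset.univ = 3 := by
    have h1 := hw.eRank_eq
    rw [h3] at h1
    exact_mod_cast h1.symm
  have h0 : ∀ e, w e ≠ 0 := by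
    intro e he
    have h1 := hl e e.2
    have h2 : Subtype.val '' (({e} : Finset M.E) : Set M.E) = {(e : α)} := by simp
    rw [← h2, hw] at h1
    have h4 := h1.rk_eq_card
    rw [rk, sp_singleton, he, Submodule.span_singleton_eq_bot.2 rfl, finrank_bot,
      Finset.card_singleton] at h4
    omega
  have hfl : IsFl K w ∅ := by
    apply Finset.Subset.antisymm _ subset_cl
    intro e he
    rw [mem_cl, sp_empty, Submodule.mem_bot] at he
    exact absurd he (h0 e)
  have hs : SG K w ∅ Finset.univ :=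
    SG_of_hasTrans hfl ind_empty (hw.transversal_iff.1 hT)
  refine ⟨fun a y h => ?_, fun t ht y hy h => ?_⟩
  · have ha : a ∈ M.E := (h 1 (by norm_num) 0 (by norm_num)).1.subset_ground (by simp)
    have hE : ∀ i < 6, ∀ j < i, y i ∈ M.E ∧ y j ∈ M.E := fun i hi j hj =>
      ⟨(h i hi j hj).1.subset_ground (by simp), (h i hi j hj).1.subset_ground (by simp)⟩
    obtain ⟨z, hz⟩ : ∃ z : ℕ → M.E, ∀ i, y i ∈ M.E → (z i : α) = y i := by
      classical
      refine ⟨fun i => if hi : y i ∈ M.E then ⟨y i, hi⟩ else ⟨a, ha⟩, fun i hi => ?_⟩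
      simp only [dif_pos hi]
    refine config_deg hK hr.le (a := ⟨a, ha⟩) (y := z) ?_
    intro i hi j hj
    obtain ⟨h1, h2⟩ := hE i hi j hj
    rw [← pb_is3 hw, hz i h1, hz j h2]
    exact h i hi j hj
  · have hp := pb_pos t ht
    obtain ⟨z, hz⟩ : ∃ z : ℕ → M.E, ∀ i, y i ∈ M.E → (z i : α) = y i := by
      classical
      refine ⟨fun i => if hi : y i ∈ M.E then ⟨y i, hi⟩ else ⟨y 0, hy 0 hp⟩, fun i hi => ?_⟩
      simp only [dif_pos hi]
    have key : ∀ s ∈ patT t, (Iv3 K w (z s.1) (z s.2.1) (z s.2.2.1) ↔ s.2.2.2 = 0) := by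
      intro s hs'
      obtain ⟨l1, l2, l3⟩ := pb_patT_lt hs'
      rw [← h s hs', ← pb_is3 hw, hz _ (hy _ l1), hz _ (hy _ l2), hz _ (hy _ l3)]
    by_cases h1 : t = 1
    · subst h1
      exact no_P6 hK hr.le key
    · exact config_pat hK hs hr h0 ht h1 key

end rep

theorem P3_of_classQ {M : Matroid α} [M.Finite] (hQ : ClassQ M)
    (hl : ∀ e ∈ M.E, M✶.Indep {e}) (h3 : M✶.eRank = 3) : P3 M✶ := by
  classical
  have : Fintype M.E := M.ground_finite.fintype
  have : Fintype (GaloisField 2 2) := Fintype.ofFinite _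
  have hK : Fintype.card (GaloisField 2 2) = 4 := by
    rw [Fintype.card_eq_nat_card, GaloisField.card 2 2 (by norm_num)]
    norm_num
  obtain ⟨n, w, hw⟩ := hQ.1.exists_repDual
  exact pb_main hK hw hQ.2 hl h3

theorem pb_is4 {N : Matroid α} {x b c d : α} (hx : N.IsNonloop x) :
    Is4 N x b c d ↔ Is3 (N ／ {x}) b c d := by
  unfold Is4 Is3
  rw [hx.contractElem_indep_iff]
  simp only [Set.mem_insert_iff, Set.mem_singleton_iff, not_or]
  tauto

theorem pb_P3 {M : Matroid α} [M.Finite] (hs : Simp M✶) (h4 : M✶.eRank = 4)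
    (hQ : ∀ x ∈ M.E, ClassQ (M ＼ {x})) {x : α} (hx : x ∈ M.E) :
    M✶.IsNonloop x ∧ P3 (M✶ ／ {x}) := by
  have hxi : M✶.Indep {x} := by
    have := hs x hx x hx
    rwa [Set.insert_eq_of_mem (Set.mem_singleton x)] at this
  have hnl : M✶.IsNonloop x := indep_singleton.1 hxi
  refine ⟨hnl, ?_⟩
  rw [← dual_delete]
  apply P3_of_classQ (hQ x hx)
  · intro e he
    rw [delete_ground] at he
    rw [dual_delete, hnl.contractElem_indep_iff]
    exact ⟨fun h => he.2 h.symm, hs x hx e he.1⟩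
  · rw [dual_delete]
    obtain ⟨B, hB, hxB⟩ := hxi.exists_isBase_superset
    have hxB' : x ∈ B := hxB (Set.mem_singleton x)
    have hB' : (M✶ ／ {x}).IsBase (B \ {x}) := by
      rw [hxi.contract_isBase_iff]
      refine ⟨?_, Set.disjoint_sdiff_left⟩
      rwa [Set.sdiff_union_of_subset hxB]
    have h1 := hB.encard_eq_eRank
    have h2 := hB'.encard_eq_eRank
    have h3 := Set.encard_sdiff_singleton_add_one hxB'
    rw [← h2]
    rw [h1, h4] at h3
    have h5 : (B \ {x}).encard + 1 = 3 + 1 := by rw [h3]; rfl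
    exact WithTop.add_right_cancel ENat.one_ne_top h5

theorem P4_of_delete {M : Matroid α} [M.Finite] (hs : Simp M✶) (h4 : M✶.eRank = 4)
    (hQ : ∀ x ∈ M.E, ClassQ (M ＼ {x})) : P4 M✶ := by
  refine ⟨fun a b y h => ?_, fun t ht x y hx hy h => ?_⟩
  · have ha : a ∈ M.E := (h 1 (by norm_num) 0 (by norm_num)).1.subset_ground (by simp)
    obtain ⟨hnl, hP⟩ := pb_P3 hs h4 hQ ha
    exact hP.deg b y fun i hi j hj => (pb_is4 hnl).1 (h i hi j hj)
  · obtain ⟨hnl, hP⟩ := pb_P3 hs h4 hQ (x := x) hx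
    refine hP.noPat t ht y ?_ fun s hs' => ?_
    · intro i hi
      rw [contract_ground]
      refine ⟨hy i hi, fun hix => ?_⟩
      rw [Set.mem_singleton_iff] at hix
      obtain ⟨s, hs1, hs2, hs3⟩ := pb_cover t ht i hi
      obtain ⟨-, n1, n2, n3, -⟩ := (h s hs1).2 hs2
      rcases hs3 with h5 | h5 | h5
      · exact n1 (by rw [h5, hix])
      · exact n2 (by rw [h5, hix])
      · exact n3 (by rw [h5, hix])
    · rw [← pb_is4 hnl]
      exact h s hs'

end Ca3.C4
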