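import Pool.Agent.Lib.MP_ca3eb1_co.C4.Checks2

/-! # Row 62: the field with four elements, determinants -/

namespace Ca3.C4

set_option linter.unusedSectionVars false

variable {K : Type*} [Field K] [Fintype K]

private theorem gf4_aux (hK : Fintype.card K = 4) : ∃ w : K, w * w = w + 1 ∧ (2 : K) = 0 ∧
    w ≠ 0 ∧ w + 1 ≠ 0 := by
  classical
  have h2 : (2 : K) = 0 := by
    have h4 : ((4 : ℕ) : K) = 0 := by
      rw [← hK]
      exact Nat.cast_card_eq_zero K
    have h : (2 : K) * 2 = 0 := by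
      have : (2 : K) * 2 = ((4 : ℕ) : K) := by norm_num
      rw [this, h4]
    exact mul_self_eq_zero.1 h
  obtain ⟨w, hw⟩ : ∃ w : K, w ∉ ({0, 1} : Finset K) := by
    by_contra hcon
    push Not at hcon
    have h1 : (Finset.univ : Finset K) ⊆ {0, 1} := fun x _ => hcon x
    have h3 := Finset.card_le_card h1
    rw [Finset.card_univ, hK] at h3
    have h5 : ({0, 1} : Finset K).card ≤ 2 := Finset.card_le_two
    omega
  simp only [Finset.mem_insert, Finset.mem_singleton, not_or] at hw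
  have hw3 : w ^ 3 = 1 := by
    have := FiniteField.pow_card_sub_one_eq_one w hw.1
    rwa [hK] at this
  have hfac : (w - 1) * (w * w + w + 1) = 0 := by linear_combination hw3
  have hq : w * w + w + 1 = 0 := by
    rcases mul_eq_zero.1 hfac with h | h
    · exact absurd (sub_eq_zero.1 h) hw.2
    · exact h
  refine ⟨w, by linear_combination hq - (w + 1) * h2, h2, hw.1, fun h => hw.2 ?_⟩
  linear_combination h - h2

theorem exists_phi (hK : Fintype.card K = 4) : ∃ φ : ℕ → K, φ 0 = 0 ∧ φ 1 = 1 ∧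
    (∀ a < 4, ∀ b < 4, φ (gmul a b) = φ a * φ b) ∧ (∀ a < 4, ∀ b < 4, φ (a ^^^ b) = φ a + φ b) ∧
    ∀ a < 4, φ a = 0 → a = 0 := by
  obtain ⟨w, hw, h2, hw0, hw1⟩ := gf4_aux hK
  let φ : ℕ → K := fun n => if n = 0 then 0 else if n = 1 then 1 else if n = 2 then w else w + 1
  have e0 : φ 0 = 0 := rfl
  have e1 : φ 1 = 1 := rfl
  have e2 : φ 2 = w := rfl
  have e3 : φ 3 = w + 1 := rfl
  refine ⟨φ, e0, e1, ?_, ?_, ?_⟩
  · have hg : ∀ a < 4, ∀ b < 4, gmul a b = (match a, b with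
        | 0, _ => 0 | _, 0 => 0 | 1, b => b | a, 1 => a | 2, 2 => 3 | 2, _ => 1 | _, 2 => 1
        | _, _ => 2) := by decide
    intro a ha b hb
    rw [hg a ha b hb]
    interval_cases a <;> interval_cases b <;> simp only [e0, e1, e2, e3]
    all_goals first
      | ring1
      | linear_combination -hw
      | linear_combination -hw - w * h2
      | linear_combination -hw - (w + 1) * h2
      | linear_combination -hw - (w) * h2 - h2

  · have hg : ∀ a < 4, ∀ b < 4, a ^^^ b = (match a, b with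
        | 0, b => b | a, 0 => a | 1, 1 => 0 | 2, 2 => 0 | 3, 3 => 0 | 1, 2 => 3 | 2, 1 => 3
        | 1, 3 => 2 | 3, 1 => 2 | _, _ => 1) := by decide
    intro a ha b hb
    rw [hg a ha b hb]
    interval_cases a <;> interval_cases b <;> simp only [e0, e1, e2, e3]
    all_goals first
      | ring1
      | linear_combination -h2
      | linear_combination -w * h2
      | linear_combination -(w + 1) * h2

  · intro a ha h
    interval_cases a
    · rfl
    · rw [e1] at h; exact absurd h one_ne_zero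
    · rw [e2] at h; exact absurd h hw0
    · rw [e3] at h; exact absurd h hw1

/-- The vector with the base 4 digits of `v` as coordinates. -/
def vecK (φ : ℕ → K) (d v : ℕ) : Fin d → K := fun i => φ (q4 v i)

variable {φ : ℕ → K}

private theorem and3_lt (n : ℕ) : n &&& 3 < 4 := by
  have := Nat.and_le_right (n := n) (m := 3)
  omega

private theorem q4_lt (v i : ℕ) : q4 v i < 4 := and3_lt _

private theorem gmul_lt (a b : ℕ) : gmul a b < 4 := and3_lt _

private theorem xor_lt4 {a b : ℕ} (ha : a < 4) (hb : b < 4) : a ^^^ b < 4 :=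
  Nat.xor_lt_two_pow (n := 2) ha hb

private theorem phi_two (hm : ∀ a < 4, ∀ b < 4, φ (gmul a b) = φ a * φ b) (h0 : φ 0 = 0)
    (ha : ∀ a < 4, ∀ b < 4, φ (a ^^^ b) = φ a + φ b) (hi : ∀ a < 4, φ a = 0 → a = 0) :
    (2 : K) = 0 := by
  have h1 : φ 1 = φ 1 * φ 1 := by
    have := hm 1 (by norm_num) 1 (by norm_num)
    have e : gmul 1 1 = 1 := by decide
    rwa [e] at this
  have hne : φ 1 ≠ 0 := fun h => by
    have := hi 1 (by norm_num) h
    omega
  have h11 : φ 1 = 1 := by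
    have h3 : φ 1 * (φ 1 - 1) = 0 := by linear_combination -h1
    rcases mul_eq_zero.1 h3 with h | h
    · exact absurd h hne
    · linear_combination h
  have h4 := ha 1 (by norm_num) 1 (by norm_num)
  have e : (1 : ℕ) ^^^ 1 = 0 := by decide
  rw [e, h0, h11] at h4
  linear_combination -h4

private theorem mnr_lt (u v i j : ℕ) : mnr u v i j < 4 := xor_lt4 (gmul_lt _ _) (gmul_lt _ _)

private theorem phi_mnr (hm : ∀ a < 4, ∀ b < 4, φ (gmul a b) = φ a * φ b)
    (ha : ∀ a < 4, ∀ b < 4, φ (a ^^^ b) = φ a + φ b) (u v i j : ℕ) :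
    φ (mnr u v i j) = φ (q4 u i) * φ (q4 v j) + φ (q4 u j) * φ (q4 v i) := by
  unfold mnr
  rw [ha _ (gmul_lt _ _) _ (gmul_lt _ _), hm _ (q4_lt _ _) _ (q4_lt _ _),
    hm _ (q4_lt _ _) _ (q4_lt _ _)]

private theorem phi_det4 (hm : ∀ a < 4, ∀ b < 4, φ (gmul a b) = φ a * φ b)
    (ha : ∀ a < 4, ∀ b < 4, φ (a ^^^ b) = φ a + φ b) (u v w z : ℕ) :
    φ (det4 u v w z) = φ (mnr u v 0 1) * φ (mnr w z 2 3) + φ (mnr u v 0 2) * φ (mnr w z 1 3) +
      φ (mnr u v 0 3) * φ (mnr w z 1 2) + φ (mnr u v 1 2) * φ (mnr w z 0 3) +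
      φ (mnr u v 1 3) * φ (mnr w z 0 2) + φ (mnr u v 2 3) * φ (mnr w z 0 1) := by
  unfold det4
  have g := fun a b => gmul_lt a b
  have l1 := xor_lt4 (g (mnr u v 0 1) (mnr w z 2 3)) (g (mnr u v 0 2) (mnr w z 1 3))
  have l2 := xor_lt4 l1 (g (mnr u v 0 3) (mnr w z 1 2))
  have l3 := xor_lt4 l2 (g (mnr u v 1 2) (mnr w z 0 3))
  have l4 := xor_lt4 l3 (g (mnr u v 1 3) (mnr w z 0 2))
  rw [ha _ l4 _ (g _ _), ha _ l3 _ (g _ _), ha _ l2 _ (g _ _), ha _ l1 _ (g _ _),
    ha _ (g _ _) _ (g _ _)]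
  simp only [hm _ (mnr_lt _ _ _ _) _ (mnr_lt _ _ _ _)]

private theorem phi_det3 (hm : ∀ a < 4, ∀ b < 4, φ (gmul a b) = φ a * φ b)
    (ha : ∀ a < 4, ∀ b < 4, φ (a ^^^ b) = φ a + φ b) (u v w : ℕ) :
    φ (det3 u v w) = φ (mnr u v 0 1) * φ (q4 w 2) + φ (mnr u v 0 2) * φ (q4 w 1) +
      φ (mnr u v 1 2) * φ (q4 w 0) := by
  unfold det3
  have g := fun a b => gmul_lt a b
  have l1 := xor_lt4 (g (mnr u v 0 1) (q4 w 2)) (g (mnr u v 0 2) (q4 w 1))
  rw [ha _ l1 _ (g _ _), ha _ (g _ _) _ (g _ _)]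
  simp only [hm _ (mnr_lt _ _ _ _) _ (q4_lt _ _)]

private theorem xor_bnd4 (u v w z : ℕ) : det4 u v w z < 4 := by
  unfold det4
  have g := fun a b => gmul_lt a b
  exact xor_lt4 (xor_lt4 (xor_lt4 (xor_lt4 (xor_lt4 (g _ _) (g _ _)) (g _ _)) (g _ _)) (g _ _))
    (g _ _)

private theorem xor_bnd3 (u v w : ℕ) : det3 u v w < 4 := by
  unfold det3
  have g := fun a b => gmul_lt a b
  exact xor_lt4 (xor_lt4 (g _ _) (g _ _)) (g _ _)

theorem det4_iff (h0 : φ 0 = 0) (hm : ∀ a < 4, ∀ b < 4, φ (gmul a b) = φ a * φ b)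
    (ha : ∀ a < 4, ∀ b < 4, φ (a ^^^ b) = φ a + φ b) (hi : ∀ a < 4, φ a = 0 → a = 0)
    (u v w z : ℕ) :
    LinearIndependent K ![vecK φ 4 u, vecK φ 4 v, vecK φ 4 w, vecK φ 4 z] ↔ det4 u v w z ≠ 0 := by
  classical
  have h2 := phi_two hm h0 ha hi
  have hneg : ∀ x : K, -x = x := fun x => by linear_combination -x * h2
  have hsub : ∀ x y : K, x - y = x + y := fun x y => by linear_combination -y * h2
  have key : Matrix.det (![vecK φ 4 u, vecK φ 4 v, vecK φ 4 w, vecK φ 4 z] :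
      Matrix (Fin 4) (Fin 4) K) = φ (det4 u v w z) := by
    rw [phi_det4 hm ha]
    simp only [phi_mnr hm ha]
    rw [Matrix.det_succ_row_zero]
    simp only [Fin.sum_univ_succ, Matrix.det_fin_three, Matrix.submatrix_apply]
    simp [vecK, Fin.succAbove, hneg, hsub]
    ring
  have hlin := Matrix.linearIndependent_rows_iff_isUnit (K := K)
    (A := (![vecK φ 4 u, vecK φ 4 v, vecK φ 4 w, vecK φ 4 z] : Matrix (Fin 4) (Fin 4) K))
  have hrow : (fun i => (![vecK φ 4 u, vecK φ 4 v, vecK φ 4 w, vecK φ 4 z] :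
      Matrix (Fin 4) (Fin 4) K) i) = ![vecK φ 4 u, vecK φ 4 v, vecK φ 4 w, vecK φ 4 z] := rfl
  constructor
  · intro h hd
    have h3 := hlin.1 h
    rw [Matrix.isUnit_iff_isUnit_det, key, hd, h0] at h3
    exact not_isUnit_zero h3
  · intro hd
    refine hlin.2 ?_
    rw [Matrix.isUnit_iff_isUnit_det, key, isUnit_iff_ne_zero]
    intro h
    exact hd (hi _ (xor_bnd4 _ _ _ _) h)

theorem det3_iff (h0 : φ 0 = 0) (hm : ∀ a < 4, ∀ b < 4, φ (gmul a b) = φ a * φ b)
    (ha : ∀ a < 4, ∀ b < 4, φ (a ^^^ b) = φ a + φ b) (hi : ∀ a < 4, φ a = 0 → a = 0)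
    (u v w : ℕ) :
    LinearIndependent K ![vecK φ 3 u, vecK φ 3 v, vecK φ 3 w] ↔ det3 u v w ≠ 0 := by
  classical
  have h2 := phi_two hm h0 ha hi
  have hneg : ∀ x : K, -x = x := fun x => by linear_combination -x * h2
  have hsub : ∀ x y : K, x - y = x + y := fun x y => by linear_combination -y * h2
  have key : Matrix.det (![vecK φ 3 u, vecK φ 3 v, vecK φ 3 w] :
      Matrix (Fin 3) (Fin 3) K) = φ (det3 u v w) := by
    rw [phi_det3 hm ha]
    simp only [phi_mnr hm ha]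
    rw [Matrix.det_fin_three]
    simp [vecK, hneg, hsub]
    ring
  have hlin := Matrix.linearIndependent_rows_iff_isUnit (K := K)
    (A := (![vecK φ 3 u, vecK φ 3 v, vecK φ 3 w] : Matrix (Fin 3) (Fin 3) K))
  constructor
  · intro h hd
    have h3 := hlin.1 h
    rw [Matrix.isUnit_iff_isUnit_det, key, hd, h0] at h3
    exact not_isUnit_zero h3
  · intro hd
    refine hlin.2 ?_
    rw [Matrix.isUnit_iff_isUnit_det, key, isUnit_iff_ne_zero]
    intro h
    exact hd (hi _ (xor_bnd3 _ _ _) h)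

end Ca3.C4
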