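import Pool.Agent.Lib.MP_ca3eb1_co.C4.Geo
import Pool.Agent.Lib.MP_ca3eb1_co.C4.GF4
import Pool.Agent.Lib.MP_ca3eb1_co.C4.Clean
import Pool.Agent.Lib.MP_ca3eb1_co.Bridge

/-! # Row 66: codes of rank three are in the class, also with parallel elements -/

namespace Ca3.C4

open Matroid

/-! ### Bits -/

theorem s3_tb (m i : ℕ) : tb m i = m.testBit i := by
  unfold tb
  rw [Nat.and_one_is_mod, Nat.shiftRight_eq_div_pow, Nat.testBit_eq_decide_div_mod_eq]
  rw [Bool.eq_iff_iff]
  simp

/-- The mask of the numbers `i < n` with `P i`. -/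
def s3_mask (P : ℕ → Bool) : ℕ → ℕ
  | 0 => 0
  | n + 1 => s3_mask P n ||| (bif P n then 2 ^ n else 0)

theorem s3_testBit_mask (P : ℕ → Bool) (n i : ℕ) :
    (s3_mask P n).testBit i = (decide (i < n) && P i) := by
  induction n with
  | zero => simp [s3_mask]
  | succ n ih =>
    rw [s3_mask, Nat.testBit_or, ih]
    rcases lt_trichotomy i n with h | h | h
    · have h1 : i < n + 1 := by omega
      have h2 : ¬ n = i := by omega
      cases P n <;> simp [h, h1, h2, Nat.testBit_two_pow]
    · subst h
      cases P i <;> simp [Nat.testBit_two_pow]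
    · have h1 : ¬ i < n + 1 := by omega
      have h2 : ¬ n = i := by omega
      have h3 : ¬ i < n := by omega
      cases P n <;> simp [h1, h2, h3, Nat.testBit_two_pow]

theorem s3_mask_lt (P : ℕ → Bool) (n : ℕ) : s3_mask P n < 2 ^ n := by
  apply Nat.lt_pow_two_of_testBit
  intro i hi
  rw [s3_testBit_mask]
  have : ¬ i < n := by omega
  simp [this]

theorem s3_digit (m i : ℕ) : (m >>> i) &&& 1 = if m.testBit i then 1 else 0 := by
  rw [Nat.and_one_is_mod, Nat.shiftRight_eq_div_pow, Nat.testBit_eq_decide_div_mod_eq]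
  have : m / 2 ^ i % 2 = 0 ∨ m / 2 ^ i % 2 = 1 := by omega
  rcases this with h | h <;> simp [h]

theorem s3_pop (m : ℕ) :
    pop m = ((Finset.range 14).filter (fun i => m.testBit i = true)).card := by
  rw [Finset.card_filter]
  unfold pop
  simp only [s3_digit, Finset.sum_range_succ, Finset.sum_range_zero, zero_add]
  have h0 : m &&& 1 = if m.testBit 0 then 1 else 0 := by
    have := s3_digit m 0
    simpa using this
  rw [h0]

theorem s3_pop_mask (P : ℕ → Bool) {n : ℕ} (hn : n ≤ 14) :
    pop (s3_mask P n) = ((Finset.range n).filter (fun i => P i = true)).card := by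
  rw [s3_pop]
  congr 1
  ext i
  simp only [Finset.mem_filter, Finset.mem_range, s3_testBit_mask, Bool.and_eq_true,
    decide_eq_true_eq]
  constructor
  · rintro ⟨_, h1, h2⟩
    exact ⟨h1, h2⟩
  · rintro ⟨h1, h2⟩
    exact ⟨by omega, h1, h2⟩

theorem s3_sub {a Z : ℕ} : sub a Z = true ↔ ∀ i, a.testBit i = true → Z.testBit i = true := by
  unfold sub
  rw [Nat.beq_eq]
  constructor
  · intro h i hi
    rw [← h, Nat.testBit_and, Bool.and_eq_true] at hi
    exact hi.2
  · intro h
    apply Nat.eq_of_testBit_eq
    intro i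
    rw [Nat.testBit_and]
    cases ha : a.testBit i
    · simp
    · simp [h i ha]

theorem s3_cntL (fam : List ℕ) (Z : ℕ) : cntL fam Z = fam.countP (fun a => sub a Z) := by
  have : ∀ s, fam.foldl (fun s a => bif sub a Z then s + 1 else s) s =
      s + fam.countP (fun a => sub a Z) := by
    induction fam with
    | nil => simp
    | cons a l ih =>
      intro s
      rw [List.foldl_cons, ih, List.countP_cons]
      cases h : sub a Z <;> simp [add_assoc, add_comm]
  unfold cntL
  rw [this 0, zero_add]

theorem s3_card_get (P : ℕ → Bool) (l : List ℕ) :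
    (∑ j : Fin l.length, if P (l.get j) = true then 1 else 0) = l.countP P := by
  induction l with
  | nil => simp
  | cons a l ih =>
    rw [List.countP_cons, ← ih]
    refine (Fin.sum_univ_succ (n := l.length) _).trans ?_
    rw [add_comm]
    rfl

/-! ### Reading the checks -/

theorem s3_triples {m i j k : ℕ} (h1 : i < j) (h2 : j < k) (h3 : k < m) :
    (i, j, k) ∈ triples m := by
  unfold triples
  simp only [List.mem_flatMap, List.mem_range, List.mem_map]
  exact ⟨k, h3, j, h2, i, h1, rfl⟩

theorem s3_colC {c : Code} {i j k : ℕ} : colC c i j k = true ↔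
    ∃ l ∈ c.2.1, l.testBit i = true ∧ l.testBit j = true ∧ l.testBit k = true := by
  unfold colC
  simp only [List.any_eq_true, s3_tb, Bool.and_eq_true, and_assoc]

theorem s3_colC_swap12 {c : Code} {i j k : ℕ} : colC c i j k = colC c j i k := by
  rw [Bool.eq_iff_iff, s3_colC, s3_colC]
  constructor
  · rintro ⟨l, hl, h1, h2, h3⟩
    exact ⟨l, hl, h2, h1, h3⟩
  · rintro ⟨l, hl, h1, h2, h3⟩
    exact ⟨l, hl, h2, h1, h3⟩

theorem s3_colC_swap23 {c : Code} {i j k : ℕ} : colC c i j k = colC c i k j := by
  rw [Bool.eq_iff_iff, s3_colC, s3_colC]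
  constructor
  · rintro ⟨l, hl, h1, h2, h3⟩
    exact ⟨l, hl, h1, h3, h2⟩
  · rintro ⟨l, hl, h1, h2, h3⟩
    exact ⟨l, hl, h1, h3, h2⟩

theorem s3_pwL {R : ℕ → ℕ → Bool} : ∀ {L : List ℕ}, pwL R L = true → ∀ a ∈ L, ∀ b ∈ L,
    a = b ∨ R a b = true ∨ R b a = true
  | [], _, a, ha, _, _ => absurd ha (List.not_mem_nil)
  | x :: L, h, a, ha, b, hb => by
    simp only [pwL, Bool.and_eq_true, List.all_eq_true] at h
    rcases List.mem_cons.1 ha with ha' | ha'
    · rcases List.mem_cons.1 hb with hb' | hb'
      · exact Or.inl (ha'.trans hb'.symm)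
      · subst ha'
        exact Or.inr (Or.inl (h.1 b hb'))
    · rcases List.mem_cons.1 hb with hb' | hb'
      · subst hb'
        exact Or.inr (Or.inr (h.1 a ha'))
      · exact s3_pwL h.2 a ha' b hb'

theorem s3_two {a b i j : ℕ} (hi : i < 14) (hj : j < 14) (hij : i ≠ j)
    (h1 : a.testBit i = true) (h2 : a.testBit j = true) (h3 : b.testBit i = true)
    (h4 : b.testBit j = true) : ¬ (Nat.ble (pop (a &&& b)) 1 = true) := by
  intro h
  have h5 := Nat.le_of_ble_eq_true h
  rw [s3_pop] at h5
  have h6 : ({i, j} : Finset ℕ) ⊆ (Finset.range 14).filter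
      (fun x => (a &&& b).testBit x = true) := by
    intro x hx
    rw [Finset.mem_insert, Finset.mem_singleton] at hx
    rw [Finset.mem_filter, Finset.mem_range, Nat.testBit_and, Bool.and_eq_true]
    rcases hx with rfl | rfl
    · exact ⟨hi, h1, h3⟩
    · exact ⟨hj, h2, h4⟩
  have h7 := Finset.card_le_card h6
  rw [Finset.card_pair hij] at h7
  omega

theorem s3_clean {c : Code} (hn : c.1 ≤ 14) (hcl : cleanOk c = true) {l l' : ℕ}
    (hl : l ∈ c.2.1) (hl' : l' ∈ c.2.1) {i j : ℕ} (hi : i < c.1) (hj : j < c.1) (hij : i ≠ j)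
    (h1 : l.testBit i = true) (h2 : l.testBit j = true) (h3 : l'.testBit i = true)
    (h4 : l'.testBit j = true) : l = l' := by
  have hc := hcl
  simp only [cleanOk, Bool.and_eq_true] at hc
  rcases s3_pwL hc.1.1.2 l hl l' hl' with h5 | h5 | h5
  · exact h5
  · exact absurd h5 (s3_two (hi.trans_le hn) (hj.trans_le hn) hij h1 h2 h3 h4)
  · exact absurd h5 (s3_two (hi.trans_le hn) (hj.trans_le hn) hij h3 h4 h1 h2)

/-- The content of the check. -/
structure S3 (c : Code) (vec fam : List ℕ) : Prop where
  three : 3 ≤ c.1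
  nine : c.1 < 10
  lines : ∀ l ∈ c.2.1, l < 2 ^ c.1
  det : ∀ i j k, i < j → j < k → k < c.1 →
    (det3 (vec.getD i 0) (vec.getD j 0) (vec.getD k 0) = 0 ↔ colC c i j k = true)
  le : ∀ Z < 2 ^ c.1, cntL fam Z + rkC 3 c Z ≤ pop Z
  line : ∀ l ∈ c.2.1, cntL fam l + 2 = pop l
  all : cntL fam (2 ^ c.1 - 1) + 3 = c.1

theorem s3_read {c : Code} {vec fam : List ℕ} (hs : sg3Ok c vec fam = true) : S3 c vec fam := by
  unfold sg3Ok at hs
  simp only [Bool.and_eq_true, List.all_eq_true, List.mem_range] at hs
  obtain ⟨⟨⟨⟨⟨⟨⟨⟨_, h2⟩, h3⟩, h4⟩, _⟩, h6⟩, h7⟩, h8⟩, h9⟩ := hs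
  have e : 1 <<< c.1 = 2 ^ c.1 := by rw [Nat.shiftLeft_eq, one_mul]
  refine ⟨Nat.le_of_ble_eq_true h2, ?_, ?_, ?_, ?_, ?_, ?_⟩
  · exact Nat.le_of_ble_eq_true h3
  · intro l hl
    have := h4 l hl
    rw [e] at this
    exact Nat.le_of_ble_eq_true this
  · intro i j k h1 h2 h3
    have := h6 _ (s3_triples h1 h2 h3)
    rw [beq_iff_eq] at this
    rw [← this, Nat.beq_eq]
  · intro Z hZ
    exact Nat.le_of_ble_eq_true (h7 Z (by rwa [e]))
  · intro l hl
    exact Nat.eq_of_beq_eq_true (h8 l hl)
  · have := Nat.eq_of_beq_eq_true h9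
    rwa [e] at this

/-! ### Vectors -/

section vectors

open Finset

variable {K : Type*} [Field K] {E : Type*} [Fintype E] [DecidableEq E] {w : E → (Fin 3 → K)}
  {f : E → ℕ} {c : Code}

theorem s3_swap12 {V : Type*} [AddCommGroup V] [Module K V] {x y z : V} :
    LinearIndependent K ![x, y, z] ↔ LinearIndependent K ![y, x, z] := by
  have h := linearIndependent_equiv (R := K) (Equiv.swap (0 : Fin 3) 1) (f := ![x, y, z])
  have e : ![x, y, z] ∘ (Equiv.swap (0 : Fin 3) 1) = ![y, x, z] := by
    funext i
    fin_cases i <;> rfl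
  rw [← h, e]

theorem s3_swap23 {V : Type*} [AddCommGroup V] [Module K V] {x y z : V} :
    LinearIndependent K ![x, y, z] ↔ LinearIndependent K ![x, z, y] := by
  have h := linearIndependent_equiv (R := K) (Equiv.swap (1 : Fin 3) 2) (f := ![x, y, z])
  have e : ![x, y, z] ∘ (Equiv.swap (1 : Fin 3) 2) = ![x, z, y] := by
    funext i
    fin_cases i <;> rfl
  rw [← h, e]

theorem s3_ind_triple {a b d : E} (hab : a ≠ b) (had : a ≠ d) (hbd : b ≠ d) :
    Ind K w {a, b, d} ↔ LinearIndependent K ![w a, w b, w d] := by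
  have hinj : Function.Injective ![a, b, d] := by
    intro i j hij
    fin_cases i <;> fin_cases j <;> simp_all
  have h1 : ((({a, b, d} : Finset E)) : Set E) = Set.range ![a, b, d] := by
    ext x
    simp only [coe_insert, coe_singleton, Set.mem_insert_iff, Set.mem_singleton_iff, Set.mem_range]
    constructor
    · rintro (rfl | rfl | rfl)
      · exact ⟨0, rfl⟩
      · exact ⟨1, rfl⟩
      · exact ⟨2, rfl⟩
    · rintro ⟨i, rfl⟩
      fin_cases i
      · exact Or.inl rfl
      · exact Or.inr (Or.inl rfl)
      · exact Or.inr (Or.inr rfl)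
  rw [ind_iff_linearIndepOn, h1, linearIndepOn_range_iff hinj]
  have e : w ∘ ![a, b, d] = ![w a, w b, w d] := by
    funext i
    fin_cases i <;> rfl
  rw [e]

/-- What is needed from the vectors: equal labels give equal vectors, three vectors with
different labels are independent iff the labels are not collinear. -/
structure S3V (K : Type*) [Field K] (w : E → (Fin 3 → K)) (f : E → ℕ) (c : Code) : Prop where
  eq : ∀ a b, f a = f b → w a = w b
  tri : ∀ a b d, f a ≠ f b → f a ≠ f d → f b ≠ f d →
    (LinearIndependent K ![w a, w b, w d] ↔ colC c (f a) (f b) (f d) = false)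
  lt : ∀ a, f a < c.1
  surj : ∀ i < c.1, ∃ a, f a = i
  /-- two elements with different labels are in an independent triple -/
  ext : ∀ a b, f a ≠ f b → ∃ d, f a ≠ f d ∧ f b ≠ f d ∧ colC c (f a) (f b) (f d) = false

theorem S3V.inj (h : S3V K w f c) {I : Finset E} (hI : Ind K w I) {a b : E} (ha : a ∈ I)
    (hb : b ∈ I) (hab : f a = f b) : a = b := by
  by_contra hne
  refine hI.not_mem_sp_erase hb ?_
  rw [← h.eq a b hab]
  exact mem_sp (mem_erase.2 ⟨hne, ha⟩)

theorem S3V.ind3 (h : S3V K w f c) {a b d : E} (hab : f a ≠ f b) (had : f a ≠ f d)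
    (hbd : f b ≠ f d) : Ind K w {a, b, d} ↔ colC c (f a) (f b) (f d) = false := by
  rw [s3_ind_triple (ne_of_apply_ne f hab) (ne_of_apply_ne f had) (ne_of_apply_ne f hbd)]
  exact h.tri a b d hab had hbd

theorem S3V.ind2 (h : S3V K w f c) {a b : E} (hab : f a ≠ f b) : Ind K w {a, b} := by
  obtain ⟨d, h1, h2, h3⟩ := h.ext a b hab
  have := (h.ind3 hab h1 h2).2 h3
  apply this.subset
  intro x hx
  simp only [mem_insert, mem_singleton] at hx ⊢
  tauto

theorem S3V.ind1 (h : S3V K w f c) (h3 : 3 ≤ c.1) (a : E) : Ind K w {a} := by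
  obtain ⟨b, hb⟩ : ∃ b, f a ≠ f b := by
    by_cases h0 : f a = 0
    · obtain ⟨b, hb⟩ := h.surj 1 (by omega)
      exact ⟨b, by omega⟩
    · obtain ⟨b, hb⟩ := h.surj 0 (by omega)
      exact ⟨b, by omega⟩
  apply (h.ind2 hb).subset
  intro x hx
  simp only [mem_insert, mem_singleton] at hx ⊢
  tauto

theorem s3_rk_le (X : Finset E) : rk K w X ≤ 3 := by
  unfold rk
  refine (Submodule.finrank_le _).trans ?_
  simp

/-- The labels of an independent subset of `F`. -/
theorem S3V.rk_le_labels (h : S3V K w f c) {F : Finset E} {P : ℕ → Bool}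
    (hF : ∀ e ∈ F, P (f e) = true) :
    rk K w F ≤ ((Finset.range c.1).filter (fun i => P i = true)).card := by
  obtain ⟨B, hBF, hB, hs⟩ := exists_basis (K := K) (v := w) F
  have h1 : rk K w F = B.card := by rw [← hB.rk_eq_card, rk_congr hs]
  rw [h1]
  apply card_le_card_of_injOn f
  · intro e he
    rw [mem_coe, mem_filter, Finset.mem_range]
    exact ⟨h.lt e, hF e (hBF he)⟩
  · intro a ha b hb hab
    exact h.inj hB ha hb hab

theorem S3V.exists_triple (h : S3V K w f c) {F : Finset E} (hF : 3 ≤ rk K w F) :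
    ∃ a ∈ F, ∃ b ∈ F, ∃ d ∈ F, f a ≠ f b ∧ f a ≠ f d ∧ f b ≠ f d ∧
      colC c (f a) (f b) (f d) = false := by
  obtain ⟨B, -, hBF, hB, hc⟩ := exists_ind_card (K := K) (v := w) (I := ∅) (X := F) (n := 3)
    (by simp [Ind]) (by simp) (by simp) hF
  obtain ⟨a, b, d, hab, had, hbd, rfl⟩ := card_eq_three.1 hc
  have h1 : f a ≠ f b := fun h' => hab (h.inj hB (by simp) (by simp) h')
  have h2 : f a ≠ f d := fun h' => had (h.inj hB (by simp) (by simp) h')
  have h3 : f b ≠ f d := fun h' => hbd (h.inj hB (by simp) (by simp) h')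
  exact ⟨a, hBF (by simp), b, hBF (by simp), d, hBF (by simp), h1, h2, h3,
    (h.ind3 h1 h2 h3).1 hB⟩

/-! ### The Mason family -/

/-- The labels whose class is inside `Z`. -/
def s3_lab (f : E → ℕ) (Z : Finset E) : ℕ → Bool := fun i => decide (∀ x, f x = i → x ∈ Z)

/-- The elements whose class is inside `Z`. -/
def s3_full (f : E → ℕ) (Z : Finset E) : Finset E := univ.filter (fun e => ∀ x, f x = f e → x ∈ Z)

theorem s3_full_subset (Z : Finset E) : s3_full f Z ⊆ Z := by
  intro e he
  exact (mem_filter.1 he).2 e rfl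

theorem s3_lab_of_full {Z : Finset E} {e : E} (he : e ∈ s3_full f Z) :
    s3_lab f Z (f e) = true := by
  unfold s3_lab
  rw [decide_eq_true_eq]
  exact (mem_filter.1 he).2

/-- The family: preimages of the members of `fam`, and all but one copy of every class. -/
def s3_fam (f : E → ℕ) (rep : ℕ → E) (fam : List ℕ) :
    Fin fam.length ⊕ {e : E // rep (f e) ≠ e} → Finset E
  | Sum.inl j => univ.filter (fun e => (fam.get j).testBit (f e) = true)
  | Sum.inr e => univ.filter (fun x => f x = f e)

theorem s3_cnt (h : S3V K w f c) {rep : ℕ → E} (hrep : ∀ i < c.1, f (rep i) = i) {fam : List ℕ}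
    (hfam : ∀ a ∈ fam, ∀ i, a.testBit i = true → i < c.1) (Z : Finset E) :
    cnt (s3_fam f rep fam) Z + ((Finset.range c.1).filter (fun i => s3_lab f Z i = true)).card =
      cntL fam (s3_mask (s3_lab f Z) c.1) + (s3_full f Z).card := by
  -- the members of the first kind
  have h1 : ∀ j : Fin fam.length, s3_fam f rep fam (Sum.inl j) ⊆ Z ↔
      sub (fam.get j) (s3_mask (s3_lab f Z) c.1) = true := by
    intro j
    rw [s3_sub]
    constructor
    · intro hj i hi
      rw [s3_testBit_mask, Bool.and_eq_true, decide_eq_true_eq]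
      refine ⟨hfam _ (List.get_mem _ _) i hi, ?_⟩
      unfold s3_lab
      rw [decide_eq_true_eq]
      intro x hx
      apply hj
      change x ∈ univ.filter _
      rw [mem_filter]
      exact ⟨mem_univ _, by rw [hx]; exact hi⟩
    · intro hj e he
      change e ∈ univ.filter _ at he
      have := hj _ (mem_filter.1 he).2
      rw [s3_testBit_mask, Bool.and_eq_true] at this
      have h2 := this.2
      unfold s3_lab at h2
      rw [decide_eq_true_eq] at h2
      exact h2 e rfl
  have h2 : ∀ e : {e : E // rep (f e) ≠ e}, s3_fam f rep fam (Sum.inr e) ⊆ Z ↔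
      (e : E) ∈ s3_full f Z := by
    intro e
    unfold s3_full
    rw [mem_filter]
    constructor
    · intro he
      refine ⟨mem_univ _, fun x hx => he ?_⟩
      change x ∈ univ.filter _
      rw [mem_filter]
      exact ⟨mem_univ _, hx⟩
    · intro he x hx
      change x ∈ univ.filter _ at hx
      exact he.2 x (mem_filter.1 hx).2
  have h3 : cnt (s3_fam f rep fam) Z = cntL fam (s3_mask (s3_lab f Z) c.1) +
      ((s3_full f Z).filter (fun e => rep (f e) ≠ e)).card := by
    unfold cnt
    rw [card_filter, Fintype.sum_sum_type]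
    congr 1
    · rw [s3_cntL, ← s3_card_get]
      apply sum_congr rfl
      intro j _
      by_cases hj : s3_fam f rep fam (Sum.inl j) ⊆ Z
      · rw [if_pos hj, if_pos ((h1 j).1 hj)]
      · rw [if_neg hj, if_neg (fun h' => hj ((h1 j).2 h'))]
    · rw [card_filter]
      have e1 : (∑ x : {e : E // rep (f e) ≠ e},
          if s3_fam f rep fam (Sum.inr x) ⊆ Z then 1 else 0) =
          ∑ x : {e : E // rep (f e) ≠ e}, if (x : E) ∈ s3_full f Z then 1 else 0 := by
        apply sum_congr rfl
        intro x _
        by_cases hx : s3_fam f rep fam (Sum.inr x) ⊆ Z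
        · rw [if_pos hx, if_pos ((h2 x).1 hx)]
        · rw [if_neg hx, if_neg (fun h' => hx ((h2 x).2 h'))]
      rw [e1]
      have e2 : (∑ x : {e : E // rep (f e) ≠ e}, if (x : E) ∈ s3_full f Z then 1 else 0) =
          ∑ x ∈ univ.filter (fun e : E => rep (f e) ≠ e), if x ∈ s3_full f Z then 1 else 0 := by
        rw [← Finset.sum_subtype (univ.filter (fun e : E => rep (f e) ≠ e))
          (p := fun e => rep (f e) ≠ e) (by simp) (fun x => if x ∈ s3_full f Z then 1 else 0)]
      rw [e2, ← card_filter, ← card_filter, filter_filter]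
      congr 1
      ext x
      simp only [mem_filter, mem_univ, true_and]
      tauto
  have h4 : ((s3_full f Z).filter (fun e => ¬ rep (f e) ≠ e)).card =
      ((Finset.range c.1).filter (fun i => s3_lab f Z i = true)).card := by
    apply card_bij (fun e _ => f e)
    · intro e he
      rw [mem_filter] at he
      rw [mem_filter, Finset.mem_range]
      exact ⟨h.lt e, s3_lab_of_full he.1⟩
    · intro a ha b hb hab
      rw [mem_filter, not_not] at ha hb
      rw [← ha.2, ← hb.2, hab]
    · intro i hi
      rw [mem_filter, Finset.mem_range] at hi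
      refine ⟨rep i, ?_, hrep i hi.1⟩
      rw [mem_filter, not_not, hrep i hi.1]
      refine ⟨?_, rfl⟩
      unfold s3_full
      rw [mem_filter, hrep i hi.1]
      refine ⟨mem_univ _, ?_⟩
      have := hi.2
      unfold s3_lab at this
      rwa [decide_eq_true_eq] at this
  have h5 := card_filter_add_card_filter_not (s := s3_full f Z) (fun e => rep (f e) ≠ e)
  omega

theorem s3_rkC_cases (c : Code) (Z : ℕ) : (pop Z ≤ 2 ∧ rkC 3 c Z = pop Z) ∨
    ((∃ l ∈ c.2.1, sub Z l = true) ∧ rkC 3 c Z = 2) ∨ rkC 3 c Z = 3 := by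
  unfold rkC
  cases h1 : Nat.ble (pop Z) 1
  · rw [cond_false]
    cases h2 : (Nat.beq (pop Z) 2 || c.2.1.any (fun l => sub Z l))
    · rw [cond_false]
      right; right
      cases (Nat.beq (pop Z) 3 || c.2.2.any (fun p => sub Z p)) <;> rfl
    · rw [cond_true]
      rw [Bool.or_eq_true, List.any_eq_true] at h2
      rcases h2 with h2 | h2
      · left
        have := Nat.eq_of_beq_eq_true h2
        omega
      · right; left
        exact ⟨h2, rfl⟩
  · rw [cond_true]
    left
    have := Nat.le_of_ble_eq_true h1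
    exact ⟨by omega, rfl⟩

theorem s3_rk_full_le (h : S3V K w f c) (h14 : c.1 ≤ 14) (Z : Finset E) :
    rk K w (s3_full f Z) ≤ rkC 3 c (s3_mask (s3_lab f Z) c.1) := by
  have h0 := h.rk_le_labels (F := s3_full f Z) (P := s3_lab f Z) (fun e he => s3_lab_of_full he)
  rcases s3_rkC_cases c (s3_mask (s3_lab f Z) c.1) with ⟨_, h2⟩ | ⟨⟨l, hl, hs⟩, h2⟩ | h2
  · rw [h2, s3_pop_mask _ h14]
    exact h0
  · rw [h2]
    by_contra hc
    obtain ⟨a, ha, b, hb, d, hd, _, _, _, h6⟩ := h.exists_triple (F := s3_full f Z) (by omega)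
    have key : ∀ x ∈ s3_full f Z, l.testBit (f x) = true := by
      intro x hx
      apply s3_sub.1 hs
      rw [s3_testBit_mask, Bool.and_eq_true, decide_eq_true_eq]
      exact ⟨h.lt x, s3_lab_of_full hx⟩
    have : colC c (f a) (f b) (f d) = true := s3_colC.2 ⟨l, hl, key a ha, key b hb, key d hd⟩
    rw [h6] at this
    exact Bool.false_ne_true this
  · rw [h2]
    exact s3_rk_le _

theorem s3_mason (h : S3V K w f c) {vec fam : List ℕ} (hS : S3 c vec fam)
    (hcl : cleanOk c = true) (hfam : ∀ a ∈ fam, ∀ i, a.testBit i = true → i < c.1)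
    {rep : ℕ → E} (hrep : ∀ i < c.1, f (rep i) = i) :
    IsMason K w ∅ univ (s3_fam f rep fam) := by
  have h14 : c.1 ≤ 14 := by have := hS.nine; omega
  intro Z _ _
  have hcnt := s3_cnt h hrep hfam Z
  have hrk := s3_rk_full_le h h14 Z
  have hle := hS.le (s3_mask (s3_lab f Z) c.1) (s3_mask_lt _ _)
  rw [s3_pop_mask _ h14] at hle
  have hnul := card_add_rk_le (K := K) (v := w) (s3_full_subset (f := f) Z)
  refine ⟨by omega, fun hfl => ?_⟩
  -- `Z` is a flat: it is a union of classes
  have hflat : ∀ e, w e ∈ sp K w Z → e ∈ Z := fun e he => by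
    have h1 : e ∈ cl K w Z := mem_cl.2 he
    rwa [show cl K w Z = Z from hfl] at h1
  have hcls : ∀ x y, f x = f y → y ∈ Z → x ∈ Z := fun x y hxy hy => by
    apply hflat
    rw [h.eq x y hxy]
    exact mem_sp hy
  have hfull : s3_full f Z = Z := by
    apply subset_antisymm (s3_full_subset Z)
    intro e he
    unfold s3_full
    rw [mem_filter]
    exact ⟨mem_univ _, fun x hx => hcls x e hx he⟩
  have hlab : ∀ e, e ∈ Z → s3_lab f Z (f e) = true := fun e he =>
    s3_lab_of_full (by rw [hfull]; exact he)
  have hlab' : ∀ e, s3_lab f Z (f e) = true → e ∈ Z := fun e he => by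
    unfold s3_lab at he
    rw [decide_eq_true_eq] at he
    exact he e rfl
  rw [hfull] at hcnt hrk
  -- it suffices to find the number of labels
  suffices hsuf : cntL fam (s3_mask (s3_lab f Z) c.1) + rk K w Z =
      ((Finset.range c.1).filter (fun i => s3_lab f Z i = true)).card by omega
  have hge : cntL fam (s3_mask (s3_lab f Z) c.1) + rk K w Z ≤
      ((Finset.range c.1).filter (fun i => s3_lab f Z i = true)).card := by omega
  apply le_antisymm hge
  -- pairs of labels
  have hmem : ∀ i, i ∈ (Finset.range c.1).filter (fun i => s3_lab f Z i = true) →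
      ∃ e ∈ Z, f e = i := by
    intro i hi
    rw [mem_filter, Finset.mem_range] at hi
    refine ⟨rep i, hlab' _ ?_, hrep i hi.1⟩
    rw [hrep i hi.1]
    exact hi.2
  have hr3 := s3_rk_le (K := K) (w := w) Z
  by_cases hr : rk K w Z = 3
  · -- everything
    have huniv : ∀ e, e ∈ Z := by
      intro e
      apply hflat
      by_contra hc
      have h1 := rk_insert_of_not_mem_sp (K := K) (v := w) hc
      have h2 := s3_rk_le (K := K) (w := w) (insert e Z)
      omega
    have h1 : s3_mask (s3_lab f Z) c.1 = 2 ^ c.1 - 1 := by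
      apply Nat.eq_of_testBit_eq
      intro i
      rw [s3_testBit_mask, Nat.testBit_two_pow_sub_one]
      by_cases hi : i < c.1
      · have h2 : s3_lab f Z i = true := by
          unfold s3_lab
          rw [decide_eq_true_eq]
          exact fun x _ => huniv x
        simp [hi, h2]
      · simp [hi]
    have h2 : (Finset.range c.1).filter (fun i => s3_lab f Z i = true) = Finset.range c.1 := by
      apply filter_true_of_mem
      intro i _
      unfold s3_lab
      rw [decide_eq_true_eq]
      exact fun x _ => huniv x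
    rw [h1, h2, card_range, hr]
    have := hS.all
    omega
  · have hr2 : rk K w Z ≤ 2 := by omega
    -- the case of at least three labels
    by_cases h3 : 3 ≤ ((Finset.range c.1).filter (fun i => s3_lab f Z i = true)).card
    · obtain ⟨T, hT, hTc⟩ := exists_subset_card_eq h3
      obtain ⟨i, j, k, hij, hik, hjk, rfl⟩ := card_eq_three.1 hTc
      obtain ⟨a, haZ, ha⟩ := hmem i (hT (by simp))
      obtain ⟨b, hbZ, hb⟩ := hmem j (hT (by simp))
      obtain ⟨d, hdZ, hd⟩ := hmem k (hT (by simp))
      have col : ∀ x y z, x ∈ Z → y ∈ Z → z ∈ Z → f x ≠ f y → f x ≠ f z → f y ≠ f z →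
          colC c (f x) (f y) (f z) = true := by
        intro x y z hx hy hz hxy hxz hyz
        by_contra hc
        rw [Bool.not_eq_true] at hc
        have h1 := (h.ind3 hxy hxz hyz).2 hc
        have h2 : rk K w {x, y, z} ≤ rk K w Z := by
          apply rk_mono
          intro t ht
          simp only [mem_insert, mem_singleton] at ht
          rcases ht with rfl | rfl | rfl
          · exact hx
          · exact hy
          · exact hz
        have h3 : ({x, y, z} : Finset E).card = 3 := by
          rw [card_eq_three]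
          exact ⟨x, y, z, ne_of_apply_ne f hxy, ne_of_apply_ne f hxz, ne_of_apply_ne f hyz, rfl⟩
        rw [h1.rk_eq_card, h3] at h2
        omega
      have hab : f a ≠ f b := by rw [ha, hb]; exact hij
      have had : f a ≠ f d := by rw [ha, hd]; exact hik
      have hbd : f b ≠ f d := by rw [hb, hd]; exact hjk
      obtain ⟨l, hl, hla, hlb, hld⟩ := s3_colC.1 (col a b d haZ hbZ hdZ hab had hbd)
      have h2 : 2 ≤ rk K w Z := by
        have h4 := h.ind2 hab
        have h5 : rk K w {a, b} ≤ rk K w Z := by
          apply rk_mono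
          intro t ht
          simp only [mem_insert, mem_singleton] at ht
          rcases ht with rfl | rfl
          · exact haZ
          · exact hbZ
        rw [h4.rk_eq_card, card_pair (ne_of_apply_ne f hab)] at h5
        exact h5
      have hmask : s3_mask (s3_lab f Z) c.1 = l := by
        apply Nat.eq_of_testBit_eq
        intro x
        rw [s3_testBit_mask, Bool.eq_iff_iff, Bool.and_eq_true, decide_eq_true_eq]
        constructor
        · rintro ⟨hx, hxl⟩
          obtain ⟨e, heZ, he⟩ := hmem x (by rw [mem_filter, Finset.mem_range]; exact ⟨hx, hxl⟩)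
          subst he
          by_cases hea : f a = f e
          · rw [← hea]; exact hla
          by_cases heb : f b = f e
          · rw [← heb]; exact hlb
          obtain ⟨l', hl', h5, h6, h7⟩ := s3_colC.1 (col a b e haZ hbZ heZ hab hea heb)
          have := s3_clean h14 hcl hl hl' (h.lt a) (h.lt b) hab hla hlb h5 h6
          rw [this]
          exact h7
        · intro hx
          have hxn : x < c.1 := by
            by_contra hc
            have h5 := Nat.testBit_lt_two_pow (lt_of_lt_of_le (hS.lines l hl)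
              (Nat.pow_le_pow_right (by omega) (not_lt.1 hc)))
            rw [h5] at hx
            exact Bool.false_ne_true hx
          refine ⟨hxn, ?_⟩
          have h5 : rep x ∈ Z := by
            by_cases hea : f a = f (rep x)
            · exact hcls _ a hea.symm haZ
            by_cases heb : f b = f (rep x)
            · exact hcls _ b heb.symm hbZ
            have h6 : colC c (f a) (f b) (f (rep x)) = true := by
              rw [s3_colC]
              exact ⟨l, hl, hla, hlb, by rw [hrep x hxn]; exact hx⟩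
            apply hflat
            by_contra hc
            have h7 : w (rep x) ∉ sp K w {a, b} := by
              intro h8
              apply hc
              refine sp_mono ?_ h8
              intro t ht
              simp only [mem_insert, mem_singleton] at ht
              rcases ht with rfl | rfl
              · exact haZ
              · exact hbZ
            have h8 := (h.ind2 hab).insert h7
            have h9 : insert (rep x) ({a, b} : Finset E) = {a, b, rep x} := by
              ext t
              simp only [mem_insert, mem_singleton]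
              tauto
            rw [h9, h.ind3 hab hea heb] at h8
            rw [h6] at h8
            exact Bool.noConfusion h8
          have := hlab _ h5
          rwa [hrep x hxn] at this
      have h5 := hS.line l hl
      have h6 := s3_pop_mask (s3_lab f Z) h14
      rw [hmask] at h6 ⊢
      omega
    · -- at most two labels
      have h4 : ((Finset.range c.1).filter (fun i => s3_lab f Z i = true)).card ≤ rk K w Z := by
        by_contra hc
        rw [not_le] at hc
        have h5 : ((Finset.range c.1).filter (fun i => s3_lab f Z i = true)).card = 1 ∨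
            ((Finset.range c.1).filter (fun i => s3_lab f Z i = true)).card = 2 := by omega
        rcases h5 with h5 | h5
        · obtain ⟨i, hi⟩ := card_eq_one.1 h5
          obtain ⟨a, haZ, ha⟩ := hmem i (by rw [hi]; simp)
          have h6 := h.ind1 hS.three a
          have h7 : rk K w {a} ≤ rk K w Z := rk_mono (singleton_subset_iff.2 haZ)
          rw [h6.rk_eq_card, card_singleton] at h7
          omega
        · obtain ⟨i, j, hij, hi⟩ := card_eq_two.1 h5
          obtain ⟨a, haZ, ha⟩ := hmem i (by rw [hi]; simp)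
          obtain ⟨b, hbZ, hb⟩ := hmem j (by rw [hi]; simp)
          have hab : f a ≠ f b := by rw [ha, hb]; exact hij
          have h6 := h.ind2 hab
          have h7 : rk K w {a, b} ≤ rk K w Z := by
            apply rk_mono
            intro t ht
            simp only [mem_insert, mem_singleton] at ht
            rcases ht with rfl | rfl
            · exact haZ
            · exact hbZ
          rw [h6.rk_eq_card, card_pair (ne_of_apply_ne f hab)] at h7
          omega
      omega

end vectors

/-! ### The theorem -/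

theorem s3_filter {c : Code} {vec fam : List ℕ} (hS : S3 c vec fam) :
    S3 c vec (fam.filter (fun a => sub a (2 ^ c.1 - 1))) := by
  have key : ∀ Z < 2 ^ c.1, cntL (fam.filter (fun a => sub a (2 ^ c.1 - 1))) Z = cntL fam Z := by
    intro Z hZ
    rw [s3_cntL, s3_cntL, List.countP_filter]
    apply List.countP_congr
    intro a _
    rw [Bool.and_eq_true]
    constructor
    · exact fun h => h.1
    · intro h
      refine ⟨h, s3_sub.2 fun i hi => ?_⟩
      rw [Nat.testBit_two_pow_sub_one, decide_eq_true_eq]
      by_contra hc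
      have h1 := s3_sub.1 h i hi
      rw [Nat.testBit_lt_two_pow (lt_of_lt_of_le hZ
        (Nat.pow_le_pow_right (by omega) (not_lt.1 hc)))] at h1
      exact Bool.false_ne_true h1
  refine ⟨hS.three, hS.nine, hS.lines, hS.det, ?_, ?_, ?_⟩
  · intro Z hZ
    rw [key Z hZ]
    exact hS.le Z hZ
  · intro l hl
    rw [key l (hS.lines l hl)]
    exact hS.line l hl
  · rw [key _ (by have := Nat.two_pow_pos c.1; omega)]
    exact hS.all

theorem s3_tri_all {K E : Type*} [Field K] {w : E → (Fin 3 → K)} {f : E → ℕ} {c : Code}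
    (hs : ∀ a b d, f a < f b → f b < f d →
      (LinearIndependent K ![w a, w b, w d] ↔ colC c (f a) (f b) (f d) = false))
    (a b d : E) (hab : f a ≠ f b) (had : f a ≠ f d) (hbd : f b ≠ f d) :
    LinearIndependent K ![w a, w b, w d] ↔ colC c (f a) (f b) (f d) = false := by
  rcases lt_or_gt_of_ne hab with h1 | h1 <;> rcases lt_or_gt_of_ne hbd with h2 | h2 <;>
    rcases lt_or_gt_of_ne had with h3 | h3
  · exact hs a b d h1 h2
  · omega
  · rw [s3_swap23, s3_colC_swap23]
    exact hs a d b h3 h2
  · rw [s3_swap23, s3_swap12, s3_colC_swap23, s3_colC_swap12]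
    exact hs d a b h3 h1
  · rw [s3_swap12, s3_colC_swap12]
    exact hs b a d h1 h3
  · rw [s3_swap12, s3_swap23, s3_colC_swap12, s3_colC_swap23]
    exact hs b d a h2 h3
  · omega
  · rw [s3_swap12, s3_swap23, s3_swap12, s3_colC_swap12, s3_colC_swap23, s3_colC_swap12]
    exact hs d b a h2 h1

variable {α : Type*}

/-- Codes of rank three, up to parallel elements, are in the class. -/
theorem classQ_of_pcode3 {M : Matroid α} [M.Finite] {f : α → ℕ} {c : Code} {vec fam : List ℕ}
    (h : PCode3 M✶ f c) (hcl : cleanOk c = true) (hs : sg3Ok c vec fam = true) : ClassQ M := by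
  classical
  haveI : Fintype (GaloisField 2 2) := Fintype.ofFinite _
  have hK : Fintype.card (GaloisField 2 2) = 4 := by
    rw [Fintype.card_eq_nat_card, GaloisField.card 2 2 (by norm_num)]
    norm_num
  obtain ⟨φ, h0, -, hm, ha, hi⟩ := exists_phi hK
  haveI : Fintype M.E := M.ground_finite.fintype
  have hS := s3_filter (s3_read hs)
  set fam' := fam.filter (fun a => sub a (2 ^ c.1 - 1)) with hfam'
  set w : M.E → (Fin 3 → GaloisField 2 2) := fun e => vecK φ 3 (vec.getD (f e) 0) with hw
  have hlt : ∀ e : M.E, f e < c.1 := by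
    intro e
    have : f e ∈ f '' M✶.E := ⟨e, e.2, rfl⟩
    rw [h.surj] at this
    exact this
  -- bases
  have hbase : ∀ I, M✶.Indep I → ∃ B, I ⊆ B ∧ M✶.Indep B ∧ B ⊆ M.E ∧ B.encard = 3 := by
    intro I hI
    obtain ⟨B, hB, hIB⟩ := hI.exists_isBase_superset
    refine ⟨B, hIB, hB.indep, hB.subset_ground, ?_⟩
    rw [hB.encard_eq_eRank, h.rank]
  have hV : S3V (GaloisField 2 2) w (fun e : M.E => f e) c := by
    refine ⟨?_, ?_, hlt, ?_, ?_⟩
    · intro a b hab
      simp only [hw]
      rw [hab]
    · apply s3_tri_all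
      intro a b d hab hbd
      have h1 := hS.det (f a) (f b) (f d) hab hbd (hlt d)
      have h2 := det3_iff h0 hm ha hi (vec.getD (f a) 0) (vec.getD (f b) 0) (vec.getD (f d) 0)
      change LinearIndependent _ ![vecK φ 3 _, vecK φ 3 _, vecK φ 3 _] ↔ _
      rw [h2, ne_eq, h1, Bool.not_eq_true]
    · intro i hi'
      have : i ∈ f '' M✶.E := by rw [h.surj]; exact hi'
      obtain ⟨x, hx, rfl⟩ := this
      exact ⟨⟨x, hx⟩, rfl⟩
    · intro a b hab
      have hne : (a : α) ≠ b := fun h' => hab (by simp only [h'])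
      have h1 : M✶.Indep {(a : α), (b : α)} := (h.pair a a.2 b b.2 hne).2 hab
      obtain ⟨B, hIB, hB, hBE, hc⟩ := hbase _ h1
      obtain ⟨d, hdB, hd⟩ : ∃ d ∈ B, d ∉ ({(a : α), (b : α)} : Set α) := by
        by_contra hcon
        push Not at hcon
        have h2 := Set.encard_le_encard (show B ⊆ {(a : α), (b : α)} from hcon)
        rw [hc, Set.encard_pair hne] at h2
        exact absurd h2 (by decide)
      rw [Set.mem_insert_iff, Set.mem_singleton_iff, not_or] at hd
      have h2 : M✶.Indep {(a : α), (b : α), d} := by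
        apply hB.subset
        intro x hx
        rcases hx with rfl | rfl | hx
        · exact hIB (by simp)
        · exact hIB (by simp)
        · rw [Set.mem_singleton_iff.1 hx]
          exact hdB
      have h3 := (h.trip a a.2 b b.2 d (hBE hdB) hne (Ne.symm hd.1) (Ne.symm hd.2)).1 h2
      exact ⟨⟨d, hBE hdB⟩, h3.2.1, h3.2.2.1, h3.2.2.2⟩
  have hrep : RepDual (GaloisField 2 2) M w := by
    intro I
    constructor
    · intro hI
      obtain ⟨B, hIB, hB, hBE, hc⟩ := hbase _ hI
      obtain ⟨x, y, z, hxy, hxz, hyz, rfl⟩ := Set.encard_eq_three.1 hc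
      have hx : x ∈ M.E := hBE (by simp)
      have hy : y ∈ M.E := hBE (by simp)
      have hz : z ∈ M.E := hBE (by simp)
      obtain ⟨h1, h2, h3, h4⟩ := (h.trip x hx y hy z hz hxy hxz hyz).1 hB
      have h5 : Ind (GaloisField 2 2) w {(⟨x, hx⟩ : M.E), ⟨y, hy⟩, ⟨z, hz⟩} :=
        (hV.ind3 (a := (⟨x, hx⟩ : M.E)) (b := ⟨y, hy⟩) (d := ⟨z, hz⟩) h1 h2 h3).2 h4
      apply h5.subset
      intro e he
      have h6 := hIB ⟨e, he, rfl⟩
      simp only [Set.mem_insert_iff, Set.mem_singleton_iff] at h6
      simp only [Finset.mem_insert, Finset.mem_singleton]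
      rcases h6 with h6 | h6 | h6
      · exact Or.inl (Subtype.ext h6)
      · exact Or.inr (Or.inl (Subtype.ext h6))
      · exact Or.inr (Or.inr (Subtype.ext h6))
    · intro hI
      have hc : I.card ≤ 3 := by
        rw [← hI.rk_eq_card]
        exact s3_rk_le _
      have hc' : I.card = 0 ∨ I.card = 1 ∨ I.card = 2 ∨ I.card = 3 := by omega
      rcases hc' with hc' | hc' | hc' | hc'
      · rw [Finset.card_eq_zero] at hc'
        rw [hc']
        simp
      · obtain ⟨a, rfl⟩ := Finset.card_eq_one.1 hc'
        rw [Finset.coe_singleton, Set.image_singleton]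
        exact h.loopless a a.2
      · obtain ⟨a, b, hab, rfl⟩ := Finset.card_eq_two.1 hc'
        have h1 : f a ≠ f b := fun h' => hab (hV.inj hI (by simp) (by simp) h')
        rw [Finset.coe_pair, Set.image_pair]
        exact (h.pair a a.2 b b.2 (fun h' => hab (Subtype.ext h'))).2 h1
      · obtain ⟨a, b, d, hab, had, hbd, rfl⟩ := Finset.card_eq_three.1 hc'
        have h1 : f a ≠ f b := fun h' => hab (hV.inj hI (by simp) (by simp) h')
        have h2 : f a ≠ f d := fun h' => had (hV.inj hI (by simp) (by simp) h')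
        have h3 : f b ≠ f d := fun h' => hbd (hV.inj hI (by simp) (by simp) h')
        have h4 := (hV.ind3 (a := a) (b := b) (d := d) h1 h2 h3).1 hI
        have h5 : (Subtype.val '' ((({a, b, d} : Finset M.E)) : Set M.E)) =
            {(a : α), (b : α), (d : α)} := by
          rw [Finset.coe_insert, Finset.coe_pair, Set.image_insert_eq, Set.image_pair]
        rw [h5]
        exact (h.trip a a.2 b b.2 d d.2 (fun h' => hab (Subtype.ext h'))
          (fun h' => had (Subtype.ext h')) (fun h' => hbd (Subtype.ext h'))).2 ⟨h1, h2, h3, h4⟩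
  refine ⟨hrep.isRepr, hrep.transversal_iff.2 ?_⟩
  -- the family
  haveI : Nonempty M.E := by
    obtain ⟨a, _⟩ := hV.surj 0 (by have := hS.three; omega)
    exact ⟨a⟩
  have hex : ∀ i, ∃ a : M.E, i < c.1 → f a = i := by
    intro i
    by_cases hi' : i < c.1
    · obtain ⟨a, ha'⟩ := hV.surj i hi'
      exact ⟨a, fun _ => ha'⟩
    · exact ⟨Classical.arbitrary _, fun h' => absurd h' hi'⟩
  choose rep hrep' using hex
  have hfam : ∀ a ∈ fam', ∀ i, a.testBit i = true → i < c.1 := by
    intro a ha' i hi'
    rw [hfam', List.mem_filter] at ha'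
    have := s3_sub.1 ha'.2 i hi'
    rwa [Nat.testBit_two_pow_sub_one, decide_eq_true_eq] at this
  have hmas := s3_mason hV hS hcl hfam (rep := rep) hrep'
  apply hasTrans_of_SG
  · -- no loops
    unfold IsFl
    rw [Finset.eq_empty_iff_forall_notMem]
    intro e he
    rw [mem_cl] at he
    have h1 := hV.ind1 hS.three e
    refine h1.not_mem_sp_erase (Finset.mem_singleton_self e) ?_
    rwa [Finset.erase_singleton]
  · simp [Ind]
  · exact hmas.sg

end Ca3.C4
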