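import Pool.Agent.Lib.MP_ca3eb1_co.C4.RankTwo
import Pool.Agent.Lib.MP_ca3eb1_co.C4.PBridge
import Pool.Agent.Lib.MP_ca3eb1_co.C4.Class3
import Pool.Agent.Lib.MP_ca3eb1_co.C4.CodeIff
import Pool.Agent.Lib.MP_ca3eb1_co.C4.Sg3Sound
import Pool.Agent.Lib.MP_ca3eb1_co.C4.Kernel
import Pool.Agent.Lib.MP_ca3eb1_co.C4.CleanKernel

/-! # Excluded series minors of corank three -/

namespace Ca3.C4

open Matroid

variable {α : Type*}

theorem getC3_mem {j : ℕ} (hj : j < 23) : getC3 j ∈ codes3 := by
  have h : j < codes3.length := by rw [codes3_length]; exact hj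
  rw [getC3, List.getD_eq_getElem?_getD, List.getElem?_eq_getElem h]
  exact List.getElem_mem h

theorem exists_getC3 {c : Code} (hc : c ∈ codes3) : ∃ j < 23, c = getC3 j := by
  obtain ⟨j, hj, rfl⟩ := List.getElem_of_mem hc
  refine ⟨j, by rw [← codes3_length]; exact hj, ?_⟩
  rw [getC3, List.getD_eq_getElem?_getD, List.getElem?_eq_getElem hj]
  rfl

theorem sg3_getC3 {j : ℕ} (hj : j < 23) :
    sg3Ok (getC3 j) (data3.getD j ([], [])).1 (data3.getD j ([], [])).2 = true := by
  have h := data3_ok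
  rw [List.all_eq_true] at h
  exact h j (List.mem_range.2 hj)

theorem planes_getC3 {c : Code} (hc : c ∈ codes3) : c.2.2 = [] := by
  have h := codes3_planes
  rw [List.all_eq_true] at h
  exact List.isEmpty_iff.1 (h c hc)

theorem clean_codes3 {c : Code} (hc : c ∈ codes3) : cleanOk c = true := by
  have h := codes3_clean
  rw [List.all_eq_true] at h
  exact h c hc

theorem classQ_of_pcode3_getC3 {M : Matroid α} [M.Finite] {f : α → ℕ} {j : ℕ} (hj : j < 23)
    (h : PCode3 M✶ f (getC3 j)) : ClassQ M :=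
  classQ_of_pcode3 h (clean_codes3 (getC3_mem hj)) (sg3_getC3 hj)

theorem indep_dual_delete_iff {M : Matroid α} {e x y : α} (he : M✶.Indep {e}) (hx : x ≠ e)
    (hy : y ≠ e) : (M ＼ {e})✶.Indep {x, y} ↔ M✶.Indep {e, x, y} := by
  rw [dual_delete, he.contract_indep_iff]
  constructor
  · rintro ⟨-, h⟩
    rw [show ({e, x, y} : Set α) = {x, y} ∪ {e} by
      rw [Set.union_comm, Set.singleton_union]]
    exact h
  · intro h
    refine ⟨?_, ?_⟩
    · rw [Set.disjoint_singleton_right]
      rintro (h1 | h1)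
      · exact hx h1.symm
      · exact hy h1.symm
    · rw [show ({x, y} ∪ {e} : Set α) = {e, x, y} by
        rw [Set.union_comm, Set.singleton_union]]
      exact h

theorem Simp.indep_singleton {N : Matroid α} (h : Simp N) {e : α} (he : e ∈ N.E) :
    N.Indep {e} := by
  have := h e he e he
  rwa [Set.pair_eq_singleton] at this

theorem eRank_dual_delete_le {M : Matroid α} {e : α} {n : ℕ} (he : M✶.Indep {e})
    (h : M✶.eRank ≤ n + 1) : (M ＼ {e})✶.eRank ≤ n := by
  rw [dual_delete]
  obtain ⟨B, hB⟩ := (M✶ ／ {e}).exists_isBase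
  have h4 := he.contract_indep_iff.1 hB.indep
  have h5 := h4.2.encard_le_eRank
  rw [Set.union_singleton, Set.encard_insert_of_notMem
    (Set.disjoint_singleton_right.1 h4.1)] at h5
  rw [← hB.encard_eq_eRank]
  have h6 := h5.trans h
  exact (ENat.add_le_add_iff_right (by norm_num)).1 h6

theorem corank_three_iff {M : Matroid α} [M.Finite] (h3 : M✶.eRank = 3) :
    IsExcluded M ↔ Corank3 M := by
  rw [isExcluded_iff]
  constructor
  · rintro ⟨hs, hn, hd⟩
    refine ⟨h3, fun e he f hf => hs e he f hf, fun e he S hS h => ?_, fun c hc hcode => ?_⟩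
    · have he' : M✶.Indep {e} := hs.indep_singleton he
      refine le_five_of_classQ (M := M ＼ {e})
        (eRank_dual_delete_le (n := 2) he' (by rw [h3]; norm_num)) (hd e he) ?_
        (fun x hx y hy hxy => ?_)
      · rw [delete_ground]
        exact hS
      · exact (indep_dual_delete_iff he' (hS hx).2 (hS hy).2).2 (h x hx y hy hxy)
    · obtain ⟨j, hj, rfl⟩ := exists_getC3 hc
      obtain ⟨f, hf⟩ := pcode3_of_hasCode hcode (sg3_getC3 hj) (planes_getC3 hc)
      exact hn (classQ_of_pcode3_getC3 hj hf)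
  · rintro ⟨-, hs, hdeg, hc⟩
    have hs' : Simp M✶ := fun e he f hf => hs e he f hf
    refine ⟨hs', fun hQ => ?_, fun e he => ?_⟩
    · have hP := P3_of_classQ hQ (fun e he => hs'.indep_singleton he) h3
      obtain ⟨c, hc1, g, hg⟩ := class3 hs' h3 hP
      exact hc c hc1 (hasCode_of_gcode3 hg (planes_getC3 hc1))
    · have he' : M✶.Indep {e} := hs'.indep_singleton he
      refine classQ_of_corank_le_two
        (eRank_dual_delete_le (n := 2) he' (by rw [h3]; norm_num)) (fun S hS h => ?_)
      rw [delete_ground] at hS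
      exact hdeg e he S hS fun x hx y hy hxy =>
        (indep_dual_delete_iff he' (hS hx).2 (hS hy).2).1 (h x hx y hy hxy)

end Ca3.C4
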