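import Pool.Agent.Lib.MP_ca3eb1_co.C4.Geo

/-! # Row 67: contractions of rank four codes -/

namespace Ca3.C4

open Matroid

variable {α : Type*}

/-! ### bits -/

theorem Q67_tb (m i : ℕ) : tb m i = m.testBit i := by
  rw [tb, Nat.testBit, Nat.and_comm]
  have h : 1 &&& m >>> i = (m >>> i) % 2 := by rw [Nat.and_comm, Nat.and_one_is_mod]
  rw [h]
  rcases Nat.mod_two_eq_zero_or_one (m >>> i) with h | h
  · rw [h]; decide
  · rw [h]; decide

/-- The ones of `m` below `14`. -/
def Q67_B (m : ℕ) : Finset ℕ := (Finset.range 14).filter fun i => m.testBit i = true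

theorem Q67_pop (m : ℕ) : pop m = (Q67_B m).card := by
  have h : ∀ i, (m >>> i) &&& 1 = if m.testBit i = true then 1 else 0 := by
    intro i
    rw [← Q67_tb, tb]
    have h : (m >>> i) &&& 1 = (m >>> i) % 2 := Nat.and_one_is_mod _
    rw [h]
    rcases Nat.mod_two_eq_zero_or_one (m >>> i) with h | h <;> simp [h]
  have h0 := h 0
  rw [Nat.shiftRight_zero] at h0
  rw [Q67_B, Finset.card_filter]
  simp only [pop, h0, h, Finset.sum_range_succ, Finset.sum_range_zero, zero_add]

theorem Q67_sub {Z W : ℕ} (h : sub Z W = true) : Q67_B Z ⊆ Q67_B W := by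
  intro i hi
  rw [Q67_B, Finset.mem_filter] at hi ⊢
  refine ⟨hi.1, ?_⟩
  have h2 : Z &&& W = Z := Nat.eq_of_beq_eq_true h
  have h3 := hi.2
  rw [← h2, Nat.testBit_and, Bool.and_eq_true] at h3
  exact h3.2

theorem Q67_cntL (fam : List ℕ) (Z : ℕ) : cntL fam Z = fam.countP fun a => sub a Z := by
  have h : ∀ (fam : List ℕ) (s : ℕ), fam.foldl (fun s a => bif sub a Z then s + 1 else s) s =
      s + fam.countP fun a => sub a Z := by
    intro fam
    induction fam with
    | nil => intro s; simp
    | cons a t ih =>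
      intro s
      rw [List.foldl_cons, ih, List.countP_cons]
      cases hs : sub a Z
      · simp
      · simp
        omega
  rw [cntL, h, Nat.zero_add]

theorem Q67_sub_or {a l l' : ℕ} (h : sub a l = true) : sub a (l ||| l') = true := by
  have h2 : a &&& l = a := Nat.eq_of_beq_eq_true h
  have : a &&& (l ||| l') = a := by
    apply Nat.eq_of_testBit_eq
    intro i
    have h3 : (a &&& l).testBit i = a.testBit i := by rw [h2]
    rw [Nat.testBit_and] at h3
    rw [Nat.testBit_and, Nat.testBit_or]
    cases ha : a.testBit i <;> cases hl : l.testBit i <;> simp_all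
  rw [sub, this]
  exact Nat.beq_refl a

theorem Q67_sub_and {a l l' : ℕ} (h : sub a l = true) (h' : sub a l' = true) :
    sub a (l &&& l') = true := by
  have h2 : a &&& l = a := Nat.eq_of_beq_eq_true h
  have h2' : a &&& l' = a := Nat.eq_of_beq_eq_true h'
  have : a &&& (l &&& l') = a := by
    rw [← Nat.and_assoc, h2, h2']
  rw [sub, this]
  exact Nat.beq_refl a

theorem Q67_cnt_incl (fam : List ℕ) (l l' : ℕ) :
    cntL fam l + cntL fam l' ≤ cntL fam (l ||| l') + cntL fam (l &&& l') := by
  rw [Q67_cntL, Q67_cntL, Q67_cntL, Q67_cntL]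
  induction fam with
  | nil => simp
  | cons a t ih =>
    rw [List.countP_cons, List.countP_cons, List.countP_cons, List.countP_cons]
    have key : (if sub a l = true then 1 else 0) + (if sub a l' = true then 1 else 0) ≤
        (if sub a (l ||| l') = true then 1 else 0) + (if sub a (l &&& l') = true then 1 else 0) := by
      by_cases h : sub a l = true
      · by_cases h' : sub a l' = true
        · rw [if_pos h, if_pos h', if_pos (Q67_sub_or h), if_pos (Q67_sub_and h h')]
        · rw [if_pos h, if_neg h', if_pos (Q67_sub_or h)]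
          omega
      · by_cases h' : sub a l' = true
        · have h2 : sub a (l ||| l') = true := by rw [Nat.or_comm]; exact Q67_sub_or h'
          rw [if_neg h, if_pos h', if_pos h2]
          omega
        · rw [if_neg h, if_neg h']
          omega
    omega

/-! ### consistency of the rank three code -/

theorem Q67_mem_triples {m i j k : ℕ} : (i, j, k) ∈ triples m ↔ i < j ∧ j < k ∧ k < m := by
  rw [triples]
  simp only [List.mem_flatMap, List.mem_range, List.mem_map, Prod.mk.injEq]
  constructor
  · rintro ⟨k', hk, j', hj, i', hi, rfl, rfl, rfl⟩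
    exact ⟨hi, hj, hk⟩
  · rintro ⟨hi, hj, hk⟩
    exact ⟨k, hk, j, hj, i, hi, rfl, rfl, rfl⟩

theorem Q67_third {d : Code} {vec fam : List ℕ} (hs : sg3Ok d vec fam = true) {u v : ℕ}
    (hu : u < d.1) (hv : v < d.1) (huv : u ≠ v) :
    ∃ w < d.1, w ≠ u ∧ w ≠ v ∧ colC d u v w = false := by
  by_contra hcon
  push Not at hcon
  simp only [sg3Ok, Bool.and_eq_true] at hs
  obtain ⟨⟨⟨⟨⟨⟨⟨⟨h1, h2⟩, h3⟩, h4⟩, h5⟩, h6⟩, h7⟩, h8⟩, h9⟩ := hs
  have hd3 : 3 ≤ d.1 := Nat.le_of_ble_eq_true h2
  have hd10 : d.1 < 10 := Nat.le_of_ble_eq_true h3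
  have hlt : ∀ l ∈ d.2.1, l < 2 ^ d.1 := by
    intro l hl
    have := Nat.le_of_ble_eq_true (List.all_eq_true.mp h4 l hl)
    rw [Nat.one_shiftLeft] at this
    exact this
  have hM : ∀ Z, Z < 2 ^ d.1 → cntL fam Z + rkC 3 d Z ≤ pop Z := by
    intro Z hZ
    exact Nat.le_of_ble_eq_true (List.all_eq_true.mp h7 Z (by
      rw [List.mem_range, Nat.one_shiftLeft]; exact hZ))
  have hL : ∀ l ∈ d.2.1, cntL fam l + 2 = pop l := by
    intro l hl
    exact Nat.eq_of_beq_eq_true (List.all_eq_true.mp h8 l hl)
  have hex : ∀ w, w < d.1 → w ≠ u → w ≠ v → ∃ l ∈ d.2.1, l.testBit u = true ∧ l.testBit v = true ∧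
      l.testBit w = true := by
    intro w hw hwu hwv
    have h := hcon w hw hwu hwv
    rw [ne_eq, Bool.not_eq_false, colC, List.any_eq_true] at h
    obtain ⟨l, hl, h⟩ := h
    simp only [Bool.and_eq_true, Q67_tb] at h
    exact ⟨l, hl, h.1.1, h.1.2, h.2⟩
  -- a maximal line through `u`, `v`
  have hne : (d.2.1.toFinset.filter fun l => l.testBit u = true ∧ l.testBit v = true).Nonempty := by
    obtain ⟨w, hw, hwu, hwv⟩ : ∃ w, w < d.1 ∧ w ≠ u ∧ w ≠ v := by
      by_contra h
      push Not at h
      have h0 := h 0 (by omega)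
      have h1 := h 1 (by omega)
      have h2 := h 2 (by omega)
      omega
    obtain ⟨l, hl, ha, hb, _⟩ := hex w hw hwu hwv
    exact ⟨l, Finset.mem_filter.mpr ⟨List.mem_toFinset.mpr hl, ha, hb⟩⟩
  obtain ⟨l, hl, hmax⟩ := Finset.exists_max_image _ pop hne
  rw [Finset.mem_filter, List.mem_toFinset] at hl
  obtain ⟨hl, hlu, hlv⟩ := hl
  have hmem : ∀ {z m : ℕ}, z < d.1 → m.testBit z = true → z ∈ Q67_B m := by
    intro z m hz hm
    exact Finset.mem_filter.mpr ⟨Finset.mem_range.mpr (by omega), hm⟩
  have hall : ∀ w, w < d.1 → l.testBit w = true := by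
    intro w hw
    by_cases hwu : w = u
    · rw [hwu]; exact hlu
    by_cases hwv : w = v
    · rw [hwv]; exact hlv
    obtain ⟨l', hl', hu', hv', hw'⟩ := hex w hw hwu hwv
    have hZ := hM (l ||| l') (Nat.or_lt_two_pow (hlt l hl) (hlt l' hl'))
    have hI := hM (l &&& l') (lt_of_le_of_lt Nat.and_le_left (hlt l hl))
    have e1 := hL l hl
    have e2 := hL l' hl'
    have e3 := Q67_cnt_incl fam l l'
    have hBu : Q67_B (l ||| l') = Q67_B l ∪ Q67_B l' := by
      ext i
      simp only [Q67_B, Finset.mem_filter, Finset.mem_union, Nat.testBit_or, Bool.or_eq_true]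
      tauto
    have hBi : Q67_B (l &&& l') = Q67_B l ∩ Q67_B l' := by
      ext i
      simp only [Q67_B, Finset.mem_filter, Finset.mem_inter, Nat.testBit_and, Bool.and_eq_true]
      tauto
    have e4 : pop (l ||| l') + pop (l &&& l') = pop l + pop l' := by
      rw [Q67_pop, Q67_pop, Q67_pop, Q67_pop, hBu, hBi]
      exact Finset.card_union_add_card_inter _ _
    have hpI : 2 ≤ pop (l &&& l') := by
      rw [Q67_pop, hBi]
      have : ({u, v} : Finset ℕ) ⊆ Q67_B l ∩ Q67_B l' := by
        intro z hz
        rw [Finset.mem_insert, Finset.mem_singleton] at hz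
        rw [Finset.mem_inter]
        rcases hz with rfl | rfl
        · exact ⟨hmem hu hlu, hmem hu hu'⟩
        · exact ⟨hmem hv hlv, hmem hv hv'⟩
      have h := Finset.card_le_card this
      rwa [Finset.card_pair huv] at h
    have hpZ : 3 ≤ pop (l ||| l') := by
      rw [Q67_pop, hBu]
      have : ({w, u, v} : Finset ℕ) ⊆ Q67_B l ∪ Q67_B l' := by
        intro z hz
        rw [Finset.mem_insert, Finset.mem_insert, Finset.mem_singleton] at hz
        rw [Finset.mem_union]
        rcases hz with rfl | rfl | rfl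
        · exact Or.inr (hmem hw hw')
        · exact Or.inr (hmem hu hu')
        · exact Or.inr (hmem hv hv')
      have h := Finset.card_le_card this
      rwa [Finset.card_insert_of_notMem (by
        rw [Finset.mem_insert, Finset.mem_singleton]; tauto), Finset.card_pair huv] at h
    have hrI : 2 ≤ rkC 3 d (l &&& l') := by
      have h1 : Nat.ble (pop (l &&& l')) 1 = false := by
        rw [Bool.eq_false_iff]
        intro h
        have := Nat.le_of_ble_eq_true h
        omega
      rw [rkC, h1, cond_false]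
      cases Nat.beq (pop (l &&& l')) 2 || d.2.1.any (fun m => sub (l &&& l') m)
      · cases Nat.beq (pop (l &&& l')) 3 || d.2.2.any (fun p => sub (l &&& l') p) <;> simp
      · simp
    have hrZ : rkC 3 d (l ||| l') ≤ 2 := by omega
    have hsub : d.2.1.any (fun m => sub (l ||| l') m) = true := by
      by_contra hn
      rw [Bool.not_eq_true] at hn
      have h1 : Nat.ble (pop (l ||| l')) 1 = false := by
        rw [Bool.eq_false_iff]
        intro h
        have := Nat.le_of_ble_eq_true h
        omega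
      have h2 : Nat.beq (pop (l ||| l')) 2 = false := by
        rw [Bool.eq_false_iff]
        intro h
        have := Nat.eq_of_beq_eq_true h
        omega
      rw [rkC, h1, cond_false, h2, hn, Bool.or_false, cond_false] at hrZ
      cases hc : Nat.beq (pop (l ||| l')) 3 || d.2.2.any (fun p => sub (l ||| l') p) <;>
        rw [hc] at hrZ <;> simp at hrZ
    obtain ⟨l'', hl'', hs''⟩ := List.any_eq_true.mp hsub
    have hB := Q67_sub hs''
    rw [hBu] at hB
    have hin : ∀ {z}, z ∈ Q67_B l'' → l''.testBit z = true := fun h => (Finset.mem_filter.mp h).2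
    have hm := hmax l'' (Finset.mem_filter.mpr ⟨List.mem_toFinset.mpr hl'',
      hin (hB (Finset.mem_union_left _ (hmem hu hlu))),
      hin (hB (Finset.mem_union_left _ (hmem hv hlv)))⟩)
    rw [Q67_pop, Q67_pop] at hm
    have h4 : Q67_B l ⊆ Q67_B l ∪ Q67_B l' := Finset.subset_union_left
    have h5 : Q67_B l = Q67_B l ∪ Q67_B l' :=
      Finset.eq_of_subset_of_card_le h4 ((Finset.card_le_card hB).trans hm)
    have h6 : w ∈ Q67_B l := by
      rw [h5]
      exact Finset.mem_union_right _ (hmem hw hw')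
    exact (Finset.mem_filter.mp h6).2
  obtain ⟨⟨p, q, r⟩, ht, hn⟩ := List.any_eq_true.mp h5
  obtain ⟨hpq, hqr, hr⟩ := Q67_mem_triples.mp ht
  have : colC d p q r = true := by
    rw [colC, List.any_eq_true]
    refine ⟨l, hl, ?_⟩
    simp only [Bool.and_eq_true, Q67_tb]
    exact ⟨⟨hall p (by omega), hall q (by omega)⟩, hall r hr⟩
  simp [this] at hn

/-! ### triples and quadruples as sets -/

theorem Q67_four {S : Finset ℕ} (hS : S.card = 4) :
    ∃ i j k m, i < j ∧ j < k ∧ k < m ∧ S = {i, j, k, m} := by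
  let e := S.orderEmbOfFin hS
  refine ⟨e 0, e 1, e 2, e 3, e.strictMono (by decide), e.strictMono (by decide),
    e.strictMono (by decide), ?_⟩
  ext z
  have h : z ∈ S ↔ z ∈ Set.range e := by
    rw [Finset.range_orderEmbOfFin]
    rfl
  rw [h]
  simp only [Set.mem_range, Finset.mem_insert, Finset.mem_singleton]
  constructor
  · rintro ⟨y, rfl⟩
    fin_cases y <;> simp
  · rintro (rfl | rfl | rfl | rfl)
    exacts [⟨0, rfl⟩, ⟨1, rfl⟩, ⟨2, rfl⟩, ⟨3, rfl⟩]

theorem Q67_three {S : Finset ℕ} (hS : S.card = 3) :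
    ∃ i j k, i < j ∧ j < k ∧ S = {i, j, k} := by
  let e := S.orderEmbOfFin hS
  refine ⟨e 0, e 1, e 2, e.strictMono (by decide), e.strictMono (by decide), ?_⟩
  ext z
  have h : z ∈ S ↔ z ∈ Set.range e := by
    rw [Finset.range_orderEmbOfFin]
    rfl
  rw [h]
  simp only [Set.mem_range, Finset.mem_insert, Finset.mem_singleton]
  constructor
  · rintro ⟨y, rfl⟩
    fin_cases y <;> simp
  · rintro (rfl | rfl | rfl)
    exacts [⟨0, rfl⟩, ⟨1, rfl⟩, ⟨2, rfl⟩]

theorem Q67_quad {N : Matroid α} {g : ℕ → α} {c : Code} (h : GCode N g c) {S : Finset ℕ}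
    (hS : S.card = 4) (hl : ∀ z ∈ S, z < c.1) :
    N.Indep (g '' S) ↔ ¬ ∃ p ∈ c.2.2, ∀ z ∈ S, tb p z = true := by
  obtain ⟨i, j, k, m, hij, hjk, hkm, rfl⟩ := Q67_four hS
  have hm : m < c.1 := hl m (by simp)
  have h1 := h.quad i j k m hij hjk hkm hm
  have h2 : g '' (({i, j, k, m} : Finset ℕ) : Set ℕ) = {g i, g j, g k, g m} := by
    simp [Set.image_insert_eq]
  rw [h2, h1, copC, ← Bool.not_eq_true, List.any_eq_true]
  refine not_congr (exists_congr fun p => and_congr_right fun _ => ?_)
  simp [and_assoc]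

theorem Q67_trip {N : Matroid α} {g : ℕ → α} {c : Code} (h : GCode N g c) {S : Finset ℕ}
    (hS : S.card = 3) (hl : ∀ z ∈ S, z < c.1) :
    N.Indep (g '' S) ↔ ∃ m < c.1, m ∉ S ∧ ¬ ∃ p ∈ c.2.2, ∀ z ∈ insert m S, tb p z = true := by
  have hSs : (S : Set ℕ) ⊆ {i | i < c.1} := fun z hz => hl z hz
  constructor
  · intro hI
    obtain ⟨B, hB, hIB⟩ := hI.exists_isBase_superset
    have hc : B.encard = 4 := by rw [hB.encard_eq_eRank, h.rank]
    have hne : ¬ B ⊆ g '' S := by
      intro hBS
      have h1 := Set.encard_le_encard hBS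
      rw [hc, (h.inj.mono hSs).encard_image, Set.encard_coe_eq_coe_finsetCard, hS] at h1
      exact absurd h1 (by decide)
    obtain ⟨e, he, heS⟩ := Set.not_subset.mp hne
    have heE : e ∈ N.E := hB.subset_ground he
    rw [h.ground] at heE
    obtain ⟨m, hm, rfl⟩ := heE
    have hmS : m ∉ S := fun hh => heS ⟨m, hh, rfl⟩
    refine ⟨m, hm, hmS, ?_⟩
    have h4 : (insert m S).card = 4 := by rw [Finset.card_insert_of_notMem hmS, hS]
    rw [← Q67_quad h h4 (by
      intro z hz
      rcases Finset.mem_insert.mp hz with rfl | hz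
      · exact hm
      · exact hl z hz)]
    refine hB.indep.subset ?_
    rw [Finset.coe_insert, Set.image_insert_eq]
    exact Set.insert_subset he hIB
  · rintro ⟨m, hm, hmS, hq⟩
    have h4 : (insert m S).card = 4 := by rw [Finset.card_insert_of_notMem hmS, hS]
    rw [← Q67_quad h h4 (by
      intro z hz
      rcases Finset.mem_insert.mp hz with rfl | hz
      · exact hm
      · exact hl z hz)] at hq
    refine hq.subset ?_
    rw [Finset.coe_insert, Set.image_insert_eq]
    exact Set.subset_insert _ _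

theorem Q67_quot {c d : Code} {x F : ℕ} (hq : quotOk c x F d = true) {T : Finset ℕ}
    (hT : T.card = 3) (hl : ∀ z ∈ T, z < c.1) (hx : x ∉ T) :
    (∃ p ∈ c.2.2, ∀ z ∈ insert x T, tb p z = true) ↔
      (¬ Set.InjOn (dg F) T ∨ ∃ l ∈ d.2.1, ∀ z ∈ T, tb l (dg F z) = true) := by
  obtain ⟨i, j, k, hij, hjk, rfl⟩ := Q67_three hT
  have hk : k < c.1 := hl k (by simp)
  simp only [quotOk, Bool.and_eq_true] at hq
  have h := List.all_eq_true.mp hq.2 (i, j, k) (Q67_mem_triples.mpr ⟨hij, hjk, hk⟩)
  simp only [Finset.mem_insert, Finset.mem_singleton, not_or] at hx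
  have n1 : Nat.beq i x = false := by
    rw [Bool.eq_false_iff]; intro h; exact hx.1 (Nat.eq_of_beq_eq_true h).symm
  have n2 : Nat.beq j x = false := by
    rw [Bool.eq_false_iff]; intro h; exact hx.2.1 (Nat.eq_of_beq_eq_true h).symm
  have n3 : Nat.beq k x = false := by
    rw [Bool.eq_false_iff]; intro h; exact hx.2.2 (Nat.eq_of_beq_eq_true h).symm
  simp only [n1, n2, n3, Bool.false_or, beq_iff_eq] at h
  have h2 := congrArg (fun b : Bool => (b = true)) h
  simp only [Bool.or_eq_true, Nat.beq_eq, eq_iff_iff] at h2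
  have e1 : (∃ p ∈ c.2.2, ∀ z ∈ insert x ({i, j, k} : Finset ℕ), tb p z = true) ↔
      copC c x i j k = true := by
    rw [copC, List.any_eq_true]
    refine exists_congr fun p => and_congr_right fun _ => ?_
    simp [and_assoc]
  have e2 : (∃ l ∈ d.2.1, ∀ z ∈ ({i, j, k} : Finset ℕ), tb l (dg F z) = true) ↔
      colC d (dg F i) (dg F j) (dg F k) = true := by
    rw [colC, List.any_eq_true]
    refine exists_congr fun p => and_congr_right fun _ => ?_
    simp [and_assoc]
  have e3 : (¬ Set.InjOn (dg F) (({i, j, k} : Finset ℕ) : Set ℕ)) ↔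
      ((dg F i = dg F j ∨ dg F i = dg F k) ∨ dg F j = dg F k) := by
    constructor
    · intro hn
      by_contra hcon
      push Not at hcon
      apply hn
      intro a ha b hb hab
      simp only [Finset.coe_insert, Finset.coe_singleton, Set.mem_insert_iff,
        Set.mem_singleton_iff] at ha hb
      rcases ha with rfl | rfl | rfl <;> rcases hb with rfl | rfl | rfl <;>
        first | rfl | exact absurd hab (by tauto)
    · rintro ((h | h) | h) hI
      · exact absurd (hI (by simp) (by simp) h) (by omega)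
      · exact absurd (hI (by simp) (by simp) h) (by omega)
      · exact absurd (hI (by simp) (by simp) h) (by omega)
  rw [e1, e2, e3, h2]

/-- `hs` is only used for the consistency of the code `d`. -/
theorem pcode3_of_quotOk {M : Matroid α} [M.Finite] {g : ℕ → α} {c d : Code} {x F : ℕ}
    {vec fam : List ℕ} (h : GCode M✶ g c) (hc : codeOk c = true) (hx : x < c.1)
    (hq : quotOk c x F d = true) (hs : sg3Ok d vec fam = true) :
    ∃ f, PCode3 (M ＼ {g x})✶ f d := by
  rw [dual_delete]
  set N := M✶ with hN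
  have hgx : g x ∈ N.E := by rw [h.ground]; exact ⟨x, hx, rfl⟩
  have hnl : N.IsNonloop (g x) := by
    have := h.simp (g x) hgx (g x) hgx
    rw [Set.pair_eq_singleton] at this
    exact indep_singleton.mp this
  have hE : ∀ e, e ∈ (N ／ {g x}).E ↔ ∃ i < c.1, i ≠ x ∧ g i = e := by
    intro e
    rw [contract_ground, h.ground]
    constructor
    · rintro ⟨⟨i, hi, rfl⟩, hne⟩
      exact ⟨i, hi, fun hh => hne (by rw [hh]; rfl), rfl⟩
    · rintro ⟨i, hi, hne, rfl⟩
      exact ⟨⟨i, hi, rfl⟩, fun hh => hne (h.inj hi hx hh)⟩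
  let f : α → ℕ := fun e => dg F (Function.invFunOn g {i | i < c.1} e)
  have hf : ∀ i < c.1, f (g i) = dg F i := by
    intro i hi
    show dg F (Function.invFunOn g {i | i < c.1} (g i)) = dg F i
    rw [h.inj.leftInvOn_invFunOn hi]
  have hq' := hq
  simp only [quotOk, Bool.and_eq_true] at hq'
  obtain ⟨⟨q1, q2⟩, _⟩ := hq'
  have q1' : ∀ i < c.1, i ≠ x → dg F i < d.1 := by
    intro i hi hne
    have := List.all_eq_true.mp q1 i (List.mem_range.mpr hi)
    rw [Bool.or_eq_true] at this
    rcases this with h | h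
    · exact absurd (Nat.eq_of_beq_eq_true h) hne
    · exact Nat.le_of_ble_eq_true h
  have q2' : ∀ a < d.1, ∃ i < c.1, i ≠ x ∧ dg F i = a := by
    intro a ha
    obtain ⟨i, hi, h2⟩ := List.any_eq_true.mp (List.all_eq_true.mp q2 a (List.mem_range.mpr ha))
    rw [Bool.and_eq_true, Bool.not_eq_true'] at h2
    refine ⟨i, List.mem_range.mp hi, ?_, Nat.eq_of_beq_eq_true h2.2⟩
    rintro rfl
    have := h2.1
    rw [Nat.beq_refl] at this
    exact absurd this (by decide)
  -- independence of triples with the contracted point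
  have hpair : ∀ i < c.1, ∀ j < c.1, i ≠ x → j ≠ x → i ≠ j →
      (N.Indep {g x, g i, g j} ↔ dg F i ≠ dg F j) := by
    intro i hi j hj hix hjx hij
    have hcard : ({x, i, j} : Finset ℕ).card = 3 := by
      rw [Finset.card_insert_of_notMem (by simp [Ne.symm hix, Ne.symm hjx]), Finset.card_pair hij]
    have hlt : ∀ z ∈ ({x, i, j} : Finset ℕ), z < c.1 := by
      intro z hz
      simp only [Finset.mem_insert, Finset.mem_singleton] at hz
      rcases hz with rfl | rfl | rfl <;> assumption
    have himg : g '' (({x, i, j} : Finset ℕ) : Set ℕ) = {g x, g i, g j} := by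
      simp [Set.image_insert_eq]
    rw [← himg, Q67_trip h hcard hlt]
    constructor
    · rintro ⟨m, hm, hmS, hp⟩ he
      simp only [Finset.mem_insert, Finset.mem_singleton, not_or] at hmS
      have hT : ({m, i, j} : Finset ℕ).card = 3 := by
        rw [Finset.card_insert_of_notMem (by simp [hmS.2.1, hmS.2.2]), Finset.card_pair hij]
      have hTl : ∀ z ∈ ({m, i, j} : Finset ℕ), z < c.1 := by
        intro z hz
        simp only [Finset.mem_insert, Finset.mem_singleton] at hz
        rcases hz with rfl | rfl | rfl <;> assumption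
      have hxT : x ∉ ({m, i, j} : Finset ℕ) := by
        simp only [Finset.mem_insert, Finset.mem_singleton, not_or]
        exact ⟨Ne.symm hmS.1, Ne.symm hix, Ne.symm hjx⟩
      have hins : insert x ({m, i, j} : Finset ℕ) = insert m ({x, i, j} : Finset ℕ) :=
        Finset.insert_comm _ _ _
      apply hp
      rw [← hins, Q67_quot hq hT hTl hxT]
      left
      intro hI
      exact hij (hI (by simp) (by simp) he)
    · intro hne
      obtain ⟨w, hw, hwi, hwj, hcol⟩ := Q67_third hs (q1' i hi hix) (q1' j hj hjx) hne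
      obtain ⟨m, hm, hmx, rfl⟩ := q2' w hw
      have hmi : m ≠ i := fun hh => hwi (by rw [hh])
      have hmj : m ≠ j := fun hh => hwj (by rw [hh])
      refine ⟨m, hm, by simp [hmx, hmi, hmj], ?_⟩
      have hT : ({m, i, j} : Finset ℕ).card = 3 := by
        rw [Finset.card_insert_of_notMem (by simp [hmi, hmj]), Finset.card_pair hij]
      have hTl : ∀ z ∈ ({m, i, j} : Finset ℕ), z < c.1 := by
        intro z hz
        simp only [Finset.mem_insert, Finset.mem_singleton] at hz
        rcases hz with rfl | rfl | rfl <;> assumption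
      have hxT : x ∉ ({m, i, j} : Finset ℕ) := by
        simp only [Finset.mem_insert, Finset.mem_singleton, not_or]
        exact ⟨Ne.symm hmx, Ne.symm hix, Ne.symm hjx⟩
      have hins : insert x ({m, i, j} : Finset ℕ) = insert m ({x, i, j} : Finset ℕ) :=
        Finset.insert_comm _ _ _
      rw [← hins, Q67_quot hq hT hTl hxT]
      rintro (hI | ⟨l, hl, hz⟩)
      · apply hI
        intro a ha b hb hab
        simp only [Finset.coe_insert, Finset.coe_singleton, Set.mem_insert_iff,
          Set.mem_singleton_iff] at ha hb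
        rcases ha with rfl | rfl | rfl <;> rcases hb with rfl | rfl | rfl <;>
          first | rfl | exact absurd hab (by tauto)
      · have : colC d (dg F i) (dg F j) (dg F m) = true := by
          rw [colC, List.any_eq_true]
          refine ⟨l, hl, ?_⟩
          simp only [Bool.and_eq_true]
          exact ⟨⟨hz i (by simp), hz j (by simp)⟩, hz m (by simp)⟩
        rw [this] at hcol
        exact absurd hcol (by decide)
  refine ⟨f, ?_, ?_, ?_, ?_, ?_⟩
  · ext a
    constructor
    · rintro ⟨e, he, rfl⟩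
      obtain ⟨i, hi, hne, rfl⟩ := (hE e).mp he
      rw [hf i hi]
      exact q1' i hi hne
    · intro ha
      obtain ⟨i, hi, hne, rfl⟩ := q2' a ha
      exact ⟨g i, (hE _).mpr ⟨i, hi, hne, rfl⟩, hf i hi⟩
  · intro e he
    obtain ⟨i, hi, hne, rfl⟩ := (hE e).mp he
    rw [hnl.contractElem_indep_iff]
    refine ⟨fun hh => hne (h.inj hi hx (Set.mem_singleton_iff.mp hh).symm), ?_⟩
    exact h.simp (g x) hgx (g i) (by rw [h.ground]; exact ⟨i, hi, rfl⟩)
  · obtain ⟨B, hB, hxB⟩ := hnl.indep.exists_isBase_superset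
    have hxB' : g x ∈ B := hxB rfl
    have hbase : (N ／ {g x}).IsBase (B \ {g x}) := by
      rw [hnl.indep.contract_isBase_iff]
      refine ⟨?_, Set.disjoint_sdiff_left⟩
      rw [Set.sdiff_union_of_subset hxB]
      exact hB
    rw [← hbase.encard_eq_eRank]
    have h4 : B.encard = 4 := by rw [hB.encard_eq_eRank, h.rank]
    have h5 := Set.encard_sdiff_singleton_add_one hxB'
    rw [h4] at h5
    have h6 : (B \ {g x}).encard + 1 = 3 + 1 := h5
    exact WithTop.add_right_cancel ENat.one_ne_top h6
  · intro a ha b hb hab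
    obtain ⟨i, hi, hix, rfl⟩ := (hE a).mp ha
    obtain ⟨j, hj, hjx, rfl⟩ := (hE b).mp hb
    have hij : i ≠ j := fun hh => hab (by rw [hh])
    rw [hnl.contractElem_indep_iff, hf i hi, hf j hj, ← hpair i hi j hj hix hjx hij]
    refine and_iff_right ?_
    rintro (hh | hh)
    · exact hix (h.inj hi hx hh.symm)
    · exact hjx (h.inj hj hx (Set.mem_singleton_iff.mp hh).symm)
  · intro a ha b hb e he hab hae hbe
    obtain ⟨i, hi, hix, rfl⟩ := (hE a).mp ha
    obtain ⟨j, hj, hjx, rfl⟩ := (hE b).mp hb
    obtain ⟨k, hk, hkx, rfl⟩ := (hE e).mp he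
    have hij : i ≠ j := fun hh => hab (by rw [hh])
    have hik : i ≠ k := fun hh => hae (by rw [hh])
    have hjk : j ≠ k := fun hh => hbe (by rw [hh])
    rw [hnl.contractElem_indep_iff, hf i hi, hf j hj, hf k hk]
    have hT : ({i, j, k} : Finset ℕ).card = 3 := by
      rw [Finset.card_insert_of_notMem (by simp [hij, hik]), Finset.card_pair hjk]
    have hTl : ∀ z ∈ ({i, j, k} : Finset ℕ), z < c.1 := by
      intro z hz
      simp only [Finset.mem_insert, Finset.mem_singleton] at hz
      rcases hz with rfl | rfl | rfl <;> assumption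
    have hxT : x ∉ ({i, j, k} : Finset ℕ) := by
      simp only [Finset.mem_insert, Finset.mem_singleton, not_or]
      exact ⟨Ne.symm hix, Ne.symm hjx, Ne.symm hkx⟩
    have hS4 : (insert x ({i, j, k} : Finset ℕ)).card = 4 := by
      rw [Finset.card_insert_of_notMem hxT, hT]
    have hS4l : ∀ z ∈ insert x ({i, j, k} : Finset ℕ), z < c.1 := by
      intro z hz
      rcases Finset.mem_insert.mp hz with rfl | hz
      · exact hx
      · exact hTl z hz
    have himg : g '' ((insert x ({i, j, k} : Finset ℕ) : Finset ℕ) : Set ℕ) =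
        insert (g x) {g i, g j, g k} := by
      simp [Set.image_insert_eq]
    have hnot : g x ∉ ({g i, g j, g k} : Set α) := by
      rintro (hh | hh | hh)
      · exact hix (h.inj hi hx hh.symm)
      · exact hjx (h.inj hj hx hh.symm)
      · exact hkx (h.inj hk hx (Set.mem_singleton_iff.mp hh).symm)
    rw [and_iff_right hnot, ← himg, Q67_quad h hS4 hS4l, Q67_quot hq hT hTl hxT]
    rw [not_or, not_not]
    constructor
    · rintro ⟨hI, hl⟩
      refine ⟨fun hh => hij (hI (by simp) (by simp) hh), fun hh => hik (hI (by simp) (by simp) hh),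
        fun hh => hjk (hI (by simp) (by simp) hh), ?_⟩
      rw [← Bool.not_eq_true, colC, List.any_eq_true]
      rintro ⟨l, hl', h3⟩
      apply hl
      refine ⟨l, hl', ?_⟩
      simp only [Bool.and_eq_true] at h3
      intro z hz
      simp only [Finset.mem_insert, Finset.mem_singleton] at hz
      rcases hz with rfl | rfl | rfl
      exacts [h3.1.1, h3.1.2, h3.2]
    · rintro ⟨h1, h2, h3, h4⟩
      constructor
      · intro a ha b hb hab
        simp only [Finset.coe_insert, Finset.coe_singleton, Set.mem_insert_iff,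
          Set.mem_singleton_iff] at ha hb
        rcases ha with rfl | rfl | rfl <;> rcases hb with rfl | rfl | rfl <;>
          first | rfl | exact absurd hab (by tauto)
      · rintro ⟨l, hl, hz⟩
        have : colC d (dg F i) (dg F j) (dg F k) = true := by
          rw [colC, List.any_eq_true]
          refine ⟨l, hl, ?_⟩
          simp only [Bool.and_eq_true]
          exact ⟨⟨hz i (by simp), hz j (by simp)⟩, hz k (by simp)⟩
        rw [this] at h4
        exact absurd h4 (by decide)

end Ca3.C4
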