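import Pool.Agent.Lib.MP_ca3eb1_co.C4.CodeIff

/-! # Row 64: codes of rank four which are rings -/

namespace Ca3.C4

open Matroid

variable {α : Type*}

namespace RingS

theorem bit_eq (m i : ℕ) : (m >>> i) &&& 1 = if m.testBit i = true then 1 else 0 := by
  unfold Nat.testBit
  rw [Nat.and_comm 1 (m >>> i), Nat.and_one_is_mod]
  rcases Nat.mod_two_eq_zero_or_one (m >>> i) with h | h <;> rw [h] <;> rfl

theorem tb_eq (m i : ℕ) : tb m i = m.testBit i := by
  unfold tb
  rw [bit_eq]
  by_cases h : m.testBit i = true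
  · rw [if_pos h, h]; rfl
  · rw [if_neg h]
    rw [Bool.not_eq_true] at h
    rw [h]; rfl

theorem pop_eq (m : ℕ) :
    pop m = ((Finset.range 14).filter (fun i => m.testBit i = true)).card := by
  rw [Finset.card_filter]
  simp only [Finset.sum_range_succ, Finset.sum_range_zero]
  unfold pop
  have h0 : m &&& 1 = if m.testBit 0 = true then 1 else 0 := by
    have := bit_eq m 0
    rwa [Nat.shiftRight_zero] at this
  rw [h0]
  simp only [bit_eq]
  omega

theorem exists_mask (n : ℕ) (P : ℕ → Prop) :
    ∃ Z, Z < 2 ^ n ∧ ∀ i, Z.testBit i = true ↔ i < n ∧ P i := by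
  classical
  induction n with
  | zero => exact ⟨0, by simp, fun i => by simp⟩
  | succ n ih =>
    obtain ⟨Z, hZ, hb⟩ := ih
    have h2 : Z < 2 ^ (n + 1) := lt_trans hZ (Nat.pow_lt_pow_right (by norm_num) (Nat.lt_succ_self n))
    by_cases hP : P n
    · refine ⟨Z ||| 2 ^ n, Nat.or_lt_two_pow h2 (Nat.pow_lt_pow_right (by norm_num) (Nat.lt_succ_self n)), ?_⟩
      intro i
      rw [Nat.testBit_or, Bool.or_eq_true, hb, Nat.testBit_two_pow, decide_eq_true_eq]
      constructor
      · rintro (⟨h, h'⟩ | rfl)
        · exact ⟨by omega, h'⟩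
        · exact ⟨by omega, hP⟩
      · rintro ⟨h, h'⟩
        by_cases hi : n = i
        · exact Or.inr hi
        · exact Or.inl ⟨by omega, h'⟩
    · refine ⟨Z, h2, fun i => ?_⟩
      rw [hb]
      constructor
      · rintro ⟨h, h'⟩
        exact ⟨by omega, h'⟩
      · rintro ⟨h, h'⟩
        refine ⟨?_, h'⟩
        rcases Nat.lt_succ_iff_lt_or_eq.1 h with h | rfl
        · exact h
        · exact absurd h' hP

theorem fold_mask (q : ℕ → Bool) (h : ℕ → ℕ) (j : ℕ) (l : List ℕ) : ∀ s0 : ℕ,
    ((l.foldl (fun s i => bif q i then s ||| (1 <<< h i) else s) s0).testBit j = true) ↔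
      (s0.testBit j = true ∨ ∃ i ∈ l, q i = true ∧ h i = j) := by
  induction l with
  | nil => intro s0; simp
  | cons a l ih =>
    intro s0
    rw [List.foldl_cons, ih]
    cases hq : q a with
    | true =>
      simp only [cond_true, Nat.testBit_or, Bool.or_eq_true, Nat.one_shiftLeft,
        Nat.testBit_two_pow, decide_eq_true_eq]
      constructor
      · rintro ((h1 | h1) | ⟨i, hi, h2, h3⟩)
        · exact Or.inl h1
        · exact Or.inr ⟨a, List.mem_cons_self, hq, h1⟩
        · exact Or.inr ⟨i, List.mem_cons_of_mem _ hi, h2, h3⟩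
      · rintro (h1 | ⟨i, hi, h2, h3⟩)
        · exact Or.inl (Or.inl h1)
        · rcases List.mem_cons.1 hi with rfl | hi
          · exact Or.inl (Or.inr h3)
          · exact Or.inr ⟨i, hi, h2, h3⟩
    | false =>
      simp only [cond_false]
      constructor
      · rintro (h1 | ⟨i, hi, h2, h3⟩)
        · exact Or.inl h1
        · exact Or.inr ⟨i, List.mem_cons_of_mem _ hi, h2, h3⟩
      · rintro (h1 | ⟨i, hi, h2, h3⟩)
        · exact Or.inl h1
        · rcases List.mem_cons.1 hi with rfl | hi
          · rw [hq] at h2; exact absurd h2 (by simp)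
          · exact Or.inr ⟨i, hi, h2, h3⟩

theorem fold_count (q : ℕ → Bool) (l : List ℕ) : ∀ s0 : ℕ,
    l.foldl (fun s i => bif q i then s + 1 else s) s0 = s0 + l.countP q := by
  induction l with
  | nil => intro s0; simp
  | cons a l ih =>
    intro s0
    rw [List.foldl_cons, ih, List.countP_cons]
    cases hq : q a
    · simp
    · simp; omega

theorem countP_range (q : ℕ → Bool) (n : ℕ) :
    (List.range n).countP q = ((Finset.range n).filter (fun i => q i = true)).card := by
  induction n with
  | zero => simp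
  | succ n ih =>
    rw [List.range_succ, List.countP_append, ih, Finset.range_add_one, Finset.filter_insert]
    cases hq : q n
    · simp [hq]
    · rw [if_pos rfl, Finset.card_insert_of_notMem (by simp)]
      simp [hq]

theorem sub_iff (Z W : ℕ) : sub Z W = true ↔ ∀ i, Z.testBit i = true → W.testBit i = true := by
  unfold sub
  rw [Nat.beq_eq]
  constructor
  · intro h i hi
    rw [← h, Nat.testBit_and, Bool.and_eq_true] at hi
    exact hi.2
  · intro h
    apply Nat.eq_of_testBit_eq
    intro i
    rw [Nat.testBit_and]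
    cases hz : Z.testBit i
    · simp
    · rw [h i hz]; rfl

end RingS

open RingS

theorem isRing_of_ringOk {M : Matroid α} [M.Finite] {g : ℕ → α} {c : Code} {nl leg : ℕ}
    {C : List ℕ} (h : GCode M✶ g c) (hc : codeOk c = true) (hr : ringOk c nl leg C = true) :
    IsRing M := by
  classical
  obtain ⟨f, hf, hI⟩ := hasCode_of_gcode h hc
  rw [Matroid.dual_ground] at hf hI
  have hc14 : 3 < c.1 ∧ c.1 < 14 := by
    unfold codeOk at hc
    simp only [Bool.and_eq_true, Nat.blt_eq] at hc
    exact ⟨hc.1.1.1.1.1, hc.1.1.1.1.2⟩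
  unfold ringOk at hr
  simp only [Bool.and_eq_true, List.all_eq_true, List.mem_range, Nat.blt_eq, Nat.ble_eq,
    Bool.or_eq_true, Nat.beq_eq, fold_count, zero_add, countP_range, beq_iff_eq] at hr
  obtain ⟨⟨⟨⟨h1, h2⟩, h3⟩, h4⟩, h5⟩ := hr
  obtain ⟨hc4, hc14⟩ := hc14
  have hnl : 0 < nl := lt_of_le_of_lt (Nat.zero_le _) (h1 0 (by omega))
  have hnl14 : nl ≤ 14 := by
    have : (Finset.range nl) ⊆ (Finset.range c.1).image (fun i => dg leg i) := by
      intro a ha
      have ha' := (h2 a (Finset.mem_range.1 ha)).1.1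
      have : 0 < ({x ∈ Finset.range c.1 | dg leg x = a}).card := by omega
      obtain ⟨x, hx⟩ := Finset.card_pos.1 this
      rw [Finset.mem_filter] at hx
      exact Finset.mem_image.2 ⟨x, hx.1, hx.2⟩
    have h' := (Finset.card_le_card this).trans Finset.card_image_le
    rw [Finset.card_range, Finset.card_range] at h'
    omega
  set L : α → Fin nl := fun e => if he : dg leg (f e) < nl then ⟨dg leg (f e), he⟩ else ⟨0, hnl⟩
    with hL
  have hLval : ∀ e ∈ M.E, (L e).val = dg leg (f e) := by
    intro e he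
    have h' : dg leg (f e) < nl := h1 _ (hf.mapsTo he)
    simp only [hL]
    rw [dif_pos h']
  set S : ℕ → Finset (Fin nl) := fun m => Finset.univ.filter (fun a : Fin nl => m.testBit a.val = true)
    with hS
  have hSmem : ∀ m a, a ∈ S m ↔ m.testBit a.val = true := by
    intro m a
    simp [hS]
  -- masks in `C`
  have hClt : ∀ m ∈ C, ∀ i, m.testBit i = true → i < nl := by
    intro m hm i hi
    by_contra hcon
    have h' : m < 2 ^ i := by
      have := (h3 m hm).2
      rw [Nat.one_shiftLeft] at this
      exact lt_of_lt_of_le this (Nat.pow_le_pow_right (by norm_num) (by omega))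
    rw [Nat.testBit_lt_two_pow h'] at hi
    exact absurd hi (by simp)
  have hSinj : ∀ m ∈ C, ∀ m' ∈ C, S m = S m' → m = m' := by
    intro m hm m' hm' he
    apply Nat.eq_of_testBit_eq
    intro i
    by_cases hi : i < nl
    · have := hSmem m ⟨i, hi⟩
      rw [he, hSmem] at this
      simp only at this
      exact (Bool.eq_iff_iff.2 this.symm)
    · have a1 : m.testBit i = false := by
        cases hb : m.testBit i
        · rfl
        · exact absurd (hClt m hm i hb) hi
      have a2 : m'.testBit i = false := by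
        cases hb : m'.testBit i
        · rfl
        · exact absurd (hClt m' hm' i hb) hi
      rw [a1, a2]
  have hScard : ∀ m ∈ C, 3 ≤ (S m).card := by
    intro m hm
    have h' := (h3 m hm).1
    rw [pop_eq] at h'
    refine h'.trans ?_
    have : ((Finset.range 14).filter (fun i => m.testBit i = true)) ⊆ (S m).image Fin.val := by
      intro i hi
      rw [Finset.mem_filter] at hi
      have hi' := hClt m hm i hi.2
      exact Finset.mem_image.2 ⟨⟨i, hi'⟩, (hSmem _ _).2 hi.2, rfl⟩
    exact (Finset.card_le_card this).trans Finset.card_image_le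
  have hpair : C.Pairwise (fun a b => a &&& b = 0) := by
    rw [List.pairwise_iff_getElem]
    intro i j hi hj hij
    have := h4 j hj i hij
    rw [List.getD_eq_getElem _ _ hj, List.getD_eq_getElem _ _ hi] at this
    rw [Nat.and_comm]; exact this
  have hne0 : ∀ m ∈ C, m ≠ 0 := by
    rintro m hm rfl
    have := (h3 0 hm).1
    have h0 : pop 0 = 0 := by decide
    omega
  have hnodup : C.Nodup := by
    refine List.Pairwise.imp_of_mem ?_ hpair
    intro a b ha hb hab
    rintro rfl
    rw [Nat.and_self] at hab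
    exact hne0 _ ha hab
  have hdis : ∀ m ∈ C, ∀ m' ∈ C, m ≠ m' → m &&& m' = 0 := by
    intro m hm m' hm' hne
    rw [List.pairwise_iff_getElem] at hpair
    obtain ⟨i, hi, rfl⟩ := List.mem_iff_getElem.1 hm
    obtain ⟨j, hj, rfl⟩ := List.mem_iff_getElem.1 hm'
    rcases lt_trichotomy i j with hij | hij | hij
    · exact hpair i j hi hj hij
    · subst hij; exact absurd rfl hne
    · rw [Nat.and_comm]; exact hpair j i hj hi hij
  -- the size of a leg
  have hsize : ∀ i : Fin nl, {e ∈ M.E | L e = i}.ncard =
      ({x ∈ Finset.range c.1 | dg leg x = i.val}).card := by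
    intro i
    have hinj : Set.InjOn f {e ∈ M.E | L e = i} := hf.injOn.mono (fun e he => he.1)
    rw [← Set.ncard_coe_finset, ← hinj.ncard_image]
    congr 1
    ext j
    simp only [Set.mem_image, Set.mem_ofPred_eq, Finset.coe_filter, Finset.mem_range]
    constructor
    · rintro ⟨e, ⟨he, hei⟩, rfl⟩
      refine ⟨hf.mapsTo he, ?_⟩
      rw [← hLval e he, hei]
    · rintro ⟨hj, hji⟩
      obtain ⟨e, he, rfl⟩ := hf.surjOn hj
      refine ⟨e, ⟨he, ?_⟩, rfl⟩
      apply Fin.ext
      rw [hLval e he, hji]
  refine ⟨nl, L, (C.map S).toFinset, ?_, ?_, ?_, ?_, ?_⟩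
  · intro d hd
    rw [List.mem_toFinset, List.mem_map] at hd
    obtain ⟨m, hm, rfl⟩ := hd
    exact hScard m hm
  · intro d hd d' hd' hne
    rw [List.mem_toFinset, List.mem_map] at hd hd'
    obtain ⟨m, hm, rfl⟩ := hd
    obtain ⟨m', hm', rfl⟩ := hd'
    have hmm : m ≠ m' := fun e => hne (by rw [e])
    have h0 := hdis m hm m' hm' hmm
    rw [Finset.disjoint_left]
    intro a ha ha'
    rw [hSmem] at ha ha'
    have : (m &&& m').testBit a.val = true := by rw [Nat.testBit_and, ha, ha']; rfl
    rw [h0, Nat.zero_testBit] at this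
    exact absurd this (by simp)
  · intro i
    rw [hsize i]
    exact (h2 i.val i.isLt).1
  · intro d hd i hid
    rw [List.mem_toFinset, List.mem_map] at hd
    obtain ⟨m, hm, rfl⟩ := hd
    rw [hSmem] at hid
    rw [hsize i]
    rcases (h2 i.val i.isLt).2 with h' | h'
    · exact h'
    · have := h' m hm
      rw [tb_eq, hid] at this
      exact absurd this (by simp)
  · intro I hIE
    obtain ⟨Z, hZ, hZb⟩ := exists_mask c.1 (fun i => i ∈ f '' I)
    have hZb' : ∀ i, Z.testBit i = true ↔ i ∈ f '' I := by
      intro i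
      rw [hZb]
      constructor
      · exact fun h' => h'.2
      · rintro ⟨e, he, rfl⟩
        exact ⟨hf.mapsTo (hIE he), ⟨e, he, rfl⟩⟩
    have key : ∀ Q : ℕ → Prop, {e ∈ I | Q (f e)}.encard =
        (((Finset.range 14).filter (fun i => Z.testBit i = true ∧ Q i)).card : ℕ∞) := by
      intro Q
      have hinj : Set.InjOn f {e ∈ I | Q (f e)} := hf.injOn.mono (fun e he => hIE he.1)
      rw [← Set.encard_coe_eq_coe_finsetCard, ← hinj.encard_image]
      congr 1
      ext j
      simp only [Set.mem_image, Set.mem_ofPred_eq, Finset.coe_filter, Finset.mem_range]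
      constructor
      · rintro ⟨e, ⟨he, hq⟩, rfl⟩
        have : f e < c.1 := hf.mapsTo (hIE he)
        exact ⟨by omega, (hZb' _).2 ⟨e, he, rfl⟩, hq⟩
      · rintro ⟨hj, hz, hq⟩
        obtain ⟨e, he, rfl⟩ := (hZb' _).1 hz
        exact ⟨e, ⟨he, hq⟩, rfl⟩
    have hpopI : I.encard = (pop Z : ℕ∞) := by
      have := key (fun _ => True)
      simp only [and_true, Set.ofPred_mem_eq] at this
      rw [this, pop_eq]
    have hpopIn : I.ncard = pop Z := by
      rw [Set.ncard, hpopI]; rfl
    have hcut : ∀ l : ℕ, {e | e ∈ I ∧ l.testBit (f e) = true}.encard = (pop (Z &&& l) : ℕ∞) := by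
      intro l
      have := key (fun i => l.testBit i = true)
      rw [this, pop_eq]
      congr 2
      ext i
      simp only [Finset.mem_filter, Nat.testBit_and, Bool.and_eq_true]
    set Mk := List.foldl (fun s i => bif tb Z i then s ||| 1 <<< dg leg i else s) 0
      (List.range c.1) with hMk
    have hMb : ∀ j, Mk.testBit j = true ↔ ∃ e ∈ I, dg leg (f e) = j := by
      intro j
      rw [hMk, fold_mask]
      simp only [Nat.zero_testBit, Bool.false_eq_true, false_or, List.mem_range, tb_eq]
      constructor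
      · rintro ⟨i, hi, hz, rfl⟩
        obtain ⟨e, he, rfl⟩ := (hZb' _).1 hz
        exact ⟨e, he, rfl⟩
      · rintro ⟨e, he, rfl⟩
        exact ⟨f e, hf.mapsTo (hIE he), (hZb' _).2 ⟨e, he, rfl⟩, rfl⟩
    have hindep : M✶.Indep I ↔ indC 4 c Z = true := by
      rw [hI I hIE]
      unfold indC
      simp only [Bool.and_eq_true, List.all_eq_true, Nat.ble_eq, and_assoc]
      rw [hpopI]
      simp only [hcut]
      constructor
      · rintro ⟨a1, a2, a3⟩
        exact ⟨by exact_mod_cast a1, fun l hl => by exact_mod_cast a2 l hl,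
          fun l hl => by exact_mod_cast a3 l hl⟩
      · rintro ⟨a1, a2, a3⟩
        exact ⟨by exact_mod_cast a1, fun l hl => by exact_mod_cast a2 l hl,
          fun l hl => by exact_mod_cast a3 l hl⟩
    have hLI : (L '' I).ncard = pop Mk := by
      rw [pop_eq, ← Set.ncard_coe_finset, ← Set.ncard_image_of_injective _ Fin.val_injective]
      congr 1
      ext j
      simp only [Set.mem_image, Set.mem_ofPred_eq, Finset.coe_filter, Finset.mem_range]
      constructor
      · rintro ⟨a, ⟨e, he, rfl⟩, rfl⟩
        rw [hLval e (hIE he)]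
        have : dg leg (f e) < nl := h1 _ (hf.mapsTo (hIE he))
        exact ⟨by omega, (hMb _).2 ⟨e, he, rfl⟩⟩
      · rintro ⟨hj, hm⟩
        obtain ⟨e, he, hej⟩ := (hMb _).1 hm
        exact ⟨L e, ⟨e, he, rfl⟩, by rw [hLval e (hIE he), hej]⟩
    have hcount : {d | d ∈ (C.map S).toFinset ∧ ∀ i ∈ d, ∃ e ∈ I, L e = i}.ncard = cntL C Mk := by
      unfold cntL
      rw [fold_count, zero_add, List.countP_eq_length_filter]
      have hnd : ((C.filter (fun a => sub a Mk)).map S).Nodup := by
        refine List.Nodup.map_on ?_ (hnodup.filter _)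
        intro x hx y hy hxy
        exact hSinj x (List.mem_of_mem_filter hx) y (List.mem_of_mem_filter hy) hxy
      have hsub : ∀ m ∈ C, (sub m Mk = true ↔ ∀ i ∈ S m, ∃ e ∈ I, L e = i) := by
        intro m hm
        rw [sub_iff]
        constructor
        · intro hh i hi
          obtain ⟨e, he, hei⟩ := (hMb _).1 (hh i.val ((hSmem _ _).1 hi))
          exact ⟨e, he, Fin.ext (by rw [hLval e (hIE he), hei])⟩
        · intro hh i hi
          obtain ⟨e, he, hei⟩ := hh ⟨i, hClt m hm i hi⟩ ((hSmem _ _).2 hi)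
          refine (hMb _).2 ⟨e, he, ?_⟩
          rw [← hLval e (hIE he), hei]
      have heq : {d | d ∈ (C.map S).toFinset ∧ ∀ i ∈ d, ∃ e ∈ I, L e = i} =
          ((((C.filter (fun a => sub a Mk)).map S).toFinset : Finset (Finset (Fin nl))) :
            Set (Finset (Fin nl))) := by
        ext d
        simp only [Set.mem_ofPred_eq, List.coe_toFinset, List.mem_toFinset, List.mem_map,
          List.mem_filter]
        constructor
        · rintro ⟨⟨m, hm, rfl⟩, hd⟩
          exact ⟨m, ⟨hm, (hsub m hm).2 hd⟩, rfl⟩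
        · rintro ⟨m, ⟨hm, hs⟩, rfl⟩
          exact ⟨⟨m, hm, rfl⟩, (hsub m hm).1 hs⟩
      rw [heq, Set.ncard_coe_finset, List.toFinset_card_of_nodup hnd, List.length_map]
    have h5' := h5 Z (by rw [Nat.one_shiftLeft]; exact hZ)
    rw [hindep, h5', Nat.ble_eq, hpopIn, hcount, hLI]

end Ca3.C4
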