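import Pool.Agent.Lib.MP_ca3eb1_co.C4.Data

/-! # Cheaper check of Mason families: only unions of members are tested -/

namespace Ca3.C4

/-- `p` holds for all unions of `u` with members of the list. -/
def allUni (p : ℕ → Bool) : List ℕ → ℕ → Bool
  | [], u => p u
  | a :: L, u => allUni p L u && allUni p L (u ||| a)

/-- The code of rank four is represented by `vec` and `fam` is a Mason family. -/
def sgOk2 (c : Code) (vec fam : List ℕ) : Bool :=
  Nat.beq vec.length c.1 &&
  ((triples c.1).all fun t => (List.range t.1).all fun m =>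
    (Nat.beq (det4 (vec.getD m 0) (vec.getD t.1 0) (vec.getD t.2.1 0) (vec.getD t.2.2 0)) 0) ==
      copC c m t.1 t.2.1 t.2.2) &&
  allUni (fun Z => Nat.ble (cntL fam Z + rkC 4 c Z) (pop Z)) fam 0 &&
  c.2.1.all (fun l => Nat.beq (cntL fam l + 2) (pop l)) &&
  c.2.2.all (fun p => Nat.beq (cntL fam p + 3) (pop p)) &&
  Nat.beq (cntL fam (1 <<< c.1 - 1) + 4) c.1

theorem allUni_fold {p : ℕ → Bool} (q : ℕ → Bool) : ∀ {L : List ℕ} {u : ℕ},
    allUni p L u = true → p (L.foldl (fun s a => bif q a then s ||| a else s) u) = true
  | [], _, h => h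
  | a :: L, u, h => by
    simp only [allUni, Bool.and_eq_true] at h
    rw [List.foldl_cons]
    cases hq : q a with
    | true => exact allUni_fold q h.2
    | false => exact allUni_fold q h.1

theorem testBit_fold {q : ℕ → Bool} {i : ℕ} : ∀ {L : List ℕ} {u : ℕ},
    (L.foldl (fun s a => bif q a then s ||| a else s) u).testBit i = true ↔
      u.testBit i = true ∨ ∃ a ∈ L, q a = true ∧ a.testBit i = true
  | [], u => by simp
  | a :: L, u => by
    rw [List.foldl_cons, testBit_fold]
    cases hq : q a with
    | true =>
      simp only [cond_true, Nat.testBit_or, Bool.or_eq_true, List.mem_cons, exists_eq_or_imp, hq,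
        true_and]
      tauto
    | false =>
      simp only [cond_false, List.mem_cons, exists_eq_or_imp, hq, Bool.false_eq_true, false_and,
        false_or]

end Ca3.C4
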