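import Pool.Agent.Lib.MP_ca3eb1_co.C4.Geo
import Pool.Agent.Lib.MP_ca3eb1_co.C4.GF4
import Pool.Agent.Lib.MP_ca3eb1_co.C4.SgDef
import Pool.Agent.Lib.MP_ca3eb1_co.C4.Clean
import Pool.Agent.Lib.MP_ca3eb1_co.C4.CodeIff
import Pool.Agent.Lib.MP_ca3eb1_co.Bridge
import Pool.Agent.Lib.MP_ca3eb1_co.BridgeQ

/-! # Row 63: codes of rank four in the class -/

set_option linter.unusedSectionVars false

namespace Ca3.C4

open Matroid

variable {α : Type*}

namespace SgS

open CIff

/-! ### Bits -/

theorem pop_eq (m : ℕ) :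
    pop m = ((Finset.range 14).filter (fun i => m.testBit i = true)).card := by
  have h : ∀ i, (m >>> i) &&& 1 = if m.testBit i = true then 1 else 0 := by
    intro i
    rw [Nat.testBit]
    have h : 1 &&& (m >>> i) = (m >>> i) % 2 := by
      rw [Nat.and_comm, Nat.and_one_is_mod]
    rw [h, Nat.and_one_is_mod]
    rcases Nat.mod_two_eq_zero_or_one (m >>> i) with h | h <;> rw [h] <;> rfl
  rw [Finset.card_filter]
  simp only [Finset.sum_range_succ, Finset.sum_range_zero, zero_add, pop]
  have h0 : m &&& 1 = (m >>> 0) &&& 1 := by simp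
  rw [h0]
  simp only [h]

/-- The set of a mask. -/
def bset (n m : ℕ) : Finset (Fin n) := Finset.univ.filter fun i => m.testBit i = true

theorem mem_bset {n m : ℕ} {i : Fin n} : i ∈ bset n m ↔ m.testBit i = true := by
  simp [bset]

theorem testBit_lt {n m i : ℕ} (h : m < 2 ^ n) (hi : m.testBit i = true) : i < n := by
  by_contra hc
  have h1 : m < 2 ^ i := lt_of_lt_of_le h (Nat.pow_le_pow_right (by norm_num) (not_lt.1 hc))
  rw [Nat.testBit_lt_two_pow h1] at hi
  exact absurd hi (by decide)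

theorem card_bset {n m : ℕ} (hn : n ≤ 13) (h : m < 2 ^ n) : (bset n m).card = pop m := by
  rw [pop_eq]
  apply Finset.card_bij (fun (i : Fin n) _ => (i : ℕ))
  · intro i hi
    rw [mem_bset] at hi
    simp only [Finset.mem_filter, Finset.mem_range]
    exact ⟨by omega, hi⟩
  · intro i _ j _ hij
    exact Fin.ext hij
  · intro i hi
    simp only [Finset.mem_filter, Finset.mem_range] at hi
    exact ⟨⟨i, testBit_lt h hi.2⟩, mem_bset.2 hi.2, rfl⟩

theorem sub_iff {a m : ℕ} : sub a m = true ↔ ∀ i, a.testBit i = true → m.testBit i = true := by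
  unfold sub
  rw [Nat.beq_eq]
  constructor
  · intro h i hi
    rw [← h, Nat.testBit_and, Bool.and_eq_true] at hi
    exact hi.2
  · intro h
    apply Nat.eq_of_testBit_eq
    intro i
    rw [Nat.testBit_and]
    cases hi : a.testBit i with
    | false => simp
    | true => simp [h i hi]

theorem sub_bset {n a m : ℕ} (h : sub a m = true) : bset n a ⊆ bset n m := by
  intro i hi
  rw [mem_bset] at *
  exact sub_iff.1 h i hi

theorem exists_mask (n : ℕ) (Z : Finset (Fin n)) : ∃ m, m < 2 ^ n ∧ bset n m = Z := by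
  classical
  refine ⟨Nat.ofBits fun i => decide (i ∈ Z), Nat.ofBits_lt_two_pow _, ?_⟩
  ext i
  rw [mem_bset, Nat.testBit_ofBits_lt _ _ i.2]
  simp

theorem cntL_aux (m : ℕ) : ∀ (fam : List ℕ) (s : ℕ),
    fam.foldl (fun s a => bif sub a m then s + 1 else s) s = s + fam.countP (fun a => sub a m)
  | [], s => by simp
  | a :: L, s => by
    rw [List.foldl_cons, cntL_aux m L, List.countP_cons]
    cases sub a m
    · simp
    · simp
      omega

theorem cntL_eq (fam : List ℕ) (m : ℕ) : cntL fam m = fam.countP (fun a => sub a m) := by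
  rw [cntL, cntL_aux, zero_add]

theorem card_filter_get (p : ℕ → Bool) : ∀ L : List ℕ,
    ((Finset.univ : Finset (Fin L.length)).filter (fun i => p (L.get i) = true)).card = L.countP p
  | [] => by simp
  | a :: L => by
    rw [List.countP_cons, ← card_filter_get p L, Finset.card_filter, Finset.card_filter]
    refine (Fin.sum_univ_succ (n := L.length) _).trans ?_
    rw [add_comm]
    rfl

/-- The Mason family. -/
def famF (n : ℕ) (fam : List ℕ) : List ℕ := fam.filter fun a => sub a (2 ^ n - 1)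

def famA (n : ℕ) (fam : List ℕ) (i : Fin (famF n fam).length) : Finset (Fin n) :=
  bset n ((famF n fam).get i)

theorem full_testBit {n i : ℕ} : (2 ^ n - 1).testBit i = true ↔ i < n := by
  rw [Nat.testBit_two_pow_sub_one]
  simp

theorem cnt_eq {n : ℕ} (fam : List ℕ) {m : ℕ} (hm : m < 2 ^ n) :
    cnt (famA n fam) (bset n m) = cntL fam m := by
  classical
  rw [cntL_eq, cnt]
  have h1 : fam.countP (fun a => sub a m) = (famF n fam).countP (fun a => sub a m) := by
    rw [famF, List.countP_filter]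
    apply List.countP_congr
    intro a _
    simp only [Bool.and_eq_true]
    constructor
    · intro h
      refine ⟨h, ?_⟩
      rw [sub_iff] at *
      intro i hi
      exact full_testBit.2 (testBit_lt hm (h i hi))
    · exact fun h => h.1
  rw [h1, ← card_filter_get]
  congr 1
  ext i
  rw [Finset.mem_filter, Finset.mem_filter]
  simp only [Finset.mem_univ, true_and, famA]
  constructor
  · intro h
    have h2 : (famF n fam).get i ∈ famF n fam := List.get_mem _ _
    have h3 := (List.mem_filter.1 h2).2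
    rw [sub_iff]
    intro k hk
    have hk' : k < n := full_testBit.1 (sub_iff.1 h3 k hk)
    exact mem_bset.1 (h (mem_bset.2 (show ((famF n fam).get i).testBit (⟨k, hk'⟩ : Fin n) = true
      from hk)))
  · exact fun h => sub_bset h

theorem pwL_mem {R : ℕ → ℕ → Bool} : ∀ {L : List ℕ}, pwL R L = true → ∀ a ∈ L, ∀ b ∈ L,
    a = b ∨ R a b = true ∨ R b a = true
  | [], _, a, ha, _, _ => absurd ha (List.not_mem_nil)
  | x :: L, h, a, ha, b, hb => by
    simp only [pwL, Bool.and_eq_true, List.all_eq_true] at h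
    rcases List.mem_cons.1 ha with ha' | ha'
    · rcases List.mem_cons.1 hb with hb' | hb'
      · exact Or.inl (ha'.trans hb'.symm)
      · subst ha'
        exact Or.inr (Or.inl (h.1 b hb'))
    · rcases List.mem_cons.1 hb with hb' | hb'
      · subst hb'
        exact Or.inr (Or.inr (h.1 a ha'))
      · exact pwL_mem h.2 a ha' b hb'

theorem bset_and {n a b : ℕ} : bset n (a &&& b) = bset n a ∩ bset n b := by
  ext i
  rw [Finset.mem_inter, mem_bset, mem_bset, mem_bset, Nat.testBit_and, Bool.and_eq_true]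

theorem and_lt {n a b : ℕ} (h : a < 2 ^ n) : a &&& b < 2 ^ n :=
  lt_of_le_of_lt Nat.and_le_left h

/-! ### The configuration -/

variable {K : Type*} [Field K]

/-- What we need about the configuration of a code: `v i` (`i < n`), independence of four
different elements is given by the code. -/
structure Cfg (K : Type*) [Field K] (n : ℕ) (v : Fin n → (Fin 4 → K)) (c : Code) : Prop where
  hn : c.1 = n
  n13 : n ≤ 13
  simple : Simple K v
  four : ∀ i j k m : Fin n, i ≠ j → i ≠ k → i ≠ m → j ≠ k → j ≠ m → k ≠ m →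
    (Ind K v {i, j, k, m} ↔ copC c i j k m = false)
  line_lt : ∀ l ∈ c.2.1, l < 2 ^ n
  plane_lt : ∀ p ∈ c.2.2, p < 2 ^ n
  ok : codeOk c = true
  clean : cleanOk c = true

namespace Cfg

variable {n : ℕ} {v : Fin n → (Fin 4 → K)} {c : Code}

theorem rk_univ (h : Cfg K n v c) : rk K v Finset.univ = 4 := by
  obtain ⟨i, j, k, m, h1, h2, h3, h4, h5⟩ := ok_quad h.ok
  have hn := h.hn
  have h6 := (h.four ⟨i, by omega⟩ ⟨j, by omega⟩ ⟨k, by omega⟩ ⟨m, by omega⟩
    (by simp only [ne_eq, Fin.mk.injEq]; omega) (by simp only [ne_eq, Fin.mk.injEq]; omega)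
    (by simp only [ne_eq, Fin.mk.injEq]; omega) (by simp only [ne_eq, Fin.mk.injEq]; omega)
    (by simp only [ne_eq, Fin.mk.injEq]; omega) (by simp only [ne_eq, Fin.mk.injEq]; omega)).2 h5
  have h7 : ({⟨i, by omega⟩, ⟨j, by omega⟩, ⟨k, by omega⟩, ⟨m, by omega⟩} : Finset (Fin n)).card = 4 := by
    rw [Finset.card_eq_succ]
    refine ⟨⟨i, by omega⟩, {⟨j, by omega⟩, ⟨k, by omega⟩, ⟨m, by omega⟩}, ?_, rfl, ?_⟩
    · simp only [Finset.mem_insert, Finset.mem_singleton, Fin.mk.injEq]
      omega
    · rw [Finset.card_eq_three]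
      refine ⟨_, _, _, ?_, ?_, ?_, rfl⟩ <;> simp only [ne_eq, Fin.mk.injEq] <;> omega
  have h8 : (4 : ℕ) ≤ rk K v Finset.univ := by
    have e1 := h6.rk_eq_card
    have e2 := rk_mono (K := K) (v := v) (Finset.subset_univ
      ({⟨i, by omega⟩, ⟨j, by omega⟩, ⟨k, by omega⟩, ⟨m, by omega⟩} : Finset (Fin n)))
    omega
  have h9 : rk K v Finset.univ ≤ 4 := by
    unfold rk
    have := Submodule.finrank_le (sp K v Finset.univ)
    simpa using this
  omega

/-- three different elements -/
theorem three_of_line (h : Cfg K n v c) {l : ℕ} (hl : l ∈ c.2.1) : rk K v (bset n l) ≤ 2 := by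
  by_contra hc
  obtain ⟨B, _, hB, hBi, hBc⟩ := exists_ind_card (K := K) (v := v) (I := ∅) (X := bset n l)
    (n := 3) ind_empty (Finset.empty_subset _) (by simp) (by omega)
  obtain ⟨C, hBC, _, hC, hCc⟩ := exists_ind_card (K := K) (v := v) (X := Finset.univ)
    (n := 4) hBi (Finset.subset_univ _) (by omega) (by rw [h.rk_univ])
  obtain ⟨i, j, k, hij, hik, hjk, rfl⟩ := Finset.card_eq_three.1 hBc
  obtain ⟨m, hm⟩ : ∃ m, m ∈ C \ {i, j, k} := by
    apply Finset.card_pos.1
    rw [Finset.card_sdiff_of_subset hBC]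
    omega
  rw [Finset.mem_sdiff] at hm
  have hm' : m ≠ i ∧ m ≠ j ∧ m ≠ k := by
    have := hm.2
    simp only [Finset.mem_insert, Finset.mem_singleton, not_or] at this
    exact this
  have hsub : ({i, j, k, m} : Finset (Fin n)) ⊆ C := by
    intro x hx
    simp only [Finset.mem_insert, Finset.mem_singleton] at hx
    rcases hx with rfl | rfl | rfl | rfl
    · exact hBC (by simp)
    · exact hBC (by simp)
    · exact hBC (by simp)
    · exact hm.1
  have h1 := (h.four i j k m hij hik hm'.1.symm hjk hm'.2.1.symm hm'.2.2.symm).1 (hC.subset hsub)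
  have h2 : colC c i j k = true := by
    rw [colC_iff]
    exact ⟨l, hl, mem_bset.1 (hB (by simp)), mem_bset.1 (hB (by simp)), mem_bset.1 (hB (by simp))⟩
  have hn := h.hn
  have h3 := (ok_col h.ok i j k (fun hh => hij (Fin.ext hh)) (fun hh => hik (Fin.ext hh))
    (fun hh => hjk (Fin.ext hh)) (by omega) (by omega) (by omega)).1 h2 m (by omega)
    (fun hh => hm'.1 (Fin.ext hh)) (fun hh => hm'.2.1 (Fin.ext hh)) (fun hh => hm'.2.2 (Fin.ext hh))
  rw [h1] at h3
  exact absurd h3 (by decide)

theorem rk_plane (h : Cfg K n v c) {p : ℕ} (hp : p ∈ c.2.2) : rk K v (bset n p) ≤ 3 := by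
  by_contra hc
  obtain ⟨B, _, hB, hBi, hBc⟩ := exists_ind_card (K := K) (v := v) (I := ∅) (X := bset n p)
    (n := 4) ind_empty (Finset.empty_subset _) (by simp) (by omega)
  obtain ⟨i, hi, hi3⟩ := Finset.card_eq_succ.1 hBc
  obtain ⟨s, h1, h2, h3⟩ : ∃ s : Finset (Fin n), i ∉ s ∧ insert i s = B ∧ s.card = 3 := by
    obtain ⟨h1, h2, h3⟩ := hi3
    exact ⟨hi, h1, h2, h3⟩
  obtain ⟨j, k, m, hjk, hjm, hkm, rfl⟩ := Finset.card_eq_three.1 h3
  subst h2
  simp only [Finset.mem_insert, Finset.mem_singleton, not_or] at h1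
  have h4 := (h.four i j k m h1.1 h1.2.1 h1.2.2 hjk hjm hkm).1 hBi
  have h5 : copC c i j k m = true := by
    rw [copC_iff]
    exact ⟨p, hp, mem_bset.1 (hB (by simp)), mem_bset.1 (hB (by simp)), mem_bset.1 (hB (by simp)),
      mem_bset.1 (hB (by simp))⟩
  rw [h4] at h5
  exact absurd h5 (by decide)

/-- a dependent triple is on a listed line -/
theorem exists_line (h : Cfg K n v c) {i j k : Fin n} (hij : i ≠ j) (hik : i ≠ k) (hjk : j ≠ k)
    (hd : ¬ Ind K v {i, j, k}) : ∃ l ∈ c.2.1, i ∈ bset n l ∧ j ∈ bset n l ∧ k ∈ bset n l := by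
  have hn := h.hn
  have h1 : colC c i j k = true := by
    refine (ok_col h.ok i j k (fun hh => hij (Fin.ext hh)) (fun hh => hik (Fin.ext hh))
      (fun hh => hjk (Fin.ext hh)) (by omega) (by omega) (by omega)).2 ?_
    intro m hm h1 h2 h3
    have hm' : m < n := by omega
    cases h4 : copC c i j k m with
    | true => rfl
    | false =>
      have h5 := (h.four i j k ⟨m, hm'⟩ hij hik (fun hh => h1 (by rw [hh])) hjk
        (fun hh => h2 (by rw [hh])) (fun hh => h3 (by rw [hh]))).2 h4
      refine absurd (h5.subset ?_) hd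
      intro x hx
      simp only [Finset.mem_insert, Finset.mem_singleton] at hx ⊢
      tauto
  rw [colC_iff] at h1
  obtain ⟨l, hl, h2, h3, h4⟩ := h1
  exact ⟨l, hl, mem_bset.2 h2, mem_bset.2 h3, mem_bset.2 h4⟩

/-- a dependent quadruple is in a listed plane -/
theorem exists_plane (h : Cfg K n v c) {i j k m : Fin n} (h1 : i ≠ j) (h2 : i ≠ k) (h3 : i ≠ m)
    (h4 : j ≠ k) (h5 : j ≠ m) (h6 : k ≠ m) (hd : ¬ Ind K v {i, j, k, m}) :
    ∃ p ∈ c.2.2, i ∈ bset n p ∧ j ∈ bset n p ∧ k ∈ bset n p ∧ m ∈ bset n p := by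
  have h7 : copC c i j k m = true := by
    cases h8 : copC c i j k m with
    | true => rfl
    | false => exact absurd ((h.four i j k m h1 h2 h3 h4 h5 h6).2 h8) hd
  rw [copC_iff] at h7
  obtain ⟨p, hp, h8, h9, h10, h11⟩ := h7
  exact ⟨p, hp, mem_bset.2 h8, mem_bset.2 h9, mem_bset.2 h10, mem_bset.2 h11⟩

theorem line_unique (h : Cfg K n v c) {l l' : ℕ} (hl : l ∈ c.2.1) (hl' : l' ∈ c.2.1) {i j : Fin n}
    (hij : i ≠ j) (h1 : i ∈ bset n l) (h2 : j ∈ bset n l) (h3 : i ∈ bset n l')
    (h4 : j ∈ bset n l') : l = l' := by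
  have hc := h.clean
  simp only [cleanOk, Bool.and_eq_true] at hc
  have key : ∀ a ∈ c.2.1, ∀ b ∈ c.2.1, i ∈ bset n a → j ∈ bset n a → i ∈ bset n b → j ∈ bset n b →
      ¬ (Nat.ble (pop (a &&& b)) 1 = true) := by
    intro a ha b _ h1 h2 h3 h4 h5
    rw [Nat.ble_eq, ← card_bset h.n13 (and_lt (h.line_lt a ha)), bset_and] at h5
    have h6 : ({i, j} : Finset (Fin n)) ⊆ bset n a ∩ bset n b := by
      intro x hx
      simp only [Finset.mem_insert, Finset.mem_singleton] at hx
      rcases hx with rfl | rfl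
      · exact Finset.mem_inter.2 ⟨h1, h3⟩
      · exact Finset.mem_inter.2 ⟨h2, h4⟩
    have := Finset.card_le_card h6
    rw [Finset.card_pair hij] at this
    omega
  rcases pwL_mem hc.1.1.2 l hl l' hl' with h5 | h5 | h5
  · exact h5
  · exact absurd h5 (key l hl l' hl' h1 h2 h3 h4)
  · exact absurd h5 (key l' hl' l hl h3 h4 h1 h2)

theorem plane_unique (h : Cfg K n v c) {p p' : ℕ} (hp : p ∈ c.2.2) (hp' : p' ∈ c.2.2)
    {T : Finset (Fin n)} (hT : Ind K v T) (hT3 : T.card = 3) (h1 : T ⊆ bset n p)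
    (h2 : T ⊆ bset n p') : p = p' := by
  have hc := h.clean
  simp only [cleanOk, Bool.and_eq_true] at hc
  have key : ∀ a ∈ c.2.2, ∀ b ∈ c.2.2, T ⊆ bset n a → T ⊆ bset n b →
      ¬ ((Nat.ble (pop (a &&& b)) 2 || c.2.1.any fun l => sub (a &&& b) l) = true) := by
    intro a ha b _ h1 h2 h5
    have h6 : T ⊆ bset n (a &&& b) := by
      rw [bset_and]
      exact Finset.subset_inter h1 h2
    rw [Bool.or_eq_true] at h5
    rcases h5 with h5 | h5
    · rw [Nat.ble_eq, ← card_bset h.n13 (and_lt (h.plane_lt a ha))] at h5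
      have := Finset.card_le_card h6
      omega
    · obtain ⟨l, hl, h7⟩ := List.any_eq_true.1 h5
      have h8 := rk_mono (K := K) (v := v) (h6.trans (sub_bset h7))
      have h9 := h.three_of_line hl
      rw [hT.rk_eq_card] at h8
      omega
  rcases pwL_mem hc.2 p hp p' hp' with h5 | h5 | h5
  · exact h5
  · exact absurd h5 (key p hp p' hp' h1 h2)
  · exact absurd h5 (key p' hp' p hp h2 h1)

/-- a flat of rank two with at least three points is a listed line -/
theorem flat_two (h : Cfg K n v c) {Z : Finset (Fin n)} (hZ : IsFl K v Z) (h2 : rk K v Z = 2)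
    (h3 : 3 ≤ Z.card) : ∃ l ∈ c.2.1, bset n l = Z := by
  obtain ⟨T, hTZ, hT⟩ := Finset.exists_subset_card_eq h3
  obtain ⟨i, j, k, hij, hik, hjk, rfl⟩ := Finset.card_eq_three.1 hT
  have hd : ∀ S : Finset (Fin n), S ⊆ Z → S.card = 3 → ¬ Ind K v S := by
    intro S hS hS3 hi
    have := rk_mono (K := K) (v := v) hS
    rw [hi.rk_eq_card] at this
    omega
  obtain ⟨l, hl, hi, hj, hk⟩ := h.exists_line hij hik hjk (hd _ hTZ hT)
  have hijZ : ({i, j} : Finset (Fin n)) ⊆ Z := by
    intro x hx
    apply hTZ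
    simp only [Finset.mem_insert, Finset.mem_singleton] at hx ⊢
    tauto
  have hijl : ({i, j} : Finset (Fin n)) ⊆ bset n l := by
    intro x hx
    simp only [Finset.mem_insert, Finset.mem_singleton] at hx
    rcases hx with rfl | rfl
    · exact hi
    · exact hj
  have hr : rk K v {i, j} = 2 := h.simple.rk_pair hij
  refine ⟨l, hl, Finset.Subset.antisymm ?_ ?_⟩
  · intro m hm
    apply hZ.mem
    have e1 : sp K v {i, j} = sp K v (bset n l) :=
      sp_eq_of_subset_of_rk_le hijl (by rw [hr]; exact h.three_of_line hl)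
    have e2 := mem_sp (K := K) (v := v) hm
    rw [← e1] at e2
    exact sp_mono hijZ e2
  · intro m hm
    by_cases hmi : m = i
    · rw [hmi]; exact hi
    by_cases hmj : m = j
    · rw [hmj]; exact hj
    have hS : ({i, j, m} : Finset (Fin n)) ⊆ Z := by
      intro x hx
      simp only [Finset.mem_insert, Finset.mem_singleton] at hx
      rcases hx with rfl | rfl | rfl
      · exact hTZ (by simp)
      · exact hTZ (by simp)
      · exact hm
    have hS3 : ({i, j, m} : Finset (Fin n)).card = 3 :=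
      Finset.card_eq_three.2 ⟨i, j, m, hij, Ne.symm hmi, Ne.symm hmj, rfl⟩
    obtain ⟨l', hl', hi', hj', hm'⟩ := h.exists_line hij (Ne.symm hmi) (Ne.symm hmj) (hd _ hS hS3)
    rw [h.line_unique hl hl' hij hi hj hi' hj']
    exact hm'

/-- a flat of rank three with at least four points is a listed plane -/
theorem flat_three (h : Cfg K n v c) {Z : Finset (Fin n)} (hZ : IsFl K v Z) (h3 : rk K v Z = 3)
    (h4 : 4 ≤ Z.card) : ∃ p ∈ c.2.2, bset n p = Z := by
  obtain ⟨T, _, hTZ, hTi, hT⟩ := exists_ind_card (K := K) (v := v) (I := ∅) (X := Z)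
    (n := 3) ind_empty (Finset.empty_subset _) (by simp) (by omega)
  have hd : ∀ S : Finset (Fin n), S ⊆ Z → S.card = 4 → ¬ Ind K v S := by
    intro S hS hS4 hi
    have := rk_mono (K := K) (v := v) hS
    rw [hi.rk_eq_card] at this
    omega
  have hpl : ∀ m ∈ Z, m ∉ T → ∃ p ∈ c.2.2, T ⊆ bset n p ∧ m ∈ bset n p := by
    intro m hm hmT
    obtain ⟨i, j, k, hij, hik, hjk, rfl⟩ := Finset.card_eq_three.1 hT
    simp only [Finset.mem_insert, Finset.mem_singleton, not_or] at hmT
    have hS : ({i, j, k, m} : Finset (Fin n)) ⊆ Z := by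
      intro x hx
      simp only [Finset.mem_insert, Finset.mem_singleton] at hx
      rcases hx with rfl | rfl | rfl | rfl
      · exact hTZ (by simp)
      · exact hTZ (by simp)
      · exact hTZ (by simp)
      · exact hm
    have hS4 : ({i, j, k, m} : Finset (Fin n)).card = 4 := by
      rw [Finset.card_eq_succ]
      refine ⟨i, {j, k, m}, ?_, rfl, Finset.card_eq_three.2 ⟨j, k, m, hjk, Ne.symm hmT.2.1,
        Ne.symm hmT.2.2, rfl⟩⟩
      simp only [Finset.mem_insert, Finset.mem_singleton, not_or]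
      exact ⟨hij, hik, Ne.symm hmT.1⟩
    obtain ⟨p, hp, q1, q2, q3, q4⟩ := h.exists_plane hij hik (Ne.symm hmT.1) hjk (Ne.symm hmT.2.1)
      (Ne.symm hmT.2.2) (hd _ hS hS4)
    refine ⟨p, hp, ?_, q4⟩
    intro x hx
    simp only [Finset.mem_insert, Finset.mem_singleton] at hx
    rcases hx with rfl | rfl | rfl
    · exact q1
    · exact q2
    · exact q3
  obtain ⟨m, hm⟩ : ∃ m, m ∈ Z \ T := by
    apply Finset.card_pos.1
    rw [Finset.card_sdiff_of_subset hTZ]
    omega
  rw [Finset.mem_sdiff] at hm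
  obtain ⟨p, hp, hTp, _⟩ := hpl m hm.1 hm.2
  refine ⟨p, hp, Finset.Subset.antisymm ?_ ?_⟩
  · intro m hm
    apply hZ.mem
    have e1 : sp K v T = sp K v (bset n p) :=
      sp_eq_of_subset_of_rk_le hTp (by rw [hTi.rk_eq_card, hT]; exact h.rk_plane hp)
    have e2 := mem_sp (K := K) (v := v) hm
    rw [← e1] at e2
    exact sp_mono hTZ e2
  · intro m hm
    by_cases hmT : m ∈ T
    · exact hTp hmT
    obtain ⟨p', hp', hTp', hm'⟩ := hpl m hm hmT
    rw [h.plane_unique hp hp' hTi hT hTp hTp']
    exact hm'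

theorem rk_le_rkC (h : Cfg K n v c) {m : ℕ} (hm : m < 2 ^ n) :
    rk K v (bset n m) ≤ rkC 4 c m := by
  have hcard := card_bset h.n13 hm
  have h0 : rk K v (bset n m) ≤ pop m := by rw [← hcard]; exact rk_le_card
  have h4 : rk K v (bset n m) ≤ 4 :=
    (rk_mono (Finset.subset_univ _)).trans h.rk_univ.le
  unfold rkC
  cases e1 : Nat.ble (pop m) 1 with
  | true => simpa using h0
  | false =>
    simp only [cond_false]
    cases e2 : (Nat.beq (pop m) 2 || c.2.1.any (fun l => sub m l)) with
    | true =>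
      simp only [cond_true]
      rw [Bool.or_eq_true] at e2
      rcases e2 with e2 | e2
      · rw [Nat.beq_eq] at e2
        omega
      · obtain ⟨l, hl, h7⟩ := List.any_eq_true.1 e2
        exact (rk_mono (sub_bset h7)).trans (h.three_of_line hl)
    | false =>
      simp only [cond_false]
      cases e3 : (Nat.beq (pop m) 3 || c.2.2.any (fun p => sub m p)) with
      | true =>
        simp only [cond_true]
        rw [Bool.or_eq_true] at e3
        rcases e3 with e3 | e3
        · rw [Nat.beq_eq] at e3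
          omega
        · obtain ⟨l, hl, h7⟩ := List.any_eq_true.1 e3
          exact (rk_mono (sub_bset h7)).trans (h.rk_plane hl)
      | false => simpa using h4

theorem nullity_le (h : Cfg K n v c) {fam : List ℕ}
    (h1 : allUni (fun Z => Nat.ble (cntL fam Z + rkC 4 c Z) (pop Z)) fam 0 = true) {m : ℕ}
    (hm : m < 2 ^ n) :
    cnt (famA n fam) (bset n m) + rk K v (bset n m) ≤ (bset n m).card := by
  have h2 := allUni_fold (fun a => sub a m) h1
  set U := fam.foldl (fun s a => bif sub a m then s ||| a else s) 0 with hU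
  have hUi : ∀ i, U.testBit i = true ↔ ∃ a ∈ fam, sub a m = true ∧ a.testBit i = true := by
    intro i
    rw [hU, testBit_fold]
    simp
  have hsub : sub U m = true := by
    rw [sub_iff]
    intro i hi
    obtain ⟨a, -, hq, hb⟩ := (hUi i).1 hi
    exact sub_iff.1 hq i hb
  have hUlt : U < 2 ^ n := by
    apply Nat.lt_pow_two_of_testBit
    intro i hi
    by_contra hc
    rw [Bool.not_eq_false] at hc
    have := testBit_lt hm (sub_iff.1 hsub i hc)
    omega
  have hle : cntL fam m ≤ cntL fam U := by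
    rw [cntL_eq, cntL_eq]
    apply List.countP_mono_left
    intro a ha hq
    rw [sub_iff]
    intro i hi
    exact (hUi i).2 ⟨a, ha, hq, hi⟩
  have h3 := Nat.le_of_ble_eq_true h2
  have h4 := h.rk_le_rkC hUlt
  have h5 := card_add_rk_le (K := K) (v := v) (sub_bset (n := n) hsub)
  have h6 := card_bset h.n13 hUlt
  rw [cnt_eq fam hm]
  omega

theorem isMason (h : Cfg K n v c) {fam : List ℕ}
    (h1 : allUni (fun Z => Nat.ble (cntL fam Z + rkC 4 c Z) (pop Z)) fam 0 = true)
    (h2 : ∀ l ∈ c.2.1, cntL fam l + 2 = pop l) (h3 : ∀ p ∈ c.2.2, cntL fam p + 3 = pop p)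
    (h4 : cntL fam (2 ^ n - 1) + 4 = n) : IsMason K v ∅ Finset.univ (famA n fam) := by
  intro Z _ _
  obtain ⟨m, hm, rfl⟩ := exists_mask n Z
  have hin := h.nullity_le h1 hm
  refine ⟨hin, fun hfl => ?_⟩
  by_cases hc2 : (bset n m).card ≤ 2
  · have := (h.simple.ind_of_card_le_two hc2).rk_eq_card
    omega
  have hr2 := h.simple.two_le_rk (X := bset n m) (by omega)
  have hr4 : rk K v (bset n m) ≤ 4 :=
    (rk_mono (Finset.subset_univ _)).trans h.rk_univ.le
  by_cases hc : (bset n m).card ≤ rk K v (bset n m)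
  · omega
  obtain hr | hr | hr : rk K v (bset n m) = 2 ∨ rk K v (bset n m) = 3 ∨ rk K v (bset n m) = 4 := by
    omega
  · obtain ⟨l, hl, hlZ⟩ := h.flat_two hfl hr (by omega)
    rw [hr, ← hlZ, cnt_eq fam (h.line_lt l hl), card_bset h.n13 (h.line_lt l hl)]
    exact h2 l hl
  · obtain ⟨p, hp, hpZ⟩ := h.flat_three hfl hr (by omega)
    rw [hr, ← hpZ, cnt_eq fam (h.plane_lt p hp), card_bset h.n13 (h.plane_lt p hp)]
    exact h3 p hp
  · have hu : bset n m = Finset.univ :=
      hfl.eq_of_subset_of_rk_le (Finset.subset_univ _) (by rw [h.rk_univ, hr])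
    have hf : bset n (2 ^ n - 1) = Finset.univ := by
      ext i
      simp only [Finset.mem_univ, iff_true]
      exact mem_bset.2 (full_testBit.2 i.2)
    have hlt : 2 ^ n - 1 < 2 ^ n := by
      have : 0 < 2 ^ n := by positivity
      omega
    rw [hr, hu, ← hf, cnt_eq fam hlt, hf, Finset.card_univ, Fintype.card_fin]
    exact h4

end Cfg

theorem indOn4 {v : ℕ → (Fin 4 → K)} {i j k m : ℕ} (h1 : i < j) (h2 : j < k) (h3 : k < m) :
    LinearIndepOn K v {i, j, k, m} ↔ LinearIndependent K ![v i, v j, v k, v m] := by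
  have hinj : Function.Injective ![i, j, k, m] := by
    intro a b hab
    fin_cases a <;> fin_cases b <;> simp at hab ⊢ <;> omega
  have h4 : Set.range ![i, j, k, m] = {i, j, k, m} := by
    ext x
    simp only [Matrix.range_cons, Matrix.range_empty, Set.union_empty, Set.mem_union,
      Set.mem_singleton_iff, Set.mem_insert_iff]
  rw [← h4, linearIndepOn_range_iff hinj]
  have h5 : v ∘ ![i, j, k, m] = ![v i, v j, v k, v m] := by
    funext a
    fin_cases a <;> rfl
  rw [h5]

end SgS

open SgS CIff in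
theorem classQ_of_sgOk {M : Matroid α} [M.Finite] {g : ℕ → α} {c : Code} {vec fam : List ℕ}
    (h : GCode M✶ g c) (hc : codeOk c = true) (hcl : cleanOk c = true)
    (hs : sgOk2 c vec fam = true) : ClassQ M := by
  classical
  let K := GaloisField 2 2
  let _ : Fintype K := Fintype.ofFinite K
  have hK : Fintype.card K = 4 := by
    rw [← Nat.card_eq_fintype_card, GaloisField.card 2 2 (by norm_num)]
    norm_num
  obtain ⟨φ, p0, p1, pm, pa, pi⟩ := exists_phi (K := K) hK
  simp only [sgOk2, Bool.and_eq_true] at hs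
  obtain ⟨⟨⟨⟨⟨s1, s2⟩, s3⟩, s4⟩, s5⟩, s6⟩ := hs
  have hc' := hc
  simp only [codeOk, Bool.and_eq_true] at hc'
  obtain ⟨⟨⟨⟨⟨k1, k2⟩, k3⟩, k4⟩, _⟩, _⟩ := hc'
  set n := c.1 with hn
  set v' : ℕ → (Fin 4 → K) := fun i => vecK φ 4 (vec.getD i 0) with hv'
  have four' : ∀ i j k m, i ≠ j → i ≠ k → i ≠ m → j ≠ k → j ≠ m → k ≠ m → i < n → j < n → k < n →
      m < n → (LinearIndepOn K v' {i, j, k, m} ↔ copC c i j k m = false) := by
    refine sort4 ?_ ?_ ?_ ?_
    · intro i j k m h hj hi hk hm
      rw [Set.insert_comm, ← copC_swap12]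
      exact h hi hj hk hm
    · intro i j k m h hi hk hj hm
      rw [Set.insert_comm k j, ← copC_swap23]
      exact h hi hj hk hm
    · intro i j k m h hi hj hm hk
      rw [Set.pair_comm m k, ← copC_swap34]
      exact h hi hj hk hm
    · intro i j k m h1 h2 h3 _ _ _ h4
      rw [indOn4 h1 h2 h3]
      have e1 := (List.all_eq_true.1 s2) (j, k, m) (mem_triples.2 ⟨h2, h3, h4⟩)
      have e2 := (List.all_eq_true.1 e1) i (List.mem_range.2 h1)
      rw [beq_iff_eq] at e2
      simp only [hv']
      rw [det4_iff p0 pm pa pi, ← e2, ← Bool.not_eq_true, Nat.beq_eq]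
  set v : Fin n → (Fin 4 → K) := fun i => v' i with hv
  have four : ∀ i j k m : Fin n, i ≠ j → i ≠ k → i ≠ m → j ≠ k → j ≠ m → k ≠ m →
      (Ind K v {i, j, k, m} ↔ copC c i j k m = false) := by
    intro i j k m h1 h2 h3 h4 h5 h6
    rw [← four' i j k m (fun hh => h1 (Fin.ext hh)) (fun hh => h2 (Fin.ext hh))
      (fun hh => h3 (Fin.ext hh)) (fun hh => h4 (Fin.ext hh)) (fun hh => h5 (Fin.ext hh))
      (fun hh => h6 (Fin.ext hh)) i.2 j.2 k.2 m.2, ind_iff_linearIndepOn]
    have e1 : ({(i : ℕ), (j : ℕ), (k : ℕ), (m : ℕ)} : Set ℕ) =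
        Fin.val '' ((({i, j, k, m} : Finset (Fin n)) : Set (Fin n))) := by
      simp only [Finset.coe_insert, Finset.coe_singleton, Set.image_insert_eq, Set.image_singleton]
    rw [e1]
    constructor
    · intro hh
      exact LinearIndepOn.image_of_comp _ _ hh
    · intro hh
      exact hh.comp_of_image Fin.val_injective.injOn
  have hqa := quad_all h
  have hcard4 : ∀ B : Finset (Fin n), B.card = 4 →
      (M✶.Indep ((fun i : Fin n => g i) '' (B : Set (Fin n))) ↔ Ind K v B) := by
    intro B hB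
    obtain ⟨i, s, h1, rfl, h3⟩ := Finset.card_eq_succ.1 hB
    obtain ⟨j, k, m, hjk, hjm, hkm, rfl⟩ := Finset.card_eq_three.1 h3
    simp only [Finset.mem_insert, Finset.mem_singleton, not_or] at h1
    rw [four i j k m h1.1 h1.2.1 h1.2.2 hjk hjm hkm, ← hqa i j k m (fun hh => h1.1 (Fin.ext hh))
      (fun hh => h1.2.1 (Fin.ext hh)) (fun hh => h1.2.2 (Fin.ext hh)) (fun hh => hjk (Fin.ext hh))
      (fun hh => hjm (Fin.ext hh)) (fun hh => hkm (Fin.ext hh)) i.2 j.2 k.2 m.2]
    simp only [Finset.coe_insert, Finset.coe_singleton, Set.image_insert_eq, Set.image_singleton]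
  have hginj : Function.Injective (fun i : Fin n => g i) := by
    intro i j hij
    exact Fin.ext (h.inj i.2 j.2 hij)
  have hex : ∀ I, I ⊆ M✶.E → ∃ B : Finset (Fin n), (fun i : Fin n => g i) '' (B : Set (Fin n)) = I := by
    intro I hI
    refine ⟨Finset.univ.filter fun i : Fin n => g i ∈ I, ?_⟩
    ext x
    simp only [Finset.coe_filter, Finset.mem_univ, true_and, Set.mem_image, Set.mem_ofPred_eq]
    constructor
    · rintro ⟨i, hi, rfl⟩
      exact hi
    · intro hx
      have := hI hx
      rw [h.ground] at this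
      obtain ⟨i, hi, rfl⟩ := this
      exact ⟨⟨i, hi⟩, hx, rfl⟩
  have hbase : ∀ I, M✶.Indep I → ∃ B : Finset (Fin n), B.card = 4 ∧
      I ⊆ (fun i : Fin n => g i) '' (B : Set (Fin n)) ∧ Ind K v B := by
    intro I hI
    obtain ⟨J, hJ, hIJ⟩ := hI.exists_isBase_superset
    obtain ⟨B, rfl⟩ := hex J hJ.subset_ground
    have hB4 : B.card = 4 := by
      have e1 := hJ.encard_eq_eRank
      rw [h.rank, hginj.encard_image, Set.encard_coe_eq_coe_finsetCard] at e1
      exact_mod_cast e1
    exact ⟨B, hB4, hIJ, (hcard4 B hB4).1 hJ.indep⟩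
  have hru : (4 : ℕ) ≤ rk K v Finset.univ := by
    obtain ⟨B, hB4, _, hB⟩ := hbase ∅ (M✶.empty_indep)
    have e1 := hB.rk_eq_card
    have e2 := rk_mono (K := K) (v := v) (Finset.subset_univ B)
    omega
  have hru' : rk K v Finset.univ ≤ 4 := by
    unfold rk
    have := Submodule.finrank_le (sp K v Finset.univ)
    simpa using this
  have hR : ∀ Z : Finset (Fin n),
      (M✶.Indep ((fun i : Fin n => g i) '' (Z : Set (Fin n))) ↔ Ind K v Z) := by
    intro Z
    constructor
    · intro hZ
      obtain ⟨B, _, hZB, hB⟩ := hbase _ hZ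
      refine hB.subset ?_
      have := (Set.image_subset_image_iff hginj).1 hZB
      exact_mod_cast this
    · intro hZ
      have e1 := hZ.rk_eq_card
      have e2 := rk_mono (K := K) (v := v) (Finset.subset_univ Z)
      obtain ⟨B, hZB, _, hB, hB4⟩ := exists_ind_card (K := K) (v := v) (X := Finset.univ)
        (n := 4) hZ (Finset.subset_univ _) (by omega) hru
      exact ((hcard4 B hB4).2 hB).subset (Set.image_mono (by exact_mod_cast hZB))
  have hgE : ∀ i : Fin n, g i ∈ M.E := by
    intro i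
    have : g i ∈ M✶.E := by
      rw [h.ground]
      exact ⟨i, i.2, rfl⟩
    exact this
  have hsimple : Simple K v := by
    have e0 : ∀ i j : Fin n, Ind K v {i, j} := by
      intro i j
      rw [← hR]
      simp only [Finset.coe_insert, Finset.coe_singleton, Set.image_insert_eq, Set.image_singleton]
      exact h.simp _ (hgE i) _ (hgE j)
    have e1 : ∀ i, v i ≠ 0 := by
      intro i
      have := e0 i i
      rw [Finset.pair_eq_singleton] at this
      exact ind_singleton_iff.1 this
    refine ⟨e1, fun e f hef => ?_⟩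
    by_contra hne
    have e2 := (e0 e f).not_mem_sp_erase (e := e) (by simp)
    have e3 : ({e, f} : Finset (Fin n)).erase e = {f} := by
      rw [Finset.erase_insert (by simpa using hne)]
    rw [e3, sp_singleton] at e2
    exact e2 hef
  have h1n : (1 <<< n : ℕ) = 2 ^ n := by rw [Nat.one_shiftLeft]
  have hcfg : Cfg K n v c :=
    { hn := rfl
      n13 := by
        have := Nat.blt_eq.mp k2
        omega
      simple := hsimple
      four := four
      line_lt := fun l hl => by
        have := (List.all_eq_true.1 k3) l hl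
        rw [h1n] at this
        exact Nat.blt_eq.mp this
      plane_lt := fun p hp => by
        have := (List.all_eq_true.1 k4) p hp
        rw [h1n] at this
        exact Nat.blt_eq.mp this
      ok := hc
      clean := hcl }
  have hmason : IsMason K v ∅ Finset.univ (famA n fam) := by
    apply hcfg.isMason
    · exact s3
    · intro l hl
      exact Nat.beq_eq.mp ((List.all_eq_true.1 s4) l hl)
    · intro p hp
      exact Nat.beq_eq.mp ((List.all_eq_true.1 s5) p hp)
    · have := Nat.beq_eq.mp s6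
      rw [h1n] at this
      exact this
  have hht : HasTrans K v ∅ := hasTrans_of_SG hsimple.isFl_empty ind_empty hmason.sg
  have : Fintype M.E := (M.ground_finite).fintype
  obtain ⟨f, hf, hf1, hf2⟩ := exists_inv h.inj h.ground
  let σ : M.E ≃ Fin n :=
    { toFun := fun e => ⟨f e, (hf2 e e.2).1⟩
      invFun := fun i => ⟨g i, hgE i⟩
      left_inv := fun e => Subtype.ext (hf2 e e.2).2
      right_inv := fun i => Fin.ext (hf1 i i.2) }
  have hrep : RepDual K M (fun x => v (σ x)) := by
    intro I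
    have e1 : Subtype.val '' (I : Set M.E) =
        (fun i : Fin n => g i) '' ((I.map σ.toEmbedding : Finset (Fin n)) : Set (Fin n)) := by
      rw [Finset.coe_map, Set.image_image]
      apply Set.image_congr
      intro x _
      exact ((hf2 x x.2).2).symm
    rw [e1, hR]
    exact (ind_comp_emb v σ.toEmbedding I).symm
  exact ⟨hrep.isRepr, hrep.transversal_iff.2 (hasTrans_comp_equiv σ hht)⟩

end Ca3.C4
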