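import Pool.Agent.Lib.MP_ca3eb1_co.C4.Corank3
import Pool.Agent.Lib.MP_ca3eb1_co.C4.Class4
import Pool.Agent.Lib.MP_ca3eb1_co.C4.SgSound
import Pool.Agent.Lib.MP_ca3eb1_co.C4.RingSound
import Pool.Agent.Lib.MP_ca3eb1_co.C4.BadSound
import Pool.Agent.Lib.MP_ca3eb1_co.C4.QuotSound

/-! # Excluded series minors of corank four -/

namespace Ca3.C4

open Matroid

variable {α : Type*}

theorem exists_getC {c : Code} (hc : c ∈ codes) : ∃ i < 236, c = getC i := by
  obtain ⟨j, hj, rfl⟩ := List.getElem_of_mem hc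
  refine ⟨j, by rw [← codes_length]; exact hj, ?_⟩
  rw [getC, List.getD_eq_getElem?_getD, List.getElem?_eq_getElem hj]
  rfl

theorem codeOk_of_mem {c : Code} (hc : c ∈ codes) : codeOk c = true := by
  have h := codes_ok
  rw [List.all_eq_true] at h
  exact h c hc

theorem cleanOk_of_mem {c : Code} (hc : c ∈ codes) : cleanOk c = true := by
  have h := codes_clean
  rw [List.all_eq_true] at h
  exact h c hc

/-- all sporadic codes are in the list of codes -/
theorem spor_mem : sporData.all (fun d => Nat.blt d.1 236) = true := by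
  decide +kernel

theorem getC_mem {i : ℕ} (hi : i < 236) : getC i ∈ codes := by
  have h : i < codes.length := by rw [codes_length]; exact hi
  rw [getC, List.getD_eq_getElem?_getD, List.getElem?_eq_getElem h]
  exact List.getElem_mem h

theorem excluded_of_spor {M : Matroid α} [M.Finite] {d : ℕ × ℕ × List (ℕ × ℕ)}
    (hd : d ∈ sporData) {g : ℕ → α} (hg : GCode M✶ g (getC d.1)) : IsExcluded M := by
  have hlt : d.1 < 236 := by
    have h := spor_mem
    rw [List.all_eq_true] at h
    exact Nat.le_of_ble_eq_true (h d hd)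
  have hmem := getC_mem hlt
  have hok := codeOk_of_mem hmem
  have hcl := cleanOk_of_mem hmem
  rw [isExcluded_iff]
  refine ⟨hg.simp, ?_, fun e he => ?_⟩
  · have h1 := spor_bad
    rw [List.all_eq_true] at h1
    have h2 := h1 d hd
    rw [Bool.or_eq_true] at h2
    rcases h2 with h2 | h2
    · have h3 := spor_zero
      rw [List.all_eq_true] at h3
      have h4 := h3 d hd
      rw [h2, Bool.not_true, Bool.false_or, Bool.and_eq_true] at h4
      exact CF.not_classQ_of_uniform hg (Nat.le_of_ble_eq_true h4.1) (List.isEmpty_iff.1 h4.2)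
    · exact CF.not_classQ_of_badOk hg hok hcl h2
  · have he' : e ∈ M✶.E := he
    rw [hg.ground] at he'
    obtain ⟨x, hx, rfl⟩ := he'
    have hx' : x < (getC d.1).1 := hx
    have h1 := spor_quot
    rw [List.all_eq_true] at h1
    have h2 := h1 d hd
    rw [Bool.and_eq_true, List.all_eq_true] at h2
    have h3 := h2.2 x (List.mem_range.2 hx')
    rw [Bool.and_eq_true] at h3
    have hj : (d.2.2.getD x (0, 0)).1 < 23 := Nat.le_of_ble_eq_true h3.1
    obtain ⟨f, hf⟩ := pcode3_of_quotOk hg hok hx' h3.2 (sg3_getC3 hj)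
    exact classQ_of_pcode3_getC3 hj hf

theorem corank4_iff {M : Matroid α} :
    Corank4 M ↔ ∃ d ∈ sporData, HasCode M✶ 4 (getC d.1) := by
  unfold Corank4
  rw [spor_codes]
  constructor
  · rintro ⟨c, hc, h⟩
    obtain ⟨d, hd, rfl⟩ := List.mem_map.1 hc
    exact ⟨d, hd, h⟩
  · rintro ⟨d, hd, h⟩
    exact ⟨_, List.mem_map.2 ⟨d, hd, rfl⟩, h⟩

theorem spor_codeOk {d : ℕ × ℕ × List (ℕ × ℕ)} (hd : d ∈ sporData) :
    codeOk (getC d.1) = true := by
  have hlt : d.1 < 236 := by
    have h := spor_mem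
    rw [List.all_eq_true] at h
    exact Nat.le_of_ble_eq_true (h d hd)
  exact codeOk_of_mem (getC_mem hlt)

theorem excluded_of_corank4 {M : Matroid α} [M.Finite] (h : Corank4 M) :
    M✶.eRank = 4 ∧ IsExcluded M := by
  obtain ⟨d, hd, h⟩ := corank4_iff.1 h
  obtain ⟨g, hg⟩ := gcode_of_hasCode h (spor_codeOk hd)
  exact ⟨hg.rank, excluded_of_spor hd hg⟩

theorem corank_four_iff {M : Matroid α} [M.Finite] (h4 : M✶.eRank = 4) :
    IsExcluded M ↔ IsRing M ∨ Corank4 M := by
  constructor
  · intro hM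
    obtain ⟨hs, hn, hd⟩ := isExcluded_iff.1 hM
    have hP := P4_of_delete hs h4 hd
    obtain ⟨c, hc, g, hg⟩ := class4 hs h4 hP
    obtain ⟨i, hi, rfl⟩ := exists_getC hc
    have hok := codeOk_of_mem hc
    have hcl := cleanOk_of_mem hc
    have h1 := trichotomy
    rw [List.all_eq_true] at h1
    have h2 := h1 i (List.mem_range.2 hi)
    rw [Bool.or_eq_true, Bool.or_eq_true, List.any_eq_true, List.any_eq_true,
      List.any_eq_true] at h2
    rcases h2 with (⟨d, hd1, hd2⟩ | ⟨d, hd1, hd2⟩) | ⟨d, hd1, hd2⟩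
    · exfalso
      have hdi := Nat.eq_of_beq_eq_true hd2
      have h3 := sg_ok
      rw [List.all_eq_true] at h3
      have h4 := h3 d hd1
      rw [hdi] at h4
      exact hn (classQ_of_sgOk hg hok hcl h4)
    · left
      have hdi := Nat.eq_of_beq_eq_true hd2
      have h3 := ring_ok
      rw [List.all_eq_true] at h3
      have h4 := h3 d hd1
      rw [hdi] at h4
      exact isRing_of_ringOk hg hok h4
    · right
      have hdi := Nat.eq_of_beq_eq_true hd2
      rw [corank4_iff]
      refine ⟨d, hd1, ?_⟩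
      rw [hdi]
      exact hasCode_of_gcode hg hok
  · rintro (h | h)
    · exact (backward_main h4.ge h).2
    · exact (excluded_of_corank4 h).2

end Ca3.C4
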