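import Pool.Agent.Lib.MP_ca3eb1_co.MDefs

/-! # Excluded series minors of corank two, three and four: definitions

A simple matroid of rank three or four on the points `0, 1, …, n - 1` is given by a code: `n`, the
list of its lines with at least three points and the list of its planes with at least four points
(empty in rank three); a set of points is written as the number `∑ 2 ^ i`. -/

namespace Ca3

open Matroid

variable {α : Type*}

/-- Number of points, long lines, long planes. -/
abbrev Code := ℕ × List ℕ × List ℕ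

/-- `N` is isomorphic to the matroid of rank `r` with code `c`: a set of points is independent iff
it has at most `r` elements, at most two on every listed line and at most three in every listed
plane. -/
def HasCode (N : Matroid α) (r : ℕ) (c : Code) : Prop :=
  ∃ f : α → ℕ, Set.BijOn f N.E {i | i < c.1} ∧ ∀ I, I ⊆ N.E → (N.Indep I ↔
    I.encard ≤ r ∧ (∀ l ∈ c.2.1, {e ∈ I | l.testBit (f e)}.encard ≤ 2) ∧
      ∀ p ∈ c.2.2, {e ∈ I | p.testBit (f e)}.encard ≤ 3)

/-- The 23 simple matroids of rank three which are quaternary with a transversal dual. -/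
def codes3 : List Code := [
  (3, [], []),
  (4, [], []),
  (4, [11], []),
  (5, [], []),
  (5, [7], []),
  (5, [7, 28], []),
  (5, [29], []),
  (6, [], []),
  (6, [13, 56], []),
  (6, [14, 49], []),
  (6, [15, 56], []),
  (6, [28, 42, 49], []),
  (6, [60], []),
  (6, [61], []),
  (7, [21, 42, 67, 100], []),
  (7, [25, 102], []),
  (7, [42, 52, 97], []),
  (7, [46, 89], []),
  (7, [50, 75, 100], []),
  (7, [79, 112], []),
  (8, [113, 158], []),
  (8, [116, 139], []),
  (9, [206, 307], [])]

/-- Sporadic excluded series minors of corank four (codes of the duals), first half. -/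
def codesS1 : List Code := [
  (6, [], []),
  (7, [], [15, 51, 85, 108]),
  (7, [], [47, 90, 116]),
  (7, [], [30, 45, 83, 102, 120]),
  (7, [97], [23, 92, 101, 107, 113]),
  (7, [], [39, 78, 105]),
  (7, [], []),
  (8, [99], [92, 103, 107, 141, 243]),
  (8, [50, 161], [62, 165, 169, 204, 243]),
  (8, [35, 84], [43, 92, 119, 153, 163, 172, 212]),
  (8, [50, 208], [54, 59, 71, 209, 220, 242]),
  (8, [11, 194], [27, 43, 116, 177, 207, 210, 226]),
  (8, [200], [55, 206, 216, 233]),
  (8, [164], [90, 99, 139, 166, 181, 236]),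
  (8, [], [45, 118, 155, 204, 225]),
  (8, [76, 112], [39, 77, 78, 114, 124, 154, 204, 241]),
  (8, [161], [30, 83, 116, 165, 171, 177, 204, 225])]

/-- Sporadic excluded series minors of corank four (codes of the duals), second half. -/
def codesS2 : List Code := [
  (8, [74, 148], [78, 90, 107, 156, 182, 202, 213]),
  (8, [], [23, 60, 78, 99, 153, 170, 197, 240]),
  (8, [], [29, 46, 86, 113, 154, 163, 197, 232]),
  (8, [140], [23, 90, 105, 141, 156, 174, 177, 204]),
  (8, [76], [58, 77, 78, 92, 108, 153, 167, 204]),
  (8, [97, 138], [23, 99, 105, 113, 139, 142, 186, 202, 229]),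
  (9, [102, 400], [111, 118, 230, 358, 403, 404, 432, 472]),
  (9, [104, 131, 276], [105, 106, 135, 179, 195, 232, 277, 278, 380, 395, 404]),
  (9, [41, 208, 292], [57, 105, 169, 213, 216, 240, 303, 308, 356, 420, 466]),
  (9, [37, 145, 322], [147, 189, 209, 346, 359, 401, 450]),
  (9, [228], [229, 238, 283, 500]),
  (9, [15, 304], [31, 111, 305, 306, 308, 312, 399, 496]),
  (10, [146, 328, 549], [147, 150, 178, 329, 332, 360, 474, 573, 613, 658, 677, 807, 840]),
  (10, [140, 193, 786], [195, 209, 237, 449, 705, 819, 850, 926]),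
  (10, [197, 792], [205, 213, 231, 453, 709, 796, 825, 856, 922]),
  (10, [56, 325, 522], [57, 60, 120, 312, 333, 343, 485, 523, 526, 586, 698, 778, 837])]

/-- `M` is the uniform matroid of corank two with at least six elements. -/
def Corank2 (M : Matroid α) : Prop :=
  6 ≤ M.E.encard ∧ ∀ I, I ⊆ M.E → (M.Indep I ↔ I.encard + 2 ≤ M.E.encard)

/-- The dual of `M` is a simple matroid of rank three, every point of it is on at most five lines,
and it is not one of the 23 matroids `codes3`. -/
def Corank3 (M : Matroid α) : Prop :=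
  M✶.eRank = 3 ∧ (∀ e ∈ M.E, ∀ f ∈ M.E, M✶.Indep {e, f}) ∧
    (∀ e ∈ M.E, ∀ S, S ⊆ M.E \ {e} → (∀ x ∈ S, ∀ y ∈ S, x ≠ y → M✶.Indep {e, x, y}) →
      S.encard ≤ 5) ∧
    ∀ c ∈ codes3, ¬ HasCode M✶ 3 c

/-- The dual of `M` is one of the 33 sporadic matroids of rank four. -/
def Corank4 (M : Matroid α) : Prop := ∃ c ∈ codesS1 ++ codesS2, HasCode M✶ 4 c

end Ca3
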