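import Pool.Agent.Lib.MP_ca3eb1_co.C4.Geo

/-! # Row 56: soundness of the leaf checks 1, 2, 3 -/

namespace Ca3.C4

open Matroid

variable {α : Type*}

/-- The situation of an extension: `N` has the points `g 0, …, g n`; deleting `g n` gives a matroid
of rank four with code `c`, and the packed data are valid. -/
structure Ctx (N : Matroid α) (g : ℕ → α) (n : ℕ) (c : Code) (nl nP T PM : ℕ) : Prop where
  fin : N.Finite
  inj : Set.InjOn g {i | i < n + 1}
  ground : N.E = g '' {i | i < n + 1}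
  simp : Simp N
  rank : N.eRank = 4
  p4 : P4 N
  code : GCode (N ＼ {g n}) g c
  card : c.1 = n
  ok : codeOk c = true
  val : valid c nl nP T PM = true

/-- The plane with number `i`, as a flat of `N`. -/
def plane (N : Matroid α) (g : ℕ → α) (PM i : ℕ) : Set α :=
  N.closure (g '' {j | tb (pm PM i) j = true})

/-- The state `(I, O)` is correct. -/
def St (N : Matroid α) (g : ℕ → α) (n nP PM I O : ℕ) : Prop :=
  (∀ i, tb I i = true → i < nP ∧ g n ∈ plane N g PM i) ∧
    ∀ i, tb O i = true → i < nP ∧ g n ∉ plane N g PM i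

variable {N : Matroid α} {g : ℕ → α} {n : ℕ} {c : Code} {nl nP T PM I O : ℕ}

/-! ### Independent quadruples and closures -/

theorem is4_rot {a b c d : α} : Is4 N a b c d ↔ Is4 N b c d a := by
  unfold Is4
  have h : ({a, b, c, d} : Set α) = {b, c, d, a} := by
    ext x; simp only [Set.mem_insert_iff, Set.mem_singleton_iff]; tauto
  rw [h]
  constructor <;> rintro ⟨h1, h2, h3, h4, h5, h6, h7⟩ <;> refine ⟨h1, ?_, ?_, ?_, ?_, ?_, ?_⟩ <;>
    first | assumption | (apply Ne.symm; assumption)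

theorem is4_swap34 {a b c d : α} : Is4 N a b c d ↔ Is4 N a b d c := by
  unfold Is4
  have h : ({a, b, c, d} : Set α) = {a, b, d, c} := by
    ext x; simp only [Set.mem_insert_iff, Set.mem_singleton_iff]; tauto
  rw [h]
  constructor <;> rintro ⟨h1, h2, h3, h4, h5, h6, h7⟩ <;> refine ⟨h1, ?_, ?_, ?_, ?_, ?_, ?_⟩ <;>
    first | assumption | (apply Ne.symm; assumption)

theorem is4_cyc234 {a b c d : α} : Is4 N a b c d ↔ Is4 N a c d b := by
  unfold Is4
  have h : ({a, b, c, d} : Set α) = {a, c, d, b} := by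
    ext x; simp only [Set.mem_insert_iff, Set.mem_singleton_iff]; tauto
  rw [h]
  constructor <;> rintro ⟨h1, h2, h3, h4, h5, h6, h7⟩ <;> refine ⟨h1, ?_, ?_, ?_, ?_, ?_, ?_⟩ <;>
    first | assumption | (apply Ne.symm; assumption)

theorem is4_of {x y z w : α} (h : Is3 N x y z) (hw : w ∈ N.E) (hn : w ∉ N.closure {x, y, z}) :
    Is4 N x y z w := by
  obtain ⟨h1, h2, h3, h4⟩ := h
  rw [h1.notMem_closure_iff hw] at hn
  obtain ⟨h5, h6⟩ := hn
  simp only [Set.mem_insert_iff, Set.mem_singleton_iff, not_or] at h6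
  refine ⟨?_, h2, h3, fun h => h6.1 h.symm, h4, fun h => h6.2.1 h.symm, fun h => h6.2.2 h.symm⟩
  have h7 : ({x, y, z, w} : Set α) = insert w {x, y, z} := by
    ext a; simp only [Set.mem_insert_iff, Set.mem_singleton_iff]; tauto
  rw [h7]
  exact h5

theorem not_is4_of {x y z w : α} (h : Is3 N x y z) (hw : w ∈ N.closure {x, y, z}) :
    ¬ Is4 N x y z w := by
  rintro ⟨h1, h2, h3, h4, h5, h6, h7⟩
  have h8 : w ∉ N.closure {x, y, z} := by
    rw [h.1.notMem_closure_iff (N.mem_ground_of_mem_closure hw)]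
    refine ⟨?_, ?_⟩
    · have h7 : ({x, y, z, w} : Set α) = insert w {x, y, z} := by
        ext a; simp only [Set.mem_insert_iff, Set.mem_singleton_iff]; tauto
      rw [← h7]
      exact h1
    · simp only [Set.mem_insert_iff, Set.mem_singleton_iff, not_or]
      exact ⟨h4.symm, h6.symm, h7.symm⟩
  exact h8 hw

/-- Three independent points in a plane span it. -/
theorem closure_eq3 {x y z u v w : α} (h : Is3 N x y z) (h' : Is3 N u v w)
    (hs : {x, y, z} ⊆ N.closure {u, v, w}) : N.closure {x, y, z} = N.closure {u, v, w} := by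
  have e1 : ({x, y, z} : Set α).encard = 3 := by
    rw [Set.encard_insert_of_notMem (by simp [h.2.1, h.2.2.1]), Set.encard_pair h.2.2.2]
    rfl
  have e2 : ({u, v, w} : Set α).encard = 3 := by
    rw [Set.encard_insert_of_notMem (by simp [h'.2.1, h'.2.2.1]), Set.encard_pair h'.2.2.2]
    rfl
  have h1 := h.1.isBasis_of_eRk_ge (by simp) hs (by
    rw [eRk_closure_eq, h'.1.eRk_eq_encard, h.1.eRk_eq_encard, e1, e2])
  rw [h1.closure_eq_closure, closure_closure]

/-! ### The data -/

theorem mem_triples {m : ℕ} {t : ℕ × ℕ × ℕ} : t ∈ triples m ↔ t.1 < t.2.1 ∧ t.2.1 < t.2.2 ∧ t.2.2 < m := by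
  obtain ⟨i, j, k⟩ := t
  simp only [triples, List.mem_flatMap, List.mem_range, List.mem_map, Prod.mk.injEq]
  constructor
  · rintro ⟨k', hk, j', hj, i', hi, rfl, rfl, rfl⟩
    exact ⟨hi, hj, hk⟩
  · rintro ⟨hi, hj, hk⟩
    exact ⟨k, hk, j, hj, i, hi, rfl, rfl, rfl⟩

theorem copC_iff {i j k m : ℕ} : copC c i j k m = true ↔
    ∃ p ∈ c.2.2, ∀ x ∈ ({i, j, k, m} : Finset ℕ), tb p x = true := by
  simp only [copC, List.any_eq_true, Bool.and_eq_true, Finset.mem_insert, Finset.mem_singleton,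
    forall_eq_or_imp, forall_eq, and_assoc]

theorem colC_iff {i j k : ℕ} : colC c i j k = true ↔
    ∃ p ∈ c.2.1, ∀ x ∈ ({i, j, k} : Finset ℕ), tb p x = true := by
  simp only [colC, List.any_eq_true, Bool.and_eq_true, Finset.mem_insert, Finset.mem_singleton,
    forall_eq_or_imp, forall_eq, and_assoc]

theorem copC_congr {i j k m i' j' k' m' : ℕ} (h : ({i, j, k, m} : Finset ℕ) = {i', j', k', m'}) :
    copC c i j k m = copC c i' j' k' m' := by
  rw [Bool.eq_iff_iff, copC_iff, copC_iff, h]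

theorem colC_congr {i j k i' j' k' : ℕ} (h : ({i, j, k} : Finset ℕ) = {i', j', k'}) :
    colC c i j k = colC c i' j' k' := by
  rw [Bool.eq_iff_iff, colC_iff, colC_iff, h]

theorem sort4 {a b d e : ℕ} (h1 : a ≠ b) (h2 : a ≠ d) (h3 : a ≠ e) (h4 : b ≠ d) (h5 : b ≠ e)
    (h6 : d ≠ e) : ∃ i j k m, i < j ∧ j < k ∧ k < m ∧ ({a, b, d, e} : Finset ℕ) = {i, j, k, m} := by
  have hc : ({a, b, d, e} : Finset ℕ).card = 4 := by
    rw [Finset.card_insert_of_notMem (by simp [h1, h2, h3]),
      Finset.card_insert_of_notMem (by simp [h4, h5]), Finset.card_pair h6]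
  obtain ⟨S, hS⟩ : ∃ S : Finset ℕ, S = {a, b, d, e} := ⟨_, rfl⟩
  rw [← hS] at hc ⊢
  obtain ⟨f, hf⟩ : ∃ f : Fin 4 ↪o ℕ, f = S.orderEmbOfFin hc := ⟨_, rfl⟩
  refine ⟨f 0, f 1, f 2, f 3, f.strictMono (by decide), f.strictMono (by decide),
    f.strictMono (by decide), ?_⟩
  ext x
  rw [← Finset.mem_coe, ← Finset.range_orderEmbOfFin S hc, ← hf, Set.mem_range]
  simp only [Finset.mem_insert, Finset.mem_singleton]
  constructor
  · rintro ⟨t, rfl⟩
    fin_cases t <;> simp
  · rintro (rfl | rfl | rfl | rfl)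
    · exact ⟨0, rfl⟩
    · exact ⟨1, rfl⟩
    · exact ⟨2, rfl⟩
    · exact ⟨3, rfl⟩

theorem sort3 {a b d : ℕ} (h1 : a ≠ b) (h2 : a ≠ d) (h3 : b ≠ d) :
    ∃ i j k, i < j ∧ j < k ∧ ({a, b, d} : Finset ℕ) = {i, j, k} := by
  have hc : ({a, b, d} : Finset ℕ).card = 3 := by
    rw [Finset.card_insert_of_notMem (by simp [h1, h2]), Finset.card_pair h3]
  obtain ⟨S, hS⟩ : ∃ S : Finset ℕ, S = {a, b, d} := ⟨_, rfl⟩
  rw [← hS] at hc ⊢
  obtain ⟨f, hf⟩ : ∃ f : Fin 3 ↪o ℕ, f = S.orderEmbOfFin hc := ⟨_, rfl⟩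
  refine ⟨f 0, f 1, f 2, f.strictMono (by decide), f.strictMono (by decide), ?_⟩
  ext x
  rw [← Finset.mem_coe, ← Finset.range_orderEmbOfFin S hc, ← hf, Set.mem_range]
  simp only [Finset.mem_insert, Finset.mem_singleton]
  constructor
  · rintro ⟨t, rfl⟩
    fin_cases t <;> simp
  · rintro (rfl | rfl | rfl)
    · exact ⟨0, rfl⟩
    · exact ⟨1, rfl⟩
    · exact ⟨2, rfl⟩

theorem img3 (g : ℕ → α) (a b d : ℕ) : ({g a, g b, g d} : Set α) = g '' ({a, b, d} : Finset ℕ) := by
  simp [Set.image_insert_eq]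

theorem img4 (g : ℕ → α) (a b d e : ℕ) : ({g a, g b, g d, g e} : Set α) = g '' ({a, b, d, e} : Finset ℕ) := by
  simp [Set.image_insert_eq]

theorem tb_lt {m j n : ℕ} (hm : m < 1 <<< n) (h : tb m j = true) : j < n := by
  by_contra hc
  push Not at hc
  have h1 : m >>> j = 0 := by
    rw [Nat.shiftRight_eq_div_pow]
    apply Nat.div_eq_of_lt
    rw [Nat.one_shiftLeft] at hm
    exact lt_of_lt_of_le hm (Nat.pow_le_pow_right (by norm_num) hc)
  unfold tb at h
  rw [h1] at h
  simp at h

theorem tb_eq_testBit (m i : ℕ) : tb m i = m.testBit i := by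
  unfold tb
  rw [Nat.testBit, Bool.eq_iff_iff]
  simp only [Nat.beq_eq, bne_iff_ne, ne_eq]
  have h : (1 &&& (m >>> i)) = (m >>> i) &&& 1 := Nat.land_comm _ _
  rw [h, Nat.and_one_is_mod]
  omega

/-! ### Reading `valid` and `codeOk` -/

structure VData (c : Code) (nl nP T PM : ℕ) : Prop where
  v1 : ∀ i < nl, pm PM i ∈ c.2.2
  v2 : nP < 127
  rep : ∀ a < c.1, ∀ b < c.1, ∀ d < c.1, (a = b ∨ a = d ∨ b = d) → pl T a b d = 127
  sym1 : ∀ a < c.1, ∀ b < c.1, ∀ d < c.1, a ≠ b → a ≠ d → b ≠ d → pl T a b d = pl T b a d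
  sym2 : ∀ a < c.1, ∀ b < c.1, ∀ d < c.1, a ≠ b → a ≠ d → b ≠ d → pl T a b d = pl T a d b
  col : ∀ i j k, i < j → j < k → k < c.1 → colC c i j k = true → pl T i j k = 127
  ncol : ∀ i j k, i < j → j < k → k < c.1 → colC c i j k = false → pl T i j k < nP ∧
    tb (pm PM (pl T i j k)) i = true ∧ tb (pm PM (pl T i j k)) j = true ∧ tb (pm PM (pl T i j k)) k = true ∧
    (∀ e < c.1, e ≠ i → e ≠ j → e ≠ k → tb (pm PM (pl T i j k)) e = copC c i j k e) ∧
    (pl T i j k < nl ∨ pm PM (pl T i j k) = 1 <<< i + 1 <<< j + 1 <<< k)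
  occ : ∀ i < nP, ∃ a b d, a < b ∧ b < d ∧ d < c.1 ∧ pl T a b d = i

theorem valid_data (h : valid c nl nP T PM = true) : VData c nl nP T PM := by
  unfold valid at h
  simp only [Bool.and_eq_true, Nat.blt_eq, Nat.ble_eq] at h
  obtain ⟨⟨⟨⟨⟨h1, h2⟩, h3⟩, h4⟩, h5⟩, h6⟩ := h
  have h4' : ∀ a < c.1, ∀ b < c.1, ∀ d < c.1, (bif (Nat.beq a b || Nat.beq a d || Nat.beq b d) then Nat.beq (pl T a b d) 127
    else Nat.beq (pl T a b d) (pl T b a d) && Nat.beq (pl T a b d) (pl T a d b)) = true := by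
    intro a ha b hb d hd
    rw [List.all_eq_true] at h4
    have e1 := h4 a (List.mem_range.2 ha)
    rw [List.all_eq_true] at e1
    have e2 := e1 b (List.mem_range.2 hb)
    rw [List.all_eq_true] at e2
    exact e2 d (List.mem_range.2 hd)
  refine ⟨?_, h2, ?_, ?_, ?_, ?_, ?_, ?_⟩
  · intro i hi
    unfold sameList at h1
    rw [Bool.and_eq_true, List.all_eq_true] at h1
    have h7 := h1.1 (pm PM i) (List.mem_map.2 ⟨i, List.mem_range.2 hi, rfl⟩)
    rw [List.any_eq_true] at h7
    obtain ⟨x, hx, hx'⟩ := h7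
    rw [Nat.beq_eq] at hx'
    rw [hx']
    exact hx
  · intro a ha b hb d hd hr
    have e := h4' a ha b hb d hd
    have e' : (Nat.beq a b || Nat.beq a d || Nat.beq b d) = true := by
      simp only [Bool.or_eq_true, Nat.beq_eq]
      tauto
    rw [e', cond_true, Nat.beq_eq] at e
    exact e
  · intro a ha b hb d hd n1 n2 n3
    have e := h4' a ha b hb d hd
    have e' : (Nat.beq a b || Nat.beq a d || Nat.beq b d) = false := by
      rw [Bool.eq_false_iff]
      simp only [ne_eq, Bool.or_eq_true, Nat.beq_eq]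
      tauto
    rw [e', cond_false, Bool.and_eq_true, Nat.beq_eq, Nat.beq_eq] at e
    exact e.1
  · intro a ha b hb d hd n1 n2 n3
    have e := h4' a ha b hb d hd
    have e' : (Nat.beq a b || Nat.beq a d || Nat.beq b d) = false := by
      rw [Bool.eq_false_iff]
      simp only [ne_eq, Bool.or_eq_true, Nat.beq_eq]
      tauto
    rw [e', cond_false, Bool.and_eq_true, Nat.beq_eq, Nat.beq_eq] at e
    exact e.2
  · intro i j k hij hjk hk hcol
    rw [List.all_eq_true] at h5
    have e := h5 (i, j, k) (mem_triples.2 ⟨hij, hjk, hk⟩)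
    simp only at e
    rw [hcol, cond_true, Nat.beq_eq] at e
    exact e
  · intro i j k hij hjk hk hcol
    rw [List.all_eq_true] at h5
    have e := h5 (i, j, k) (mem_triples.2 ⟨hij, hjk, hk⟩)
    simp only at e
    rw [hcol, cond_false] at e
    simp only [Bool.and_eq_true, Bool.or_eq_true, Nat.blt_eq, Nat.beq_eq, List.all_eq_true, List.mem_range,
      beq_iff_eq] at e
    obtain ⟨⟨⟨⟨⟨e1, e2⟩, e3⟩, e4⟩, e5⟩, e6⟩ := e
    refine ⟨e1, e2, e3, e4, ?_, e6⟩
    intro x hx n1 n2 n3
    rcases e5 x hx with ((e7 | e7) | e7) | e7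
    · exact absurd e7 n1
    · exact absurd e7 n2
    · exact absurd e7 n3
    · exact e7
  · intro i hi
    rw [List.all_eq_true] at h6
    have e := h6 i (List.mem_range.2 hi)
    rw [List.any_eq_true] at e
    obtain ⟨t, ht, ht'⟩ := e
    rw [mem_triples] at ht
    rw [Nat.beq_eq] at ht'
    exact ⟨t.1, t.2.1, t.2.2, ht.1, ht.2.1, ht.2.2, ht'⟩

theorem codeOk_planes (h : codeOk c = true) : ∀ p ∈ c.2.2, p < 1 <<< c.1 := by
  unfold codeOk at h
  simp only [Bool.and_eq_true, Nat.blt_eq, List.all_eq_true] at h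
  exact h.1.1.2

theorem codeOk_col (h : codeOk c = true) {i j k : ℕ} (hij : i < j) (hjk : j < k) (hk : k < c.1) :
    colC c i j k = true ↔ ∀ m < c.1, m ≠ i → m ≠ j → m ≠ k → copC c i j k m = true := by
  unfold codeOk at h
  rw [Bool.and_eq_true, List.all_eq_true] at h
  have e := h.2 (i, j, k) (mem_triples.2 ⟨hij, hjk, hk⟩)
  simp only [beq_iff_eq] at e
  rw [e]
  simp only [List.all_eq_true, List.mem_range, Bool.or_eq_true, Nat.beq_eq]
  constructor
  · intro h1 m hm n1 n2 n3
    rcases h1 m hm with ((h2 | h2) | h2) | h2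
    · exact absurd h2 n1
    · exact absurd h2 n2
    · exact absurd h2 n3
    · exact h2
  · intro h1 m hm
    by_cases n1 : m = i
    · exact Or.inl (Or.inl (Or.inl n1))
    by_cases n2 : m = j
    · exact Or.inl (Or.inl (Or.inr n2))
    by_cases n3 : m = k
    · exact Or.inl (Or.inr n3)
    exact Or.inr (h1 m hm n1 n2 n3)

/-- The plane number does not depend on the order. -/
theorem VData.perm (h : VData c nl nP T PM) {a b d : ℕ} (ha : a < c.1) (hb : b < c.1) (hd : d < c.1)
    (h1 : a ≠ b) (h2 : a ≠ d) (h3 : b ≠ d) : ∃ i j k, i < j ∧ j < k ∧ k < c.1 ∧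
      ({a, b, d} : Finset ℕ) = {i, j, k} ∧ pl T a b d = pl T i j k := by
  have s1 := h.sym1
  have s2 := h.sym2
  rcases lt_or_gt_of_ne h1 with x1 | x1 <;> rcases lt_or_gt_of_ne h2 with x2 | x2 <;>
    rcases lt_or_gt_of_ne h3 with x3 | x3
  · exact ⟨a, b, d, x1, x3, hd, rfl, rfl⟩
  · exact ⟨a, d, b, x2, x3, hb, by ext x; simp only [Finset.mem_insert, Finset.mem_singleton]; tauto,
      s2 a ha b hb d hd h1 h2 h3⟩
  · omega
  · exact ⟨d, a, b, x2, x1, hb, by ext x; simp only [Finset.mem_insert, Finset.mem_singleton]; tauto, by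
      rw [s2 a ha b hb d hd h1 h2 h3, s1 a ha d hd b hb h2 h1 h3.symm]⟩
  · exact ⟨b, a, d, x1, x2, hd, by ext x; simp only [Finset.mem_insert, Finset.mem_singleton]; tauto,
      s1 a ha b hb d hd h1 h2 h3⟩
  · omega
  · exact ⟨b, d, a, x3, x2, ha, by ext x; simp only [Finset.mem_insert, Finset.mem_singleton]; tauto, by
      rw [s1 a ha b hb d hd h1 h2 h3, s2 b hb a ha d hd h1.symm h3 h2]⟩
  · exact ⟨d, b, a, x3, x1, ha, by ext x; simp only [Finset.mem_insert, Finset.mem_singleton]; tauto, by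
      rw [s1 a ha b hb d hd h1 h2 h3, s2 b hb a ha d hd h1.symm h3 h2, s1 b hb d hd a ha h3 h1.symm h2.symm]⟩

theorem VData.col' (h : VData c nl nP T PM) {a b d : ℕ} (ha : a < c.1) (hb : b < c.1) (hd : d < c.1)
    (h1 : a ≠ b) (h2 : a ≠ d) (h3 : b ≠ d) (hc : colC c a b d = true) : pl T a b d = 127 := by
  obtain ⟨i, j, k, hij, hjk, hk, hs, hp⟩ := h.perm ha hb hd h1 h2 h3
  rw [hp]
  exact h.col i j k hij hjk hk (by rw [← colC_congr hs]; exact hc)

theorem VData.ncol' (h : VData c nl nP T PM) {a b d : ℕ} (ha : a < c.1) (hb : b < c.1) (hd : d < c.1)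
    (h1 : a ≠ b) (h2 : a ≠ d) (h3 : b ≠ d) (hc : colC c a b d = false) : pl T a b d < nP ∧
    (∀ x ∈ ({a, b, d} : Finset ℕ), tb (pm PM (pl T a b d)) x = true) ∧
    (∀ e < c.1, e ∉ ({a, b, d} : Finset ℕ) → tb (pm PM (pl T a b d)) e = copC c a b d e) := by
  obtain ⟨i, j, k, hij, hjk, hk, hs, hp⟩ := h.perm ha hb hd h1 h2 h3
  obtain ⟨e1, e2, e3, e4, e5, -⟩ := h.ncol i j k hij hjk hk (by rw [← colC_congr hs]; exact hc)
  rw [hp, hs]
  refine ⟨e1, ?_, ?_⟩
  · intro x hx
    simp only [Finset.mem_insert, Finset.mem_singleton] at hx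
    rcases hx with rfl | rfl | rfl
    · exact e2
    · exact e3
    · exact e4
  · intro e he hne
    simp only [Finset.mem_insert, Finset.mem_singleton, not_or] at hne
    rw [e5 e he hne.1 hne.2.1 hne.2.2]
    apply copC_congr
    ext x
    have := Finset.ext_iff.1 hs x
    simp only [Finset.mem_insert, Finset.mem_singleton] at this ⊢
    tauto

theorem three_pow {a b d n : ℕ} (h1 : a < b) (h2 : b < d) (h3 : d < n) : 1 <<< a + 1 <<< b + 1 <<< d < 1 <<< n := by
  simp only [Nat.one_shiftLeft]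
  have e1 : 2 ^ (a + 1) ≤ 2 ^ b := Nat.pow_le_pow_right (by norm_num) h1
  have e2 : 2 ^ (b + 1) ≤ 2 ^ d := Nat.pow_le_pow_right (by norm_num) h2
  have e3 : 2 ^ (d + 1) ≤ 2 ^ n := Nat.pow_le_pow_right (by norm_num) h3
  have e0 : 0 < 2 ^ a := by positivity
  rw [pow_succ] at e1 e2 e3
  omega

/-- The points of a plane are `< n`. -/
theorem VData.mask (h : VData c nl nP T PM) (hc : codeOk c = true) {i j : ℕ} (hi : i < nP)
    (hj : tb (pm PM i) j = true) : j < c.1 := by
  by_cases hnl : i < nl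
  · exact tb_lt (codeOk_planes hc _ (h.v1 i hnl)) hj
  · obtain ⟨a, b, d, hab, hbd, hd, rfl⟩ := h.occ i hi
    have hcol : colC c a b d = false := by
      rw [Bool.eq_false_iff]
      intro h'
      have := h.col a b d hab hbd hd h'
      have := h.v2
      omega
    obtain ⟨e1, e2, e3, e4, e5, e6⟩ := h.ncol a b d hab hbd hd hcol
    rcases e6 with e6 | e6
    · exact absurd e6 hnl
    · exact tb_lt (by rw [e6]; exact three_pow hab hbd hd) hj

/-! ### Points and planes of the extension -/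

theorem Ctx.vd (h : Ctx N g n c nl nP T PM) : VData c nl nP T PM := valid_data h.val

theorem Ctx.mem (h : Ctx N g n c nl nP T PM) {i : ℕ} (hi : i ≤ n) : g i ∈ N.E := by
  rw [h.ground]
  exact ⟨i, by simp only [Set.mem_ofPred_eq]; omega, rfl⟩

theorem Ctx.ne (h : Ctx N g n c nl nP T PM) {i j : ℕ} (hi : i ≤ n) (hj : j ≤ n) (hij : i ≠ j) :
    g i ≠ g j := by
  intro h'
  exact hij (h.inj (by simp only [Set.mem_ofPred_eq]; omega) (by simp only [Set.mem_ofPred_eq]; omega) h')

theorem Ctx.old4 (h : Ctx N g n c nl nP T PM) {a b d e : ℕ} (ha : a < n) (hb : b < n) (hd : d < n)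
    (he : e < n) (h1 : a ≠ b) (h2 : a ≠ d) (h3 : a ≠ e) (h4 : b ≠ d) (h5 : b ≠ e) (h6 : d ≠ e) :
    N.Indep {g a, g b, g d, g e} ↔ copC c a b d e = false := by
  obtain ⟨i, j, k, m, hij, hjk, hkm, hs⟩ := sort4 h1 h2 h3 h4 h5 h6
  have hlt : ∀ x ∈ ({i, j, k, m} : Finset ℕ), x < n := by
    intro x hx
    rw [← hs] at hx
    simp only [Finset.mem_insert, Finset.mem_singleton] at hx
    rcases hx with rfl | rfl | rfl | rfl
    · exact ha
    · exact hb
    · exact hd
    · exact he
  have hm : m < n := hlt m (by simp)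
  have hq := h.code.quad i j k m hij hjk hkm (by rw [h.card]; exact hm)
  rw [delete_indep_iff] at hq
  rw [copC_congr hs, ← hq, img4, img4, hs]
  constructor
  · intro h'
    refine ⟨h', ?_⟩
    rw [Set.disjoint_singleton_right]
    rintro ⟨x, hx, hx'⟩
    have hx2 := hlt x (by exact_mod_cast hx)
    exact h.ne (by omega) le_rfl (by omega) hx'
  · exact fun h' => h'.1

theorem Ctx.is4_old (h : Ctx N g n c nl nP T PM) {a b d e : ℕ} (ha : a < n) (hb : b < n) (hd : d < n)
    (he : e < n) (h1 : a ≠ b) (h2 : a ≠ d) (h3 : a ≠ e) (h4 : b ≠ d) (h5 : b ≠ e) (h6 : d ≠ e) :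
    Is4 N (g a) (g b) (g d) (g e) ↔ copC c a b d e = false := by
  rw [← h.old4 ha hb hd he h1 h2 h3 h4 h5 h6]
  exact ⟨fun h' => h'.1, fun h' => ⟨h', h.ne ha.le hb.le h1, h.ne ha.le hd.le h2, h.ne ha.le he.le h3,
    h.ne hb.le hd.le h4, h.ne hb.le he.le h5, h.ne hd.le he.le h6⟩⟩

theorem Ctx.is3_old (h : Ctx N g n c nl nP T PM) {a b d : ℕ} (ha : a < n) (hb : b < n) (hd : d < n)
    (h1 : a ≠ b) (h2 : a ≠ d) (h3 : b ≠ d) : Is3 N (g a) (g b) (g d) ↔ colC c a b d = false := by
  have hcard := h.card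
  obtain ⟨i, j, k, hij, hjk, hs⟩ := sort3 h1 h2 h3
  have hlt : ∀ x ∈ ({i, j, k} : Finset ℕ), x < n := by
    intro x hx
    rw [← hs] at hx
    simp only [Finset.mem_insert, Finset.mem_singleton] at hx
    rcases hx with rfl | rfl | rfl
    · exact ha
    · exact hb
    · exact hd
  have hi : i < n := hlt i (by simp)
  have hj : j < n := hlt j (by simp)
  have hk : k < n := hlt k (by simp)
  have hcol := codeOk_col h.ok hij hjk (by rw [hcard]; exact hk)
  rw [hcard] at hcol
  constructor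
  · intro h3'
    rw [Bool.eq_false_iff]
    intro hc
    rw [colC_congr hs, hcol] at hc
    -- extend to a basis
    have hI : (N ＼ {g n}).Indep {g a, g b, g d} := by
      rw [delete_indep_iff]
      refine ⟨h3'.1, ?_⟩
      rw [Set.disjoint_singleton_right]
      simp only [Set.mem_insert_iff, Set.mem_singleton_iff, not_or]
      exact ⟨h.ne le_rfl ha.le (by omega), h.ne le_rfl hb.le (by omega), h.ne le_rfl hd.le (by omega)⟩
    obtain ⟨B, hB⟩ := (N ＼ {g n}).exists_isBase
    have hBc : B.encard = 4 := by rw [hB.encard_eq_eRank, h.code.rank]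
    have hIc : ({g a, g b, g d} : Set α).encard = 3 := by
      rw [Set.encard_insert_of_notMem (by simp [h3'.2.1, h3'.2.2.1]), Set.encard_pair h3'.2.2.2]
      rfl
    obtain ⟨x, hx, hxI⟩ := hI.exists_insert_of_encard_lt hB.indep (by
      rw [hBc, hIc]; norm_num)
    have hxE : x ∈ (N ＼ {g n}).E := hB.subset_ground hx.1
    rw [h.code.ground, hcard] at hxE
    obtain ⟨m, hm, rfl⟩ := hxE
    have hm' : m < n := hm
    have hxn := hx.2
    simp only [Set.mem_insert_iff, Set.mem_singleton_iff, not_or] at hxn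
    have na : m ≠ a := fun h' => hxn.1 (by rw [h'])
    have nb : m ≠ b := fun h' => hxn.2.1 (by rw [h'])
    have nd : m ≠ d := fun h' => hxn.2.2 (by rw [h'])
    rw [delete_indep_iff] at hxI
    have h4 : N.Indep {g a, g b, g d, g m} := by
      have e : ({g a, g b, g d, g m} : Set α) = insert (g m) {g a, g b, g d} := by
        ext y; simp only [Set.mem_insert_iff, Set.mem_singleton_iff]; tauto
      rw [e]
      exact hxI.1
    rw [h.old4 ha hb hd hm' h1 h2 na.symm h3 nb.symm nd.symm] at h4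
    have hmem : m ∉ ({i, j, k} : Finset ℕ) := by
      rw [← hs]
      simp only [Finset.mem_insert, Finset.mem_singleton, not_or]
      exact ⟨na, nb, nd⟩
    simp only [Finset.mem_insert, Finset.mem_singleton, not_or] at hmem
    have h5 := hc m hm' hmem.1 hmem.2.1 hmem.2.2
    have h6 : copC c a b d m = copC c i j k m := by
      apply copC_congr
      ext y
      have := Finset.ext_iff.1 hs y
      simp only [Finset.mem_insert, Finset.mem_singleton] at this ⊢
      tauto
    rw [h6, h5] at h4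
    exact absurd h4 (by simp)
  · intro hc
    refine ⟨?_, h.ne ha.le hb.le h1, h.ne ha.le hd.le h2, h.ne hb.le hd.le h3⟩
    rw [colC_congr hs, Bool.eq_false_iff, ne_eq, hcol] at hc
    push Not at hc
    obtain ⟨m, hm, n1, n2, n3, hm'⟩ := hc
    have h4 := (h.old4 hi hj hk hm (by omega) (by omega) n1.symm (by omega) n2.symm n3.symm).2 (by
      simpa using hm')
    rw [img3, hs, ← img3]
    refine h4.subset ?_
    intro y
    simp only [Set.mem_insert_iff, Set.mem_singleton_iff]
    tauto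

/-- A coplanar quadruple: the last point is in the closure. -/
theorem Ctx.mem_closure_iff (h : Ctx N g n c nl nP T PM) {a b d e : ℕ} (ha : a < n) (hb : b < n) (hd : d < n)
    (he : e < n) (h1 : a ≠ b) (h2 : a ≠ d) (h3 : a ≠ e) (h4 : b ≠ d) (h5 : b ≠ e) (h6 : d ≠ e)
    (hc : colC c a b d = false) : g e ∈ N.closure {g a, g b, g d} ↔ copC c a b d e = true := by
  have i3 := (h.is3_old ha hb hd h1 h2 h4).2 hc
  constructor
  · intro h'
    have h7 := not_is4_of i3 h'
    rw [h.is4_old ha hb hd he h1 h2 h3 h4 h5 h6] at h7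
    simpa using h7
  · intro h'
    by_contra h8
    have h9 := is4_of i3 (h.mem he.le) h8
    rw [h.is4_old ha hb hd he h1 h2 h3 h4 h5 h6, h'] at h9
    exact absurd h9 (by simp)

theorem Ctx.plane_eq (h : Ctx N g n c nl nP T PM) {a b d : ℕ} (ha : a < n) (hb : b < n) (hd : d < n)
    (h1 : a ≠ b) (h2 : a ≠ d) (h3 : b ≠ d) (hc : colC c a b d = false) :
    plane N g PM (pl T a b d) = N.closure {g a, g b, g d} := by
  have hcard := h.card
  obtain ⟨e1, e2, e3⟩ := h.vd.ncol' (by rw [hcard]; exact ha) (by rw [hcard]; exact hb)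
    (by rw [hcard]; exact hd) h1 h2 h3 hc
  unfold plane
  apply subset_antisymm
  · apply closure_subset_closure_of_subset_closure
    rintro x ⟨j, hj, rfl⟩
    have hj' : tb (pm PM (pl T a b d)) j = true := hj
    have hjn : j < n := by rw [← hcard]; exact h.vd.mask h.ok e1 hj'
    by_cases hm : j ∈ ({a, b, d} : Finset ℕ)
    · refine mem_closure_of_mem' N ?_ (h.mem hjn.le)
      rw [img3]
      exact ⟨j, by exact_mod_cast hm, rfl⟩
    · have h4 := e3 j (by rw [hcard]; exact hjn) hm
      rw [hj'] at h4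
      simp only [Finset.mem_insert, Finset.mem_singleton, not_or] at hm
      exact (h.mem_closure_iff ha hb hd hjn h1 h2 (Ne.symm hm.1) h3 (Ne.symm hm.2.1) (Ne.symm hm.2.2) hc).2 h4.symm
  · apply closure_subset_closure
    rw [img3]
    apply Set.image_mono
    intro x hx
    exact e2 x (by exact_mod_cast hx)

theorem Ctx.plane_rep (h : Ctx N g n c nl nP T PM) {i : ℕ} (hi : i < nP) :
    ∃ a b d, a < b ∧ b < d ∧ d < n ∧ colC c a b d = false ∧ pl T a b d = i := by
  have hcard := h.card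
  obtain ⟨a, b, d, hab, hbd, hd, hp⟩ := h.vd.occ i hi
  refine ⟨a, b, d, hab, hbd, by rw [← hcard]; exact hd, ?_, hp⟩
  rw [Bool.eq_false_iff]
  intro h'
  have h1 := h.vd.col a b d hab hbd hd h'
  have h2 := h.vd.v2
  omega

theorem Ctx.mem_plane (h : Ctx N g n c nl nP T PM) {i e : ℕ} (hi : i < nP) (he : e < n) :
    g e ∈ plane N g PM i ↔ tb (pm PM i) e = true := by
  have hcard := h.card
  obtain ⟨a, b, d, hab, hbd, hd, hc, rfl⟩ := h.plane_rep hi
  have ha : a < n := by omega
  have hb : b < n := by omega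
  rw [h.plane_eq ha hb hd (by omega) (by omega) (by omega) hc]
  obtain ⟨e1, e2, e3⟩ := h.vd.ncol' (by rw [hcard]; exact ha) (by rw [hcard]; exact hb)
    (by rw [hcard]; exact hd) (by omega : a ≠ b) (by omega : a ≠ d) (by omega : b ≠ d) hc
  by_cases hm : e ∈ ({a, b, d} : Finset ℕ)
  · have h1 := e2 e hm
    rw [h1]
    simp only [iff_true]
    refine mem_closure_of_mem' N ?_ (h.mem he.le)
    rw [img3]
    exact ⟨e, by exact_mod_cast hm, rfl⟩
  · have h4 := e3 e (by rw [hcard]; exact he) hm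
    rw [h4]
    simp only [Finset.mem_insert, Finset.mem_singleton, not_or] at hm
    exact h.mem_closure_iff ha hb hd he (by omega) (by omega) (Ne.symm hm.1) (by omega) (Ne.symm hm.2.1)
      (Ne.symm hm.2.2) hc

theorem Ctx.plane_flat (i : ℕ) : N.closure (plane N g PM i) = plane N g PM i := by
  unfold plane
  rw [closure_closure]

/-! ### Dependence -/

/-- Old points: dependence is what `depR` says. -/
theorem depR_sound (h : Ctx N g n c nl nP T PM) {a b d e : ℕ} (ha : a < n) (hb : b < n)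
    (hd : d < n) (he : e < n) :
    (depR T PM a b d e = 0 → Is4 N (g a) (g b) (g d) (g e)) ∧
      (depR T PM a b d e = 1 → ¬ Is4 N (g a) (g b) (g d) (g e)) := by
  have hcard := h.card
  have ha' : a < c.1 := by rw [hcard]; exact ha
  have hb' : b < c.1 := by rw [hcard]; exact hb
  have hd' : d < c.1 := by rw [hcard]; exact hd
  unfold depR
  by_cases hr : a = b ∨ a = d ∨ b = d
  · have h1 := h.vd.rep a ha' b hb' d hd' hr
    simp only [h1, Nat.beq_refl, cond_true]
    refine ⟨by norm_num, fun _ h' => ?_⟩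
    rcases hr with rfl | rfl | rfl
    · exact h'.2.1 rfl
    · exact h'.2.2.1 rfl
    · exact h'.2.2.2.2.1 rfl
  · simp only [not_or] at hr
    obtain ⟨n1, n2, n3⟩ := hr
    by_cases hc : colC c a b d = true
    · have h1 := h.vd.col' ha' hb' hd' n1 n2 n3 hc
      simp only [h1, Nat.beq_refl, cond_true]
      refine ⟨by norm_num, fun _ h' => ?_⟩
      have h2 : Is3 N (g a) (g b) (g d) := ⟨h'.1.subset (by
        intro y; simp only [Set.mem_insert_iff, Set.mem_singleton_iff]; tauto), h'.2.1, h'.2.2.1, h'.2.2.2.2.1⟩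
      rw [h.is3_old ha hb hd n1 n2 n3, hc] at h2
      exact absurd h2 (by simp)
    · have hc' : colC c a b d = false := by simpa using hc
      obtain ⟨e1, e2, e3⟩ := h.vd.ncol' ha' hb' hd' n1 n2 n3 hc'
      have h127 : Nat.beq (pl T a b d) 127 = false := by
        rw [Bool.eq_false_iff, ne_eq, Nat.beq_eq]
        have := h.vd.v2
        omega
      simp only [h127, cond_false]
      have i3 := (h.is3_old ha hb hd n1 n2 n3).2 hc'
      by_cases ht : tb (pm PM (pl T a b d)) e = true
      · simp only [ht, cond_true]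
        refine ⟨by norm_num, fun _ => ?_⟩
        apply not_is4_of i3
        rw [← h.plane_eq ha hb hd n1 n2 n3 hc', h.mem_plane e1 he]
        exact ht
      · have ht' : tb (pm PM (pl T a b d)) e = false := by simpa using ht
        simp only [ht', cond_false]
        refine ⟨fun _ => ?_, by norm_num⟩
        apply is4_of i3 (h.mem he.le)
        rw [← h.plane_eq ha hb hd n1 n2 n3 hc', h.mem_plane e1 he, ht']
        simp

theorem depE_sound (h : Ctx N g n c nl nP T PM) (hS : St N g n nP PM I O) {a b d : ℕ}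
    (ha : a < n) (hb : b < n) (hd : d < n) :
    (depE T I O a b d = 0 → Is4 N (g a) (g b) (g d) (g n)) ∧
      (depE T I O a b d = 1 → ¬ Is4 N (g a) (g b) (g d) (g n)) := by
  have hcard := h.card
  have ha' : a < c.1 := by rw [hcard]; exact ha
  have hb' : b < c.1 := by rw [hcard]; exact hb
  have hd' : d < c.1 := by rw [hcard]; exact hd
  unfold depE
  by_cases hr : a = b ∨ a = d ∨ b = d
  · have h1 := h.vd.rep a ha' b hb' d hd' hr
    simp only [h1, Nat.beq_refl, cond_true]
    refine ⟨by norm_num, fun _ h' => ?_⟩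
    rcases hr with rfl | rfl | rfl
    · exact h'.2.1 rfl
    · exact h'.2.2.1 rfl
    · exact h'.2.2.2.2.1 rfl
  · simp only [not_or] at hr
    obtain ⟨n1, n2, n3⟩ := hr
    by_cases hc : colC c a b d = true
    · have h1 := h.vd.col' ha' hb' hd' n1 n2 n3 hc
      simp only [h1, Nat.beq_refl, cond_true]
      refine ⟨by norm_num, fun _ h' => ?_⟩
      have h2 : Is3 N (g a) (g b) (g d) := ⟨h'.1.subset (by
        intro y; simp only [Set.mem_insert_iff, Set.mem_singleton_iff]; tauto), h'.2.1, h'.2.2.1, h'.2.2.2.2.1⟩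
      rw [h.is3_old ha hb hd n1 n2 n3, hc] at h2
      exact absurd h2 (by simp)
    · have hc' : colC c a b d = false := by simpa using hc
      obtain ⟨e1, e2, e3⟩ := h.vd.ncol' ha' hb' hd' n1 n2 n3 hc'
      have h127 : Nat.beq (pl T a b d) 127 = false := by
        rw [Bool.eq_false_iff, ne_eq, Nat.beq_eq]
        have := h.vd.v2
        omega
      simp only [h127, cond_false]
      have i3 := (h.is3_old ha hb hd n1 n2 n3).2 hc'
      by_cases hI : tb I (pl T a b d) = true
      · simp only [hI, cond_true]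
        refine ⟨by norm_num, fun _ => ?_⟩
        apply not_is4_of i3
        rw [← h.plane_eq ha hb hd n1 n2 n3 hc']
        exact (hS.1 _ hI).2
      · have hI' : tb I (pl T a b d) = false := by simpa using hI
        simp only [hI', cond_false]
        by_cases hO : tb O (pl T a b d) = true
        · simp only [hO, cond_true]
          refine ⟨fun _ => ?_, by norm_num⟩
          apply is4_of i3 (h.mem le_rfl)
          rw [← h.plane_eq ha hb hd n1 n2 n3 hc']
          exact (hS.2 _ hO).2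
        · have hO' : tb O (pl T a b d) = false := by simpa using hO
          simp only [hO', cond_false]
          exact ⟨by norm_num, by norm_num⟩

/-- All points; a repetition (also of the new point) counts as dependent or is not used. -/
theorem dep_sound (h : Ctx N g n c nl nP T PM) (hS : St N g n nP PM I O) {a b d e : ℕ}
    (ha : a ≤ n) (hb : b ≤ n) (hd : d ≤ n) (he : e ≤ n)
    (h1 : a ≠ n ∨ b ≠ n) (h2 : a ≠ n ∨ d ≠ n) (h3 : a ≠ n ∨ e ≠ n) (h4 : b ≠ n ∨ d ≠ n)
    (h5 : b ≠ n ∨ e ≠ n) (h6 : d ≠ n ∨ e ≠ n) :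
    (dep n T PM I O a b d e = 0 → Is4 N (g a) (g b) (g d) (g e)) ∧
      (dep n T PM I O a b d e = 1 → ¬ Is4 N (g a) (g b) (g d) (g e)) := by
  have hf : ∀ x, x ≠ n → Nat.beq x n = false := by
    intro x hx
    rw [Bool.eq_false_iff, ne_eq, Nat.beq_eq]
    exact hx
  unfold dep
  by_cases ea : a = n
  · subst ea
    simp only [Nat.beq_refl, cond_true]
    rw [is4_rot]
    exact depE_sound h hS (by omega) (by omega) (by omega)
  · simp only [hf a ea, cond_false]
    by_cases eb : b = n
    · subst eb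
      simp only [Nat.beq_refl, cond_true]
      rw [is4_cyc234]
      exact depE_sound h hS (by omega) (by omega) (by omega)
    · simp only [hf b eb, cond_false]
      by_cases ed : d = n
      · subst ed
        simp only [Nat.beq_refl, cond_true]
        rw [is4_swap34]
        exact depE_sound h hS (by omega) (by omega) (by omega)
      · simp only [hf d ed, cond_false]
        by_cases ee : e = n
        · subst ee
          simp only [Nat.beq_refl, cond_true]
          exact depE_sound h hS (by omega) (by omega) (by omega)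
        · simp only [hf e ee, cond_false]
          exact depR_sound h (by omega) (by omega) (by omega) (by omega)

/-- Two points of a plane and the new point. -/
theorem Ctx.plane_span (h : Ctx N g n c nl nP T PM) {i a b : ℕ} (hi : i < nP) (ha : a < n) (hb : b < n)
    (hab : a ≠ b) (pa : g a ∈ plane N g PM i) (pb : g b ∈ plane N g PM i) (pn : g n ∈ plane N g PM i)
    (hn : g n ∉ N.closure {g a, g b}) : N.closure {g a, g b, g n} = plane N g PM i := by
  obtain ⟨a', b', d', hab', hbd', hd', hc', rfl⟩ := h.plane_rep hi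
  have h0 := h.plane_eq (by omega) (by omega) hd' (by omega) (by omega) (by omega) hc'
  have i3 := (h.is3_old (by omega) (by omega) hd' (by omega) (by omega) (by omega)).2 hc'
  rw [h0] at pa pb pn ⊢
  have hI2 : N.Indep {g a, g b} := h.simp _ (h.mem ha.le) _ (h.mem hb.le)
  rw [hI2.notMem_closure_iff (h.mem le_rfl)] at hn
  have i3' : Is3 N (g a) (g b) (g n) := by
    refine ⟨?_, h.ne ha.le hb.le hab, h.ne ha.le le_rfl (by omega), h.ne hb.le le_rfl (by omega)⟩
    have e : ({g a, g b, g n} : Set α) = insert (g n) {g a, g b} := by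
      ext y; simp only [Set.mem_insert_iff, Set.mem_singleton_iff]; tauto
    rw [e]
    exact hn.1
  apply closure_eq3 i3' i3
  intro y hy
  simp only [Set.mem_insert_iff, Set.mem_singleton_iff] at hy
  rcases hy with rfl | rfl | rfl
  · exact pa
  · exact pb
  · exact pn

theorem chkM_sound (h : Ctx N g n c nl nP T PM) (hS : St N g n nP PM I O) {i j k a b : ℕ}
    (hc : chkM PM I O i j k a b = true) : False := by
  have hcard := h.card
  unfold chkM at hc
  simp only [Bool.and_eq_true, Bool.or_eq_true, Bool.not_eq_true'] at hc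
  obtain ⟨⟨⟨⟨⟨⟨⟨⟨⟨hIi, hIj⟩, hne⟩, hia⟩, hib⟩, hja⟩, hjb⟩, hab⟩, hka⟩, hk⟩ := hc
  have hne' : pm PM i ≠ pm PM j := by
    intro h'
    rw [h', Nat.beq_refl] at hne
    exact absurd hne (by simp)
  have hab' : a ≠ b := by
    intro h'
    rw [h', Nat.beq_refl] at hab
    exact absurd hab (by simp)
  obtain ⟨hi, hin⟩ := hS.1 i hIi
  obtain ⟨hj, hjn⟩ := hS.1 j hIj
  have ha : a < n := by rw [← hcard]; exact h.vd.mask h.ok hi hia
  have hb : b < n := by rw [← hcard]; exact h.vd.mask h.ok hi hib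
  -- the new point lies on the line
  have hline : g n ∈ N.closure {g a, g b} := by
    by_contra hn
    have e1 := h.plane_span hi ha hb hab' ((h.mem_plane hi ha).2 hia) ((h.mem_plane hi hb).2 hib) hin hn
    have e2 := h.plane_span hj ha hb hab' ((h.mem_plane hj ha).2 hja) ((h.mem_plane hj hb).2 hjb) hjn hn
    apply hne'
    apply Nat.eq_of_testBit_eq
    intro x
    rw [← tb_eq_testBit, ← tb_eq_testBit, Bool.eq_iff_iff]
    by_cases hx : x < n
    · rw [← h.mem_plane hi hx, ← h.mem_plane hj hx, ← e1, ← e2]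
    · constructor
      · intro h'
        exact absurd (hcard ▸ h.vd.mask h.ok hi h') hx
      · intro h'
        exact absurd (hcard ▸ h.vd.mask h.ok hj h') hx
  have hsub : ∀ k', k' < nP → tb (pm PM k') a = true → tb (pm PM k') b = true → g n ∈ plane N g PM k' := by
    intro k' hk' h1 h2
    rw [← Ctx.plane_flat (N := N) (g := g) (PM := PM) k']
    refine N.closure_subset_closure ?_ hline
    intro y hy
    simp only [Set.mem_insert_iff, Set.mem_singleton_iff] at hy
    rcases hy with rfl | rfl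
    · exact (h.mem_plane hk' ha).2 h1
    · exact (h.mem_plane hk' hb).2 h2
  rcases hk with ⟨hkb, hO⟩ | ⟨hkb, hI⟩
  · obtain ⟨hk1, hk2⟩ := hS.2 k hO
    exact hk2 (hsub k hk1 hka hkb)
  · obtain ⟨hk1, hk2⟩ := hS.1 k hI
    -- exchange
    have hna : g n ∉ N.closure {g a} := by
      have h1 : N.Indep {g a, g n} := h.simp _ (h.mem ha.le) _ (h.mem le_rfl)
      have h2 : N.Indep {g a} := h1.subset (by simp)
      rw [h2.notMem_closure_iff (h.mem le_rfl)]
      refine ⟨by rw [Set.pair_comm] at h1; exact h1, ?_⟩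
      rw [Set.mem_singleton_iff]
      exact h.ne le_rfl ha.le (by omega)
    have h3 : g b ∈ N.closure (insert (g n) {g a}) := by
      apply mem_closure_insert hna
      rw [Set.pair_comm]
      exact hline
    have h4 : g b ∈ plane N g PM k := by
      rw [← Ctx.plane_flat (N := N) (g := g) (PM := PM) k]
      refine N.closure_subset_closure ?_ h3
      intro y hy
      simp only [Set.mem_insert_iff, Set.mem_singleton_iff] at hy
      rcases hy with rfl | rfl
      · exact hk2
      · exact (h.mem_plane hk1 ha).2 hka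
    rw [h.mem_plane hk1 hb, hkb] at h4
    exact absurd h4 (by simp)

theorem dist_iff {m Y : ℕ} (h : dist n m Y = true) : (∀ i < m, dg Y i ≤ n) ∧ ∀ i < m, ∀ j < i, dg Y i ≠ dg Y j := by
  unfold dist at h
  simp only [List.all_eq_true, List.mem_range, Bool.and_eq_true, Nat.ble_eq, Bool.not_eq_true'] at h
  refine ⟨fun i hi => (h i hi).1, fun i hi j hj h' => ?_⟩
  have h1 := (h i hi).2 j hj
  rw [h', Nat.beq_refl] at h1
  exact absurd h1 (by simp)

theorem off_iff {m x Y : ℕ} (h : off n m x Y = true) : x ≤ n ∧ ∀ i < m, dg Y i ≠ x := by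
  unfold off at h
  simp only [List.all_eq_true, List.mem_range, Bool.and_eq_true, Nat.ble_eq, Bool.not_eq_true'] at h
  refine ⟨h.1, fun i hi h' => ?_⟩
  have h1 := h.2 i hi
  rw [h', Nat.beq_refl] at h1
  exact absurd h1 (by simp)

theorem chkD_sound (h : Ctx N g n c nl nP T PM) (hS : St N g n nP PM I O) {a b Y : ℕ}
    (hc : chkD n T PM I O a b Y = true) : False := by
  unfold chkD at hc
  rw [Bool.and_eq_true, Bool.and_eq_true, Bool.and_eq_true, Bool.and_eq_true] at hc
  obtain ⟨⟨⟨⟨h1, h2⟩, h3⟩, h4⟩, h5⟩ := hc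
  have d1 := dist_iff h1
  have o1 := off_iff h2
  have o2 := off_iff h3
  have hab : a ≠ b := by
    intro h'
    rw [h', Nat.beq_refl] at h4
    exact absurd h4 (by simp)
  simp only [List.all_eq_true, List.mem_range, Nat.beq_eq] at h5
  refine h.p4.deg (g a) (g b) (fun i => g (dg Y i)) ?_
  intro i hi j hj
  have e := h5 i hi j hj
  have n1 := d1.2 i hi j hj
  have n2 := o1.2 i hi
  have n3 := o1.2 j (by omega)
  have n4 := o2.2 i hi
  have n5 := o2.2 j (by omega)
  exact (dep_sound h hS o1.1 o2.1 (d1.1 j (by omega)) (d1.1 i hi) (by omega) (by omega) (by omega)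
    (by omega) (by omega) (by omega)).1 e

theorem chkF_sound (h : Ctx N g n c nl nP T PM) (hS : St N g n nP PM I O) {t x Y : ℕ}
    (ht : t < 5) (hc : chkF n T PM I O t x Y = true) : False := by
  unfold chkF at hc
  rw [Bool.and_eq_true, Bool.and_eq_true] at hc
  obtain ⟨⟨h1, h2⟩, h3⟩ := hc
  have d1 := dist_iff h1
  have o1 := off_iff h2
  rw [List.all_eq_true] at h3
  refine h.p4.noPat t ht (g x) (fun i => g (dg Y i)) (h.mem o1.1) (fun i hi => h.mem (d1.1 i hi)) ?_
  intro s hs
  have e := h3 s hs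
  rw [Nat.beq_eq] at e
  unfold patT at hs
  rw [List.mem_map] at hs
  obtain ⟨u, hu, hus⟩ := hs
  rw [mem_triples] at hu
  obtain ⟨u1, u2, u3⟩ := hu
  have s1 : s.1 = u.1 := by rw [← hus]
  have s2 : s.2.1 = u.2.1 := by rw [← hus]
  have s3 : s.2.2.1 = u.2.2 := by rw [← hus]
  have s4 : s.2.2.2 = 0 ∨ s.2.2.2 = 1 := by
    rw [← hus]
    simp only
    cases ((pat t).2.any fun l => tb l u.1 && tb l u.2.1 && tb l u.2.2)
    · left; rfl
    · right; rfl
  rw [s1, s2, s3] at e ⊢
  have n1 := o1.2 u.1 (by omega)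
  have n2 := o1.2 u.2.1 (by omega)
  have n3 := o1.2 u.2.2 u3
  have n4 := d1.2 u.2.1 (by omega) u.1 u1
  have n5 := d1.2 u.2.2 u3 u.1 (by omega)
  have n6 := d1.2 u.2.2 u3 u.2.1 u2
  have hd := dep_sound h hS o1.1 (d1.1 u.1 (by omega)) (d1.1 u.2.1 (by omega)) (d1.1 u.2.2 u3) (by omega)
    (by omega) (by omega) (by omega) (by omega) (by omega)
  rcases s4 with s4 | s4
  · rw [s4] at e ⊢
    simp only [iff_true]
    exact hd.1 e
  · rw [s4] at e ⊢
    simp only [one_ne_zero, iff_false]
    exact hd.2 e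

end Ca3.C4
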