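import Pool.Agent.Lib.MP_ca3eb1_co.C4.Geo
import Pool.Agent.Lib.MP_ca3eb1_co.Final5

/-! # Row 51: excluded series minors in terms of deletions -/

namespace Ca3.C4

open Matroid

variable {α : Type*}

/-- a loop can be added to a represented matroid -/
private theorem ei_loop {K : Type*} [Field K] {N : Matroid α} {e : α} (he : N.IsLoop e)
    (h : IsRepr K (N ＼ {e})) : IsRepr K N := by
  classical
  obtain ⟨n, v, hv⟩ := h
  refine ⟨n, Function.update v e 0, fun I hI => ?_⟩
  by_cases heI : e ∈ I
  · constructor
    · intro h
      exact absurd heI (he.notMem_of_indep h)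
    · intro h
      have := h.ne_zero heI
      simp at this
  · have h1 : N.Indep I ↔ (N ＼ {e}).Indep I := by
      rw [delete_indep_iff, Set.disjoint_singleton_right]
      exact ⟨fun h => ⟨h, heI⟩, fun h => h.1⟩
    have h2 : I ⊆ (N ＼ {e}).E := by
      rw [delete_ground]
      exact fun x hx => ⟨hI hx, fun hxe => heI (by rw [Set.mem_singleton_iff] at hxe; rwa [← hxe])⟩
    rw [h1, hv I h2]
    refine linearIndepOn_congr fun x hx => ?_
    exact (Function.update_of_ne (fun h : x = e => heI (h ▸ hx)) ..).symm

/-- a parallel element can be added to a represented matroid -/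
private theorem ei_parallel {K : Type*} [Field K] {N : Matroid α} {e f : α} (hef : e ≠ f)
    (hc : N.IsCircuit {e, f}) (h : IsRepr K (N ＼ {e})) : IsRepr K N := by
  classical
  obtain ⟨n, v, hv⟩ := h
  have hve : Function.update v e (v f) e = v f := Function.update_self ..
  have hvf : ∀ x, x ≠ e → Function.update v e (v f) x = v x := fun x hx =>
    Function.update_of_ne hx ..
  have heE : e ∈ N.E := hc.subset_ground (by simp)
  have hfE : f ∈ N.E := hc.subset_ground (by simp)
  have hcl : ∀ J, e ∈ N.closure J ↔ f ∈ N.closure J := by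
    intro J
    have h1 : e ∈ N.closure {f} := by
      have := hc.mem_closure_sdiff_singleton_of_mem (e := e) (by simp)
      refine N.closure_subset_closure ?_ this
      rintro x ⟨rfl | hx, hx'⟩
      · exact absurd rfl hx'
      · exact hx
    have h2 : f ∈ N.closure {e} := by
      have := hc.mem_closure_sdiff_singleton_of_mem (e := f) (by simp)
      refine N.closure_subset_closure ?_ this
      rintro x ⟨hx | rfl, hx'⟩
      · exact hx
      · exact absurd rfl hx'
    constructor
    · intro h
      exact N.closure_subset_closure_of_subset_closure (Set.singleton_subset_iff.2 h) h2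
    · intro h
      exact N.closure_subset_closure_of_subset_closure (Set.singleton_subset_iff.2 h) h1
  have hno : ∀ J, e ∉ J → J ⊆ N.E → (N.Indep J ↔ LinearIndepOn K v J) := by
    intro J heJ hJ
    rw [← hv J, delete_indep_iff, Set.disjoint_singleton_right]
    · exact ⟨fun h => ⟨h, heJ⟩, fun h => h.1⟩
    · rw [delete_ground]
      exact fun x hx => ⟨hJ hx, fun hxe => heJ (by rw [Set.mem_singleton_iff] at hxe; rwa [← hxe])⟩
  refine ⟨n, Function.update v e (v f), fun I hI => ?_⟩
  by_cases heI : e ∈ I
  · by_cases hfI : f ∈ I
    · constructor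
      · intro h
        exact absurd (h.subset (Set.insert_subset heI (Set.singleton_subset_iff.2 hfI)))
          hc.not_indep
      · intro h
        exact absurd (h.injOn heI hfI (by rw [hve, hvf f hef.symm])) hef
    · obtain ⟨J, heJ, rfl⟩ : ∃ J, e ∉ J ∧ I = insert e J :=
        ⟨I \ {e}, by simp, by rw [Set.insert_sdiff_singleton, Set.insert_eq_of_mem heI]⟩
      have hfJ : f ∉ J := fun h => hfI (Set.mem_insert_of_mem _ h)
      have hJ : J ⊆ N.E := (Set.subset_insert _ _).trans hI
      have hcongr : LinearIndepOn K (Function.update v e (v f)) J ↔ LinearIndepOn K v J :=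
        linearIndepOn_congr fun x hx => hvf x (fun h => heJ (h ▸ hx))
      have himg : Function.update v e (v f) '' J = v '' J :=
        Set.image_congr fun x hx => hvf x (fun h => heJ (h ▸ hx))
      have hf1 := hno (insert f J) (by
        rintro (h | h)
        · exact hef h
        · exact heJ h) (Set.insert_subset hfE hJ)
      rw [linearIndepOn_insert hfJ] at hf1
      rw [linearIndepOn_insert heJ, hcongr, himg, hve, ← hf1]
      have hNJ : N.Indep (insert e J) ↔ N.Indep J ∧ e ∉ N.closure J := by
        constructor
        · intro h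
          refine ⟨h.subset (Set.subset_insert _ _), ?_⟩
          have := (h.subset (Set.subset_insert _ _)).insert_indep_iff_of_notMem heJ |>.1 h
          exact this.2
        · rintro ⟨h, h'⟩
          exact (h.insert_indep_iff_of_notMem heJ).2 ⟨heE, h'⟩
      have hNf : N.Indep (insert f J) ↔ N.Indep J ∧ f ∉ N.closure J := by
        constructor
        · intro h
          refine ⟨h.subset (Set.subset_insert _ _), ?_⟩
          have := (h.subset (Set.subset_insert _ _)).insert_indep_iff_of_notMem hfJ |>.1 h
          exact this.2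
        · rintro ⟨h, h'⟩
          exact (h.insert_indep_iff_of_notMem hfJ).2 ⟨hfE, h'⟩
      rw [hNJ, hNf, hcl J]
  · rw [hno I heI hI]
    exact linearIndepOn_congr fun x hx => (hvf x (fun h => heI (h ▸ hx))).symm

/-- if the dual of an excluded matroid has a loop then the matroid is representable -/
private theorem ei_repr_loop {M : Matroid α} [M.Finite] (hM : IsExcluded M) {e : α}
    (he : M✶.IsLoop e) : IsRepr (GaloisField 2 2) M := by
  have heE : e ∈ M.E := he.mem_ground
  have hQ := hM.2 _ (Relation.TransGen.single (Or.inl ⟨e, heE, rfl⟩))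
  have h1 : IsRepr (GaloisField 2 2) (M ＼ {e})✶ := hQ.1.dual
  rw [dual_delete, contract_eq_delete_of_subset_loops (Set.singleton_subset_iff.2 he)] at h1
  have h2 := (ei_loop he h1).dual
  rwa [dual_dual] at h2

/-- if the dual of an excluded matroid has a parallel pair then the matroid is representable -/
private theorem ei_repr_pair {M : Matroid α} [M.Finite] (hM : IsExcluded M) {e f : α}
    (hef : e ≠ f) (hc : M✶.IsCircuit {e, f}) : IsRepr (GaloisField 2 2) M := by
  have hQ := hM.2 _ (Relation.TransGen.single (Or.inr ⟨e, f, hef, hc, rfl⟩))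
  have h1 : IsRepr (GaloisField 2 2) (M ／ {e})✶ := hQ.1.dual
  rw [dual_contract] at h1
  have h2 := (ei_parallel hef hc h1).dual
  rwa [dual_dual] at h2

/-- the dual of a representable excluded matroid is simple -/
private theorem ei_simp_of_repr {M : Matroid α} [M.Finite] (hM : IsExcluded M)
    (hr : IsRepr (GaloisField 2 2) M) : Simp M✶ := by
  classical
  obtain ⟨n, w, hw⟩ := hr.exists_repDual
  have hs := hw.simple_of_excluded hr hM
  intro e he f hf
  have h3 := (hw {⟨e, he⟩, ⟨f, hf⟩}).2 (hs.ind_of_card_le_two (Finset.card_le_two))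
  have h4 : (Subtype.val '' ((({⟨e, he⟩, ⟨f, hf⟩} : Finset M.E) : Set M.E)) : Set α) =
      {e, f} := by
    simp [Set.image_pair]
  rwa [h4] at h3

theorem isExcluded_iff {M : Matroid α} [M.Finite] :
    IsExcluded M ↔ Simp M✶ ∧ ¬ ClassQ M ∧ ∀ e ∈ M.E, ClassQ (M ＼ {e}) := by
  constructor
  · intro hM
    refine ⟨?_, hM.1, fun e he => hM.2 _ (Relation.TransGen.single (Or.inl ⟨e, he, rfl⟩))⟩
    by_contra hns
    have hnr : ¬ IsRepr (GaloisField 2 2) M := fun hr => hns (ei_simp_of_repr hM hr)
    have hloop : ∀ e ∈ M✶.E, M✶.IsNonloop e := fun e he => by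
      by_contra hc
      exact hnr (ei_repr_loop hM ((not_isNonloop_iff he).1 hc))
    apply hns
    intro e he f hf
    by_cases hef : e = f
    · subst hef
      rw [Set.pair_eq_singleton]
      exact (hloop e he).indep
    · by_contra hc
      refine hnr (ei_repr_pair hM hef ?_)
      rw [isCircuit_iff_dep_forall_sdiff_singleton_indep]
      refine ⟨⟨hc, ?_⟩, ?_⟩
      · rintro x (rfl | rfl)
        · exact he
        · exact hf
      · rintro x (rfl | rfl)
        · refine (hloop f hf).indep.subset ?_
          rintro y ⟨rfl | hy, hy'⟩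
          · exact absurd rfl hy'
          · exact hy
        · refine (hloop e he).indep.subset ?_
          rintro y ⟨hy | hy, hy'⟩
          · exact hy
          · exact absurd hy hy'
  · rintro ⟨hs, hQ, hdel⟩
    refine ⟨hQ, fun N hN => (TransGen_classQ ?_ hN).1⟩
    rintro N (⟨e, he, rfl⟩ | ⟨e, f, hef, hc, rfl⟩)
    · exact hdel e he
    · exact absurd (hs e (hc.subset_ground (by simp)) f (hc.subset_ground (by simp)))
        hc.isCircuit.not_indep

end Ca3.C4
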