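import Pool.Agent.Lib.MP_ca3eb1_co.C4.Data

/-! # Certificates of the one point extensions in rank four: definition -/

namespace Ca3.C4

/-- All one point extensions of the code `i` without forbidden pattern are known. -/
def Ext (i : ℕ) : Prop := ∃ nl nP T PM C x, valid (getC i) nl nP T PM = true ∧
  run codes (getC i).1 nl nP T PM (getC i).2.1 128 C 0 0 = some x

theorem Ext.of {i : ℕ} (nl nP T PM C : ℕ) (h : valid (getC i) nl nP T PM = true)
    (h2 : run codes (getC i).1 nl nP T PM (getC i).2.1 128 C 0 0 = some 0) : Ext i :=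
  ⟨nl, nP, T, PM, C, 0, h, h2⟩

end Ca3.C4
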