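import Pool.Agent.Lib.MP_ca3eb1_co.C4.DepSound

/-! # Row 57: soundness of the leaf check 4 -/

namespace Ca3.C4

open Matroid

variable {α : Type*} {N : Matroid α} {g : ℕ → α} {n : ℕ} {c : Code} {nl nP T PM I O : ℕ}

/-! ### bits -/

theorem is_tb_eq (m i : ℕ) : tb m i = m.testBit i := by
  rw [Bool.eq_iff_iff]
  unfold tb Nat.testBit
  rw [Nat.beq_eq, Nat.and_one_is_mod, Nat.one_and_eq_mod_two]
  simp only [bne_iff_ne, ne_eq]
  omega

theorem is_tb_or (s j x : ℕ) : tb (s ||| (1 <<< j)) x = true ↔ tb s x = true ∨ x = j := by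
  rw [is_tb_eq, is_tb_eq, Nat.testBit_or, Nat.one_shiftLeft, Nat.testBit_two_pow, Bool.or_eq_true,
    decide_eq_true_eq, eq_comm (a := j)]

theorem is_tb_img (n Y m x : ℕ) :
    tb (img n Y m) x = true ↔ ∃ i, i < n + 1 ∧ tb m i = true ∧ dg Y i = x := by
  have key : ∀ (l : List ℕ) (s : ℕ),
      tb (l.foldl (fun s i => bif tb m i then s ||| (1 <<< dg Y i) else s) s) x = true ↔
        tb s x = true ∨ ∃ i, i ∈ l ∧ tb m i = true ∧ dg Y i = x := by
    intro l
    induction l with
    | nil => intro s; simp
    | cons a l ih =>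
      intro s
      rw [List.foldl_cons, ih]
      cases h : tb m a with
      | false =>
        simp only [cond_false, List.mem_cons]
        constructor
        · rintro (h1 | ⟨i, hi, h2, h3⟩)
          · exact Or.inl h1
          · exact Or.inr ⟨i, Or.inr hi, h2, h3⟩
        · rintro (h1 | ⟨i, rfl | hi, h2, h3⟩)
          · exact Or.inl h1
          · rw [h] at h2; exact absurd h2 (by simp)
          · exact Or.inr ⟨i, hi, h2, h3⟩
      | true =>
        simp only [cond_true, List.mem_cons, is_tb_or]
        constructor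
        · rintro ((h1 | h1) | ⟨i, hi, h2, h3⟩)
          · exact Or.inl h1
          · exact Or.inr ⟨a, Or.inl rfl, h, h1.symm⟩
          · exact Or.inr ⟨i, Or.inr hi, h2, h3⟩
        · rintro (h1 | ⟨i, rfl | hi, h2, h3⟩)
          · exact Or.inl (Or.inl h1)
          · exact Or.inl (Or.inr h3.symm)
          · exact Or.inr ⟨i, hi, h2, h3⟩
  rw [img, key]
  have h0 : tb 0 x = false := by rw [is_tb_eq]; simp
  simp only [h0, Bool.false_eq_true, false_or, List.mem_range]

theorem is_mem_triples {m a b d : ℕ} : (a, b, d) ∈ triples m ↔ a < b ∧ b < d ∧ d < m := by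
  simp only [triples, List.mem_flatMap, List.mem_range, List.mem_map, Prod.mk.injEq]
  constructor
  · rintro ⟨k, hk, j, hj, i, hi, rfl, rfl, rfl⟩
    exact ⟨hi, hj, hk⟩
  · rintro ⟨h1, h2, h3⟩
    exact ⟨d, h3, b, h2, a, h1, rfl, rfl, rfl⟩

theorem is_sameList {A B : List ℕ} (h : sameList A B = true) (x : ℕ) : x ∈ A ↔ x ∈ B := by
  rw [sameList, Bool.and_eq_true, List.all_eq_true, List.all_eq_true] at h
  constructor
  · intro hx
    have := h.1 x hx
    rw [List.any_eq_true] at this
    obtain ⟨y, hy, h2⟩ := this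
    rw [Nat.beq_eq] at h2
    rwa [h2]
  · intro hx
    have := h.2 x hx
    rw [List.any_eq_true] at this
    obtain ⟨y, hy, h2⟩ := this
    rw [Nat.beq_eq] at h2
    rwa [h2]

/-! ### sorting -/

theorem is_sort4 (P : ℕ → ℕ → ℕ → ℕ → Prop) (m : ℕ)
    (s1 : ∀ a b c d, P a b c d → P b a c d) (s2 : ∀ a b c d, P a b c d → P a c b d)
    (s3 : ∀ a b c d, P a b c d → P a b d c)
    (h : ∀ a b c d, a < b → b < c → c < d → d < m → P a b c d) :
    ∀ a b c d, a < m → b < m → c < m → d < m → a ≠ b → a ≠ c → a ≠ d → b ≠ c → b ≠ d → c ≠ d →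
      P a b c d := by
  have h3 : ∀ a b c d, a < b → b < c → c < m → d < m → a ≠ d → b ≠ d → c ≠ d → P a b c d := by
    intro a b c d h1 h2 hc hd n1 n2 n3
    rcases lt_or_gt_of_ne n3 with h4 | h4
    · exact h _ _ _ _ h1 h2 h4 hd
    · rcases lt_or_gt_of_ne n2 with h5 | h5
      · exact s3 _ _ _ _ (h _ _ _ _ h1 h5 h4 hc)
      · rcases lt_or_gt_of_ne n1 with h6 | h6
        · exact s3 _ _ _ _ (s2 _ _ _ _ (h _ _ _ _ h6 h5 h2 hc))
        · exact s3 _ _ _ _ (s2 _ _ _ _ (s1 _ _ _ _ (h _ _ _ _ h6 h1 h2 hc)))
  have h2 : ∀ a b c d, a < b → b < m → c < m → d < m → a ≠ c → a ≠ d → b ≠ c → b ≠ d → c ≠ d →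
      P a b c d := by
    intro a b c d h1 hb hc hd n1 n2 n3 n4 n5
    rcases lt_or_gt_of_ne n3 with h4 | h4
    · exact h3 _ _ _ _ h1 h4 hc hd n2 n4 n5
    · rcases lt_or_gt_of_ne n1 with h5 | h5
      · exact s2 _ _ _ _ (h3 _ _ _ _ h5 h4 hb hd n2 n5 n4)
      · exact s2 _ _ _ _ (s1 _ _ _ _ (h3 _ _ _ _ h5 h1 hb hd n5 n2 n4))
  intro a b c d ha hb hc hd n1 n2 n3 n4 n5 n6
  rcases lt_or_gt_of_ne n1 with h4 | h4
  · exact h2 _ _ _ _ h4 hb hc hd n2 n3 n4 n5 n6
  · exact s1 _ _ _ _ (h2 _ _ _ _ h4 ha hc hd n4 n5 n2 n3 n6)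

theorem is_copC12 (c : Code) (i j k m : ℕ) : copC c i j k m = copC c j i k m := by
  unfold copC; congr 1; funext p
  cases tb p i <;> cases tb p j <;> cases tb p k <;> cases tb p m <;> rfl

theorem is_copC23 (c : Code) (i j k m : ℕ) : copC c i j k m = copC c i k j m := by
  unfold copC; congr 1; funext p
  cases tb p i <;> cases tb p j <;> cases tb p k <;> cases tb p m <;> rfl

theorem is_copC34 (c : Code) (i j k m : ℕ) : copC c i j k m = copC c i j m k := by
  unfold copC; congr 1; funext p
  cases tb p i <;> cases tb p j <;> cases tb p k <;> cases tb p m <;> rfl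

theorem is_copC_true {c : Code} {i j k m : ℕ} : copC c i j k m = true ↔
    ∃ p ∈ c.2.2, tb p i = true ∧ tb p j = true ∧ tb p k = true ∧ tb p m = true := by
  unfold copC
  rw [List.any_eq_true]
  simp only [Bool.and_eq_true, and_assoc]

theorem is_colC_true {c : Code} {i j k : ℕ} : colC c i j k = true ↔
    ∃ p ∈ c.2.1, tb p i = true ∧ tb p j = true ∧ tb p k = true := by
  unfold colC
  rw [List.any_eq_true]
  simp only [Bool.and_eq_true, and_assoc]

theorem is_set12 (a b c d : α) : ({a, b, c, d} : Set α) = {b, a, c, d} := Set.insert_comm _ _ _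

theorem is_set23 (a b c d : α) : ({a, b, c, d} : Set α) = {a, c, b, d} := by
  rw [Set.insert_comm b c]

theorem is_set34 (a b c d : α) : ({a, b, c, d} : Set α) = {a, b, d, c} := by
  rw [Set.pair_comm c d]

/-- old quadruples -/
theorem is_quad (h : Ctx N g n c nl nP T PM) {a b d e : ℕ} (ha : a < n) (hb : b < n) (hd : d < n)
    (he : e < n) (h1 : a ≠ b) (h2 : a ≠ d) (h3 : a ≠ e) (h4 : b ≠ d) (h5 : b ≠ e) (h6 : d ≠ e) :
    N.Indep {g a, g b, g d, g e} ↔ copC c a b d e = false := by
  refine is_sort4 (fun a b d e => N.Indep {g a, g b, g d, g e} ↔ copC c a b d e = false) n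
    ?_ ?_ ?_ ?_ a b d e ha hb hd he h1 h2 h3 h4 h5 h6
  · intro a b c' d h; rw [is_set12, is_copC12]; exact h
  · intro a b c' d h; rw [is_set23, is_copC23]; exact h
  · intro a b c' d h; rw [is_set34, is_copC34]; exact h
  · intro a b d e hab hbd hde hen
    rw [← h.code.quad a b d e hab hbd hde (by rw [h.card]; exact hen), delete_indep_iff]
    constructor
    · intro h'
      refine ⟨h', ?_⟩
      rw [Set.disjoint_singleton_right]
      have key : ∀ x, x < n → g n ≠ g x := by
        intro x hx hgx
        have := h.inj (show n ∈ {i | i < n + 1} from Nat.lt_succ_self n)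
          (show x ∈ {i | i < n + 1} from Nat.lt_succ_of_lt hx) hgx
        omega
      simp only [Set.mem_insert_iff, Set.mem_singleton_iff, not_or]
      exact ⟨key a (by omega), key b (by omega), key d (by omega), key e (by omega)⟩
    · exact fun h' => h'.1

theorem is_gne (h : Ctx N g n c nl nP T PM) {x : ℕ} (hx : x < n) : g n ≠ g x := by
  intro hgx
  have := h.inj (show n ∈ {i | i < n + 1} from Nat.lt_succ_self n)
    (show x ∈ {i | i < n + 1} from Nat.lt_succ_of_lt hx) hgx
  omega

theorem is_gne' (h : Ctx N g n c nl nP T PM) {x y : ℕ} (hx : x ≤ n) (hy : y ≤ n) (hxy : x ≠ y) :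
    g x ≠ g y := fun hgx => hxy (h.inj (show x ∈ {i | i < n + 1} from Nat.lt_succ_of_le hx)
    (show y ∈ {i | i < n + 1} from Nat.lt_succ_of_le hy) hgx)

theorem is_mem (h : Ctx N g n c nl nP T PM) {x : ℕ} (hx : x ≤ n) : g x ∈ N.E := by
  rw [h.ground]
  exact ⟨x, Nat.lt_succ_of_le hx, rfl⟩

/-- old triples, sorted -/
theorem is_trip (h : Ctx N g n c nl nP T PM) {a b d : ℕ} (hab : a < b) (hbd : b < d) (hd : d < n) :
    N.Indep {g a, g b, g d} ↔ colC c a b d = false := by
  have hok := h.ok
  simp only [codeOk, Bool.and_eq_true, List.all_eq_true] at hok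
  have hc := hok.2 (a, b, d) (is_mem_triples.mpr ⟨hab, hbd, by rw [h.card]; exact hd⟩)
  simp only [beq_iff_eq] at hc
  constructor
  · intro hi
    by_contra hcol
    rw [Bool.not_eq_false] at hcol
    rw [hcol, eq_comm, List.all_eq_true] at hc
    have hi' : (N ＼ {g n}).Indep {g a, g b, g d} := by
      rw [delete_indep_iff]
      refine ⟨hi, ?_⟩
      rw [Set.disjoint_singleton_right]
      simp only [Set.mem_insert_iff, Set.mem_singleton_iff, not_or]
      exact ⟨is_gne h (by omega), is_gne h (by omega), is_gne h (by omega)⟩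
    obtain ⟨B, hB, hsub⟩ := hi'.exists_isBase_superset
    have hB4 : B.encard = 4 := by rw [hB.encard_eq_eRank, h.code.rank]
    have h3 : ({g a, g b, g d} : Set α).encard ≤ 3 := by
      refine (Set.encard_insert_le _ _).trans ?_
      refine (add_le_add_left (Set.encard_insert_le _ _) _).trans ?_
      rw [Set.encard_singleton]
      norm_num
    obtain ⟨x, hxB, hx⟩ : ∃ x ∈ B, x ∉ ({g a, g b, g d} : Set α) := by
      by_contra hne
      push Not at hne
      have := (Set.encard_le_encard hne).trans h3
      rw [hB4] at this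
      exact absurd this (by norm_num)
    have hxE := hB.subset_ground hxB
    rw [h.code.ground] at hxE
    obtain ⟨m, hm, rfl⟩ := hxE
    rw [Set.mem_ofPred_eq, h.card] at hm
    simp only [Set.mem_insert_iff, Set.mem_singleton_iff, not_or] at hx
    have hma : m ≠ a := fun e => hx.1 (by rw [e])
    have hmb : m ≠ b := fun e => hx.2.1 (by rw [e])
    have hmd : m ≠ d := fun e => hx.2.2 (by rw [e])
    have h4 := hc m (List.mem_range.mpr (by rw [h.card]; exact hm))
    simp only [Bool.or_eq_true, Nat.beq_eq] at h4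
    have h5 : copC c a b d m = true := by
      rcases h4 with ((h4 | h4) | h4) | h4
      · exact absurd h4 hma
      · exact absurd h4 hmb
      · exact absurd h4 hmd
      · exact h4
    have h6 : N.Indep {g a, g b, g d, g m} := by
      have : (N ＼ {g n}).Indep {g a, g b, g d, g m} := by
        refine hB.indep.subset ?_
        intro y hy
        simp only [Set.mem_insert_iff, Set.mem_singleton_iff] at hy
        rcases hy with rfl | rfl | rfl | rfl
        · exact hsub (by simp)
        · exact hsub (by simp)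
        · exact hsub (by simp)
        · exact hxB
      exact (delete_indep_iff.mp this).1
    have h7 := (is_quad h (by omega) (by omega) hd hm (by omega) (by omega) (Ne.symm hma) (by omega)
      (Ne.symm hmb) (Ne.symm hmd)).mp h6
    rw [h5] at h7
    exact absurd h7 (by simp)
  · intro hcol
    rw [hcol, eq_comm, List.all_eq_false] at hc
    obtain ⟨m, hm, h4⟩ := hc
    rw [List.mem_range, h.card] at hm
    simp only [Bool.not_eq_true, Bool.or_eq_false_iff] at h4
    obtain ⟨⟨⟨h1, h2⟩, h3⟩, h4⟩ := h4
    have e1 : m ≠ a := fun e => by rw [← Nat.beq_eq, h1] at e; exact absurd e (by simp)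
    have e2 : m ≠ b := fun e => by rw [← Nat.beq_eq, h2] at e; exact absurd e (by simp)
    have e3 : m ≠ d := fun e => by rw [← Nat.beq_eq, h3] at e; exact absurd e (by simp)
    refine ((is_quad h (by omega) (by omega) hd hm (by omega) (by omega) (Ne.symm e1) (by omega)
      (Ne.symm e2) (Ne.symm e3)).mpr h4).subset ?_
    intro y hy
    simp only [Set.mem_insert_iff, Set.mem_singleton_iff] at hy ⊢
    tauto

theorem is_beq_false {a b : ℕ} (h : a ≠ b) : Nat.beq a b = false := by
  rw [← Bool.not_eq_true, Nat.beq_eq]; exact h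

/-- what `valid` says about a sorted triple -/
theorem is_valid (h : Ctx N g n c nl nP T PM) {a b d : ℕ} (hab : a < b) (hbd : b < d) (hd : d < n)
    (hcol : colC c a b d = false) : pl T a b d < nP ∧ tb (pm PM (pl T a b d)) a = true ∧
      tb (pm PM (pl T a b d)) b = true ∧ tb (pm PM (pl T a b d)) d = true ∧
      (∀ e, e < n → e ≠ a → e ≠ b → e ≠ d → tb (pm PM (pl T a b d)) e = copC c a b d e) ∧
      (pl T a b d < nl ∨ pm PM (pl T a b d) = 1 <<< a + 1 <<< b + 1 <<< d) := by
  have hv := h.val
  simp only [valid, Bool.and_eq_true, List.all_eq_true] at hv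
  have h1 := hv.1.2 (a, b, d) (is_mem_triples.mpr ⟨hab, hbd, by rw [h.card]; exact hd⟩)
  simp only [hcol, cond_false, Bool.and_eq_true, List.all_eq_true, Bool.or_eq_true, Nat.beq_eq,
    List.mem_range, beq_iff_eq, Nat.blt_eq] at h1
  obtain ⟨⟨⟨⟨⟨h2, h3⟩, h4⟩, h5⟩, h6⟩, h7⟩ := h1
  refine ⟨h2, h3, h4, h5, ?_, h7⟩
  intro e he n1 n2 n3
  rcases h6 e (by rw [h.card]; exact he) with ((h8 | h8) | h8) | h8
  · exact absurd h8 n1
  · exact absurd h8 n2
  · exact absurd h8 n3
  · exact h8

theorem is_bits3 {a b d e : ℕ} (hab : a < b) (hbd : b < d)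
    (h : tb (1 <<< a + 1 <<< b + 1 <<< d) e = true) : e = a ∨ e = b ∨ e = d := by
  have h1 : 1 <<< a + 1 <<< b + 1 <<< d = (1 <<< a ||| (1 <<< b)) ||| (1 <<< d) := by
    simp only [Nat.one_shiftLeft]
    have h2 : 2 ^ a + 2 ^ b = 2 ^ a ||| 2 ^ b := by
      have := Nat.two_pow_add_eq_or_of_lt (i := b) (b := 2 ^ a) (Nat.pow_lt_pow_right (by norm_num) hab) 1
      rw [mul_one] at this
      rw [add_comm, this, Nat.or_comm]
    have h3 : 2 ^ a + 2 ^ b < 2 ^ d := by
      have e1 : 2 ^ a < 2 ^ b := Nat.pow_lt_pow_right (by norm_num) hab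
      have e2 : 2 ^ b + 2 ^ b ≤ 2 ^ d := by
        rw [← two_mul, ← pow_succ']
        exact Nat.pow_le_pow_right (by norm_num) hbd
      omega
    have := Nat.two_pow_add_eq_or_of_lt (i := d) (b := 2 ^ a + 2 ^ b) h3 1
    rw [mul_one] at this
    rw [← h2, add_comm, this, Nat.or_comm]
  rw [h1, is_tb_or, is_tb_or, is_tb_eq, Nat.one_shiftLeft, Nat.testBit_two_pow,
    decide_eq_true_eq] at h
  rcases h with (h | h) | h
  · exact Or.inl h.symm
  · exact Or.inr (Or.inl h)
  · exact Or.inr (Or.inr h)

/-- the mask of a plane: three independent points span it -/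
theorem is_mask (h : Ctx N g n c nl nP T PM) {i : ℕ} (hi : i < nP) :
    ∃ a b d, a < b ∧ b < d ∧ d < n ∧ N.Indep {g a, g b, g d} ∧
      ∀ e, tb (pm PM i) e = true → g e ∈ N.closure {g a, g b, g d} := by
  have hv := h.val
  simp only [valid, Bool.and_eq_true, List.all_eq_true] at hv
  have h1 := hv.2 i (List.mem_range.mpr hi)
  rw [List.any_eq_true] at h1
  obtain ⟨⟨a, b, d⟩, ht, hq⟩ := h1
  rw [Nat.beq_eq] at hq
  obtain ⟨hab, hbd, hd⟩ := is_mem_triples.mp ht
  rw [h.card] at hd
  have hnP : nP < 127 := by
    have := hv.1.1.1.1.2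
    rwa [Nat.blt_eq] at this
  have hcol : colC c a b d = false := by
    by_contra hcol
    rw [Bool.not_eq_false] at hcol
    have h2 := hv.1.2 (a, b, d) ht
    simp only [hcol, cond_true, Nat.beq_eq] at h2
    simp only at hq
    omega
  obtain ⟨h2, h3, h4, h5, h6, h7⟩ := is_valid h hab hbd hd hcol
  simp only at hq
  rw [hq] at h2 h3 h4 h5 h6 h7
  have hI := (is_trip h hab hbd hd).mpr hcol
  refine ⟨a, b, d, hab, hbd, hd, hI, ?_⟩
  have hsub : ({g a, g b, g d} : Set α) ⊆ N.closure {g a, g b, g d} :=
    N.subset_closure _ hI.subset_ground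
  have hen : ∀ e, tb (pm PM i) e = true → e = a ∨ e = b ∨ e = d ∨ (e < n ∧ e ≠ a ∧ e ≠ b ∧ e ≠ d) := by
    intro e he
    rcases h7 with h7 | h7
    · have hmem : pm PM i ∈ c.2.2 := by
        rw [← is_sameList hv.1.1.1.1.1, List.mem_map]
        exact ⟨i, List.mem_range.mpr h7, rfl⟩
      have hok := h.ok
      simp only [codeOk, Bool.and_eq_true, List.all_eq_true] at hok
      have h8 := hok.1.1.2 _ hmem
      rw [Nat.blt_eq, Nat.one_shiftLeft, h.card] at h8
      have h9 : e < n := by
        by_contra hne
        rw [is_tb_eq] at he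
        rw [Nat.testBit_lt_two_pow (lt_of_lt_of_le h8 (Nat.pow_le_pow_right (by norm_num)
          (Nat.le_of_not_lt hne)))] at he
        exact absurd he (by simp)
      by_cases e1 : e = a
      · exact Or.inl e1
      · by_cases e2 : e = b
        · exact Or.inr (Or.inl e2)
        · by_cases e3 : e = d
          · exact Or.inr (Or.inr (Or.inl e3))
          · exact Or.inr (Or.inr (Or.inr ⟨h9, e1, e2, e3⟩))
    · rw [h7] at he
      rcases is_bits3 hab hbd he with h8 | h8 | h8
      · exact Or.inl h8
      · exact Or.inr (Or.inl h8)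
      · exact Or.inr (Or.inr (Or.inl h8))
  intro e he
  rcases hen e he with rfl | rfl | rfl | ⟨h8, e1, e2, e3⟩
  · exact hsub (by simp)
  · exact hsub (by simp)
  · exact hsub (by simp)
  · by_contra hne
    rw [hI.notMem_closure_iff (is_mem h h8.le)] at hne
    have h9 : N.Indep {g a, g b, g d, g e} := by
      refine hne.1.subset ?_
      intro y hy
      simp only [Set.mem_insert_iff, Set.mem_singleton_iff] at hy ⊢
      tauto
    rw [is_quad h (by omega) (by omega) hd h8 (by omega) (by omega) (Ne.symm e1) (by omega)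
      (Ne.symm e2) (Ne.symm e3), ← h6 e h8 e1 e2 e3, he] at h9
    exact absurd h9 (by simp)

theorem is_not_indep (h : Ctx N g n c nl nP T PM) {i : ℕ} (hi : i < nP) {a b d e : ℕ}
    (hab : a < b) (hbd : b < d) (hde : d < e) (hen : e ≤ n)
    (ha : g a ∈ plane N g PM i) (hb : g b ∈ plane N g PM i) (hd : g d ∈ plane N g PM i)
    (he : g e ∈ plane N g PM i) : ¬ N.Indep {g a, g b, g d, g e} := by
  intro hI
  obtain ⟨x, y, z, _, _, _, hxyz, hcl⟩ := is_mask h hi
  have hsub : plane N g PM i ⊆ N.closure {g x, g y, g z} := by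
    refine N.closure_subset_closure_of_subset_closure ?_
    rintro _ ⟨j, hj, rfl⟩
    exact hcl j hj
  have h1 : ({g a, g b, g d, g e} : Set α) ⊆ N.closure {g x, g y, g z} := by
    intro w hw
    simp only [Set.mem_insert_iff, Set.mem_singleton_iff] at hw
    rcases hw with rfl | rfl | rfl | rfl
    · exact hsub ha
    · exact hsub hb
    · exact hsub hd
    · exact hsub he
  have h2 := hI.encard_le_eRk_of_subset h1
  rw [eRk_closure_eq] at h2
  have h3 : N.eRk {g x, g y, g z} ≤ 3 := by
    refine (N.eRk_le_encard _).trans ?_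
    refine (Set.encard_insert_le _ _).trans ?_
    refine (add_le_add_left (Set.encard_insert_le _ _) _).trans ?_
    rw [Set.encard_singleton]
    norm_num
  have h4 : ({g a, g b, g d, g e} : Set α).encard = 4 := by
    rw [Set.encard_insert_of_notMem, Set.encard_insert_of_notMem, Set.encard_insert_of_notMem,
      Set.encard_singleton]
    · norm_num
    · simp only [Set.mem_singleton_iff]
      exact is_gne' h (by omega) (by omega) (by omega)
    · simp only [Set.mem_insert_iff, Set.mem_singleton_iff, not_or]
      exact ⟨is_gne' h (by omega) (by omega) (by omega), is_gne' h (by omega) (by omega) (by omega)⟩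
    · simp only [Set.mem_insert_iff, Set.mem_singleton_iff, not_or]
      exact ⟨is_gne' h (by omega) (by omega) (by omega), is_gne' h (by omega) (by omega) (by omega),
        is_gne' h (by omega) (by omega) (by omega)⟩
  rw [h4] at h2
  exact absurd (h2.trans h3) (by norm_num)

theorem is_mem_plane (h : Ctx N g n c nl nP T PM) {i e : ℕ} (hi : i < nP)
    (he : tb (pm PM i) e = true) (hen : e ≤ n) : g e ∈ plane N g PM i := by
  have hE : g '' {j | tb (pm PM i) j = true} ⊆ N.E := by
    obtain ⟨x, y, z, _, _, _, hxyz, hcl⟩ := is_mask h hi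
    rintro _ ⟨j, hj, rfl⟩
    exact N.closure_subset_ground _ (hcl j hj)
  exact N.subset_closure _ hE ⟨e, he, rfl⟩

theorem is_key (h : Ctx N g n c nl nP T PM) (hS : St N g n nP PM I O)
    (hIO : I ||| O = 1 <<< nP - 1) {a b d e : ℕ} (hab : a < b) (hbd : b < d) (hde : d < e)
    (hen : e ≤ n) : N.Indep {g a, g b, g d, g e} ↔
      ¬ ∃ m ∈ newP n nl nP PM I c.2.1, tb m a = true ∧ tb m b = true ∧ tb m d = true ∧
        tb m e = true := by
  have hnl : nl ≤ nP := by
    have hv := h.val
    simp only [valid, Bool.and_eq_true, List.all_eq_true] at hv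
    have := hv.1.1.1.2
    rwa [Nat.ble_eq] at this
  constructor
  · rintro hI ⟨m, hm, h1, h2, h3, h4⟩
    rw [newP, List.mem_append, List.mem_filterMap, List.mem_filterMap] at hm
    rcases hm with ⟨i, hi, him⟩ | ⟨l, hl, hlm⟩
    · rw [List.mem_range] at hi
      cases hti : tb I i with
      | true =>
        rw [hti, cond_true, Option.some.injEq] at him
        rw [← him, is_tb_or] at h1 h2 h3 h4
        have g1 : tb (pm PM i) a = true := h1.resolve_right (by omega)
        have g2 : tb (pm PM i) b = true := h2.resolve_right (by omega)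
        have g3 : tb (pm PM i) d = true := h3.resolve_right (by omega)
        refine is_not_indep h hi hab hbd hde hen (is_mem_plane h hi g1 (by omega))
          (is_mem_plane h hi g2 (by omega)) (is_mem_plane h hi g3 (by omega)) ?_ hI
        rcases h4 with h4 | rfl
        · exact is_mem_plane h hi h4 hen
        · exact (hS.1 i hti).2
      | false =>
        rw [hti, cond_false] at him
        cases hbl : Nat.blt i nl with
        | true =>
          rw [hbl, cond_true, Option.some.injEq] at him
          rw [← him] at h1 h2 h3 h4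
          exact is_not_indep h hi hab hbd hde hen (is_mem_plane h hi h1 (by omega))
            (is_mem_plane h hi h2 (by omega)) (is_mem_plane h hi h3 (by omega))
            (is_mem_plane h hi h4 (by omega)) hI
        | false =>
          rw [hbl, cond_false] at him
          exact absurd him (by simp)
    · have hlm' : l ||| (1 <<< n) = m := by
        revert hlm
        cases (List.range nP).any (fun i => tb I i && Nat.beq (l &&& pm PM i) l) with
        | true => intro hlm; exact absurd hlm (by simp)
        | false => intro hlm; simpa using hlm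
      rw [← hlm', is_tb_or] at h1 h2 h3
      have g1 : tb l a = true := h1.resolve_right (by omega)
      have g2 : tb l b = true := h2.resolve_right (by omega)
      have g3 : tb l d = true := h3.resolve_right (by omega)
      have hcol : colC c a b d = true := is_colC_true.mpr ⟨l, hl, g1, g2, g3⟩
      have h5 : N.Indep {g a, g b, g d} := by
        refine hI.subset ?_
        intro y hy
        simp only [Set.mem_insert_iff, Set.mem_singleton_iff] at hy ⊢
        tauto
      rw [is_trip h hab hbd (by omega), hcol] at h5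
      exact absurd h5 (by simp)
  · intro hno
    have hno1 : ∀ i, i < nP → tb I i = true → ¬ (tb (pm PM i) a = true ∧ tb (pm PM i) b = true ∧
        tb (pm PM i) d = true ∧ (tb (pm PM i) e = true ∨ e = n)) := by
      rintro i hi hti ⟨g1, g2, g3, g4⟩
      refine hno ⟨pm PM i ||| (1 <<< n), ?_, ?_, ?_, ?_, ?_⟩
      · rw [newP, List.mem_append, List.mem_filterMap]
        exact Or.inl ⟨i, List.mem_range.mpr hi, by rw [hti, cond_true]⟩
      · rw [is_tb_or]; exact Or.inl g1
      · rw [is_tb_or]; exact Or.inl g2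
      · rw [is_tb_or]; exact Or.inl g3
      · rw [is_tb_or]; exact g4
    rcases Nat.lt_or_eq_of_le hen with hlt | rfl
    · rw [is_quad h (by omega) (by omega) (by omega) hlt (by omega) (by omega) (by omega) (by omega)
        (by omega) (by omega)]
      by_contra hcop
      rw [Bool.not_eq_false, is_copC_true] at hcop
      obtain ⟨p, hp, g1, g2, g3, g4⟩ := hcop
      have hv := h.val
      simp only [valid, Bool.and_eq_true, List.all_eq_true] at hv
      rw [← is_sameList hv.1.1.1.1.1, List.mem_map] at hp
      obtain ⟨i, hi, rfl⟩ := hp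
      rw [List.mem_range] at hi
      cases hti : tb I i with
      | true => exact hno1 i (by omega) hti ⟨g1, g2, g3, Or.inl g4⟩
      | false =>
        refine hno ⟨pm PM i, ?_, g1, g2, g3, g4⟩
        rw [newP, List.mem_append, List.mem_filterMap]
        refine Or.inl ⟨i, List.mem_range.mpr (by omega), ?_⟩
        rw [hti, cond_false, (by rw [Nat.blt_eq]; exact hi : Nat.blt i nl = true), cond_true]
    · cases hcol : colC c a b d with
      | true =>
        exfalso
        obtain ⟨l, hl, g1, g2, g3⟩ := is_colC_true.mp hcol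
        cases hany : (List.range nP).any (fun i => tb I i && Nat.beq (l &&& pm PM i) l) with
        | true =>
          rw [List.any_eq_true] at hany
          obtain ⟨i, hi, h1⟩ := hany
          rw [List.mem_range] at hi
          rw [Bool.and_eq_true, Nat.beq_eq] at h1
          have key : ∀ x, tb l x = true → tb (pm PM i) x = true := by
            intro x hx
            rw [is_tb_eq] at hx ⊢
            rw [← h1.2, Nat.testBit_and, Bool.and_eq_true] at hx
            exact hx.2
          exact hno1 i hi h1.1 ⟨key _ g1, key _ g2, key _ g3, Or.inr rfl⟩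
        | false =>
          refine hno ⟨l ||| (1 <<< e), ?_, ?_, ?_, ?_, ?_⟩
          · rw [newP, List.mem_append, List.mem_filterMap, List.mem_filterMap]
            refine Or.inr ⟨l, hl, ?_⟩
            rw [hany, cond_false]
          · rw [is_tb_or]; exact Or.inl g1
          · rw [is_tb_or]; exact Or.inl g2
          · rw [is_tb_or]; exact Or.inl g3
          · rw [is_tb_or]; exact Or.inr rfl
      | false =>
        obtain ⟨h2, h3, h4, h5, h6, h7⟩ := is_valid h hab hbd hde hcol
        have hdec : tb (I ||| O) (pl T a b d) = true := by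
          rw [hIO, is_tb_eq, Nat.one_shiftLeft, Nat.testBit_two_pow_sub_one, decide_eq_true_eq]
          exact h2
        rw [is_tb_eq, Nat.testBit_or, Bool.or_eq_true, ← is_tb_eq, ← is_tb_eq] at hdec
        rcases hdec with hti | hto
        · exact absurd ⟨h3, h4, h5, Or.inr rfl⟩ (hno1 _ h2 hti)
        · have h8 := (hS.2 _ hto).2
          have hI3 := (is_trip h hab hbd hde).mpr hcol
          have h9 : g e ∉ N.closure {g a, g b, g d} := by
            intro hmem
            refine h8 (N.closure_subset_closure ?_ hmem)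
            intro y hy
            simp only [Set.mem_insert_iff, Set.mem_singleton_iff] at hy
            rcases hy with rfl | rfl | rfl
            · exact ⟨a, h3, rfl⟩
            · exact ⟨b, h4, rfl⟩
            · exact ⟨d, h5, rfl⟩
          rw [hI3.notMem_closure_iff (is_mem h le_rfl)] at h9
          refine h9.1.subset ?_
          intro y hy
          simp only [Set.mem_insert_iff, Set.mem_singleton_iff] at hy ⊢
          tauto

theorem chkI_sound (h : Ctx N g n c nl nP T PM) (hS : St N g n nP PM I O) {j Y : ℕ}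
    (hc : chkI codes n nl nP PM I O c.2.1 j Y = true) : ∃ d ∈ codes, ∃ g', GCode N g' d := by
  unfold chkI at hc
  revert hc
  cases hj : codes[j]? with
  | none => intro hc; exact absurd hc (by simp)
  | some d =>
    intro hc
    simp only [Bool.and_eq_true, Nat.beq_eq, List.all_eq_true, List.mem_range, Nat.blt_eq,
      Bool.not_eq_true'] at hc
    obtain ⟨⟨⟨hd1, hIO⟩, hY⟩, hsame⟩ := hc
    have hdc : d ∈ codes := List.mem_of_getElem? hj
    have hYlt : ∀ i, i < n + 1 → dg Y i < n + 1 := fun i hi => (hY i hi).1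
    have hYinj : ∀ i k, i < n + 1 → k < n + 1 → dg Y i = dg Y k → i = k := by
      intro i k hi hk he
      rcases lt_trichotomy i k with h1 | h1 | h1
      · have h2 := (hY k hk).2 i h1
        rw [he, Nat.beq_refl] at h2
        exact absurd h2 (by simp)
      · exact h1
      · have h2 := (hY i hi).2 k h1
        rw [he, Nat.beq_refl] at h2
        exact absurd h2 (by simp)
    have hsurj : ∀ x, x < n + 1 → ∃ i, i < n + 1 ∧ dg Y i = x := by
      intro x hx
      have himg : (Finset.range (n + 1)).image (dg Y) = Finset.range (n + 1) := by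
        apply Finset.eq_of_subset_of_card_le
        · intro y hy
          rw [Finset.mem_image] at hy
          obtain ⟨i, hi, rfl⟩ := hy
          rw [Finset.mem_range] at hi ⊢
          exact hYlt i hi
        · rw [Finset.card_image_of_injOn]
          intro i hi k hk he
          rw [Finset.coe_range, Set.mem_Iio] at hi hk
          exact hYinj i k hi hk he
      have : x ∈ (Finset.range (n + 1)).image (dg Y) := by
        rw [himg, Finset.mem_range]
        exact hx
      rw [Finset.mem_image] at this
      obtain ⟨i, hi, he⟩ := this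
      exact ⟨i, Finset.mem_range.mp hi, he⟩
    choose! τ hτ using hsurj
    have hτ' : ∀ i, i < n + 1 → τ (dg Y i) = i := fun i hi =>
      hYinj _ _ (hτ _ (hYlt i hi)).1 hi (hτ _ (hYlt i hi)).2
    have hτinj : ∀ x y, x < n + 1 → y < n + 1 → x ≠ y → τ x ≠ τ y := by
      intro x y hx hy hxy he
      apply hxy
      rw [← (hτ x hx).2, ← (hτ y hy).2, he]
    refine ⟨d, hdc, fun x => g (τ x), ?_, ?_, h.simp, h.rank, ?_⟩
    · intro x hx y hy he
      rw [Set.mem_ofPred_eq, hd1] at hx hy
      by_contra hxy
      exact hτinj x y hx hy hxy (h.inj (show τ x ∈ {i | i < n + 1} from (hτ x hx).1)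
        (show τ y ∈ {i | i < n + 1} from (hτ y hy).1) he)
    · rw [h.ground]
      ext z
      simp only [Set.mem_image, Set.mem_ofPred_eq, hd1]
      constructor
      · rintro ⟨i, hi, rfl⟩
        exact ⟨dg Y i, hYlt i hi, by rw [hτ' i hi]⟩
      · rintro ⟨x, hx, rfl⟩
        exact ⟨τ x, (hτ x hx).1, rfl⟩
    · intro i k l m hik hkl hlm hm
      rw [hd1] at hm
      have hQ : ∀ a b c' e, a < n + 1 → b < n + 1 → c' < n + 1 → e < n + 1 → a ≠ b → a ≠ c' →
          a ≠ e → b ≠ c' → b ≠ e → c' ≠ e →
          (N.Indep {g a, g b, g c', g e} ↔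
            ¬ ∃ m ∈ newP n nl nP PM I c.2.1, tb m a = true ∧ tb m b = true ∧ tb m c' = true ∧
              tb m e = true) := by
        refine is_sort4 _ (n + 1) ?_ ?_ ?_ ?_
        · intro a b c' e h1
          rw [is_set12, h1]
          simp only [and_left_comm]
        · intro a b c' e h1
          rw [is_set23, h1]
          simp only [and_left_comm]
        · intro a b c' e h1
          rw [is_set34, h1]
          simp only [and_comm, and_left_comm]
        · intro a b c' e h1 h2 h3 h4
          exact is_key h hS hIO h1 h2 h3 (Nat.lt_succ_iff.mp h4)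
      rw [hQ (τ i) (τ k) (τ l) (τ m) (hτ i (by omega)).1 (hτ k (by omega)).1 (hτ l (by omega)).1
        (hτ m (by omega)).1 (hτinj _ _ (by omega) (by omega) (by omega))
        (hτinj _ _ (by omega) (by omega) (by omega)) (hτinj _ _ (by omega) (by omega) (by omega))
        (hτinj _ _ (by omega) (by omega) (by omega)) (hτinj _ _ (by omega) (by omega) (by omega))
        (hτinj _ _ (by omega) (by omega) (by omega)), ← Bool.not_eq_true, is_copC_true, not_iff_not]
      have hbit : ∀ m0 x, x < n + 1 → (tb (img n Y m0) x = true ↔ tb m0 (τ x) = true) := by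
        intro m0 x hx
        rw [is_tb_img]
        constructor
        · rintro ⟨i, hi, h1, rfl⟩
          rwa [hτ' i hi]
        · intro h1
          exact ⟨τ x, (hτ x hx).1, h1, (hτ x hx).2⟩
      constructor
      · rintro ⟨m0, hm0, h1, h2, h3, h4⟩
        refine ⟨img n Y m0, ?_, ?_, ?_, ?_, ?_⟩
        · rw [← is_sameList hsame, List.mem_map]
          exact ⟨m0, hm0, rfl⟩
        · rw [hbit _ _ (by omega)]; exact h1
        · rw [hbit _ _ (by omega)]; exact h2
        · rw [hbit _ _ (by omega)]; exact h3
        · rw [hbit _ _ (by omega)]; exact h4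
      · rintro ⟨p, hp, h1, h2, h3, h4⟩
        rw [← is_sameList hsame, List.mem_map] at hp
        obtain ⟨m0, hm0, rfl⟩ := hp
        rw [hbit _ _ (by omega)] at h1 h2 h3 h4
        exact ⟨m0, hm0, h1, h2, h3, h4⟩

end Ca3.C4
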