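import Pool.Agent.Lib.MP_ca3eb1_co.C4.Data

/-! # Kernel computations with the data, part KerA (helper21) -/

namespace Ca3.C4

set_option maxRecDepth 100000

theorem codes_ok0 : ((codes.drop 0).take 60).all codeOk = true := by decide +kernel

theorem codes_ok1 : ((codes.drop 60).take 50).all codeOk = true := by decide +kernel

theorem codes_ok2 : ((codes.drop 110).take 40).all codeOk = true := by decide +kernel

end Ca3.C4
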