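import Pool.Agent.Lib.MP_ca3eb1_co.C4.ExcludedIff
import Pool.Agent.Lib.MP_ca3eb1_co.BridgeQ
import Pool.Agent.Lib.MP_ca3eb1_co.Her3
import Pool.Agent.Lib.MP_ca3eb1_co.C3

/-! # Row 52: corank at most two -/

namespace Ca3.C4

open Matroid

variable {α : Type*}

private theorem r2_card_K [Fintype (GaloisField 2 2)] : Fintype.card (GaloisField 2 2) = 4 := by
  rw [Fintype.card_eq_nat_card, GaloisField.card 2 2 (by norm_num)]
  norm_num

section pts

variable {K : Type*} [Field K]

/-- the points of the projective line -/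
private def r2pt : Option K → (Fin 2 → K)
  | none => ![0, 1]
  | some a => ![1, a]

private theorem r2pt_ne (x : Option K) : r2pt x ≠ 0 := by
  intro h
  cases x with
  | none =>
    have := congrFun h 1
    simp [r2pt] at this
  | some a =>
    have := congrFun h 0
    simp [r2pt] at this

private theorem r2pt_inj {x y : Option K} (h : r2pt x ∈ Submodule.span K {r2pt y}) : x = y := by
  rw [Submodule.mem_span_singleton] at h
  obtain ⟨c, hc⟩ := h
  have h0 := congrFun hc 0
  have h1 := congrFun hc 1
  cases x with
  | none =>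
    cases y with
    | none => rfl
    | some b =>
      simp [r2pt] at h0 h1
      rw [h0] at h1
      simp at h1
  | some a =>
    cases y with
    | none =>
      simp [r2pt] at h0
    | some b =>
      simp [r2pt] at h0 h1
      rw [h0, one_mul] at h1
      rw [h1]

end pts

private theorem r2_ind_pair {K V E : Type*} [Field K] [AddCommGroup V] [Module K V]
    [FiniteDimensional K V] [DecidableEq E] {w : E → V} {e f : E} (hef : e ≠ f) :
    Ind K w {e, f} ↔ w e ≠ 0 ∧ w f ≠ 0 ∧ w e ∉ Submodule.span K {w f} := by
  constructor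
  · intro h
    have he : Ind K w {e} := h.subset (by simp)
    have hf : Ind K w {f} := h.subset (by simp)
    refine ⟨ind_singleton_iff.1 he, ind_singleton_iff.1 hf, ?_⟩
    rw [← sp_singleton]
    have := h.not_mem_sp_erase (Finset.mem_insert_self e {f})
    rwa [Finset.erase_insert (by simpa using hef)] at this
  · rintro ⟨he, hf, h⟩
    rw [← sp_singleton] at h
    exact (ind_singleton_iff.2 hf).insert h

private theorem r2_isRepr {M : Matroid α} [M.Finite] (h2 : M✶.eRank ≤ 2)
    (h5 : ∀ S, S ⊆ M.E → (∀ x ∈ S, ∀ y ∈ S, x ≠ y → M✶.Indep {x, y}) → S.encard ≤ 5) :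
    IsRepr (GaloisField 2 2) M := by
  classical
  have : Fintype (GaloisField 2 2) := Fintype.ofFinite _
  set N := M✶ with hN
  set C : Set (Set α) := (fun e => N.closure {e}) '' {e | N.IsNonloop e} with hC
  obtain ⟨S, hS, hbij⟩ := Set.exists_subset_bijOn {e | N.IsNonloop e} (fun e => N.closure {e})
  have hSE : S ⊆ M.E := fun e he => (hS he).mem_ground
  have hS5 : S.encard ≤ 5 := by
    apply h5 S hSE
    intro x hx y hy hxy
    by_contra hd
    exact hxy (hbij.injOn hx hy (((hS hx).closure_eq_closure_iff_eq_or_dep (hS hy)).2 (Or.inr hd)))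
  have hC5 : C.encard ≤ (Set.univ : Set (Option (GaloisField 2 2))).encard := by
    have h1 : C.encard = S.encard := by
      rw [hC, ← hbij.image_eq, hbij.injOn.encard_image]
    have h3 : (Set.univ : Set (Option (GaloisField 2 2))).encard = 5 := by
      rw [Set.encard_univ, ENat.card_eq_coe_fintype_card, Fintype.card_option, r2_card_K]
      norm_num
    rw [h1, h3]
    exact hS5
  have hCfin : C.Finite := by
    apply Set.finite_of_encard_le_coe (k := 5)
    refine hC5.trans (le_of_eq ?_)
    rw [Set.encard_univ, ENat.card_eq_coe_fintype_card, Fintype.card_option, r2_card_K]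
  obtain ⟨φ, -, hφ⟩ := hCfin.exists_injOn_of_encard_le hC5
  have : Fintype M.E := M.ground_finite.fintype
  let w : M.E → (Fin 2 → GaloisField 2 2) := fun e =>
    if N.IsNonloop (e : α) then r2pt (φ (N.closure {(e : α)})) else 0
  have hw1 : ∀ e : M.E, N.IsNonloop (e : α) → w e = r2pt (φ (N.closure {(e : α)})) := fun e he =>
    if_pos he
  have hw0 : ∀ e : M.E, w e ≠ 0 ↔ N.IsNonloop (e : α) := by
    intro e
    constructor
    · intro h
      by_contra hn
      exact h (if_neg hn)
    · intro h
      rw [hw1 e h]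
      exact r2pt_ne _
  apply RepDual.isRepr (w := w)
  intro I
  rcases le_or_gt I.card 2 with hI | hI
  · rcases Nat.lt_or_ge I.card 1 with hI1 | hI1
    · have : I = ∅ := Finset.card_eq_zero.1 (by omega)
      subst this
      simp
    · rcases Nat.lt_or_ge I.card 2 with hI3 | hI3
      · obtain ⟨e, rfl⟩ := Finset.card_eq_one.1 (show I.card = 1 by omega)
        rw [ind_singleton_iff, hw0, Finset.coe_singleton, Set.image_singleton, indep_singleton]
      · obtain ⟨e, f, hef, rfl⟩ := Finset.card_eq_two.1 (show I.card = 2 by omega)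
        have hne : (e : α) ≠ f := fun h => hef (Subtype.ext h)
        have h3 : (Subtype.val '' (({e, f} : Finset M.E) : Set M.E)) = {(e : α), (f : α)} := by
          ext x; simp [eq_comm]
        rw [h3, r2_ind_pair hef, hw0, hw0]
        constructor
        · intro h
          have he : N.IsNonloop (e : α) := indep_singleton.1 (h.subset (by simp))
          have hf : N.IsNonloop (f : α) := indep_singleton.1 (h.subset (by simp))
          refine ⟨he, hf, fun hs => ?_⟩
          rw [hw1 e he, hw1 f hf] at hs
          have h4 := hφ ⟨_, he, rfl⟩ ⟨_, hf, rfl⟩ (r2pt_inj hs)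
          rcases (he.closure_eq_closure_iff_eq_or_dep hf).1 h4 with h5 | h5
          · exact hne h5
          · exact h5 h
        · rintro ⟨he, hf, h⟩
          by_contra hd
          have h4 := (he.closure_eq_closure_iff_eq_or_dep hf).2 (Or.inr hd)
          apply h
          rw [hw1 e he, hw1 f hf, h4]
          exact Submodule.mem_span_singleton_self _
  · constructor
    · intro h
      have h1 := h.encard_le_eRank
      rw [Set.InjOn.encard_image Subtype.val_injective.injOn,
        Set.encard_coe_eq_coe_finsetCard] at h1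
      have h3 : (I.card : ℕ∞) ≤ 2 := h1.trans h2
      have h4 : I.card ≤ 2 := by exact_mod_cast h3
      omega
    · intro h
      have h1 : rk (GaloisField 2 2) w I ≤ 2 := by
        have := Submodule.finrank_le (sp (GaloisField 2 2) w I)
        rwa [Module.finrank_fin_fun] at this
      unfold Ind at h
      omega

private theorem r2_eRank_contract_le {N : Matroid α} (e : α) : (N ／ {e}).eRank ≤ N.eRank := by
  obtain ⟨B, hB⟩ := (N ／ {e}).exists_isBase
  rw [← hB.encard_eq_eRank]
  exact (hB.indep.of_contract).encard_le_eRank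

private theorem r2_isTransversal {K : Type*} [Field K] {M : Matroid α} [M.Finite]
    (h2 : M✶.eRank ≤ 2) (hr : IsRepr K M) : IsTransversal M := by
  classical
  obtain ⟨n, hn⟩ : ∃ n, M.E.ncard = n := ⟨_, rfl⟩
  induction n using Nat.strong_induction_on generalizing M with
  | _ n ih =>
    subst hn
    by_cases hg : ∃ g, M.IsColoop g
    · obtain ⟨g, hg⟩ := hg
      have hlt : (M ＼ {g}).E.ncard < M.E.ncard := by
        rw [delete_ground]
        exact Set.ncard_lt_ncard ⟨Set.sdiff_subset, fun h => (h hg.mem_ground).2 rfl⟩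
          M.ground_finite
      apply isTransversal_of_delete_coloop hg
      refine ih _ hlt ?_ (hr.delete {g}) rfl
      rw [dual_delete]
      exact (r2_eRank_contract_le g).trans h2
    · have hg : ∀ g, ¬ M.IsColoop g := fun g h => hg ⟨g, h⟩
      obtain ⟨n, w, hw⟩ := hr.exists_repDual
      have : Fintype M.E := M.ground_finite.fintype
      have h0 : ∀ x, w x ≠ 0 := fun x hx => hg x (hw.isColoop_iff.2 hx)
      by_cases hp : ∃ e f : M.E, e ≠ f ∧ w e ∈ Submodule.span K {w f}
      · obtain ⟨e, f, hef, hs⟩ := hp
        have hc := (hw.isCocircuit_pair_iff hef (h0 e) (h0 f)).2 hs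
        have hne : (e : α) ≠ f := fun h => hef (Subtype.ext h)
        have hlt : (M ／ {(e : α)}).E.ncard < M.E.ncard := by
          rw [contract_ground]
          exact Set.ncard_lt_ncard ⟨Set.sdiff_subset, fun h => (h e.2).2 rfl⟩
            M.ground_finite
        apply isTransversal_of_contract_series hne hc
        refine ih _ hlt ?_ (hr.contract {(e : α)}) rfl
        rw [dual_contract]
        refine le_trans ?_ h2
        obtain ⟨B, hB⟩ := (M✶ ＼ {(e : α)}).exists_isBase
        rw [← hB.encard_eq_eRank]
        exact (delete_indep_iff.1 hB.indep).1.encard_le_eRank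
      · have hsimple : Simple K w := ⟨h0, fun e f hs => by
          by_contra hef
          exact hp ⟨e, f, hef, hs⟩⟩
        have hrk : rk K w Finset.univ ≤ 2 := by
          have := hw.eRank_eq
          rw [this] at h2
          exact_mod_cast h2
        have hs := SG_of_rk_le_two hsimple hrk
        exact hw.transversal_iff.2 (hasTrans_of_SG hsimple.isFl_empty (by simp) hs)

theorem classQ_of_corank_le_two {M : Matroid α} [M.Finite] (h2 : M✶.eRank ≤ 2)
    (h5 : ∀ S, S ⊆ M.E → (∀ x ∈ S, ∀ y ∈ S, x ≠ y → M✶.Indep {x, y}) → S.encard ≤ 5) :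
    ClassQ M :=
  ⟨r2_isRepr h2 h5, r2_isTransversal h2 (r2_isRepr h2 h5)⟩

theorem le_five_of_classQ {M : Matroid α} [M.Finite] (h2 : M✶.eRank ≤ 2) (hQ : ClassQ M)
    {S : Set α} (hS : S ⊆ M.E) (h : ∀ x ∈ S, ∀ y ∈ S, x ≠ y → M✶.Indep {x, y}) :
    S.encard ≤ 5 := by
  classical
  have : Fintype (GaloisField 2 2) := Fintype.ofFinite _
  obtain ⟨n, w, hw⟩ := hQ.1.exists_repDual
  have hSfin : S.Finite := M.ground_finite.subset hS
  have : Fintype M.E := M.ground_finite.fintype
  rcases Set.subsingleton_or_nontrivial S with hs | hs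
  · exact (Set.encard_le_one_iff_subsingleton.2 hs).trans (by norm_num)
  have : Fintype S := hSfin.fintype
  let v : S → (Fin n → GaloisField 2 2) := fun x => w ⟨x, hS x.2⟩
  have hpair : ∀ x y : S, x ≠ y → Ind (GaloisField 2 2) w {⟨x, hS x.2⟩, ⟨y, hS y.2⟩} := by
    intro x y hxy
    rw [← hw]
    have h3 : (Subtype.val '' (({⟨x, hS x.2⟩, ⟨y, hS y.2⟩} : Finset M.E) : Set M.E)) =
        {(x : α), (y : α)} := by
      ext z; simp [eq_comm]
    rw [h3]
    exact h x x.2 y y.2 (fun h => hxy (Subtype.ext h))
  have hne : ∀ x y : S, x ≠ y → (⟨x, hS x.2⟩ : M.E) ≠ ⟨y, hS y.2⟩ := by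
    intro x y hxy h
    exact hxy (Subtype.ext (Subtype.mk.injEq _ _ _ _ ▸ h : (x : α) = y))
  have hsimple : Simple (GaloisField 2 2) v := by
    constructor
    · intro x
      obtain ⟨y, hy, hyx⟩ := hs.exists_ne (x : α)
      have hxy : x ≠ ⟨y, hy⟩ := fun h => hyx (congrArg Subtype.val h).symm
      exact ((r2_ind_pair (hne _ _ hxy)).1 (hpair _ _ hxy)).1
    · intro x y hxy
      by_contra hn
      exact ((r2_ind_pair (hne _ _ hn)).1 (hpair _ _ hn)).2.2 hxy
  have hrk : rk (GaloisField 2 2) v Finset.univ ≤ 2 := by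
    let ι : S ↪ M.E := ⟨fun x => ⟨x, hS x.2⟩, fun x y hxy => by
      by_contra hn
      exact hne x y hn hxy⟩
    have h1 := rk_comp_emb (K := GaloisField 2 2) w ι Finset.univ
    have h3 : rk (GaloisField 2 2) w (Finset.univ.map ι) ≤
        rk (GaloisField 2 2) w Finset.univ := rk_mono (Finset.subset_univ _)
    have h4 := hw.eRank_eq
    rw [h4] at h2
    have h5 : rk (GaloisField 2 2) w Finset.univ ≤ 2 := by exact_mod_cast h2
    have h6 : rk (GaloisField 2 2) v Finset.univ =
        rk (GaloisField 2 2) w (Finset.univ.map ι) := h1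
    omega
  have hcard := line_card_le r2_card_K hsimple hrk
  rw [Finset.card_univ] at hcard
  rw [← Set.coe_fintypeCard]
  exact_mod_cast hcard

theorem corank2_eRank {M : Matroid α} [M.Finite] (h : Corank2 M) : M✶.eRank = 2 := by
  obtain ⟨B, hB⟩ := M.exists_isBase
  have hBfin : B.Finite := M.set_finite B hB.subset_ground
  have h1 := (h.2 B hB.subset_ground).1 hB.indep
  rw [← hB.encard_compl_eq]
  have hEfin := M.ground_finite
  have h3 : (M.E \ B).encard + B.encard = M.E.encard :=
    Set.encard_sdiff_add_encard_of_subset hB.subset_ground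
  have hDfin : (M.E \ B).Finite := hEfin.subset Set.sdiff_subset
  rw [← h3] at h1
  obtain ⟨b, hb⟩ : ∃ b : ℕ, B.encard = b := ⟨B.ncard, hBfin.cast_ncard_eq.symm⟩
  obtain ⟨d, hd⟩ : ∃ d : ℕ, (M.E \ B).encard = d := ⟨_, hDfin.cast_ncard_eq.symm⟩
  rw [hb, hd] at h1
  have h4 : b + 2 ≤ d + b := by exact_mod_cast h1
  have h5 : ¬ 3 ≤ d := by
    intro h5
    have hne : (M.E \ B).Nonempty := by
      rw [← Set.encard_pos, hd]
      exact_mod_cast (by omega : 0 < d)
    obtain ⟨x, hx⟩ := hne
    have h6 : M.Indep (insert x B) := by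
      rw [h.2 _ (Set.insert_subset hx.1 hB.subset_ground), Set.encard_insert_of_notMem hx.2, hb,
        ← h3, hb, hd]
      exact_mod_cast (by omega : b + 1 + 2 ≤ d + b)
    exact hx.2 (by
      rw [hB.eq_of_subset_indep h6 (Set.subset_insert _ _)]
      exact Set.mem_insert _ _)
  rw [hd]
  have : d = 2 := by omega
  rw [this]
  norm_num

private theorem r2_indep {M : Matroid α} [M.Finite] (hr : M✶.eRank = 2) (hs : Simp M✶)
    (I : Set α) (hI : I ⊆ M.E) :
    M.Indep I ↔ I.encard + 2 ≤ M.E.encard := by
  have h1 := M✶.dual_indep_iff_exists' (I := I)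
  rw [dual_dual] at h1
  rw [h1]
  have hIfin : I.Finite := M.set_finite I hI
  have hEfin := M.ground_finite
  have h3 : (M.E \ I).encard + I.encard = M.E.encard := Set.encard_sdiff_add_encard_of_subset hI
  constructor
  · rintro ⟨-, B, hB, hd⟩
    have hB2 := hB.encard_eq_eRank
    rw [hr] at hB2
    have hBs : B ⊆ M.E \ I := fun x hx => ⟨hB.subset_ground hx, fun hxI =>
      Set.disjoint_left.1 hd hxI hx⟩
    have h4 := Set.encard_le_encard hBs
    rw [hB2] at h4
    rw [← h3, add_comm]
    gcongr
  · intro h
    refine ⟨hI, ?_⟩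
    rw [← h3, add_comm] at h
    have h4 : 2 ≤ (M.E \ I).encard := by
      have hne : I.encard ≠ ⊤ := by simpa using hIfin
      exact (WithTop.add_le_add_iff_right hne).1 h
    obtain ⟨B, hBs, hB2⟩ := Set.exists_subset_encard_eq h4
    obtain ⟨x, y, hxy, rfl⟩ := Set.encard_eq_two.1 hB2
    have hx := hBs (Set.mem_insert x _)
    have hy := hBs (Set.mem_insert_of_mem x (Set.mem_singleton y))
    have hind : M✶.Indep {x, y} := hs x hx.1 y hy.1
    refine ⟨{x, y}, ?_, ?_⟩
    · refine hind.isBase_of_eRk_ge (by simp) ?_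
      rw [hr, hind.eRk_eq_encard, hB2]
    · rw [Set.disjoint_left]
      intro z hz hz2
      exact (hBs hz2).2 hz

theorem corank_le_two_iff {M : Matroid α} [M.Finite] (h2 : M✶.eRank ≤ 2) :
    IsExcluded M ↔ Corank2 M := by
  rw [isExcluded_iff]
  constructor
  · rintro ⟨hs, hQ, -⟩
    have h6 : 6 ≤ M.E.encard := by
      by_contra hlt
      apply hQ
      apply classQ_of_corank_le_two h2
      intro S hS _
      have h3 := Set.encard_le_encard hS
      have h4 : M.E.encard < 6 := lt_of_not_ge hlt
      obtain ⟨m, hm⟩ : ∃ m : ℕ, M.E.encard = m := ⟨_, M.ground_finite.cast_ncard_eq.symm⟩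
      rw [hm] at h3 h4
      have h5 : m < 6 := by exact_mod_cast h4
      exact h3.trans (by exact_mod_cast (by omega : m ≤ 5))
    have h26 : (2 : ℕ∞) ≤ M.E.encard := le_trans (by norm_num) h6
    have hr : M✶.eRank = 2 := by
      apply le_antisymm h2
      obtain ⟨B, hBs, hB2⟩ := Set.exists_subset_encard_eq h26
      obtain ⟨x, y, hxy, rfl⟩ := Set.encard_eq_two.1 hB2
      rw [← hB2]
      exact (hs x (hBs (by simp)) y (hBs (by simp))).encard_le_eRank
    exact ⟨h6, fun I hI => r2_indep hr hs I hI⟩
  · intro h
    have hr := corank2_eRank h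
    have hind : ∀ x ∈ M.E, ∀ y ∈ M.E, M✶.Indep {x, y} := by
      intro x hx y hy
      obtain ⟨m, hm⟩ : ∃ m : ℕ, M.E.encard = m := ⟨_, M.ground_finite.cast_ncard_eq.symm⟩
      have hm6 : 6 ≤ m := by
        have := h.1
        rw [hm] at this
        exact_mod_cast this
      have hxyE : {x, y} ⊆ M.E := Set.insert_subset hx (Set.singleton_subset_iff.2 hy)
      -- a pair of different elements
      have key : ∀ u ∈ M.E, ∀ v ∈ M.E, u ≠ v → M✶.Indep {u, v} := by
        intro u hu v hv huv
        have huvE : {u, v} ⊆ M.E := Set.insert_subset hu (Set.singleton_subset_iff.2 hv)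
        have h3 : (M.E \ {u, v}).encard + ({u, v} : Set α).encard = M.E.encard :=
          Set.encard_sdiff_add_encard_of_subset huvE
        rw [Set.encard_pair huv] at h3
        have h4 : M.Indep (M.E \ {u, v}) := (h.2 _ Set.sdiff_subset).2 h3.le
        obtain ⟨B, hB, hBs⟩ := h4.exists_isBase_superset
        rw [dual_indep_iff_exists']
        refine ⟨huvE, B, hB, ?_⟩
        have h5 := (h.2 B hB.subset_ground).1 hB.indep
        have hBfin : B.Finite := M.set_finite B hB.subset_ground
        have h6 : M.E \ {u, v} = B := by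
          have hEfin := M.ground_finite
          apply Set.Finite.eq_of_subset_of_encard_le (hEfin.subset Set.sdiff_subset) hBs
          rw [← h3] at h5
          have hne : (2 : ℕ∞) ≠ ⊤ := by norm_num
          exact (WithTop.add_le_add_iff_right hne).1 h5
        rw [← h6]
        exact Set.disjoint_sdiff_right
      by_cases hxy : x = y
      · subst hxy
        have h1 : (1 : ℕ∞) < M.E.encard := by
          rw [hm]
          exact_mod_cast (by omega : 1 < m)
        obtain ⟨z, hz, hzx⟩ := (Set.one_lt_encard_iff_nontrivial.1 h1).exists_ne x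
        exact (key x hx z hz (Ne.symm hzx)).subset (by simp)
      · exact key x hx y hy hxy
    refine ⟨fun e he f hf => hind e he f hf, ?_, ?_⟩
    · intro hQ
      have h5 := le_five_of_classQ h2 hQ (Set.Subset.refl M.E) (fun x hx y hy _ => hind x hx y hy)
      have h6 := h.1.trans h5
      exact absurd h6 (by norm_num)
    · intro e he
      have h1 : (M ＼ {e})✶.eRank ≤ 1 := by
        rw [dual_delete]
        obtain ⟨B, hB⟩ := (M✶ ／ {e}).exists_isBase
        have hnl : M✶.IsNonloop e := by
          have := hind e he e he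
          rw [Set.pair_eq_singleton, indep_singleton] at this
          exact this
        have h4 := hnl.contractElem_indep_iff.1 hB.indep
        have h5 := h4.2.encard_le_eRank
        rw [hr, Set.encard_insert_of_notMem h4.1] at h5
        rw [← hB.encard_eq_eRank]
        have hne : (1 : ℕ∞) ≠ ⊤ := by norm_num
        have h6 : B.encard + 1 ≤ 1 + 1 := by
          refine h5.trans ?_
          norm_num
        exact (WithTop.add_le_add_iff_right hne).1 h6
      apply classQ_of_corank_le_two (h1.trans (by norm_num))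
      intro S hS hp
      rcases Set.subsingleton_or_nontrivial S with hs | hs
      · exact (Set.encard_le_one_iff_subsingleton.2 hs).trans (by norm_num)
      · obtain ⟨x, hx, y, hy, hxy⟩ := hs
        have h4 := (hp x hx y hy hxy).encard_le_eRank
        rw [Set.encard_pair hxy] at h4
        exact absurd (h4.trans h1) (by norm_num)

end Ca3.C4
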