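import Pool.Agent.Lib.MP_ca3eb1_co.C4.IsoSound

/-! # Row 58: soundness of the certificate machine in rank four -/

namespace Ca3.C4

open Matroid

variable {α : Type*} {N : Matroid α} {g : ℕ → α} {n : ℕ} {c : Code} {nl nP T PM : ℕ}

private theorem rs_tb (m i : ℕ) : tb m i = m.testBit i := by
  unfold tb
  rw [Nat.testBit_eq_decide_div_mod_eq, Nat.shiftRight_eq_div_pow, Nat.and_one_is_mod]
  by_cases h : m / 2 ^ i % 2 = 1
  · simp [h]
  · have h2 : Nat.beq (m / 2 ^ i % 2) 1 = false := by
      rw [Bool.eq_false_iff]
      intro h3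
      exact h (Nat.eq_of_beq_eq_true h3)
    rw [h2]
    simp [h]

private theorem rs_tb_or (m s i : ℕ) : tb (m ||| (1 <<< s)) i = true ↔ tb m i = true ∨ i = s := by
  rw [rs_tb, rs_tb, Nat.testBit_or, Nat.one_shiftLeft, Nat.testBit_two_pow, Bool.or_eq_true,
    decide_eq_true_iff]
  exact or_congr_right eq_comm

private theorem rs_pat {t : ℕ} (ht : 5 ≤ t) : pat t = pat 4 := by
  obtain ⟨k, rfl⟩ := Nat.exists_eq_add_of_le ht
  rw [Nat.add_comm]
  rfl

private theorem rs_chkF {N : Matroid α} {g : ℕ → α} {n : ℕ} {c : Code} {nl nP T PM I O : ℕ}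
    (h : Ctx N g n c nl nP T PM) (hS : St N g n nP PM I O) {t x Y : ℕ}
    (hc : chkF n T PM I O t x Y = true) : False := by
  rcases Nat.lt_or_ge t 5 with ht | ht
  · exact chkF_sound h hS ht hc
  · refine chkF_sound h hS (t := 4) (by norm_num) (x := x) (Y := Y) ?_
    unfold chkF patT at hc ⊢
    rw [rs_pat ht] at hc
    exact hc

theorem run_sound (h : Ctx N g n c nl nP T PM) :
    ∀ (f C I O x : ℕ), St N g n nP PM I O → run codes n nl nP T PM c.2.1 f C I O = some x →
      ∃ d ∈ codes, ∃ g', GCode N g' d := by
  intro f
  induction f with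
  | zero => intro C I O x _ hr; simp [run] at hr
  | succ f ih =>
    intro C I O x hS hr
    unfold run at hr
    simp only at hr
    generalize hs1 : (C >>> 7) &&& 127 = s1 at hr
    generalize hs2 : (C >>> 14) &&& 127 = s2 at hr
    split at hr
    · -- split on plane s1
      cases hlt : Nat.blt s1 nP with
      | false => rw [hlt] at hr; simp at hr
      | true =>
        rw [hlt] at hr
        simp only [cond_true] at hr
        have hlt' : s1 < nP := by
          have := Nat.le_of_ble_eq_true hlt
          exact this
        by_cases hin : g n ∈ plane N g PM s1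
        · cases h1 : run codes n nl nP T PM c.2.1 f (C >>> 14) (I ||| (1 <<< s1)) O with
          | none => rw [h1] at hr; simp at hr
          | some C' =>
            refine ih _ _ _ _ ⟨fun i hi => ?_, hS.2⟩ h1
            rcases (rs_tb_or _ _ _).1 hi with hi | rfl
            · exact hS.1 i hi
            · exact ⟨hlt', hin⟩
        · cases h1 : run codes n nl nP T PM c.2.1 f (C >>> 14) (I ||| (1 <<< s1)) O with
          | none => rw [h1] at hr; simp at hr
          | some C' =>
            rw [h1] at hr
            simp only at hr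
            refine ih _ _ _ _ ⟨hS.1, fun i hi => ?_⟩ hr
            rcases (rs_tb_or _ _ _).1 hi with hi | rfl
            · exact hS.2 i hi
            · exact ⟨hlt', hin⟩
    · cases hc : chkM PM I O s1 s2 ((C >>> 21) &&& 127) ((C >>> 28) &&& 127)
          ((C >>> 35) &&& 127) with
      | false => rw [hc] at hr; simp at hr
      | true => exact (chkM_sound h hS hc).elim
    · cases hc : chkD n T PM I O s1 s2 (take 6 (C >>> 21)).1 with
      | false => rw [hc] at hr; simp at hr
      | true => exact (chkD_sound h hS hc).elim
    · cases hc : chkF n T PM I O s1 s2 (take (pat s1).1 (C >>> 21)).1 with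
      | false => rw [hc] at hr; simp at hr
      | true => exact (rs_chkF h hS hc).elim
    · cases hc : chkI codes n nl nP PM I O c.2.1 (s1 + 128 * s2) (take (n + 1) (C >>> 21)).1 with
      | false => rw [hc] at hr; simp at hr
      | true => exact chkI_sound h hS hc
    · simp at hr

end Ca3.C4
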